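import Mathlib

/-!
Reduced simplicial homology with coefficients in a field, for complexes given by predicates on
finite subsets of a finite linearly ordered type.
-/

namespace Pool.Agent.H677R3.Ab

open Finset

variable {ι : Type*} [Fintype ι] [LinearOrder ι] {k : Type*} [Field k]

/-- the sign `(-1)^#{l ∈ T | l < j}` -/
def sg (k : Type*) [Field k] (j : ι) (T : Finset ι) : k := (-1 : k) ^ (T.filter (· < j)).card

/-- boundary operator -/
def bd (a : Finset ι → k) (T : Finset ι) : k := ∑ j ∈ Tᶜ, sg k j T * a (insert j T)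

lemma sg_mul_self (j : ι) (T : Finset ι) : sg k j T * sg k j T = 1 := by
  unfold sg
  rw [← mul_pow]; simp

lemma sg_insert {j i : ι} {T : Finset ι} (hi : i ∉ T) :
    sg k j (insert i T) = sg k j T * (if i < j then -1 else 1) := by
  unfold sg
  rw [Finset.filter_insert]
  split_ifs with h
  · rw [Finset.card_insert_of_notMem (by simp [hi]), pow_succ]
  · simp

lemma sg_swap {i j : ι} {T : Finset ι} (hij : i ≠ j) (hi : i ∉ T) (hj : j ∉ T) :
    sg k j T * sg k i (insert j T) + sg k i T * sg k j (insert i T) = 0 := by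
  rw [sg_insert hj, sg_insert hi]
  rcases lt_or_gt_of_ne hij with h | h
  · rw [if_neg (not_lt.mpr h.le), if_pos h]; ring
  · rw [if_pos h, if_neg (not_lt.mpr h.le)]; ring

lemma bd_add (a b : Finset ι → k) (T : Finset ι) :
    bd (fun T => a T + b T) T = bd a T + bd b T := by
  unfold bd
  rw [← Finset.sum_add_distrib]
  exact Finset.sum_congr rfl fun j _ => by ring

lemma bd_sub (a b : Finset ι → k) (T : Finset ι) :
    bd (fun T => a T - b T) T = bd a T - bd b T := by
  unfold bd
  rw [← Finset.sum_sub_distrib]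
  exact Finset.sum_congr rfl fun j _ => by ring

lemma bd_neg (a : Finset ι → k) (T : Finset ι) :
    bd (fun T => - a T) T = - bd a T := by
  unfold bd
  rw [← Finset.sum_neg_distrib]
  exact Finset.sum_congr rfl fun j _ => by ring

lemma bd_zero (T : Finset ι) : bd (fun _ => (0 : k)) T = 0 := by
  unfold bd; simp

lemma bd_bd (a : Finset ι → k) (T : Finset ι) : bd (bd a) T = 0 := by
  unfold bd
  simp_rw [Finset.mul_sum]
  rw [Finset.sum_sigma']
  refine Finset.sum_involution (fun x _ => ⟨x.2, x.1⟩) ?_ ?_ ?_ ?_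
  · rintro ⟨j, i⟩ h
    simp only [Finset.mem_sigma, Finset.mem_compl, Finset.mem_insert, not_or] at h
    obtain ⟨hj, hij, hi⟩ := h
    have := sg_swap (k := k) hij hi hj
    simp only
    rw [Finset.insert_comm j i T, ← mul_assoc, ← mul_assoc, ← add_mul]
    rw [show sg k j T * sg k i (insert j T) + sg k i T * sg k j (insert i T) = 0 from this]
    simp
  · rintro ⟨j, i⟩ h _ heq
    simp only [Finset.mem_sigma, Finset.mem_compl, Finset.mem_insert, not_or] at h
    have : i = j := by
      have := congrArg Sigma.fst heq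
      simpa using this
    exact h.2.1 this
  · rintro ⟨j, i⟩ h
    simp only [Finset.mem_sigma, Finset.mem_compl, Finset.mem_insert, not_or] at h ⊢
    exact ⟨h.2.2, fun hh => h.2.1 hh.symm, h.1⟩
  · rintro ⟨j, i⟩ h
    rfl

/-- cone homotopy -/
def hv (v : ι) (a : Finset ι → k) (T : Finset ι) : k :=
  if v ∈ T then sg k v (T.erase v) * a (T.erase v) else 0

lemma homotopy (v : ι) (a : Finset ι → k) (T : Finset ι) :
    bd (hv v a) T + hv v (bd a) T = a T := by
  by_cases hv' : v ∈ T
  · have e1 : hv v (bd a) T = sg k v (T.erase v) * bd a (T.erase v) := by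
      unfold hv; rw [if_pos hv']
    have e2 : bd a (T.erase v) = sg k v (T.erase v) * a T +
        ∑ j ∈ Tᶜ, sg k j (T.erase v) * a (insert j (T.erase v)) := by
      unfold bd
      rw [show (T.erase v)ᶜ = insert v Tᶜ by rw [Finset.compl_erase]]
      rw [Finset.sum_insert (by simp [hv']), Finset.insert_erase hv']
    have e3 : bd (hv v a) T = ∑ j ∈ Tᶜ, sg k j T * (sg k v ((insert j T).erase v) * a ((insert j T).erase v)) := by
      unfold bd
      refine Finset.sum_congr rfl fun j hj => ?_
      unfold hv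
      rw [if_pos (by simp [hv'])]
    rw [e1, e2, e3, mul_add, ← mul_assoc, sg_mul_self, one_mul, Finset.mul_sum, add_comm, add_assoc,
      ← Finset.sum_add_distrib]
    have : ∑ j ∈ Tᶜ, (sg k v (T.erase v) * (sg k j (T.erase v) * a (insert j (T.erase v))) +
        sg k j T * (sg k v ((insert j T).erase v) * a ((insert j T).erase v))) = 0 := by
      refine Finset.sum_eq_zero fun j hj => ?_
      have hj' : j ∉ T := by simpa using hj
      have hjv : j ≠ v := fun h => hj' (h ▸ hv')
      have e4 : (insert j T).erase v = insert j (T.erase v) :=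
        Finset.erase_insert_of_ne hjv
      have hT : T = insert v (T.erase v) := (Finset.insert_erase hv').symm
      have h5 : j ∉ T.erase v := fun h => hj' (Finset.mem_of_mem_erase h)
      have h6 : v ∉ T.erase v := Finset.notMem_erase _ _
      have e5 : sg k j T = sg k j (insert v (T.erase v)) := by rw [← hT]
      rw [e4, e5]
      have e6 : sg k v (T.erase v) * (sg k j (T.erase v) * a (insert j (T.erase v))) +
          sg k j (insert v (T.erase v)) * (sg k v (insert j (T.erase v)) * a (insert j (T.erase v)))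
          = (sg k v (T.erase v) * sg k j (T.erase v) +
          sg k j (insert v (T.erase v)) * sg k v (insert j (T.erase v))) * a (insert j (T.erase v)) := by ring
      rw [e6]
      have e7 : sg k v (T.erase v) * sg k j (T.erase v) +
          sg k j (insert v (T.erase v)) * sg k v (insert j (T.erase v)) = 0 := by
        rw [sg_insert h6, sg_insert h5]
        rcases lt_or_gt_of_ne hjv with h | h
        · rw [if_neg (not_lt.mpr h.le), if_pos h]; ring
        · rw [if_pos h, if_neg (not_lt.mpr h.le)]; ring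
      rw [e7, zero_mul]
    rw [this, add_zero]
  · have e1 : hv v (bd a) T = 0 := by unfold hv; rw [if_neg hv']
    rw [e1, add_zero]
    unfold bd
    rw [Finset.sum_eq_single v]
    · unfold hv
      rw [if_pos (Finset.mem_insert_self _ _), Finset.erase_insert hv', ← mul_assoc, sg_mul_self, one_mul]
    · intro j hj hjv
      unfold hv
      rw [if_neg, mul_zero]
      simp only [Finset.mem_insert, not_or]
      exact ⟨fun h => hjv h.symm, hv'⟩
    · intro h; exact absurd (by simpa using hv') h

/-- support condition -/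
def Sup (X : Finset ι → Prop) (j : ℕ) (a : Finset ι → k) : Prop :=
  ∀ F, a F ≠ 0 → X F ∧ F.card = j

/-- vanishing of the reduced homology in dimension `j - 1` -/
def HV (k : Type*) [Field k] (X : Finset ι → Prop) (j : ℕ) : Prop :=
  ∀ a : Finset ι → k, Sup X j a → (∀ F, bd a F = 0) → ∃ c : Finset ι → k, Sup X (j + 1) c ∧ ∀ F, bd c F = a F

/-- down-closed families -/
def Down (X : Finset ι → Prop) : Prop := ∀ F j, X (insert j F) → X F

lemma Sup.bd {X : Finset ι → Prop} (hX : Down X) {j : ℕ} {a : Finset ι → k} (ha : Sup X (j + 1) a) :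
    Sup X j (bd a) := by
  intro F hF
  unfold Ab.bd at hF
  obtain ⟨v, hv, hv2⟩ := Finset.exists_ne_zero_of_sum_ne_zero hF
  have h1 : a (insert v F) ≠ 0 := fun h => hv2 (by rw [h, mul_zero])
  obtain ⟨h2, h3⟩ := ha _ h1
  rw [Finset.card_insert_of_notMem (by simpa using hv)] at h3
  exact ⟨hX _ _ h2, by omega⟩

lemma Sup.add {X : Finset ι → Prop} {j : ℕ} {a b : Finset ι → k} (ha : Sup X j a) (hb : Sup X j b) :
    Sup X j (fun F => a F + b F) := by
  intro F hF
  by_cases h : a F ≠ 0
  · exact ha F h
  · push Not at h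
    exact hb F (fun h' => hF (by beta_reduce; rw [h, h', add_zero]))

lemma Sup.sub {X : Finset ι → Prop} {j : ℕ} {a b : Finset ι → k} (ha : Sup X j a) (hb : Sup X j b) :
    Sup X j (fun F => a F - b F) := by
  intro F hF
  by_cases h : a F ≠ 0
  · exact ha F h
  · push Not at h
    exact hb F (fun h' => hF (by beta_reduce; rw [h, h', sub_zero]))

lemma HV.congr {X Y : Finset ι → Prop} (h : ∀ F, X F ↔ Y F) {j : ℕ} (hX : HV k X j) : HV k Y j := by
  have : X = Y := funext fun F => propext (h F)
  rw [← this]; exact hX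

/-- Mayer–Vietoris -/
lemma HV.union {X Y : Finset ι → Prop} (hX : Down X) (hY : Down Y) {j : ℕ}
    (h1 : HV k X (j + 1)) (h2 : HV k Y (j + 1)) (h3 : HV k (fun F => X F ∧ Y F) j) :
    HV k (fun F => X F ∨ Y F) (j + 1) := by
  classical
  intro a ha hcyc
  let aX : Finset ι → k := fun F => if X F then a F else 0
  let aY : Finset ι → k := fun F => if X F then 0 else a F
  have hsX : Sup X (j + 1) aX := by
    intro F hF
    simp only [aX] at hF
    split_ifs at hF with h
    · exact ⟨h, (ha F hF).2⟩
    · exact absurd rfl hF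
  have hsY : Sup Y (j + 1) aY := by
    intro F hF
    simp only [aY] at hF
    split_ifs at hF with h
    · exact absurd rfl hF
    · exact ⟨(ha F hF).1.resolve_left h, (ha F hF).2⟩
  have hsum : ∀ F, aX F + aY F = a F := by
    intro F; simp only [aX, aY]; split_ifs <;> simp
  have hbd : ∀ F, bd aX F = - bd aY F := by
    intro F
    have h := hcyc F
    have h4 : bd a F = bd aX F + bd aY F := by
      rw [← bd_add]
      congr 1
      funext F; exact (hsum F).symm
    rw [h4] at h
    exact eq_neg_of_add_eq_zero_left h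
  have hs : Sup (fun F => X F ∧ Y F) j (bd aX) := by
    intro F hF
    have h5 : bd aY F ≠ 0 := by
      intro h; apply hF; rw [hbd, h, neg_zero]
    exact ⟨⟨(hsX.bd hX F hF).1, (hsY.bd hY F h5).1⟩, (hsX.bd hX F hF).2⟩
  obtain ⟨c, hc1, hc2⟩ := h3 (bd aX) hs (fun F => bd_bd aX F)
  have hcX : Sup X (j + 1) c := fun F hF => ⟨(hc1 F hF).1.1, (hc1 F hF).2⟩
  have hcY : Sup Y (j + 1) c := fun F hF => ⟨(hc1 F hF).1.2, (hc1 F hF).2⟩
  obtain ⟨cX, hcX1, hcX2⟩ := h1 (fun F => aX F - c F) (hsX.sub hcX)
    (fun F => by rw [bd_sub, hc2, sub_self])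
  obtain ⟨cY, hcY1, hcY2⟩ := h2 (fun F => aY F + c F) (hsY.add hcY)
    (fun F => by rw [bd_add, hc2, hbd, add_neg_cancel])
  refine ⟨fun F => cX F + cY F, ?_, ?_⟩
  · apply Sup.add
    · exact fun F hF => ⟨Or.inl (hcX1 F hF).1, (hcX1 F hF).2⟩
    · exact fun F hF => ⟨Or.inr (hcY1 F hF).1, (hcY1 F hF).2⟩
  · intro F
    rw [bd_add, hcX2, hcY2, ← hsum F]; ring

/-- cones are acyclic -/
lemma HV.cone {X : Finset ι → Prop} (p : ι) (hp : ∀ F, X F → X (insert p F)) (j : ℕ) : HV k X j := by
  intro a ha hcyc
  refine ⟨hv p a, ?_, ?_⟩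
  · intro F hF
    unfold hv at hF
    split_ifs at hF with h
    · have h1 : a (F.erase p) ≠ 0 := fun h => hF (by rw [h, mul_zero])
      obtain ⟨h2, h3⟩ := ha _ h1
      have h4 := hp _ h2
      rw [Finset.insert_erase h] at h4
      refine ⟨h4, ?_⟩
      rw [← h3, Finset.card_erase_of_mem h]
      have : 0 < F.card := Finset.card_pos.mpr ⟨p, h⟩
      omega
    · exact absurd rfl hF
  · intro F
    have h5 := homotopy p a F
    have h6 : hv p (bd a) F = 0 := by
      unfold hv
      split_ifs with h
      · rw [hcyc, mul_zero]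
      · rfl
    rw [h6, add_zero] at h5
    exact h5

/-- independent sets of a relation inside `U` -/
def Ind (H : ι → ι → Prop) (U : Finset ι) (F : Finset ι) : Prop :=
  F ⊆ U ∧ ∀ x ∈ F, ∀ y ∈ F, x ≠ y → ¬ H x y

lemma Ind.down (H : ι → ι → Prop) (U : Finset ι) : Down (Ind H U) := by
  rintro F j ⟨h1, h2⟩
  exact ⟨(Finset.subset_insert _ _).trans h1,
    fun x hx y hy => h2 x (Finset.mem_insert_of_mem hx) y (Finset.mem_insert_of_mem hy)⟩

/-- desuspension -/
lemma HV.desusp {H : ι → ι → Prop} {R : Finset ι} {x y : ι} (hx : x ∉ R) (hy : y ∉ R) (hxy : x ≠ y)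
    (hH : H x y) (hxR : ∀ w ∈ R, ¬ H x w ∧ ¬ H w x) (hyR : ∀ w ∈ R, ¬ H y w ∧ ¬ H w y) {j : ℕ}
    (h : HV k (Ind H (insert x (insert y R))) (j + 1)) : HV k (Ind H R) j := by
  classical
  intro a ha hcyc
  have hsup : ∀ v, v ∉ R → v ∈ insert x (insert y R) → (∀ w ∈ R, ¬ H v w ∧ ¬ H w v) →
      Sup (Ind H (insert x (insert y R))) (j + 1) (hv v a) := by
    intro v hvR hvU hvH F hF
    unfold hv at hF
    split_ifs at hF with h1
    · have h2 : a (F.erase v) ≠ 0 := fun h => hF (by rw [h, mul_zero])
      obtain ⟨⟨h3, h4⟩, h5⟩ := ha _ h2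
      refine ⟨⟨?_, ?_⟩, ?_⟩
      · intro w hw
        by_cases hwv : w = v
        · rw [hwv]; exact hvU
        · exact Finset.mem_insert_of_mem (Finset.mem_insert_of_mem (h3 (Finset.mem_erase.mpr ⟨hwv, hw⟩)))
      · intro p hp q hq hpq
        by_cases hpv : p = v
        · subst hpv
          have hq' : q ∈ R := h3 (Finset.mem_erase.mpr ⟨hpq.symm, hq⟩)
          exact (hvH q hq').1
        · by_cases hqv : q = v
          · subst hqv
            have hp' : p ∈ R := h3 (Finset.mem_erase.mpr ⟨hpq, hp⟩)
            exact (hvH p hp').2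
          · exact h4 p (Finset.mem_erase.mpr ⟨hpv, hp⟩) q (Finset.mem_erase.mpr ⟨hqv, hq⟩) hpq
      · rw [Finset.card_erase_of_mem h1] at h5
        have : 0 < F.card := Finset.card_pos.mpr ⟨v, h1⟩
        omega
    · exact absurd rfl hF
  have hcone : ∀ v F, bd (hv v a) F = a F := by
    intro v F
    have h5 := homotopy v a F
    have h6 : hv v (bd a) F = 0 := by
      unfold hv
      split_ifs with h
      · rw [hcyc, mul_zero]
      · rfl
    rw [h6, add_zero] at h5
    exact h5
  obtain ⟨c, hc1, hc2⟩ := h (fun F => hv x a F - hv y a F)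
    ((hsup x hx (by simp) hxR).sub (hsup y hy (by simp) hyR))
    (fun F => by rw [bd_sub, hcone, hcone, sub_self])
  let cx : Finset ι → k := fun F => if x ∈ F then 0 else sg k x F * c (insert x F)
  have haR : ∀ F, a F ≠ 0 → F ⊆ R := fun F hF => (ha F hF).1.1
  refine ⟨fun F => - cx F, ?_, ?_⟩
  · intro F hF
    have h1 : cx F ≠ 0 := fun h => hF (by beta_reduce; rw [h, neg_zero])
    simp only [cx] at h1
    split_ifs at h1 with h2
    · exact absurd rfl h1
    · have h3 : c (insert x F) ≠ 0 := fun h => h1 (by rw [h, mul_zero])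
      obtain ⟨⟨h4, h5⟩, h6⟩ := hc1 _ h3
      refine ⟨⟨?_, fun p hp q hq => h5 p (Finset.mem_insert_of_mem hp) q (Finset.mem_insert_of_mem hq)⟩, ?_⟩
      · intro w hw
        have h7 := h4 (Finset.mem_insert_of_mem hw)
        rw [Finset.mem_insert, Finset.mem_insert] at h7
        rcases h7 with rfl | rfl | h7
        · exact absurd hw h2
        · exact absurd hH (h5 x (Finset.mem_insert_self _ _) w (Finset.mem_insert_of_mem hw) hxy)
        · exact h7
      · rw [Finset.card_insert_of_notMem h2] at h6
        omega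
  · intro F
    rw [bd_neg]
    by_cases hxF : x ∈ F
    · have h1 : a F = 0 := by
        by_contra h
        exact hx (haR F h hxF)
      have h2 : bd cx F = 0 := by
        unfold bd
        refine Finset.sum_eq_zero fun v _ => ?_
        simp only [cx]
        rw [if_pos (Finset.mem_insert_of_mem hxF), mul_zero]
      rw [h1, h2, neg_zero]
    · -- evaluate `bd c` at `insert x F`
      have h1 := hc2 (insert x F)
      have h2 : hv x a (insert x F) = sg k x F * a F := by
        unfold hv
        rw [if_pos (Finset.mem_insert_self _ _), Finset.erase_insert hxF]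
      have h3 : hv y a (insert x F) = 0 := by
        unfold hv
        split_ifs with h4
        · have : a ((insert x F).erase y) = 0 := by
            by_contra h5
            have := haR _ h5 (Finset.mem_erase.mpr ⟨hxy, Finset.mem_insert_self x F⟩)
            exact hx this
          rw [this, mul_zero]
        · rfl
      rw [h2, h3, sub_zero] at h1
      have h4 : a F = sg k x F * bd c (insert x F) := by
        rw [h1, ← mul_assoc, sg_mul_self, one_mul]
      rw [h4]
      unfold bd
      rw [Finset.mul_sum, ← Finset.sum_neg_distrib]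
      have h5 : (F : Finset ι)ᶜ = insert x (insert x F)ᶜ := by
        ext w
        simp only [Finset.mem_compl, Finset.mem_insert]
        by_cases hwx : w = x
        · simp [hwx, hxF]
        · simp [hwx]
      rw [h5, Finset.sum_insert (by simp)]
      have h6 : cx (insert x F) = 0 := by
        simp only [cx]; rw [if_pos (Finset.mem_insert_self _ _)]
      rw [h6, mul_zero, neg_zero, zero_add]
      refine Finset.sum_congr rfl fun v hvm => ?_
      have hv' : v ∉ insert x F := by simpa using hvm
      have hvx : v ≠ x := fun h => hv' (h ▸ Finset.mem_insert_self _ _)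
      have hvF : v ∉ F := fun h => hv' (Finset.mem_insert_of_mem h)
      simp only [cx]
      rw [if_neg (by simp only [Finset.mem_insert, not_or]; exact ⟨hvx.symm, hxF⟩)]
      rw [Finset.insert_comm x v F]
      have h7 := sg_swap (k := k) hvx hvF hxF
      -- sg x F * sg v (insert x F) + sg v F * sg x (insert v F) = 0
      have h8 : sg k x F * sg k v (insert x F) = - (sg k v F * sg k x (insert v F)) :=
        eq_neg_of_add_eq_zero_left h7
      rw [← mul_assoc, ← mul_assoc, h8]
      ring

/-- removing a vertex -/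
lemma HV.vertex {H : ι → ι → Prop} (hH : ∀ x y, H x y → H y x) {U : Finset ι} {z : ι} (hz : z ∈ U) {j : ℕ}
    (h1 : HV k (Ind H (U.erase z)) (j + 1))
    (h2 : ∀ R : Finset ι, (∀ w, w ∈ R ↔ w ∈ U ∧ w ≠ z ∧ ¬ H z w) → HV k (Ind H R) j) :
    HV k (Ind H U) (j + 1) := by
  classical
  let R : Finset ι := U.filter (fun w => w ≠ z ∧ ¬ H z w)
  have hR : ∀ w, w ∈ R ↔ w ∈ U ∧ w ≠ z ∧ ¬ H z w := by
    intro w; simp only [R, Finset.mem_filter]
  let Y : Finset ι → Prop := fun F => Ind H R (F.erase z)
  have hY : Down Y := by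
    intro F v hF
    simp only [Y] at hF ⊢
    refine ⟨fun w hw => hF.1 ?_, fun p hp q hq => hF.2 p ?_ q ?_⟩
    · exact Finset.erase_subset_erase _ (Finset.subset_insert _ _) hw
    · exact Finset.erase_subset_erase _ (Finset.subset_insert _ _) hp
    · exact Finset.erase_subset_erase _ (Finset.subset_insert _ _) hq
  have hcone : HV k Y (j + 1) := by
    apply HV.cone z
    intro F hF
    simp only [Y] at hF ⊢
    rw [Finset.erase_insert_eq_erase]
    exact hF
  have hint : HV k (fun F => Ind H (U.erase z) F ∧ Y F) j := by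
    refine HV.congr ?_ (h2 R hR)
    intro F
    constructor
    · rintro ⟨h3, h4⟩
      have hzF : z ∉ F := fun h => (hR z).mp (h3 h) |>.2.1 rfl
      refine ⟨⟨?_, h4⟩, ?_⟩
      · intro w hw
        have := (hR w).mp (h3 hw)
        exact Finset.mem_erase.mpr ⟨this.2.1, this.1⟩
      · simp only [Y]
        rw [Finset.erase_eq_of_notMem hzF]
        exact ⟨h3, h4⟩
    · rintro ⟨⟨h3, h4⟩, h5⟩
      have hzF : z ∉ F := fun h => (Finset.mem_erase.mp (h3 h)).1 rfl
      simp only [Y] at h5
      rw [Finset.erase_eq_of_notMem hzF] at h5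
      exact h5
  refine HV.congr ?_ (HV.union (Ind.down H _) hY h1 hcone hint)
  intro F
  constructor
  · rintro (⟨h3, h4⟩ | h3)
    · exact ⟨h3.trans (Finset.erase_subset _ _), h4⟩
    · simp only [Y] at h3
      obtain ⟨h3, h4⟩ := h3
      have hsub : ∀ w ∈ F, w ≠ z → w ∈ U ∧ ¬ H z w := by
        intro w hw hwz
        have := (hR w).mp (h3 (Finset.mem_erase.mpr ⟨hwz, hw⟩))
        exact ⟨this.1, this.2.2⟩
      refine ⟨?_, ?_⟩
      · intro w hw
        by_cases hwz : w = z
        · rw [hwz]; exact hz
        · exact (hsub w hw hwz).1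
      · intro p hp q hq hpq
        by_cases hpz : p = z
        · subst hpz
          exact (hsub q hq hpq.symm).2
        · by_cases hqz : q = z
          · subst hqz
            exact fun h => (hsub p hp hpq).2 (hH _ _ h)
          · exact h4 p (Finset.mem_erase.mpr ⟨hpz, hp⟩) q (Finset.mem_erase.mpr ⟨hqz, hq⟩) hpq
  · rintro ⟨h3, h4⟩
    by_cases hzF : z ∈ F
    · right
      simp only [Y]
      refine ⟨?_, ?_⟩
      · intro w hw
        obtain ⟨hwz, hwF⟩ := Finset.mem_erase.mp hw
        exact (hR w).mpr ⟨h3 hwF, hwz, h4 z hzF w hwF hwz.symm⟩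
      · intro p hp q hq
        exact h4 p (Finset.mem_of_mem_erase hp) q (Finset.mem_of_mem_erase hq)
    · left
      exact ⟨fun w hw => Finset.mem_erase.mpr ⟨fun h => hzF (h ▸ hw), h3 hw⟩, h4⟩

end Pool.Agent.H677R3.Ab
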