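import Mathlib

/-!
Combinatorial Koszul complexes: functions on finite subsets of `Fin n`.
-/

namespace Pool.Agent.H677R3.EdgeReg

open Finset

variable {n : ℕ} {k : Type*}

/-- the sign `(-1)^#{l ∈ T | l < j}` -/
def sg (k : Type*) [CommRing k] (j : Fin n) (T : Finset (Fin n)) : k :=
  (-1 : k) ^ (T.filter (· < j)).card

/-- combinatorial Koszul differential -/
def cd [CommRing k] (a : Finset (Fin n) → k) (T : Finset (Fin n)) : k :=
  ∑ j ∈ Tᶜ, sg k j T * a (insert j T)

section ring

variable [CommRing k]

lemma sg_mul_self (j : Fin n) (T : Finset (Fin n)) : sg k j T * sg k j T = 1 := by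
  unfold sg
  rw [← mul_pow]; simp

lemma sg_insert {j i : Fin n} {T : Finset (Fin n)} (hi : i ∉ T) :
    sg k j (insert i T) = sg k j T * (if i < j then -1 else 1) := by
  unfold sg
  rw [Finset.filter_insert]
  split_ifs with h
  · rw [Finset.card_insert_of_notMem (by simp [hi]), pow_succ]
  · simp

/-- the basic anti-commutation of signs -/
lemma sg_swap {i j : Fin n} {T : Finset (Fin n)} (hij : i ≠ j) (hi : i ∉ T) (hj : j ∉ T) :
    sg k j T * sg k i (insert j T) + sg k i T * sg k j (insert i T) = 0 := by
  rw [sg_insert hj, sg_insert hi]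
  rcases lt_or_gt_of_ne hij with h | h
  · rw [if_neg (not_lt.mpr h.le), if_pos h]; ring
  · rw [if_pos h, if_neg (not_lt.mpr h.le)]; ring

lemma cd_add (a b : Finset (Fin n) → k) (T : Finset (Fin n)) :
    cd (fun T => a T + b T) T = cd a T + cd b T := by
  unfold cd
  rw [← Finset.sum_add_distrib]
  exact Finset.sum_congr rfl fun j _ => by ring

lemma cd_sub (a b : Finset (Fin n) → k) (T : Finset (Fin n)) :
    cd (fun T => a T - b T) T = cd a T - cd b T := by
  unfold cd
  rw [← Finset.sum_sub_distrib]
  exact Finset.sum_congr rfl fun j _ => by ring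

lemma cd_smul (r : k) (a : Finset (Fin n) → k) (T : Finset (Fin n)) :
    cd (fun T => r * a T) T = r * cd a T := by
  unfold cd
  rw [Finset.mul_sum]
  exact Finset.sum_congr rfl fun j _ => by ring

lemma cd_zero (T : Finset (Fin n)) : cd (fun _ => (0 : k)) T = 0 := by
  unfold cd; simp

/-- `cd ∘ cd = 0` -/
lemma cd_cd (a : Finset (Fin n) → k) (T : Finset (Fin n)) : cd (cd a) T = 0 := by
  unfold cd
  simp_rw [Finset.mul_sum]
  rw [Finset.sum_sigma']
  refine Finset.sum_involution (fun x _ => ⟨x.2, x.1⟩) ?_ ?_ ?_ ?_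
  · rintro ⟨j, i⟩ h
    simp only [Finset.mem_sigma, Finset.mem_compl, Finset.mem_insert, not_or] at h
    obtain ⟨hj, hij, hi⟩ := h
    have := sg_swap (k := k) hij hi hj
    simp only
    rw [Finset.insert_comm j i T, ← mul_assoc, ← mul_assoc, ← add_mul]
    rw [show sg k j T * sg k i (insert j T) + sg k i T * sg k j (insert i T) = 0 from this]
    simp
  · rintro ⟨j, i⟩ h _ heq
    simp only [Finset.mem_sigma, Finset.mem_compl, Finset.mem_insert, not_or] at h
    have : i = j := by
      have := congrArg Sigma.fst heq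
      simpa using this
    exact h.2.1 this
  · rintro ⟨j, i⟩ h
    simp only [Finset.mem_sigma, Finset.mem_compl, Finset.mem_insert, not_or] at h ⊢
    exact ⟨h.2.2, fun hh => h.2.1 hh.symm, h.1⟩
  · rintro ⟨j, i⟩ h
    rfl

/-- cone homotopy -/
def hv (v : Fin n) (a : Finset (Fin n) → k) (T : Finset (Fin n)) : k :=
  if v ∈ T then sg k v (T.erase v) * a (T.erase v) else 0

lemma homotopy (v : Fin n) (a : Finset (Fin n) → k) (T : Finset (Fin n)) :
    cd (hv v a) T + hv v (cd a) T = a T := by
  by_cases hv' : v ∈ T
  · have e1 : hv v (cd a) T = sg k v (T.erase v) * cd a (T.erase v) := by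
      unfold hv; rw [if_pos hv']
    have e2 : cd a (T.erase v) = sg k v (T.erase v) * a T +
        ∑ j ∈ Tᶜ, sg k j (T.erase v) * a (insert j (T.erase v)) := by
      unfold cd
      rw [show (T.erase v)ᶜ = insert v Tᶜ by rw [Finset.compl_erase]]
      rw [Finset.sum_insert (by simp [hv']), Finset.insert_erase hv']
    have e3 : cd (hv v a) T = ∑ j ∈ Tᶜ, sg k j T * (sg k v ((insert j T).erase v) * a ((insert j T).erase v)) := by
      unfold cd
      refine Finset.sum_congr rfl fun j hj => ?_
      unfold hv
      rw [if_pos (by simp [hv'])]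
    rw [e1, e2, e3, mul_add, ← mul_assoc, sg_mul_self, one_mul, Finset.mul_sum, add_comm, add_assoc,
      ← Finset.sum_add_distrib]
    have : ∑ j ∈ Tᶜ, (sg k v (T.erase v) * (sg k j (T.erase v) * a (insert j (T.erase v))) +
        sg k j T * (sg k v ((insert j T).erase v) * a ((insert j T).erase v))) = 0 := by
      refine Finset.sum_eq_zero fun j hj => ?_
      have hj' : j ∉ T := by simpa using hj
      have hjv : j ≠ v := fun h => hj' (h ▸ hv')
      have e4 : (insert j T).erase v = insert j (T.erase v) :=
        Finset.erase_insert_of_ne hjv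
      have hT : T = insert v (T.erase v) := (Finset.insert_erase hv').symm
      have h5 : j ∉ T.erase v := fun h => hj' (Finset.mem_of_mem_erase h)
      have h6 : v ∉ T.erase v := Finset.notMem_erase _ _
      have e5 : sg k j T = sg k j (insert v (T.erase v)) := by rw [← hT]
      have := sg_swap (k := k) hjv h5 h6
      rw [e4, e5]
      have e6 : sg k v (T.erase v) * (sg k j (T.erase v) * a (insert j (T.erase v))) +
          sg k j (insert v (T.erase v)) * (sg k v (insert j (T.erase v)) * a (insert j (T.erase v)))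
          = (sg k v (T.erase v) * sg k j (T.erase v) +
          sg k j (insert v (T.erase v)) * sg k v (insert j (T.erase v))) * a (insert j (T.erase v)) := by ring
      rw [e6]
      have e7 : sg k v (T.erase v) * sg k j (T.erase v) +
          sg k j (insert v (T.erase v)) * sg k v (insert j (T.erase v)) = 0 := by
        rw [sg_insert h6, sg_insert h5]
        rcases lt_or_gt_of_ne hjv with h | h
        · rw [if_neg (not_lt.mpr h.le), if_pos h]; ring
        · rw [if_pos h, if_neg (not_lt.mpr h.le)]; ring
      rw [e7, zero_mul]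
    rw [this, add_zero]
  · have e1 : hv v (cd a) T = 0 := by unfold hv; rw [if_neg hv']
    rw [e1, add_zero]
    unfold cd
    rw [Finset.sum_eq_single v]
    · unfold hv
      rw [if_pos (Finset.mem_insert_self _ _), Finset.erase_insert hv', ← mul_assoc, sg_mul_self, one_mul]
    · intro j hj hjv
      unfold hv
      rw [if_neg, mul_zero]
      simp only [Finset.mem_insert, not_or]
      exact ⟨fun h => hjv h.symm, hv'⟩
    · intro h; exact absurd (by simpa using hv') h

/-- relative acyclicity of a family `Q` of finite sets at level `l` -/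
def RelAcyc (k : Type*) [CommRing k] (Q : Finset (Fin n) → Prop) (l : ℕ) : Prop :=
  ∀ a : Finset (Fin n) → k, (∀ T, a T ≠ 0 → Q T ∧ T.card = l) → (∀ T, Q T → cd a T = 0) →
    ∃ c : Finset (Fin n) → k, (∀ T, c T ≠ 0 → Q T ∧ T.card = l + 1) ∧ ∀ T, Q T → cd c T = a T

/-- toggling lemma -/
lemma relAcyc_toggle (Q : Finset (Fin n) → Prop) (l : ℕ) (v : Fin n)
    (h1 : ∀ T, v ∉ T → (Q T ↔ Q (insert v T))) : RelAcyc k Q l := by
  intro a ha hc
  refine ⟨hv v a, ?_, ?_⟩
  · intro T hT
    unfold hv at hT
    split_ifs at hT with hvT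
    · have h2 : a (T.erase v) ≠ 0 := fun h => hT (by rw [h, mul_zero])
      obtain ⟨h3, h4⟩ := ha _ h2
      refine ⟨?_, ?_⟩
      · have := (h1 (T.erase v) (Finset.notMem_erase _ _)).mp h3
        rwa [Finset.insert_erase hvT] at this
      · rw [← h4, Finset.card_erase_of_mem hvT]
        have : 0 < T.card := Finset.card_pos.mpr ⟨v, hvT⟩
        omega
    · exact absurd rfl hT
  · intro T hT
    have h5 := homotopy v a T
    have h6 : hv v (cd a) T = 0 := by
      unfold hv
      split_ifs with hvT
      · have : Q (T.erase v) := (h1 (T.erase v) (Finset.notMem_erase _ _)).mpr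
          (by rwa [Finset.insert_erase hvT])
        rw [hc _ this, mul_zero]
      · rfl
    rw [h6, add_zero] at h5
    exact h5

/-- empty level -/
lemma relAcyc_of_empty (Q : Finset (Fin n) → Prop) (l : ℕ)
    (h1 : ∀ T, Q T → T.card = l → False) : RelAcyc k Q l := by
  intro a ha hc
  have h0 : ∀ T, a T = 0 := by
    intro T
    by_contra h
    exact h1 T (ha T h).1 (ha T h).2
  refine ⟨fun _ => 0, fun T h => absurd rfl h, fun T _ => by rw [cd_zero, h0]⟩

/-- filtration lemma -/
lemma relAcyc_filtration {ι : Type*} [LinearOrder ι] (Q : Finset (Fin n) → Prop) (l : ℕ)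
    (κ : Finset (Fin n) → ι)
    (hup : ∀ T j, Q T → j ∉ T → ∀ i, i ∉ insert j T → Q (insert i (insert j T)) → Q (insert j T))
    (hκ : ∀ T j, j ∉ T → Q T → Q (insert j T) → κ (insert j T) ≤ κ T)
    (hac : ∀ t, RelAcyc k (fun T => Q T ∧ κ T = t) l) : RelAcyc k Q l := by
  classical
  -- induction on the number of values of κ that are ≥ some value in the support
  have key : ∀ N : ℕ, ∀ a : Finset (Fin n) → k, (∀ T, a T ≠ 0 → Q T ∧ T.card = l) →
      (∀ T, Q T → cd a T = 0) →
      ((Finset.univ.image κ).filter (fun t => ∃ T, a T ≠ 0 ∧ κ T ≤ t)).card ≤ N →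
      ∃ c : Finset (Fin n) → k, (∀ T, c T ≠ 0 → Q T ∧ T.card = l + 1) ∧ ∀ T, Q T → cd c T = a T := by
    intro N
    induction N with
    | zero =>
      intro a ha hc hN
      have h0 : ∀ T, a T = 0 := by
        intro T
        by_contra h
        have : κ T ∈ (Finset.univ.image κ).filter (fun t => ∃ T, a T ≠ 0 ∧ κ T ≤ t) := by
          simp only [Finset.mem_filter, Finset.mem_image, Finset.mem_univ, true_and, exists_apply_eq_apply]
          exact ⟨T, h, le_refl _⟩
        have := Finset.card_pos.mpr ⟨_, this⟩
        omega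
      exact ⟨fun _ => 0, fun T h => absurd rfl h, fun T _ => by rw [cd_zero, h0]⟩
    | succ N ih =>
      intro a ha hc hN
      by_cases hz : ∀ T, a T = 0
      · exact ⟨fun _ => 0, fun T h => absurd rfl h, fun T _ => by rw [cd_zero, hz]⟩
      push Not at hz
      -- minimal value
      have hne : ((Finset.univ.filter (fun T => a T ≠ 0)).image κ).Nonempty := by
        obtain ⟨T, hT⟩ := hz
        exact ⟨κ T, Finset.mem_image.mpr ⟨T, by simp [hT], rfl⟩⟩
      set t := ((Finset.univ.filter (fun T => a T ≠ 0)).image κ).min' hne with ht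
      have htmin : ∀ T, a T ≠ 0 → t ≤ κ T := by
        intro T hT
        exact Finset.min'_le _ _ (Finset.mem_image.mpr ⟨T, by simp [hT], rfl⟩)
      obtain ⟨T0, hT0, hT0t⟩ : ∃ T, a T ≠ 0 ∧ κ T = t := by
        have := Finset.min'_mem _ hne
        obtain ⟨T, hT, hT2⟩ := Finset.mem_image.mp this
        exact ⟨T, by simpa using hT, hT2⟩
      -- restrict
      let at' : Finset (Fin n) → k := fun T => if κ T = t then a T else 0
      have hat1 : ∀ T, at' T ≠ 0 → (Q T ∧ κ T = t) ∧ T.card = l := by
        intro T hT
        simp only [at'] at hT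
        split_ifs at hT with h
        · exact ⟨⟨(ha T hT).1, h⟩, (ha T hT).2⟩
        · exact absurd rfl hT
      have hat2 : ∀ T, (Q T ∧ κ T = t) → cd at' T = 0 := by
        rintro T ⟨hQ, hκT⟩
        rw [← hc T hQ]
        unfold cd
        refine Finset.sum_congr rfl fun j hj => ?_
        have hj' : j ∉ T := by simpa using hj
        congr 1
        simp only [at']
        split_ifs with h
        · rfl
        · by_contra hne'
          have hne'' : a (insert j T) ≠ 0 := fun h' => hne' h'.symm
          have h1 := htmin _ hne''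
          have h2 := hκ T j hj' hQ (ha _ hne'').1
          rw [hκT] at h2
          exact h (le_antisymm h2 h1)
      obtain ⟨ct, hct1, hct2⟩ := hac t at' hat1 hat2
      let a' : Finset (Fin n) → k := fun T => a T - (open Classical in if Q T then cd ct T else 0)
      have ha'1 : ∀ T, a' T ≠ 0 → Q T ∧ T.card = l := by
        intro T hT
        by_cases h1 : a T ≠ 0
        · exact ha T h1
        · push Not at h1
          simp only [a', h1, zero_sub, ne_eq, neg_eq_zero] at hT
          split_ifs at hT with hQ
          · refine ⟨hQ, ?_⟩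
            unfold cd at hT
            obtain ⟨j, hj, hj2⟩ := Finset.exists_ne_zero_of_sum_ne_zero hT
            have h3 : ct (insert j T) ≠ 0 := fun h => hj2 (by rw [h, mul_zero])
            have h4 := (hct1 _ h3).2
            rw [Finset.card_insert_of_notMem (by simpa using hj)] at h4
            omega
          · exact absurd rfl hT
      have hrel : ∀ T, Q T → cd (fun T => (open Classical in if Q T then cd ct T else 0)) T = 0 := by
        intro T hQ
        refine Eq.trans ?_ (cd_cd ct T)
        change ∑ j ∈ Tᶜ, sg k j T * (open Classical in if Q (insert j T) then cd ct (insert j T) else 0)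
          = ∑ j ∈ Tᶜ, sg k j T * cd ct (insert j T)
        refine Finset.sum_congr rfl fun j hj => ?_
        have hj' : j ∉ T := by simpa using hj
        congr 1
        split_ifs with h
        · rfl
        · symm
          unfold cd
          refine Finset.sum_eq_zero fun i hi => ?_
          have hi' : i ∉ insert j T := by simpa using hi
          have : ct (insert i (insert j T)) = 0 := by
            by_contra h3
            exact h (hup T j hQ hj' i hi' (hct1 _ h3).1.1)
          rw [this, mul_zero]
      have ha'2 : ∀ T, Q T → cd a' T = 0 := by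
        intro T hQ
        have : cd a' T = cd a T - cd (fun T => (open Classical in if Q T then cd ct T else 0)) T := cd_sub _ _ _
        rw [this, hc T hQ, hrel T hQ, sub_zero]
      have ha'3 : ∀ T, a' T ≠ 0 → t < κ T := by
        intro T hT
        obtain ⟨hQ, hcard⟩ := ha'1 T hT
        by_contra hlt
        push Not at hlt
        rcases lt_or_eq_of_le hlt with h | h
        · apply hT
          have e1 : a T = 0 := by
            by_contra h1; exact absurd (htmin T h1) (not_le.mpr h)
          have e2 : cd ct T = 0 := by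
            unfold cd
            refine Finset.sum_eq_zero fun j hj => ?_
            have : ct (insert j T) = 0 := by
              by_contra h3
              have h4 := (hct1 _ h3).1
              have h5 := hκ T j (by simpa using hj) hQ h4.1
              rw [h4.2] at h5
              exact absurd h5 (not_le.mpr h)
            rw [this, mul_zero]
          simp only [a', e1, e2]
          split_ifs <;> simp
        · apply hT
          have := hct2 T ⟨hQ, h⟩
          simp only [a', if_pos hQ, this, at', if_pos h, sub_self]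
      have hcard : ((Finset.univ.image κ).filter (fun t => ∃ T, a' T ≠ 0 ∧ κ T ≤ t)).card ≤ N := by
        have hsub : (Finset.univ.image κ).filter (fun t => ∃ T, a' T ≠ 0 ∧ κ T ≤ t) ⊂
            (Finset.univ.image κ).filter (fun t => ∃ T, a T ≠ 0 ∧ κ T ≤ t) := by
          refine Finset.ssubset_iff_subset_ne.mpr ⟨?_, ?_⟩
          · intro s hs
            simp only [Finset.mem_filter] at hs ⊢
            obtain ⟨hs1, T, hT, hT2⟩ := hs
            exact ⟨hs1, T0, hT0, by rw [hT0t]; exact (ha'3 T hT).le.trans hT2⟩
          · intro heq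
            have hmem : t ∈ (Finset.univ.image κ).filter (fun t => ∃ T, a T ≠ 0 ∧ κ T ≤ t) := by
              simp only [Finset.mem_filter, Finset.mem_image, Finset.mem_univ, true_and]
              exact ⟨⟨T0, hT0t⟩, T0, hT0, hT0t.le⟩
            rw [← heq] at hmem
            simp only [Finset.mem_filter] at hmem
            obtain ⟨_, T, hT, hT2⟩ := hmem
            exact absurd hT2 (not_le.mpr (ha'3 T hT))
        have := Finset.card_lt_card hsub
        omega
      obtain ⟨c', hc'1, hc'2⟩ := ih a' ha'1 ha'2 hcard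
      refine ⟨fun T => c' T + ct T, ?_, ?_⟩
      · intro T hT
        by_cases h1 : c' T ≠ 0
        · exact hc'1 T h1
        · push Not at h1
          have h2 : ct T ≠ 0 := by
            intro h; apply hT; simp only [h1, h, add_zero]
          exact ⟨(hct1 T h2).1.1, (hct1 T h2).2⟩
      · intro T hQ
        rw [cd_add, hc'2 T hQ]
        simp only [a', if_pos hQ]
        ring
  intro a ha hc
  exact key _ a ha hc le_rfl

/-- passing from the quotient to the ideal -/
lemma acyc_of_rel (U : Finset (Fin n)) (hU : U.Nonempty) (Kf : Finset (Fin n) → Prop)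
    (hK : ∀ T, Kf T → T ⊆ U)
    (hdown : ∀ T j, j ∉ T → Kf (insert j T) → Kf T) (i : ℕ)
    (hrel : RelAcyc k (fun T => T ⊆ U ∧ ¬ Kf T) (i + 1))
    (a : Finset (Fin n) → k) (ha : ∀ T, a T ≠ 0 → Kf T ∧ T.card = i) (hc : ∀ T, cd a T = 0) :
    ∃ g : Finset (Fin n) → k, (∀ T, g T ≠ 0 → Kf T ∧ T.card = i + 1) ∧ ∀ T, cd g T = a T := by
  classical
  obtain ⟨v, hvU⟩ := hU
  -- a' = hv v a
  let a' := hv v a
  have ha'1 : ∀ T, a' T ≠ 0 → T ⊆ U ∧ T.card = i + 1 := by
    intro T hT
    simp only [a'] at hT
    unfold hv at hT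
    split_ifs at hT with hvT
    · have h2 : a (T.erase v) ≠ 0 := fun h => hT (by rw [h, mul_zero])
      obtain ⟨h3, h4⟩ := ha _ h2
      refine ⟨?_, ?_⟩
      · intro x hx
        by_cases hxv : x = v
        · exact hxv ▸ hvU
        · exact hK _ h3 (Finset.mem_erase.mpr ⟨hxv, hx⟩)
      · rw [← h4, Finset.card_erase_of_mem hvT]
        have : 0 < T.card := Finset.card_pos.mpr ⟨v, hvT⟩
        omega
    · exact absurd rfl hT
  have ha'2 : ∀ T, cd a' T = a T := by
    intro T
    have h5 := homotopy v a T
    have h6 : hv v (cd a) T = 0 := by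
      unfold hv
      split_ifs with hvT
      · rw [hc, mul_zero]
      · rfl
    rw [h6, add_zero] at h5
    exact h5
  let aQ : Finset (Fin n) → k := fun T => if Kf T then 0 else a' T
  have haQ1 : ∀ T, aQ T ≠ 0 → (T ⊆ U ∧ ¬ Kf T) ∧ T.card = i + 1 := by
    intro T hT
    simp only [aQ] at hT
    split_ifs at hT with h
    · exact absurd rfl hT
    · exact ⟨⟨(ha'1 T hT).1, h⟩, (ha'1 T hT).2⟩
  have haQ2 : ∀ T, (T ⊆ U ∧ ¬ Kf T) → cd aQ T = 0 := by
    rintro T ⟨hTU, hKT⟩
    have h1 : a T = 0 := by
      by_contra h; exact hKT (ha T h).1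
    rw [← h1, ← ha'2 T]
    unfold cd
    refine Finset.sum_congr rfl fun j hj => ?_
    congr 1
    simp only [aQ]
    split_ifs with h
    · exact absurd (hdown T j (by simpa using hj) h) hKT
    · rfl
  obtain ⟨c, hc1, hc2⟩ := hrel aQ haQ1 haQ2
  refine ⟨fun T => a' T - cd c T, ?_, ?_⟩
  · intro T hT
    have hlev : T ⊆ U ∧ T.card = i + 1 := by
      by_cases h1 : a' T ≠ 0
      · exact ha'1 T h1
      · push Not at h1
        have h2 : cd c T ≠ 0 := by
          intro h; apply hT; simp only [h1, h, sub_zero]
        unfold cd at h2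
        obtain ⟨j, hj, hj2⟩ := Finset.exists_ne_zero_of_sum_ne_zero h2
        have h3 : c (insert j T) ≠ 0 := fun h => hj2 (by rw [h, mul_zero])
        obtain ⟨⟨h4, _⟩, h5⟩ := hc1 _ h3
        rw [Finset.card_insert_of_notMem (by simpa using hj)] at h5
        exact ⟨(Finset.subset_insert _ _).trans h4, by omega⟩
    refine ⟨?_, hlev.2⟩
    by_contra hKT
    apply hT
    have := hc2 T ⟨hlev.1, hKT⟩
    simp only [this, aQ, if_neg hKT, sub_self]
  · intro T
    have : cd (fun T => a' T - cd c T) T = cd a' T - cd (cd c) T := cd_sub _ _ _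
    rw [this, ha'2, cd_cd, sub_zero]

/-- non-vanishing from a functional on the quotient -/
lemma lower_comb (U : Finset (Fin n)) (Kf : Finset (Fin n) → Prop)
    (hK : ∀ T, Kf T → T ⊆ U) (i : ℕ) (T0 : Finset (Fin n)) (hT0 : T0 ⊆ U) (hT0K : ¬ Kf T0)
    (hcard : T0.card = i + 1) (hfacet : ∀ j ∈ T0, Kf (T0.erase j))
    (φ : Finset (Fin n) → k) (hφ0 : φ T0 ≠ 0) (hφK : ∀ T, Kf T → φ T = 0)
    (hφ : ∀ T, T ⊆ U → T.card = i + 2 → ∑ j ∈ T, sg k j (T.erase j) * φ (T.erase j) = 0) :
    ∃ a : Finset (Fin n) → k, (∀ T, a T ≠ 0 → Kf T ∧ T.card = i) ∧ (∀ T, cd a T = 0) ∧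
      ¬ ∃ g : Finset (Fin n) → k, (∀ T, g T ≠ 0 → Kf T ∧ T.card = i + 1) ∧ ∀ T, cd g T = a T := by
  classical
  let δ : Finset (Fin n) → k := fun T => if T = T0 then 1 else 0
  refine ⟨cd δ, ?_, fun T => cd_cd δ T, ?_⟩
  · intro T hT
    unfold cd at hT
    obtain ⟨j, hj, hj2⟩ := Finset.exists_ne_zero_of_sum_ne_zero hT
    have h3 : insert j T = T0 := by
      by_contra h
      apply hj2
      simp only [δ, if_neg h, mul_zero]
    have hjT : j ∉ T := by simpa using hj
    have h4 : T = T0.erase j := by rw [← h3, Finset.erase_insert hjT]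
    refine ⟨?_, ?_⟩
    · rw [h4]; exact hfacet j (by rw [← h3]; exact Finset.mem_insert_self _ _)
    · have := congrArg Finset.card h3
      rw [Finset.card_insert_of_notMem hjT, hcard] at this
      omega
  · rintro ⟨g, hg1, hg2⟩
    have hne : T0.Nonempty := Finset.card_pos.mp (by omega)
    obtain ⟨v, hvT0⟩ := hne
    have hvU : v ∈ U := hT0 hvT0
    let z : Finset (Fin n) → k := fun T => δ T - g T
    have hz : ∀ T, cd z T = 0 := by
      intro T
      have : cd z T = cd δ T - cd g T := cd_sub _ _ _
      rw [this, hg2, sub_self]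
    have hz1 : ∀ T, z T ≠ 0 → T ⊆ U ∧ T.card = i + 1 := by
      intro T hT
      by_cases h1 : T = T0
      · exact ⟨h1 ▸ hT0, h1 ▸ hcard⟩
      · have : g T ≠ 0 := by
          intro h; apply hT; simp only [z, δ, if_neg h1, h, sub_zero]
        exact ⟨hK _ (hg1 T this).1, (hg1 T this).2⟩
    let c := hv v z
    have hc1 : ∀ T, c T ≠ 0 → T ⊆ U ∧ T.card = i + 2 := by
      intro T hT
      simp only [c] at hT
      unfold hv at hT
      split_ifs at hT with hvT
      · have h2 : z (T.erase v) ≠ 0 := fun h => hT (by rw [h, mul_zero])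
        obtain ⟨h3, h4⟩ := hz1 _ h2
        refine ⟨?_, ?_⟩
        · intro x hx
          by_cases hxv : x = v
          · exact hxv ▸ hvU
          · exact h3 (Finset.mem_erase.mpr ⟨hxv, hx⟩)
        · rw [Finset.card_erase_of_mem hvT] at h4
          have : 0 < T.card := Finset.card_pos.mpr ⟨v, hvT⟩
          omega
      · exact absurd rfl hT
    have hc2 : ∀ T, cd c T = z T := by
      intro T
      have h5 := homotopy v z T
      have h6 : hv v (cd z) T = 0 := by
        unfold hv
        split_ifs with hvT
        · rw [hz, mul_zero]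
        · rfl
      rw [h6, add_zero] at h5
      exact h5
    -- pairing
    have hp1 : ∑ T, φ T * z T = φ T0 := by
      rw [Finset.sum_eq_single T0]
      · simp only [z, δ, if_true]
        have : g T0 = 0 := by
          by_contra h; exact hT0K (hg1 _ h).1
        rw [this, sub_zero, mul_one]
      · intro T _ hT
        by_cases hKT : Kf T
        · rw [hφK T hKT, zero_mul]
        · have : g T = 0 := by
            by_contra h; exact hKT (hg1 _ h).1
          simp only [z, δ, if_neg hT, this, sub_zero, mul_zero]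
      · intro h; exact absurd (Finset.mem_univ _) h
    have hp2 : ∑ T, φ T * z T = ∑ T, c T * ∑ j ∈ T, sg k j (T.erase j) * φ (T.erase j) := by
      have e1 : ∀ T, φ T * z T = ∑ j ∈ Tᶜ, φ T * (sg k j T * c (insert j T)) := by
        intro T
        rw [← hc2 T]
        unfold cd
        rw [Finset.mul_sum]
      simp_rw [e1, Finset.mul_sum]
      rw [Finset.sum_sigma', Finset.sum_sigma']
      refine Finset.sum_bij' (fun x _ => ⟨insert x.2 x.1, x.2⟩) (fun x _ => ⟨x.1.erase x.2, x.2⟩) ?_ ?_ ?_ ?_ ?_
      · rintro ⟨T, j⟩ h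
        simp only [Finset.mem_sigma, Finset.mem_univ, true_and]
        exact Finset.mem_insert_self _ _
      · rintro ⟨T, j⟩ h
        simp
      · rintro ⟨T, j⟩ h
        have hjT : j ∉ T := by simpa using h
        simp only [Finset.erase_insert hjT]
      · rintro ⟨T, j⟩ h
        have hjT : j ∈ T := by simpa using h
        simp only [Finset.insert_erase hjT]
      · rintro ⟨T, j⟩ h
        have hjT : j ∉ T := by simpa using h
        simp only [Finset.erase_insert hjT]
        ring
    rw [hp1] at hp2
    apply hφ0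
    rw [hp2]
    refine Finset.sum_eq_zero fun T _ => ?_
    by_cases hcT : c T = 0
    · rw [hcT, zero_mul]
    · rw [hφ T (hc1 T hcT).1 (hc1 T hcT).2, mul_zero]

end ring

end Pool.Agent.H677R3.EdgeReg
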