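import Mathlib
import Pool.Agent.H677R3.AbHom
import Pool.Agent.H677R3.RegComb

/-!
Duality between simplicial homology and the relative Koszul complexes.
-/

set_option linter.unusedSectionVars false

namespace Pool.Agent.H677R3.Ab

open Finset

variable {n : ℕ} {k : Type*} [Field k]

/-- coboundary -/
def cbd (a : Finset (Fin n) → k) (F : Finset (Fin n)) : k :=
  ∑ v ∈ F, sg k v (F.erase v) * a (F.erase v)

lemma pairing (a b : Finset (Fin n) → k) : ∑ F, bd a F * b F = ∑ F, a F * cbd b F := by
  unfold bd cbd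
  simp_rw [Finset.sum_mul, Finset.mul_sum]
  rw [Finset.sum_sigma', Finset.sum_sigma']
  refine Finset.sum_bij' (fun x _ => ⟨insert x.2 x.1, x.2⟩) (fun x _ => ⟨x.1.erase x.2, x.2⟩) ?_ ?_ ?_ ?_ ?_
  · rintro ⟨F, j⟩ h
    simp
  · rintro ⟨F, j⟩ h
    simp
  · rintro ⟨F, j⟩ h
    simp only [Finset.mem_sigma, Finset.mem_compl] at h
    simp only [Finset.erase_insert h.2]
  · rintro ⟨F, j⟩ h
    simp only [Finset.mem_sigma] at h
    simp only [Finset.insert_erase h.2]
  · rintro ⟨F, j⟩ h
    simp only [Finset.mem_sigma, Finset.mem_compl] at h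
    simp only [Finset.erase_insert h.2]
    ring

open Classical in
/-- restriction -/
noncomputable def res (S : Finset (Fin n) → Prop) (a : Finset (Fin n) → k) (F : Finset (Fin n)) : k :=
  if S F then a F else 0

lemma res_pos {S : Finset (Fin n) → Prop} {a : Finset (Fin n) → k} {F : Finset (Fin n)} (h : S F) :
    res S a F = a F := by unfold res; rw [if_pos h]

lemma res_neg {S : Finset (Fin n) → Prop} {a : Finset (Fin n) → k} {F : Finset (Fin n)} (h : ¬ S F) :
    res S a F = 0 := by unfold res; rw [if_neg h]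

lemma res_ne {S : Finset (Fin n) → Prop} {a : Finset (Fin n) → k} {F : Finset (Fin n)}
    (h : res S a F ≠ 0) : S F := by
  by_contra h1
  exact h (res_neg h1)

lemma res_add (S : Finset (Fin n) → Prop) (a b : Finset (Fin n) → k) :
    res S (a + b) = res S a + res S b := by
  funext F
  rw [Pi.add_apply]
  by_cases h : S F
  · rw [res_pos h, res_pos h, res_pos h, Pi.add_apply]
  · rw [res_neg h, res_neg h, res_neg h, add_zero]

lemma res_smul (S : Finset (Fin n) → Prop) (r : k) (a : Finset (Fin n) → k) :
    res S (r • a) = r • res S a := by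
  funext F
  rw [Pi.smul_apply]
  by_cases h : S F
  · rw [res_pos h, res_pos h, Pi.smul_apply]
  · rw [res_neg h, res_neg h, smul_zero]

lemma res_single {S : Finset (Fin n) → Prop} {F : Finset (Fin n)} (h : S F) :
    res S (Pi.single F (1 : k)) = Pi.single F 1 := by
  funext F'
  by_cases h4 : F' = F
  · rw [h4, res_pos h]
  · by_cases h5 : S F'
    · rw [res_pos h5]
    · rw [res_neg h5, Pi.single_eq_of_ne h4]

/-- boundary as a linear map, precomposed with a restriction -/
noncomputable def bdL (S : Finset (Fin n) → Prop) : (Finset (Fin n) → k) →ₗ[k] (Finset (Fin n) → k) where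
  toFun := fun a F => bd (res S a) F
  map_add' := by
    intro a b
    funext F
    rw [Pi.add_apply, res_add]
    exact bd_add _ _ F
  map_smul' := by
    intro r a
    funext F
    rw [res_smul]
    simp only [Pi.smul_apply, smul_eq_mul, RingHom.id_apply]
    unfold bd
    rw [Finset.mul_sum]
    refine Finset.sum_congr rfl fun j _ => ?_
    simp only [Pi.smul_apply, smul_eq_mul]
    ring

lemma bdL_apply (S : Finset (Fin n) → Prop) (a : Finset (Fin n) → k) (F : Finset (Fin n)) :
    bdL S a F = bd (res S a) F := rfl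

/-- coboundary as a linear map, with restrictions -/
noncomputable def cbdL (S S' : Finset (Fin n) → Prop) : (Finset (Fin n) → k) →ₗ[k] (Finset (Fin n) → k) where
  toFun := fun a => res S' (cbd (res S a))
  map_add' := by
    intro a b
    have h : cbd (res S a + res S b) = cbd (res S a) + cbd (res S b) := by
      funext F
      rw [Pi.add_apply]
      unfold cbd
      rw [← Finset.sum_add_distrib]
      refine Finset.sum_congr rfl fun j _ => ?_
      rw [Pi.add_apply]
      ring
    rw [res_add S a b, h, res_add]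
  map_smul' := by
    intro r a
    have h : cbd (r • res S a) = r • cbd (res S a) := by
      funext F
      rw [Pi.smul_apply, smul_eq_mul]
      unfold cbd
      rw [Finset.mul_sum]
      refine Finset.sum_congr rfl fun j _ => ?_
      simp only [Pi.smul_apply, smul_eq_mul]
      ring
    rw [res_smul S r a, h, res_smul, RingHom.id_apply]

lemma cbdL_apply (S S' : Finset (Fin n) → Prop) (a : Finset (Fin n) → k) :
    cbdL S S' a = res S' (cbd (res S a)) := rfl

/-- functional of a vector -/
def fn (b : Finset (Fin n) → k) : Module.Dual k (Finset (Fin n) → k) where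
  toFun := fun a => ∑ F, b F * a F
  map_add' := by intro a a'; simp only [Pi.add_apply, mul_add, Finset.sum_add_distrib]
  map_smul' := by
    intro r a
    simp only [Pi.smul_apply, smul_eq_mul, RingHom.id_apply, Finset.mul_sum]
    exact Finset.sum_congr rfl fun F _ => by ring

lemma fn_surj (φ : Module.Dual k (Finset (Fin n) → k)) : ∃ g : Finset (Fin n) → k, ∀ a, φ a = ∑ F, g F * a F := by
  refine ⟨fun F => φ (Pi.single F 1), ?_⟩
  intro a
  have h1 : a = ∑ F, a F • (Pi.single F (1 : k) : Finset (Fin n) → k) := by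
    funext F'
    rw [Finset.sum_apply]
    simp [Pi.single_apply]
  conv_lhs => rw [h1]
  rw [map_sum]
  refine Finset.sum_congr rfl fun F _ => ?_
  rw [map_smul, smul_eq_mul, mul_comm]

/-- if `b` is orthogonal to `ker f`, then `b` is a combination of the rows of `f` -/
lemma rows (f : (Finset (Fin n) → k) →ₗ[k] (Finset (Fin n) → k)) (b : Finset (Fin n) → k)
    (h : ∀ a, f a = 0 → ∑ F, b F * a F = 0) :
    ∃ g : Finset (Fin n) → k, ∀ a, ∑ F, b F * a F = ∑ F, g F * f a F := by
  have h1 : fn b ∈ LinearMap.range f.dualMap := by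
    rw [LinearMap.range_dualMap_eq_dualAnnihilator_ker, Submodule.mem_dualAnnihilator]
    intro a ha
    exact h a (LinearMap.mem_ker.mp ha)
  obtain ⟨φ, hφ⟩ := h1
  obtain ⟨g, hg⟩ := fn_surj φ
  refine ⟨g, fun a => ?_⟩
  have h2 : (f.dualMap φ) a = fn b a := by rw [hφ]
  rw [LinearMap.dualMap_apply, hg] at h2
  exact h2.symm

/-- cohomology vanishing -/
def CoHV (k : Type*) [Field k] (X : Finset (Fin n) → Prop) (j : ℕ) : Prop :=
  ∀ a : Finset (Fin n) → k, Sup X j a → (∀ F, X F → cbd a F = 0) →
    ∃ c : Finset (Fin n) → k, (∀ F, c F ≠ 0 → X F ∧ F.card + 1 = j) ∧ ∀ F, X F → cbd c F = a F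

lemma sum_single (F0 : Finset (Fin n)) (b : Finset (Fin n) → k) :
    ∑ F, b F * (Pi.single F0 (1 : k) : Finset (Fin n) → k) F = b F0 := by
  simp [Pi.single_apply]

theorem HV.co {X : Finset (Fin n) → Prop} (hX : Down X) {j : ℕ} (h : HV k X j) : CoHV k X j := by
  intro b hb hcyc
  obtain ⟨g, hg⟩ := rows (bdL (fun F => X F ∧ F.card = j)) b (by
    intro a ha
    set a' : Finset (Fin n) → k := res (fun F => X F ∧ F.card = j) a with ha'def
    have ha' : ∀ F, bd a' F = 0 := fun F => congrFun ha F
    obtain ⟨c, hc1, hc2⟩ := h a' (by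
      intro F hF
      exact res_ne hF) ha'
    have h2 : ∑ F, b F * a F = ∑ F, a' F * b F := by
      refine Finset.sum_congr rfl fun F _ => ?_
      by_cases h1 : X F ∧ F.card = j
      · rw [ha'def, res_pos (S := fun F => X F ∧ F.card = j) h1]; ring
      · have : b F = 0 := by
          by_contra h3
          exact h1 (hb F h3)
        rw [this]; ring
    rw [h2, Finset.sum_congr rfl (fun F _ => by rw [← hc2 F]), pairing]
    refine Finset.sum_eq_zero fun F _ => ?_
    by_cases h3 : c F = 0
    · rw [h3, zero_mul]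
    · rw [hcyc F (hc1 F h3).1, mul_zero])
  refine ⟨res (fun F => X F ∧ F.card + 1 = j) g, ?_, ?_⟩
  · intro F hF
    exact res_ne hF
  · intro F hXF
    by_cases hcard : F.card = j
    · have h1 := hg (Pi.single F 1)
      rw [sum_single] at h1
      have h2 : ∑ F', g F' * bdL (fun F => X F ∧ F.card = j) (Pi.single F (1 : k)) F' = cbd g F := by
        have h3 : res (fun F' => X F' ∧ F'.card = j) (Pi.single F (1 : k)) = Pi.single F 1 :=
          res_single ⟨hXF, hcard⟩
        have h5 : ∀ F', bdL (fun F => X F ∧ F.card = j) (Pi.single F (1 : k)) F' =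
            bd (Pi.single F 1) F' := by
          intro F'
          rw [bdL_apply, h3]
        rw [Finset.sum_congr rfl (fun F' _ => by rw [h5 F', mul_comm]), pairing]
        have h6 : ∑ F', (Pi.single F (1 : k) : Finset (Fin n) → k) F' * cbd g F' =
            ∑ F', cbd g F' * (Pi.single F (1 : k) : Finset (Fin n) → k) F' :=
          Finset.sum_congr rfl fun F' _ => by ring
        rw [h6, sum_single]
      rw [h1, h2]
      unfold cbd
      refine Finset.sum_congr rfl fun v hv => ?_
      have h4 : X (F.erase v) ∧ (F.erase v).card + 1 = j := by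
        refine ⟨hX _ v (by rwa [Finset.insert_erase hv]), ?_⟩
        rw [Finset.card_erase_add_one hv, hcard]
      rw [res_pos (S := fun F => X F ∧ F.card + 1 = j) h4]
    · have h1 : b F = 0 := by
        by_contra h2
        exact hcard (hb F h2).2
      rw [h1]
      unfold cbd
      refine Finset.sum_eq_zero fun v hv => ?_
      rw [res_neg (S := fun F => X F ∧ F.card + 1 = j), mul_zero]
      rintro ⟨_, h2⟩
      rw [Finset.card_erase_add_one hv] at h2
      exact hcard h2

theorem CoHV.hv {X : Finset (Fin n) → Prop} (hX : Down X) {j : ℕ} (h : CoHV k X j) : HV k X j := by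
  intro a ha hcyc
  obtain ⟨g, hg⟩ := rows (cbdL (fun F => X F ∧ F.card = j) (fun F => X F ∧ F.card = j + 1)) a (by
    intro b hb
    set b' : Finset (Fin n) → k := res (fun F => X F ∧ F.card = j) b with hb'def
    have hb' : ∀ F, X F → cbd b' F = 0 := by
      intro F hXF
      by_cases hcard : F.card = j + 1
      · have h1 := congrFun hb F
        rw [cbdL_apply, res_pos (S := fun F => X F ∧ F.card = j + 1) ⟨hXF, hcard⟩] at h1
        exact h1
      · unfold cbd
        refine Finset.sum_eq_zero fun v hv => ?_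
        have : b' (F.erase v) = 0 := by
          rw [hb'def, res_neg (S := fun F => X F ∧ F.card = j)]
          rintro ⟨_, h2⟩
          have := Finset.card_erase_add_one hv
          omega
        rw [this, mul_zero]
    obtain ⟨c, hc1, hc2⟩ := h b' (by
      intro F hF
      exact res_ne hF) hb'
    have h2 : ∑ F, a F * b F = ∑ F, a F * cbd c F := by
      refine Finset.sum_congr rfl fun F _ => ?_
      by_cases h1 : a F = 0
      · rw [h1]; ring
      · rw [hc2 F (ha F h1).1, hb'def, res_pos (S := fun F => X F ∧ F.card = j) (ha F h1)]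
    rw [h2, ← pairing]
    refine Finset.sum_eq_zero fun F _ => ?_
    rw [hcyc, zero_mul])
  refine ⟨res (fun F => X F ∧ F.card = j + 1) g, ?_, ?_⟩
  · intro F hF
    exact res_ne hF
  · intro F
    by_cases hXF : X F ∧ F.card = j
    · have h1 := hg (Pi.single F 1)
      rw [sum_single] at h1
      rw [h1]
      have h3 : res (fun F' => X F' ∧ F'.card = j) (Pi.single F (1 : k)) = Pi.single F 1 :=
        res_single hXF
      have h5 : ∑ F', g F' * cbdL (fun F => X F ∧ F.card = j) (fun F => X F ∧ F.card = j + 1)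
          (Pi.single F (1 : k)) F' =
          ∑ F', (res (fun F => X F ∧ F.card = j + 1) g F') * cbd (Pi.single F (1 : k)) F' := by
        refine Finset.sum_congr rfl fun F' _ => ?_
        rw [cbdL_apply, h3]
        by_cases h6 : X F' ∧ F'.card = j + 1
        · rw [res_pos (S := fun F => X F ∧ F.card = j + 1) h6,
            res_pos (S := fun F => X F ∧ F.card = j + 1) h6]
        · rw [res_neg (S := fun F => X F ∧ F.card = j + 1) h6,
            res_neg (S := fun F => X F ∧ F.card = j + 1) h6]
          ring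
      rw [h5, ← pairing, sum_single]
    · have h1 : a F = 0 := by
        by_contra h2
        exact hXF (ha F h2)
      rw [h1]
      unfold bd
      refine Finset.sum_eq_zero fun v hv => ?_
      rw [res_neg (S := fun F => X F ∧ F.card = j + 1), mul_zero]
      rintro ⟨h2, h3⟩
      rw [Finset.card_insert_of_notMem (by simpa using hv)] at h3
      exact hXF ⟨hX _ _ h2, by omega⟩

/-- the twist -/
def th (k : Type*) [Field k] (W F : Finset (Fin n)) : k := ∏ v ∈ F, sg k v W

lemma th_mul_self (W F : Finset (Fin n)) : th k W F * th k W F = 1 := by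
  unfold th
  rw [← Finset.prod_mul_distrib]
  exact Finset.prod_eq_one fun v _ => sg_mul_self v W

/-- comparison of the two differentials -/
lemma twist (W : Finset (Fin n)) (a a' : Finset (Fin n) → k)
    (haa : ∀ F, F ⊆ W → a' F = th k W F * a (W \ F)) (ha : ∀ T, a T ≠ 0 → T ⊆ W)
    (F : Finset (Fin n)) (hF : F ⊆ W) :
    cbd a' F = th k W F * EdgeReg.cd a (W \ F) := by
  unfold EdgeReg.cd
  rw [← Finset.sum_subset (s₁ := F) (s₂ := (W \ F)ᶜ)]
  · unfold cbd
    rw [Finset.mul_sum]
    refine Finset.sum_congr rfl fun v hv => ?_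
    have h1 : F.erase v ⊆ W := (Finset.erase_subset _ _).trans hF
    have h2 : W \ F.erase v = insert v (W \ F) := by
      ext w
      simp only [Finset.mem_sdiff, Finset.mem_erase, Finset.mem_insert]
      by_cases hw : w = v
      · subst hw
        simp [hF hv]
      · simp [hw]
    rw [haa _ h1, h2]
    have h3 : th k W F = sg k v W * th k W (F.erase v) := by
      unfold th
      rw [Finset.mul_prod_erase F (fun v => sg k v W) hv]
    have h4 : sg k v W = EdgeReg.sg k v (W \ F) * sg k v (F.erase v) := by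
      unfold sg EdgeReg.sg
      rw [← pow_add]
      congr 1
      have h5 : W.filter (· < v) = (W \ F).filter (· < v) ∪ (F.erase v).filter (· < v) := by
        ext w
        simp only [Finset.mem_filter, Finset.mem_union, Finset.mem_sdiff, Finset.mem_erase]
        constructor
        · rintro ⟨h6, h7⟩
          by_cases h8 : w ∈ F
          · exact Or.inr ⟨⟨ne_of_lt h7, h8⟩, h7⟩
          · exact Or.inl ⟨⟨h6, h8⟩, h7⟩
        · rintro (⟨⟨h6, _⟩, h7⟩ | ⟨⟨_, h6⟩, h7⟩)
          · exact ⟨h6, h7⟩
          · exact ⟨hF h6, h7⟩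
      rw [h5, Finset.card_union_of_disjoint]
      rw [Finset.disjoint_left]
      intro w hw hw2
      simp only [Finset.mem_filter, Finset.mem_sdiff, Finset.mem_erase] at hw hw2
      exact hw.1.2 hw2.1.2
    rw [h3, h4]
    have h5 : EdgeReg.sg k v (W \ F) * EdgeReg.sg k v (W \ F) = 1 := EdgeReg.sg_mul_self v _
    linear_combination (- (sg k v (F.erase v) * th k W (F.erase v) * a (insert v (W \ F)))) * h5
  · intro v hv
    rw [Finset.mem_compl, Finset.mem_sdiff]
    exact fun h => h.2 hv
  · intro v hv hvF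
    have : a (insert v (W \ F)) = 0 := by
      by_contra h
      have h1 := ha _ h (Finset.mem_insert_self _ _)
      exact (Finset.mem_compl.mp hv) (Finset.mem_sdiff.mpr ⟨h1, hvF⟩)
    rw [this, mul_zero]

theorem rel_of_hv (W U2 : Finset (Fin n)) (hU2 : U2 ⊆ W) (X Q : Finset (Fin n) → Prop) (hX : Down X)
    (hXU : ∀ F, X F → F ⊆ U2) (hQ : ∀ T, Q T ↔ T ⊆ W ∧ X (W \ T)) {j l : ℕ} (hj : j + l = W.card)
    (h : HV k X j) : EdgeReg.RelAcyc k Q l := by
  classical
  have hco := h.co hX
  intro a ha hc
  have haW : ∀ T, a T ≠ 0 → T ⊆ W := fun T hT => ((hQ T).mp (ha T hT).1).1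
  let a' : Finset (Fin n) → k := fun F => if F ⊆ W then th k W F * a (W \ F) else 0
  have haa : ∀ F, F ⊆ W → a' F = th k W F * a (W \ F) := fun F hF => by simp only [a']; rw [if_pos hF]
  have hQF : ∀ F, F ⊆ W → (Q (W \ F) ↔ X F) := by
    intro F hF
    rw [hQ, Finset.sdiff_sdiff_eq_self hF]
    exact ⟨fun h => h.2, fun h => ⟨Finset.sdiff_subset, h⟩⟩
  obtain ⟨c', hc'1, hc'2⟩ := hco a' (by
    intro F hF
    simp only [a'] at hF
    split_ifs at hF with h1
    · have h2 : a (W \ F) ≠ 0 := fun h => hF (by rw [h, mul_zero])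
      obtain ⟨h3, h4⟩ := ha _ h2
      refine ⟨(hQF F h1).mp h3, ?_⟩
      rw [Finset.card_sdiff_of_subset h1] at h4
      have := Finset.card_le_card h1
      omega
    · exact absurd rfl hF) (by
    intro F hF
    have hFW : F ⊆ W := (hXU F hF).trans hU2
    rw [twist W a a' haa haW F hFW, hc _ ((hQF F hFW).mpr hF), mul_zero])
  let c : Finset (Fin n) → k := fun T => if T ⊆ W then th k W (W \ T) * c' (W \ T) else 0
  have hcW : ∀ T, c T ≠ 0 → T ⊆ W := by
    intro T hT
    simp only [c] at hT
    split_ifs at hT with h1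
    · exact h1
    · exact absurd rfl hT
  have hcc : ∀ F, F ⊆ W → c' F = th k W F * c (W \ F) := by
    intro F hF
    simp only [c]
    rw [if_pos Finset.sdiff_subset, Finset.sdiff_sdiff_eq_self hF, ← mul_assoc, th_mul_self, one_mul]
  refine ⟨c, ?_, ?_⟩
  · intro T hT
    simp only [c] at hT
    split_ifs at hT with h1
    · have h2 : c' (W \ T) ≠ 0 := fun h => hT (by rw [h, mul_zero])
      obtain ⟨h3, h4⟩ := hc'1 _ h2
      refine ⟨(hQ T).mpr ⟨h1, h3⟩, ?_⟩
      rw [Finset.card_sdiff_of_subset h1] at h4
      have := Finset.card_le_card h1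
      omega
    · exact absurd rfl hT
  · intro T hT
    obtain ⟨h1, h2⟩ := (hQ T).mp hT
    have h3 := twist W c c' hcc hcW (W \ T) Finset.sdiff_subset
    rw [Finset.sdiff_sdiff_eq_self h1] at h3
    have h4 := hc'2 _ h2
    rw [h3, haa _ Finset.sdiff_subset, Finset.sdiff_sdiff_eq_self h1] at h4
    have h5 := congrArg (fun z => th k W (W \ T) * z) h4
    beta_reduce at h5
    rw [← mul_assoc, ← mul_assoc, th_mul_self, one_mul, one_mul] at h5
    exact h5

theorem hv_of_rel (W : Finset (Fin n)) (X Q : Finset (Fin n) → Prop) (hX : Down X)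
    (hXU : ∀ F, X F → F ⊆ W) (hQ : ∀ T, Q T ↔ T ⊆ W ∧ X (W \ T)) {j l : ℕ} (hj : j + l = W.card)
    (h : EdgeReg.RelAcyc k Q l) : HV k X j := by
  classical
  apply CoHV.hv hX
  intro a' ha' hc'
  let a : Finset (Fin n) → k := fun T => if T ⊆ W then th k W (W \ T) * a' (W \ T) else 0
  have haW : ∀ T, a T ≠ 0 → T ⊆ W := by
    intro T hT
    simp only [a] at hT
    split_ifs at hT with h1
    · exact h1
    · exact absurd rfl hT
  have haa : ∀ F, F ⊆ W → a' F = th k W F * a (W \ F) := by
    intro F hF
    simp only [a]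
    rw [if_pos Finset.sdiff_subset, Finset.sdiff_sdiff_eq_self hF, ← mul_assoc, th_mul_self, one_mul]
  obtain ⟨c, hc1, hc2⟩ := h a (by
    intro T hT
    simp only [a] at hT
    split_ifs at hT with h1
    · have h2 : a' (W \ T) ≠ 0 := fun h => hT (by rw [h, mul_zero])
      obtain ⟨h3, h4⟩ := ha' _ h2
      refine ⟨(hQ T).mpr ⟨h1, h3⟩, ?_⟩
      rw [Finset.card_sdiff_of_subset h1] at h4
      have := Finset.card_le_card h1
      omega
    · exact absurd rfl hT) (by
    intro T hT
    obtain ⟨h1, h2⟩ := (hQ T).mp hT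
    have h3 := twist W a a' haa haW (W \ T) Finset.sdiff_subset
    rw [Finset.sdiff_sdiff_eq_self h1, hc' _ h2] at h3
    have h5 := congrArg (fun z => th k W (W \ T) * z) h3
    beta_reduce at h5
    rw [← mul_assoc, th_mul_self, one_mul, mul_zero] at h5
    exact h5.symm)
  have hcW : ∀ T, c T ≠ 0 → T ⊆ W := fun T hT => ((hQ T).mp (hc1 T hT).1).1
  let c' : Finset (Fin n) → k := fun F => if F ⊆ W then th k W F * c (W \ F) else 0
  have hcc : ∀ F, F ⊆ W → c' F = th k W F * c (W \ F) := fun F hF => by simp only [c']; rw [if_pos hF]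
  refine ⟨c', ?_, ?_⟩
  · intro F hF
    simp only [c'] at hF
    split_ifs at hF with h1
    · have h2 : c (W \ F) ≠ 0 := fun h => hF (by rw [h, mul_zero])
      obtain ⟨h3, h4⟩ := hc1 _ h2
      have h5 := ((hQ _).mp h3).2
      rw [Finset.sdiff_sdiff_eq_self h1] at h5
      refine ⟨h5, ?_⟩
      rw [Finset.card_sdiff_of_subset h1] at h4
      have := Finset.card_le_card h1
      omega
    · exact absurd rfl hF
  · intro F hF
    have hFW := hXU F hF
    rw [twist W c c' hcc hcW F hFW, hc2 (W \ F), ← haa F hFW]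
    rw [hQ, Finset.sdiff_sdiff_eq_self hFW]
    exact ⟨Finset.sdiff_subset, hF⟩

end Pool.Agent.H677R3.Ab
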