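import Mathlib
import Pool.Agent.H677R3.RegComb

/-!
Koszul homology of an ideal of a polynomial ring and the combinatorial Koszul complexes.
-/

namespace Pool.Agent.H677R3.EdgeReg

open Finset

variable {n : ℕ} {k : Type*} [Field k]

/-- The Koszul differential of `x_1,…,x_n`: a chain is a function `f` assigning to every finite
set `T` of variables the coefficient `f T` of the basis element `e_T`. -/
noncomputable def koszulD (f : Finset (Fin n) → MvPolynomial (Fin n) k) (T : Finset (Fin n)) :
    MvPolynomial (Fin n) k :=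
  ∑ j ∈ Tᶜ, (-1) ^ (T.filter (· < j)).card * (MvPolynomial.X j * f (insert j T))

/-- `Tor_i(J,k)_{i+e} ≠ 0`, as Koszul homology: there is an `i`-cycle with coefficients forms of
degree `e` in `J` which is not the boundary of an `(i+1)`-chain with coefficients in `J`. -/
def TorNe (J : Ideal (MvPolynomial (Fin n) k)) (i e : ℕ) : Prop :=
  ∃ f : Finset (Fin n) → MvPolynomial (Fin n) k,
    (∀ T, f T ∈ J) ∧ (∀ T, (f T).IsHomogeneous e) ∧ (∀ T, T.card ≠ i → f T = 0) ∧
    (∀ T, koszulD f T = 0) ∧
    ¬ ∃ g : Finset (Fin n) → MvPolynomial (Fin n) k,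
      (∀ T, g T ∈ J) ∧ (∀ T, T.card ≠ i + 1 → g T = 0) ∧ ∀ T, koszulD g T = f T

/-- Castelnuovo–Mumford regularity `reg J = r`: `r` is the largest `e` such that
`Tor_i(J,k)_{i+e} ≠ 0` for some `i`. -/
def IsReg (J : Ideal (MvPolynomial (Fin n) k)) (r : ℕ) : Prop :=
  IsGreatest {e : ℕ | ∃ i : ℕ, TorNe J i e} r

/-- exponent of the squarefree monomial of `T` -/
noncomputable def ind (T : Finset (Fin n)) : Fin n →₀ ℕ :=
  Finsupp.equivFunOnFinite.symm (fun v => if v ∈ T then 1 else 0)

@[simp] lemma ind_apply (T : Finset (Fin n)) (v : Fin n) : ind T v = if v ∈ T then 1 else 0 := rfl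

lemma ind_insert {T : Finset (Fin n)} {j : Fin n} (hj : j ∉ T) :
    ind (insert j T) = ind T + Finsupp.single j 1 := by
  ext v
  rw [Finsupp.add_apply, ind_apply, ind_apply, Finsupp.single_apply]
  by_cases h : v = j
  · subst h; simp [hj]
  · rw [if_neg (fun h' : j = v => h h'.symm)]
    simp [h]

lemma sum_ind (T : Finset (Fin n)) : ∑ v, ind T v = T.card := by
  simp

/-- multigraded component -/
noncomputable def comp (f : Finset (Fin n) → MvPolynomial (Fin n) k) (b : Fin n →₀ ℕ)
    (T : Finset (Fin n)) : k :=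
  open Classical in if ind T ≤ b then (f T).coeff (b - ind T) else 0

lemma coeff_neg_one_pow_mul (m : ℕ) (p : MvPolynomial (Fin n) k) (c : Fin n →₀ ℕ) :
    ((-1) ^ m * p).coeff c = (-1) ^ m * p.coeff c := by
  have : ((-1 : MvPolynomial (Fin n) k)) ^ m = MvPolynomial.C ((-1) ^ m) := by simp
  rw [this, MvPolynomial.coeff_C_mul]

lemma comp_koszulD (f : Finset (Fin n) → MvPolynomial (Fin n) k) (b : Fin n →₀ ℕ)
    (T : Finset (Fin n)) : comp (koszulD f) b T = cd (comp f b) T := by
  classical
  unfold comp cd
  split_ifs with h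
  · unfold koszulD
    rw [MvPolynomial.coeff_sum]
    refine Finset.sum_congr rfl fun j hj => ?_
    have hj' : j ∉ T := by simpa using hj
    rw [coeff_neg_one_pow_mul, MvPolynomial.coeff_X_mul']
    have hiff : j ∈ (b - ind T).support ↔ ind (insert j T) ≤ b := by
      rw [Finsupp.mem_support_iff, ind_insert hj', Finsupp.le_def]
      constructor
      · intro h1 v
        have h2 := h v
        simp only [Finsupp.coe_add, Pi.add_apply, Finsupp.single_apply]
        by_cases hv : j = v
        · subst hv
          simp only [Finsupp.coe_tsub, Pi.sub_apply] at h1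
          simp only [if_true]; omega
        · rw [if_neg hv]; omega
      · intro h1
        have h2 := h1 j
        simp only [Finsupp.coe_add, Pi.add_apply, Finsupp.single_apply, if_true] at h2
        simp only [Finsupp.coe_tsub, Pi.sub_apply]
        omega
    unfold sg
    congr 1
    beta_reduce
    by_cases h1 : ind (insert j T) ≤ b
    · rw [if_pos (hiff.mpr h1), if_pos h1, ind_insert hj', tsub_tsub]
    · rw [if_neg (fun h2 => h1 (hiff.mp h2)), if_neg h1]
  · symm
    refine Finset.sum_eq_zero fun j hj => ?_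
    have hj' : j ∉ T := by simpa using hj
    beta_reduce
    rw [if_neg, mul_zero]
    intro h1
    apply h
    rw [ind_insert hj'] at h1
    exact le_trans (by simp) h1

lemma comp_add_ind (f : Finset (Fin n) → MvPolynomial (Fin n) k) (c : Fin n →₀ ℕ)
    (T : Finset (Fin n)) : comp f (c + ind T) T = (f T).coeff c := by
  unfold comp
  rw [if_pos (by simp), add_tsub_cancel_right]

/-- the monomials of multidegree `b` of the ideal -/
def KK (P : (Fin n → ℕ) → Prop) (b : Fin n →₀ ℕ) (T : Finset (Fin n)) : Prop :=
  ind T ≤ b ∧ P ⇑(b - ind T)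

theorem upper_transfer (J : Ideal (MvPolynomial (Fin n) k)) (P : (Fin n → ℕ) → Prop)
    (hJ : ∀ p, p ∈ J ↔ ∀ c ∈ p.support, P ⇑c) (i e : ℕ)
    (hac : ∀ b : Fin n →₀ ℕ, ∑ v, b v = e + i →
      ∀ a : Finset (Fin n) → k, (∀ T, a T ≠ 0 → KK P b T ∧ T.card = i) → (∀ T, cd a T = 0) →
        ∃ g : Finset (Fin n) → k, (∀ T, g T ≠ 0 → KK P b T ∧ T.card = i + 1) ∧ ∀ T, cd g T = a T) :
    ¬ TorNe J i e := by
  classical
  rintro ⟨f, hf1, hf2, hf3, hf4, hf5⟩
  apply hf5
  have hcoef : ∀ b T, comp f b T ≠ 0 → KK P b T ∧ T.card = i ∧ ∑ v, b v = e + i := by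
    intro b T h
    unfold comp at h
    split_ifs at h with hle
    · have hs : b - ind T ∈ (f T).support := MvPolynomial.mem_support_iff.mpr h
      have hcard : T.card = i := by
        by_contra hne
        rw [hf3 T hne] at h
        simp at h
      refine ⟨⟨hle, (hJ _).mp (hf1 T) _ hs⟩, hcard, ?_⟩
      have h1 := (hf2 T) h
      have h2 : Finsupp.weight (1 : Fin n → ℕ) (b - ind T) = ∑ v, (b - ind T) v := by
        rw [Finsupp.weight_apply, Finsupp.sum_fintype _ _ (by simp)]
        simp
      rw [h2] at h1
      have h3 : ∑ v, b v = ∑ v, (b - ind T) v + ∑ v, ind T v := by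
        rw [← Finset.sum_add_distrib]
        refine Finset.sum_congr rfl fun v _ => ?_
        have := hle v
        simp only [Finsupp.coe_tsub, Pi.sub_apply]
        omega
      rw [h3, h1, sum_ind, hcard]
    · exact absurd rfl h
  have hcyc : ∀ b T, cd (comp f b) T = 0 := by
    intro b T
    rw [← comp_koszulD]
    unfold comp
    rw [hf4]; simp
  have hex : ∀ b, ∃ g : Finset (Fin n) → k, (∀ T, g T ≠ 0 → KK P b T ∧ T.card = i + 1) ∧
      ∀ T, cd g T = comp f b T := by
    intro b
    by_cases hb : ∑ v, b v = e + i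
    · exact hac b hb (comp f b) (fun T hT => ⟨(hcoef b T hT).1, (hcoef b T hT).2.1⟩) (hcyc b)
    · refine ⟨fun _ => 0, fun T h => absurd rfl h, fun T => ?_⟩
      rw [cd_zero]
      by_contra h
      exact hb (hcoef b T (fun h' => h h'.symm)).2.2
  choose G hG1 hG2 using hex
  let B : Finset (Fin n →₀ ℕ) := Finset.univ.biUnion (fun T => (f T).support.image (· + ind T))
  have hB : ∀ b, b ∉ B → ∀ T, comp f b T = 0 := by
    intro b hb T
    by_contra h
    apply hb
    have hle := (hcoef b T h).1.1
    unfold comp at h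
    rw [if_pos hle] at h
    refine Finset.mem_biUnion.mpr ⟨T, Finset.mem_univ _, Finset.mem_image.mpr ⟨b - ind T,
      MvPolynomial.mem_support_iff.mpr h, tsub_add_cancel_of_le hle⟩⟩
  let g : Finset (Fin n) → MvPolynomial (Fin n) k :=
    fun T => ∑ b ∈ B, MvPolynomial.monomial (b - ind T) (G b T)
  have hg : ∀ b T, comp g b T = if b ∈ B then G b T else 0 := by
    intro b T
    have key : ∀ b' ∈ B, ind T ≤ b → (MvPolynomial.monomial (b' - ind T) (G b' T)).coeff (b - ind T) =
        if b' = b then G b T else 0 := by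
      intro b' _ hle
      rw [MvPolynomial.coeff_monomial]
      by_cases h0 : G b' T = 0
      · by_cases h1 : b' = b
        · subst h1; simp [h0]
        · rw [h0]; simp [h1]
      · have hle' := (hG1 b' T h0).1.1
        by_cases h1 : b' = b
        · subst h1; simp
        · rw [if_neg h1, if_neg]
          intro h2
          apply h1
          rw [← tsub_add_cancel_of_le hle', ← tsub_add_cancel_of_le hle, h2]
    unfold comp
    by_cases hle : ind T ≤ b
    · rw [if_pos hle]
      simp only [g]
      rw [MvPolynomial.coeff_sum, Finset.sum_congr rfl (fun b' hb' => key b' hb' hle)]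
      rw [Finset.sum_ite_eq' B b]
    · rw [if_neg hle]
      split_ifs with hb
      · by_contra h
        exact hle (hG1 b T (fun h' => h h'.symm)).1.1
      · rfl
  refine ⟨g, ?_, ?_, ?_⟩
  · intro T
    rw [hJ]
    intro c hc
    rw [MvPolynomial.mem_support_iff, ← comp_add_ind, hg] at hc
    split_ifs at hc with h
    · have := (hG1 _ _ hc).1.2
      rwa [add_tsub_cancel_right] at this
    · exact absurd rfl hc
  · intro T hT
    ext c
    rw [← comp_add_ind, hg, MvPolynomial.coeff_zero]
    split_ifs
    · by_contra h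
      exact hT (hG1 _ _ h).2
    · rfl
  · intro T
    ext c
    rw [← comp_add_ind, ← comp_add_ind, comp_koszulD]
    set b := c + ind T
    have : comp g b = fun T => if b ∈ B then G b T else 0 := by
      funext T; exact hg b T
    rw [this]
    by_cases hb : b ∈ B
    · simp only [if_pos hb]
      exact hG2 b T
    · simp only [if_neg hb]
      rw [cd_zero, hB b hb]

theorem lower_transfer (J : Ideal (MvPolynomial (Fin n) k)) (P : (Fin n → ℕ) → Prop)
    (hJ : ∀ p, p ∈ J ↔ ∀ c ∈ p.support, P ⇑c) (i e : ℕ)
    (b : Fin n →₀ ℕ) (hb : ∑ v, b v = e + i)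
    (a : Finset (Fin n) → k) (ha : ∀ T, a T ≠ 0 → KK P b T ∧ T.card = i) (hc : ∀ T, cd a T = 0)
    (hne : ¬ ∃ g : Finset (Fin n) → k, (∀ T, g T ≠ 0 → KK P b T ∧ T.card = i + 1) ∧
      ∀ T, cd g T = a T) : TorNe J i e := by
  classical
  let f : Finset (Fin n) → MvPolynomial (Fin n) k := fun T => MvPolynomial.monomial (b - ind T) (a T)
  have hf : ∀ b' T, comp f b' T = if b' = b then a T else 0 := by
    intro b' T
    unfold comp
    simp only [f, MvPolynomial.coeff_monomial]
    by_cases h0 : a T = 0
    · simp [h0]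
    · have hle := (ha T h0).1.1
      by_cases h1 : b' = b
      · subst h1; simp [hle]
      · rw [if_neg h1]
        split_ifs with h2 h3
        · exfalso
          apply h1
          rw [← tsub_add_cancel_of_le hle, ← tsub_add_cancel_of_le h2, h3]
        · rfl
        · rfl
  refine ⟨f, ?_, ?_, ?_, ?_, ?_⟩
  · intro T
    rw [hJ]
    intro c hc'
    rw [MvPolynomial.mem_support_iff] at hc'
    simp only [f, MvPolynomial.coeff_monomial] at hc'
    split_ifs at hc' with h
    · rw [← h]; exact (ha T hc').1.2
    · exact absurd rfl hc'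
  · intro T
    by_cases h0 : a T = 0
    · simp only [f, h0, map_zero]
      exact MvPolynomial.isHomogeneous_zero _ _ _
    · refine MvPolynomial.isHomogeneous_monomial _ ?_
      have hle := (ha T h0).1.1
      have h3 : ∑ v, b v = ∑ v, (b - ind T) v + ∑ v, ind T v := by
        rw [← Finset.sum_add_distrib]
        refine Finset.sum_congr rfl fun v _ => ?_
        have := hle v
        simp only [Finsupp.coe_tsub, Pi.sub_apply]
        omega
      rw [sum_ind, (ha T h0).2, hb] at h3
      rw [Finsupp.degree_eq_sum]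
      omega
  · intro T hT
    have : a T = 0 := by
      by_contra h; exact hT (ha T h).2
    simp only [f, this, map_zero]
  · intro T
    ext c
    rw [← comp_add_ind, comp_koszulD, MvPolynomial.coeff_zero]
    set b' := c + ind T
    have : comp f b' = fun T => if b' = b then a T else 0 := by
      funext T; exact hf b' T
    rw [this]
    by_cases h : b' = b
    · simp only [if_pos h]; exact hc T
    · simp only [if_neg h]; exact cd_zero T
  · rintro ⟨g, hg1, hg2, hg3⟩
    apply hne
    refine ⟨comp g b, ?_, ?_⟩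
    · intro T hT
      unfold comp at hT
      split_ifs at hT with hle
      · refine ⟨⟨hle, (hJ _).mp (hg1 T) _ (MvPolynomial.mem_support_iff.mpr hT)⟩, ?_⟩
        by_contra h
        rw [hg2 T h] at hT
        simp at hT
      · exact absurd rfl hT
    · intro T
      rw [← comp_koszulD]
      have : comp (koszulD g) b T = comp f b T := by
        unfold comp; rw [hg3]
      rw [this, hf, if_pos rfl]

end Pool.Agent.H677R3.EdgeReg
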