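import Mathlib
import Pool.Agent.H677R3.RegKoszul

/-!
Degree vectors of multisets of edges of a graph, the exchange property, and powers of the edge
ideal.
-/

namespace Pool.Agent.H677R3.EdgeReg

open Finset

variable {n : ℕ}

/-- a multiset of edges, as a symmetric matrix of multiplicities -/
structure IsCfg (G : SimpleGraph (Fin n)) (A : Fin n → Fin n → ℕ) : Prop where
  symm : ∀ u v, A u v = A v u
  adj : ∀ u v, A u v ≠ 0 → G.Adj u v

/-- degree vector -/
def dg (A : Fin n → Fin n → ℕ) (u : Fin n) : ℕ := ∑ v, A u v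

/-- degree vectors of multisets of edges -/
def IsDeg (G : SimpleGraph (Fin n)) (d : Fin n → ℕ) : Prop := ∃ A, IsCfg G A ∧ ∀ x, dg A x = d x

/-- unit vector -/
def e1 (u x : Fin n) : ℕ := if x = u then 1 else 0

lemma e1_self (u : Fin n) : e1 u u = 1 := by simp [e1]
lemma e1_ne {u x : Fin n} (h : x ≠ u) : e1 u x = 0 := by simp [e1, h]
lemma sum_e1 (u : Fin n) : ∑ x, e1 u x = 1 := by simp [e1]

/-- matrix of one edge -/
def EE (u v x y : Fin n) : ℕ := if (x = u ∧ y = v) ∨ (x = v ∧ y = u) then 1 else 0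

lemma EE_symm (u v x y : Fin n) : EE u v x y = EE u v y x := by
  unfold EE
  congr 1
  exact propext (by constructor <;> (rintro (⟨h1, h2⟩ | ⟨h1, h2⟩) <;> tauto))

lemma sum_EE {u v : Fin n} (huv : u ≠ v) (x : Fin n) : ∑ y, EE u v x y = e1 u x + e1 v x := by
  unfold EE e1
  by_cases h1 : x = u
  · subst h1
    have : ∀ y, ((x = x ∧ y = v) ∨ (x = v ∧ y = x)) ↔ y = v := by
      intro y
      constructor
      · rintro (⟨_, h⟩ | ⟨h, _⟩)
        · exact h
        · exact absurd h huv
      · intro h; exact Or.inl ⟨rfl, h⟩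
    simp only [this]
    simp [huv]
  · by_cases h2 : x = v
    · subst h2
      have : ∀ y, ((x = u ∧ y = x) ∨ (x = x ∧ y = u)) ↔ y = u := by
        intro y
        constructor
        · rintro (⟨h, _⟩ | ⟨_, h⟩)
          · exact absurd h h1
          · exact h
        · intro h; exact Or.inr ⟨rfl, h⟩
      simp only [this]
      simp [h1]
    · simp [h1, h2]

lemma cfg_add {G : SimpleGraph (Fin n)} {A : Fin n → Fin n → ℕ} (hA : IsCfg G A) {u v : Fin n}
    (h : G.Adj u v) : IsCfg G (fun x y => A x y + EE u v x y) ∧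
      ∀ x, dg (fun x y => A x y + EE u v x y) x = dg A x + e1 u x + e1 v x := by
  refine ⟨⟨fun x y => by rw [hA.symm, EE_symm], ?_⟩, ?_⟩
  · intro x y hxy
    by_cases h1 : A x y = 0
    · have : EE u v x y ≠ 0 := by intro h2; apply hxy; simp only [h1, h2]
      unfold EE at this
      split_ifs at this with h3
      · rcases h3 with ⟨rfl, rfl⟩ | ⟨rfl, rfl⟩
        · exact h
        · exact h.symm
      · exact absurd rfl this
    · exact hA.adj _ _ h1
  · intro x
    unfold dg
    rw [Finset.sum_add_distrib, sum_EE h.ne, add_assoc]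

lemma cfg_sub {G : SimpleGraph (Fin n)} {A : Fin n → Fin n → ℕ} (hA : IsCfg G A) {u v : Fin n}
    (h : A u v ≠ 0) : ∃ A', IsCfg G A' ∧ (∀ x y, A' x y + EE u v x y = A x y) ∧
      ∀ x, dg A' x + e1 u x + e1 v x = dg A x := by
  have hadj := hA.adj _ _ h
  have hle : ∀ x y, EE u v x y ≤ A x y := by
    intro x y
    unfold EE
    split_ifs with h3
    · rcases h3 with ⟨rfl, rfl⟩ | ⟨rfl, rfl⟩
      · omega
      · rw [hA.symm]; omega
    · omega
  refine ⟨fun x y => A x y - EE u v x y, ⟨fun x y => by rw [hA.symm, EE_symm], ?_⟩, ?_, ?_⟩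
  · intro x y hxy
    exact hA.adj _ _ (by intro h1; apply hxy; simp only [h1]; omega)
  · intro x y
    have := hle x y
    beta_reduce
    omega
  · intro x
    have : dg A x = dg (fun x y => A x y - EE u v x y) x + (e1 u x + e1 v x) := by
      rw [← sum_EE hadj.ne]
      unfold dg
      rw [← Finset.sum_add_distrib]
      refine Finset.sum_congr rfl fun y _ => ?_
      have := hle x y
      beta_reduce
      omega
    rw [this, add_assoc]

/-- simultaneous exchange for degree vectors -/
theorem exch (G : SimpleGraph (Fin n)) : ∀ (N : ℕ) (A B : Fin n → Fin n → ℕ) (u : Fin n),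
    IsCfg G A → IsCfg G B → (∑ v, dg A v) + (∑ v, dg B v) ≤ N → dg A u < dg B u →
    (∃ v A' B', IsCfg G A' ∧ IsCfg G B' ∧ (∀ x, dg A' x = dg A x + e1 u x + e1 v x) ∧
      (∀ x, dg B' x + e1 u x + e1 v x = dg B x) ∧ dg A v + e1 u v < dg B v) ∨
    (∃ v A' B', v ≠ u ∧ IsCfg G A' ∧ IsCfg G B' ∧ (∀ x, dg A' x + e1 v x = dg A x + e1 u x) ∧
      (∀ x, dg B' x + e1 u x = dg B x + e1 v x) ∧ dg B v < dg A v) := by
  intro N
  induction N with
  | zero =>
    intro A B u hA hB hN hlt
    exfalso
    have : dg B u ≤ ∑ v, dg B v := Finset.single_le_sum (fun _ _ => Nat.zero_le _) (Finset.mem_univ u)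
    omega
  | succ N ih =>
    intro A B u hA hB hN hlt
    obtain ⟨p, _, hp⟩ : ∃ p ∈ Finset.univ, A u p < B u p := by
      apply Finset.exists_lt_of_sum_lt
      exact hlt
    have hBne : B u p ≠ 0 := by omega
    have hup : G.Adj u p := hB.adj _ _ hBne
    have hpu : p ≠ u := hup.ne'
    obtain ⟨B1, hB1, _, hB1d⟩ := cfg_sub hB hBne
    by_cases hcase : dg A p < dg B p
    · left
      refine ⟨p, _, B1, (cfg_add hA hup).1, hB1, (cfg_add hA hup).2, hB1d, ?_⟩
      rw [e1_ne hpu]; omega
    · have hB1p := hB1d p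
      rw [e1_ne hpu, e1_self] at hB1p
      have hlt' : dg B1 p < dg A p := by omega
      have hsum : (∑ v, dg B1 v) + 2 = ∑ v, dg B v := by
        have : ∑ v, dg B v = ∑ v, (dg B1 v + e1 u v + e1 p v) :=
          Finset.sum_congr rfl fun x _ => (hB1d x).symm
        rw [this, Finset.sum_add_distrib, Finset.sum_add_distrib, sum_e1, sum_e1]
      rcases ih B1 A p hB1 hA (by omega) hlt' with ⟨v, B2, A2, hB2, hA2, hB2d, hA2d, hv⟩ |
        ⟨v, B2, A2, hvp, hB2, hA2, hB2d, hA2d, hv⟩
      · -- (I')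
        right
        have hB1v := hB1d v
        have hvu : v ≠ u := by
          rintro rfl
          rw [e1_self, e1_ne hup.ne] at hB1v
          omega
        refine ⟨v, _, B2, hvu, (cfg_add hA2 hup).1, hB2, ?_, ?_, ?_⟩
        · intro x
          rw [(cfg_add hA2 hup).2]
          have := hA2d x
          omega
        · intro x
          have h1 := hB2d x
          have h2 := hB1d x
          omega
        · rw [e1_ne hvu] at hB1v
          omega
      · -- (II')
        left
        have hB1v := hB1d v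
        rw [e1_ne hvp] at hB1v
        refine ⟨v, _, B2, (cfg_add hA2 hup).1, hB2, ?_, ?_, ?_⟩
        · intro x
          rw [(cfg_add hA2 hup).2]
          have := hA2d x
          omega
        · intro x
          have h1 := hB2d x
          have h2 := hB1d x
          omega
        · omega

/-- if `m + s` dominates a degree vector with one more edge then one can add two unit vectors -/
theorem F1 (G : SimpleGraph (Fin n)) (m s : Fin n → ℕ) (hm : IsDeg G m) :
    ∀ (N : ℕ) (d : Fin n → ℕ), IsDeg G d → ∑ x, d x = ∑ x, m x + 2 → (∀ x, d x ≤ m x + s x) →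
    ∑ x, (m x - d x) ≤ N →
    ∃ u v, (∀ x, e1 u x + e1 v x ≤ s x) ∧ IsDeg G (fun x => m x + e1 u x + e1 v x) := by
  obtain ⟨A, hA, hAm⟩ := hm
  intro N
  induction N with
  | zero =>
    intro d ⟨B, hB, hBd⟩ hsum hle hN
    obtain ⟨u, _, hu⟩ : ∃ u ∈ Finset.univ, m u < d u :=
      Finset.exists_lt_of_sum_lt (by omega)
    rcases exch G _ A B u hA hB le_rfl (by rw [hAm, hBd]; exact hu) with
      ⟨v, A', B', hA', hB', hA'd, hB'd, hv⟩ | ⟨v, A', B', hvu, hA', hB', hA'd, hB'd, hv⟩
    · refine ⟨u, v, ?_, A', hA', fun x => by rw [hA'd, hAm]⟩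
      intro x
      have h1 := hB'd x
      have h2 := hle x
      rw [hBd] at h1
      by_cases hxu : x = u
      · subst hxu
        by_cases hxv : x = v
        · subst hxv
          rw [hAm, hBd, e1_self] at hv
          rw [e1_self]; omega
        · rw [e1_self, e1_ne hxv]; omega
      · by_cases hxv : x = v
        · subst hxv
          rw [hAm, hBd, e1_ne hxu] at hv
          rw [e1_self, e1_ne hxu]; omega
        · rw [e1_ne hxu, e1_ne hxv]; omega
    · exfalso
      rw [hAm, hBd] at hv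
      have : m v - d v ≤ ∑ x, (m x - d x) :=
        Finset.single_le_sum (f := fun x => m x - d x) (fun _ _ => Nat.zero_le _) (Finset.mem_univ v)
      omega
  | succ N ih =>
    intro d ⟨B, hB, hBd⟩ hsum hle hN
    obtain ⟨u, _, hu⟩ : ∃ u ∈ Finset.univ, m u < d u :=
      Finset.exists_lt_of_sum_lt (by omega)
    rcases exch G _ A B u hA hB le_rfl (by rw [hAm, hBd]; exact hu) with
      ⟨v, A', B', hA', hB', hA'd, hB'd, hv⟩ | ⟨v, A', B', hvu, hA', hB', hA'd, hB'd, hv⟩
    · refine ⟨u, v, ?_, A', hA', fun x => by rw [hA'd, hAm]⟩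
      intro x
      have h1 := hB'd x
      have h2 := hle x
      rw [hBd] at h1
      by_cases hxu : x = u
      · subst hxu
        by_cases hxv : x = v
        · subst hxv
          rw [hAm, hBd, e1_self] at hv
          rw [e1_self]; omega
        · rw [e1_self, e1_ne hxv]; omega
      · by_cases hxv : x = v
        · subst hxv
          rw [hAm, hBd, e1_ne hxu] at hv
          rw [e1_self, e1_ne hxu]; omega
        · rw [e1_ne hxu, e1_ne hxv]; omega
    · rw [hAm, hBd] at hv
      apply ih (dg B') ⟨B', hB', fun x => rfl⟩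
      · have h1 : ∑ x, (dg B' x + e1 u x) = ∑ x, (d x + e1 v x) :=
          Finset.sum_congr rfl fun x _ => by rw [hB'd, hBd]
        rw [Finset.sum_add_distrib, Finset.sum_add_distrib, sum_e1, sum_e1] at h1
        omega
      · intro x
        have h1 := hB'd x
        rw [hBd] at h1
        have h2 := hle x
        by_cases hxv : x = v
        · subst hxv
          rw [e1_self, e1_ne hvu] at h1
          omega
        · rw [e1_ne hxv] at h1
          omega
      · have h1 : ∑ x, (m x - dg B' x) < ∑ x, (m x - d x) := by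
          apply Finset.sum_lt_sum
          · intro x _
            have h1 := hB'd x
            rw [hBd] at h1
            by_cases hxu : x = u
            · subst hxu
              rw [e1_self, e1_ne hvu.symm] at h1
              omega
            · rw [e1_ne hxu] at h1
              omega
          · refine ⟨v, Finset.mem_univ _, ?_⟩
            have h1 := hB'd v
            rw [hBd, e1_self, e1_ne hvu] at h1
            omega
        omega

/-- the exchange used for the canonical choice -/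
theorem F2 (G : SimpleGraph (Fin n)) (m m' s : Fin n → ℕ) (hm : IsDeg G m) (hm' : IsDeg G m')
    (hle : ∀ x, m' x ≤ m x + s x) (u : Fin n)
    (hu : m u < m' u) (hlt : ∀ j, j < u → m j = m' j) :
    (∃ v w, (∀ x, e1 v x + e1 w x ≤ s x) ∧ IsDeg G (fun x => m x + e1 v x + e1 w x)) ∨
    (∃ m'' v, u < v ∧ IsDeg G m'' ∧ ∀ x, m'' x + e1 v x = m x + e1 u x) := by
  obtain ⟨A, hA, hAm⟩ := hm
  obtain ⟨B, hB, hBd⟩ := hm'
  rcases exch G _ A B u hA hB le_rfl (by rw [hAm, hBd]; exact hu) with
    ⟨v, A', B', hA', hB', hA'd, hB'd, hv⟩ | ⟨v, A', B', hvu, hA', hB', hA'd, hB'd, hv⟩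
  · left
    refine ⟨u, v, ?_, A', hA', fun x => by rw [hA'd, hAm]⟩
    intro x
    have h1 := hB'd x
    have h2 := hle x
    rw [hBd] at h1
    by_cases hxu : x = u
    · subst hxu
      by_cases hxv : x = v
      · subst hxv
        rw [hAm, hBd, e1_self] at hv
        rw [e1_self]; omega
      · rw [e1_self, e1_ne hxv]; omega
    · by_cases hxv : x = v
      · subst hxv
        rw [hAm, hBd, e1_ne hxu] at hv
        rw [e1_self, e1_ne hxu]; omega
      · rw [e1_ne hxu, e1_ne hxv]; omega
  · right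
    refine ⟨dg A', v, ?_, ⟨A', hA', fun x => rfl⟩, fun x => by rw [hA'd, hAm]⟩
    rw [hAm, hBd] at hv
    rcases lt_trichotomy v u with h | h | h
    · have := hlt v h; omega
    · exact absurd h hvu
    · exact h

/-- loops do not occur next to a ridge in at most two facets -/
theorem no_loop (G : SimpleGraph (Fin n)) (m : Fin n → ℕ) (hm : IsDeg G m) (w ps : Fin n)
    (Z : Finset (Fin n))
    (ha : ∀ z ∈ Z, ¬ IsDeg G (fun x => m x + e1 w x + e1 z x))
    (hb : ∀ p, p ≠ w → p ≠ ps → p ∉ Z → ∃ z ∈ Z, G.Adj p z) :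
    ¬ IsDeg G (fun x => m x + e1 w x + e1 w x) := by
  obtain ⟨A, hA, hAm⟩ := hm
  rintro ⟨B, hB, hBd0⟩
  have hBd : ∀ x, dg B x = m x + e1 w x + e1 w x := hBd0
  -- key claim
  have key : ∀ (p : Fin n) (Y : Fin n → Fin n → ℕ), IsCfg G Y → (∀ x, dg Y x + e1 p x = m x + e1 w x) →
      ∀ z ∈ Z, ¬ G.Adj p z := by
    intro p Y hY hYd z hz hadj
    apply ha z hz
    refine ⟨_, (cfg_add hY hadj).1, ?_⟩
    intro x
    rw [(cfg_add hY hadj).2]
    have := hYd x
    beta_reduce
    omega
  have hBw : ∀ p, B w p ≠ 0 → p = ps ∧ G.Adj w p ∧ ∀ z ∈ Z, ¬ G.Adj p z := by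
    intro p hp
    have hadj := hB.adj _ _ hp
    obtain ⟨B', hB', _, hB'd⟩ := cfg_sub hB hp
    have h1 : ∀ z ∈ Z, ¬ G.Adj p z := by
      apply key p B' hB'
      intro x
      have h1 := hB'd x
      have h2 := hBd x
      omega
    refine ⟨?_, hadj, h1⟩
    by_contra hne
    have hpZ : p ∉ Z := by
      intro hpZ
      apply ha p hpZ
      exact ⟨_, (cfg_add hA hadj).1, fun x => by rw [(cfg_add hA hadj).2, hAm]⟩
    obtain ⟨z, hz, hz2⟩ := hb p hadj.ne' hne hpZ
    exact h1 z hz hz2
  have hBww : dg B w = m w + 2 := by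
    rw [hBd, e1_self]
  have hBps : dg B w = B w ps := by
    unfold dg
    rw [Finset.sum_eq_single ps]
    · intro p _ hp
      by_contra h
      exact hp (hBw p h).1
    · intro h; exact absurd (Finset.mem_univ _) h
  have hne0 : B w ps ≠ 0 := by omega
  obtain ⟨_, hadj, hpsZ⟩ := hBw ps hne0
  have hps : m w + 2 ≤ m ps := by
    have h1 : dg B ps = m ps := by
      rw [hBd, e1_ne hadj.ne']; omega
    have h2 : B ps w ≤ dg B ps := by
      unfold dg
      exact Finset.single_le_sum (f := fun y => B ps y) (fun _ _ => Nat.zero_le _) (Finset.mem_univ w)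
    rw [hB.symm ps w] at h2
    omega
  -- an edge of A at ps not going to w
  obtain ⟨r, hrw, hr⟩ : ∃ r, r ≠ w ∧ A ps r ≠ 0 := by
    by_contra hcon
    push Not at hcon
    have h1 : dg A ps = A ps w := by
      unfold dg
      rw [Finset.sum_eq_single w]
      · intro p _ hp
        exact hcon p hp
      · intro h; exact absurd (Finset.mem_univ _) h
    have h2 : A w ps ≤ dg A w := by
      unfold dg
      exact Finset.single_le_sum (f := fun y => A w y) (fun _ _ => Nat.zero_le _) (Finset.mem_univ ps)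
    rw [hA.symm w ps, ← h1, hAm, hAm] at h2
    omega
  have hadjr := hA.adj _ _ hr
  obtain ⟨A', hA', _, hA'd⟩ := cfg_sub hA hr
  have h1 : ∀ z ∈ Z, ¬ G.Adj r z := by
    apply key r _ (cfg_add hA' hadj).1
    intro x
    rw [(cfg_add hA' hadj).2]
    have h2 := hA'd x
    rw [hAm] at h2
    omega
  have hrZ : r ∉ Z := fun h => hpsZ r h hadjr
  obtain ⟨z, hz, hz2⟩ := hb r hrw hadjr.ne' hrZ
  exact h1 z hz hz2

/-- exponents of the monomials of `I(G)^q` -/
def Up (G : SimpleGraph (Fin n)) (q : ℕ) (c : Fin n → ℕ) : Prop :=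
  ∃ d, IsDeg G d ∧ ∑ x, d x = 2 * q ∧ ∀ x, d x ≤ c x

/-- the edge ideal -/
noncomputable def edgeIdeal (k : Type*) [Field k] (G : SimpleGraph (Fin n)) :
    Ideal (MvPolynomial (Fin n) k) :=
  Ideal.span {f | ∃ i j : Fin n, G.Adj i j ∧ f = MvPolynomial.X i * MvPolynomial.X j}

lemma isDeg_zero (G : SimpleGraph (Fin n)) : IsDeg G (fun _ => 0) :=
  ⟨fun _ _ => 0, ⟨fun _ _ => rfl, fun _ _ h => absurd rfl h⟩, fun x => by simp [dg]⟩

lemma isDeg_add {G : SimpleGraph (Fin n)} {d : Fin n → ℕ} (hd : IsDeg G d) {u v : Fin n}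
    (h : G.Adj u v) : IsDeg G (fun x => d x + e1 u x + e1 v x) := by
  obtain ⟨A, hA, hAd⟩ := hd
  exact ⟨_, (cfg_add hA h).1, fun x => by rw [(cfg_add hA h).2, hAd]⟩

lemma isDeg_sub {G : SimpleGraph (Fin n)} {d : Fin n → ℕ} (hd : IsDeg G d) {u : Fin n}
    (hu : d u ≠ 0) : ∃ v d', G.Adj u v ∧ IsDeg G d' ∧ ∀ x, d' x + e1 u x + e1 v x = d x := by
  obtain ⟨A, hA, hAd⟩ := hd
  obtain ⟨v, _, hv⟩ : ∃ v ∈ Finset.univ, A u v ≠ 0 := by
    apply Finset.exists_ne_zero_of_sum_ne_zero
    have := hAd u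
    unfold dg at this
    rw [this]; exact hu
  obtain ⟨A', hA', _, hA'd⟩ := cfg_sub hA hv
  exact ⟨v, dg A', hA.adj _ _ hv, ⟨A', hA', fun x => rfl⟩, fun x => by rw [hA'd, hAd]⟩

lemma single_eq_e1 (i x : Fin n) : (Finsupp.single i 1 : Fin n →₀ ℕ) x = e1 i x := by
  rw [Finsupp.single_apply]
  unfold e1
  simp only [eq_comm]

lemma span_pow (k : Type*) [Field k] (G : SimpleGraph (Fin n)) (q : ℕ) :
    (edgeIdeal k G) ^ q = Ideal.span ((fun c => MvPolynomial.monomial c (1 : k)) ''
      {c : Fin n →₀ ℕ | IsDeg G ⇑c ∧ ∑ x, c x = 2 * q}) := by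
  induction q with
  | zero =>
    rw [pow_zero, Ideal.one_eq_top, eq_comm, Ideal.eq_top_iff_one]
    apply Ideal.subset_span
    refine ⟨0, ⟨?_, by simp⟩, by simp⟩
    exact isDeg_zero G
  | succ q ih =>
    rw [pow_succ, ih]
    unfold edgeIdeal
    rw [Ideal.span_mul_span']
    congr 1
    ext p
    rw [Set.mem_mul]
    constructor
    · rintro ⟨_, ⟨c, ⟨hc1, hc2⟩, rfl⟩, _, ⟨i, j, hij, rfl⟩, rfl⟩
      have hcf : ∀ x, (c + (Finsupp.single i 1 + Finsupp.single j 1) : Fin n →₀ ℕ) x =
          c x + e1 i x + e1 j x := by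
        intro x
        rw [Finsupp.add_apply, Finsupp.add_apply, single_eq_e1, single_eq_e1, add_assoc]
      refine ⟨c + (Finsupp.single i 1 + Finsupp.single j 1), ⟨?_, ?_⟩, ?_⟩
      · have := isDeg_add hc1 hij
        rw [show (⇑(c + (Finsupp.single i 1 + Finsupp.single j 1) : Fin n →₀ ℕ)) =
          fun x => c x + e1 i x + e1 j x from funext hcf]
        exact this
      · rw [Finset.sum_congr rfl (fun x _ => hcf x), Finset.sum_add_distrib, Finset.sum_add_distrib,
          hc2, sum_e1, sum_e1]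
        ring
      · simp only [MvPolynomial.X, MvPolynomial.monomial_mul, mul_one]
    · rintro ⟨c, ⟨hc1, hc2⟩, rfl⟩
      obtain ⟨u, hu⟩ : ∃ u, c u ≠ 0 := by
        by_contra h
        push Not at h
        rw [Finset.sum_eq_zero (fun x _ => h x)] at hc2
        omega
      obtain ⟨v, d', hadj, hd', hd'2⟩ := isDeg_sub hc1 hu
      refine ⟨MvPolynomial.monomial (Finsupp.equivFunOnFinite.symm d') 1,
        ⟨Finsupp.equivFunOnFinite.symm d', ⟨hd', ?_⟩, rfl⟩,
        MvPolynomial.X u * MvPolynomial.X v, ⟨u, v, hadj, rfl⟩, ?_⟩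
      · have : ∑ x, c x = ∑ x, (d' x + e1 u x + e1 v x) := Finset.sum_congr rfl fun x _ => (hd'2 x).symm
        rw [this, Finset.sum_add_distrib, Finset.sum_add_distrib, sum_e1, sum_e1] at hc2
        simp only [Finsupp.equivFunOnFinite_symm_apply_apply]
        omega
      · simp only [MvPolynomial.X, MvPolynomial.monomial_mul, mul_one]
        have : Finsupp.equivFunOnFinite.symm d' + (Finsupp.single u 1 + Finsupp.single v 1) = c := by
          refine Finsupp.ext fun x => ?_
          rw [Finsupp.add_apply, Finsupp.add_apply, single_eq_e1, single_eq_e1, ← add_assoc]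
          exact hd'2 x
        rw [this]

lemma mem_pow (k : Type*) [Field k] (G : SimpleGraph (Fin n)) (q : ℕ) (p : MvPolynomial (Fin n) k) :
    p ∈ (edgeIdeal k G) ^ q ↔ ∀ c ∈ p.support, Up G q ⇑c := by
  rw [span_pow, MvPolynomial.mem_ideal_span_monomial_image]
  constructor
  · intro h c hc
    obtain ⟨s, ⟨hs1, hs2⟩, hs3⟩ := h c hc
    exact ⟨s, hs1, hs2, fun x => hs3 x⟩
  · intro h c hc
    obtain ⟨d, hd1, hd2, hd3⟩ := h c hc
    refine ⟨Finsupp.equivFunOnFinite.symm d, ⟨hd1, hd2⟩, fun x => hd3 x⟩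

end Pool.Agent.H677R3.EdgeReg
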