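import Mathlib
import Pool.Agent.H677R3.RegDeg
import Pool.Agent.H677R3.AbHom

/-!
The relation `C_m(u,v)`: `m + e_u + e_v` is a degree vector.  Exchange facts.
-/

set_option linter.unusedSectionVars false

namespace Pool.Agent.H677R3.Ab

open Finset EdgeReg

variable {n : ℕ} {G : SimpleGraph (Fin n)}

/-- pairs whose product with `m` is again a product of edges -/
def CC (G : SimpleGraph (Fin n)) (m : Fin n → ℕ) (a b : Fin n) : Prop :=
  IsDeg G (fun x => m x + e1 a x + e1 b x)

lemma CC.out {m : Fin n → ℕ} {a b : Fin n} (h : CC G m a b) :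
    ∃ B, IsCfg G B ∧ ∀ x, dg B x = m x + e1 a x + e1 b x := h

lemma isDeg_congr {d d' : Fin n → ℕ} (h : IsDeg G d) (hd : ∀ x, d x = d' x) : IsDeg G d' := by
  have : d = d' := funext hd
  rwa [← this]

lemma CC.symm {m : Fin n → ℕ} {a b : Fin n} (h : CC G m a b) : CC G m b a :=
  isDeg_congr h fun x => by ring

lemma CC.adj {m : Fin n → ℕ} (hm : IsDeg G m) {a b : Fin n} (h : G.Adj a b) : CC G m a b :=
  isDeg_add hm h

/-- adding an edge -/
lemma fact1 {m m' : Fin n → ℕ} {x y : Fin n} (hxy : G.Adj x y) (hm : ∀ z, m z = m' z + e1 x z + e1 y z)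
    {u v : Fin n} (h : CC G m' u v) : CC G m u v :=
  isDeg_congr (isDeg_add h hxy) fun z => by rw [hm]; ring

lemma fact2 {m m' : Fin n → ℕ} (hm' : IsDeg G m') {x y : Fin n}
    (hm : ∀ z, m z = m' z + e1 x z + e1 y z) {u v : Fin n} (h : CC G m u v) :
    CC G m' u v ∨ (CC G m' u x ∧ CC G m' v y) ∨ (CC G m' u y ∧ CC G m' v x) := by
  obtain ⟨A, hA, hAd⟩ := hm'
  obtain ⟨B, hB, hBd⟩ := h.out
  have hBd' : ∀ z, dg B z = m' z + e1 x z + e1 y z + e1 u z + e1 v z := fun z => by
    rw [hBd, hm]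
  rcases exch G _ A B u hA hB le_rfl (by rw [hAd, hBd', e1_self]; omega) with
    ⟨w, A', B', hA', hB', hA'd, hB'd, hw⟩ | ⟨w, A', B', hwu, hA', hB', hA'd, hB'd, hw⟩
  · rw [hAd, hBd'] at hw
    by_cases hwv : w = v
    · subst hwv
      exact Or.inl ⟨A', hA', fun z => by rw [hA'd, hAd]⟩
    · rw [e1_ne hwv] at hw
      by_cases hwx : w = x
      · subst hwx
        refine Or.inr (Or.inl ⟨⟨A', hA', fun z => by rw [hA'd, hAd]⟩, B', hB', fun z => ?_⟩)
        have h1 := hB'd z
        rw [hBd'] at h1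
        beta_reduce
        omega
      · by_cases hwy : w = y
        · subst hwy
          refine Or.inr (Or.inr ⟨⟨A', hA', fun z => by rw [hA'd, hAd]⟩, B', hB', fun z => ?_⟩)
          have h1 := hB'd z
          rw [hBd'] at h1
          beta_reduce
          omega
        · rw [e1_ne hwx, e1_ne hwy] at hw
          omega
  · rw [hAd, hBd'] at hw
    omega

lemma fact3 {m m' : Fin n → ℕ} {x y : Fin n} (hxy : G.Adj x y)
    (hm : ∀ z, m z = m' z + e1 x z + e1 y z) {u v : Fin n} (h1 : CC G m' u x) (h2 : CC G m' v y) :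
    CC G m u v ∨ (CC G m' u y ∧ CC G m' v x) := by
  by_cases huy : u = y
  · subst huy
    exact Or.inl (isDeg_congr (isDeg_add h2 hxy) fun z => by rw [hm]; ring)
  by_cases hvx : v = x
  · subst hvx
    exact Or.inl (isDeg_congr (isDeg_add h1 hxy) fun z => by rw [hm]; ring)
  obtain ⟨A, hA, hAd⟩ := h1.out
  obtain ⟨B, hB, hBd⟩ := h2.out
  rcases exch G _ A B y hA hB le_rfl (by
      rw [hAd, hBd, e1_self, e1_ne (Ne.symm huy), e1_ne hxy.ne']; omega) with
    ⟨w, A', B', hA', hB', hA'd, hB'd, hw⟩ | ⟨w, A', B', hwy, hA', hB', hA'd, hB'd, hw⟩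
  · rw [hAd, hBd] at hw
    by_cases hwv : w = v
    · subst hwv
      refine Or.inl ⟨A', hA', fun z => ?_⟩
      beta_reduce
      rw [hA'd, hAd, hm]; ring
    · rw [e1_ne hwv] at hw
      omega
  · rw [hAd, hBd] at hw
    by_cases hwu : w = u
    · subst hwu
      left
      have h3 : CC G m' w v := by
        refine ⟨B', hB', fun z => ?_⟩
        have := hB'd z
        rw [hBd] at this
        beta_reduce
        omega
      exact fact1 hxy hm h3
    · rw [e1_ne hwu] at hw
      by_cases hwx : w = x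
      · subst hwx
        right
        refine ⟨⟨A', hA', fun z => ?_⟩, ⟨B', hB', fun z => ?_⟩⟩
        · have := hA'd z
          rw [hAd] at this
          beta_reduce
          omega
        · have := hB'd z
          rw [hBd] at this
          beta_reduce
          omega
      · rw [e1_ne hwx] at hw
        omega

/-- the vertices `s` of the support of `m` that can be replaced by `u` -/
def DU (G : SimpleGraph (Fin n)) (m : Fin n → ℕ) (u s : Fin n) : Prop :=
  ∃ d, IsDeg G d ∧ ∀ z, d z + e1 s z = m z + e1 u z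

/-- no edge of `m` distinguishes `u` -/
def Irr (G : SimpleGraph (Fin n)) (m : Fin n → ℕ) (u : Fin n) : Prop :=
  ∀ x y m', G.Adj x y → IsDeg G m' → (∀ z, m z = m' z + e1 x z + e1 y z) → (CC G m' u x ↔ CC G m' u y)

lemma du_of_cc {m m' : Fin n → ℕ} {x y u : Fin n} (hm : ∀ z, m z = m' z + e1 x z + e1 y z)
    (h : CC G m' u x) : DU G m u y :=
  ⟨_, h, fun z => by rw [hm]; ring⟩

lemma du_nbr {m : Fin n → ℕ} (hm : IsDeg G m) {u : Fin n} (hirr : Irr G m u) {t : Fin n}
    (ht : m t ≠ 0) (hut : G.Adj u t) : DU G m u t := by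
  obtain ⟨s, m', hts, hm', hm's⟩ := isDeg_sub hm ht
  have h1 : ∀ z, m z = m' z + e1 s z + e1 t z := fun z => by have := hm's z; omega
  have h2 : CC G m' u t := CC.adj hm' hut
  have h3 : CC G m' u s := (hirr s t m' hts.symm hm' h1).mpr h2
  exact du_of_cc h1 h3

lemma du_closed {m : Fin n → ℕ} (hm : IsDeg G m) {u : Fin n} (hirr : Irr G m u) {d s : Fin n}
    (hd : DU G m u d) (hs : m s ≠ 0) (hds : G.Adj d s) : DU G m u s := by
  obtain ⟨t, m', hst, hm', hm's⟩ := isDeg_sub hm hs
  have h1 : ∀ z, m z = m' z + e1 t z + e1 s z := fun z => by have := hm's z; omega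
  obtain ⟨dd, hdd, hdd2⟩ := hd
  obtain ⟨B, hB, hBd⟩ := isDeg_add hdd hds
  have hBd' : ∀ z, dg B z = m' z + e1 s z + e1 t z + e1 u z + e1 s z := fun z => by
    rw [hBd]; have := hdd2 z; have := h1 z; beta_reduce; omega
  obtain ⟨A, hA, hAd⟩ := hm'
  have key : CC G m' u s ∨ CC G m' u t := by
    rcases exch G _ A B u hA hB le_rfl (by rw [hAd, hBd', e1_self]; omega) with
      ⟨w, A', B', hA', hB', hA'd, hB'd, hw⟩ | ⟨w, A', B', hwu, hA', hB', hA'd, hB'd, hw⟩
    · rw [hAd, hBd'] at hw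
      by_cases hws : w = s
      · subst hws
        exact Or.inl ⟨A', hA', fun z => by rw [hA'd, hAd]⟩
      · rw [e1_ne hws] at hw
        by_cases hwt : w = t
        · subst hwt
          exact Or.inr ⟨A', hA', fun z => by rw [hA'd, hAd]⟩
        · rw [e1_ne hwt] at hw
          omega
    · rw [hAd, hBd'] at hw
      omega
  have h3 := hirr t s m' hst.symm ⟨A, hA, hAd⟩ h1
  have h4 : CC G m' u t := by tauto
  exact du_of_cc h1 h4

/-- the component of `s0` in the support of `m` -/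
def Comp (G : SimpleGraph (Fin n)) (m : Fin n → ℕ) (s0 : Fin n) : Fin n → Prop :=
  Relation.ReflTransGen (fun a b => G.Adj a b ∧ m b ≠ 0) s0

lemma comp_supp {m : Fin n → ℕ} {s0 : Fin n} (h0 : m s0 ≠ 0) {s : Fin n} (h : Comp G m s0 s) : m s ≠ 0 := by
  induction h with
  | refl => exact h0
  | tail _ h2 _ => exact h2.2

lemma comp_closed {m : Fin n → ℕ} {s0 : Fin n} {s t : Fin n} (h : Comp G m s0 s) (hst : G.Adj s t)
    (ht : m t ≠ 0) : Comp G m s0 t :=
  Relation.ReflTransGen.tail h ⟨hst, ht⟩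

lemma du_comp {m : Fin n → ℕ} (hm : IsDeg G m) {u : Fin n} (hirr : Irr G m u) {s0 : Fin n}
    (h0 : m s0 ≠ 0) {d s : Fin n} (hd : Comp G m s0 d) (hs : Comp G m s0 s) (hdu : DU G m u d) :
    DU G m u s := by
  have h1 : DU G m u s0 := by
    induction hd with
    | refl => exact hdu
    | tail h2 h3 ih => exact ih (du_closed hm hirr hdu (comp_supp h0 h2) h3.1.symm)
  induction hs with
  | refl => exact h1
  | tail _ h3 ih => exact du_closed hm hirr ih h3.2 h3.1

/-- `u` has a neighbour in `K` -/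
def Touch (G : SimpleGraph (Fin n)) (Kp : Fin n → Prop) (u : Fin n) : Prop := ∃ t, Kp t ∧ G.Adj u t

lemma even_sum {B : Fin n → Fin n → ℕ} (hs : ∀ a b, B a b = B b a) (h0 : ∀ a, B a a = 0)
    (S : Finset (Fin n)) : Even (∑ a ∈ S, ∑ b ∈ S, B a b) := by
  induction S using Finset.induction_on with
  | empty => simp
  | insert c S hc ih =>
    rw [Finset.sum_insert hc]
    have h1 : ∀ a, ∑ b ∈ insert c S, B a b = B a c + ∑ b ∈ S, B a b := fun a => Finset.sum_insert hc
    simp only [h1, Finset.sum_add_distrib, h0]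
    have h2 : ∑ b ∈ S, B b c = ∑ b ∈ S, B c b := Finset.sum_congr rfl fun b _ => hs b c
    rw [h2]
    have : 0 + ∑ b ∈ S, B c b + (∑ b ∈ S, B c b + ∑ a ∈ S, ∑ b ∈ S, B a b) =
      2 * (∑ b ∈ S, B c b) + ∑ a ∈ S, ∑ b ∈ S, B a b := by ring
    rw [this]
    exact Even.add (even_two_mul _) ih

lemma cfg_diag {B : Fin n → Fin n → ℕ} (hB : IsCfg G B) (a : Fin n) : B a a = 0 := by
  by_contra h
  exact (hB.adj a a h).ne rfl

open Classical in
/-- restriction of a vector -/
noncomputable def off (Kp : Fin n → Prop) (m : Fin n → ℕ) (x : Fin n) : ℕ := if Kp x then 0 else m x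

open Classical in
/-- restriction of a vector -/
noncomputable def onn (Kp : Fin n → Prop) (m : Fin n → ℕ) (x : Fin n) : ℕ := if Kp x then m x else 0

lemma off_add_onn (Kp : Fin n → Prop) (m : Fin n → ℕ) (x : Fin n) : off Kp m x + onn Kp m x = m x := by
  unfold off onn; split_ifs <;> simp

open Classical in
/-- restricting a configuration with no edge crossing -/
lemma isDeg_off {Kp : Fin n → Prop} {B : Fin n → Fin n → ℕ} (hB : IsCfg G B)
    (h : ∀ a b, Kp a → ¬ Kp b → B a b = 0) : IsDeg G (off Kp (dg B)) ∧ IsDeg G (onn Kp (dg B)) := by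
  have hB2 : ∀ a b, B a b ≠ 0 → (Kp a ↔ Kp b) := by
    intro a b hab
    constructor
    · intro ha; by_contra hb; exact hab (h a b ha hb)
    · intro hb; by_contra ha; exact hab (by rw [hB.symm]; exact h b a hb ha)
  constructor
  · refine ⟨fun a b => if Kp a then 0 else B a b, ⟨?_, ?_⟩, ?_⟩
    · intro a b
      by_cases hab : B a b = 0
      · have : B b a = 0 := by rw [hB.symm]; exact hab
        beta_reduce
        rw [hab, this]; simp
      · have := hB2 a b hab
        beta_reduce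
        simp only [this]
        rw [hB.symm a b]
    · intro a b hab
      beta_reduce at hab
      split_ifs at hab
      · exact absurd rfl hab
      · exact hB.adj a b hab
    · intro x
      unfold dg off
      by_cases hx : Kp x
      · simp [hx]
      · simp [hx]
  · refine ⟨fun a b => if Kp a then B a b else 0, ⟨?_, ?_⟩, ?_⟩
    · intro a b
      by_cases hab : B a b = 0
      · have : B b a = 0 := by rw [hB.symm]; exact hab
        beta_reduce
        rw [hab, this]; simp
      · have := hB2 a b hab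
        beta_reduce
        simp only [this]
        rw [hB.symm a b]
    · intro a b hab
      beta_reduce at hab
      split_ifs at hab
      · exact hB.adj a b hab
      · exact absurd rfl hab
    · intro x
      unfold dg onn
      by_cases hx : Kp x
      · simp [hx]
      · simp [hx]

lemma isDeg_sum {d d' : Fin n → ℕ} (h : IsDeg G d) (h' : IsDeg G d') : IsDeg G (fun x => d x + d' x) := by
  obtain ⟨A, hA, hAd⟩ := h
  obtain ⟨B, hB, hBd⟩ := h'
  refine ⟨fun a b => A a b + B a b, ⟨fun a b => by rw [hA.symm, hB.symm], ?_⟩, ?_⟩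
  · intro a b hab
    by_cases h1 : A a b = 0
    · exact hB.adj a b (by intro h2; apply hab; beta_reduce; rw [h1, h2])
    · exact hA.adj a b h1
  · intro x
    unfold dg
    rw [Finset.sum_add_distrib]
    have h1 := hAd x
    have h2 := hBd x
    unfold dg at h1 h2
    rw [h1, h2]

lemma le_dg (B : Fin n → Fin n → ℕ) (a b : Fin n) : B a b ≤ dg B a := by
  unfold dg
  exact Finset.single_le_sum (f := fun y => B a y) (fun _ _ => Nat.zero_le _) (Finset.mem_univ b)

/-- data of a component of the support of `m` -/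
structure IsComp (G : SimpleGraph (Fin n)) (m : Fin n → ℕ) (Kp : Fin n → Prop) : Prop where
  supp : ∀ s, Kp s → m s ≠ 0
  closed : ∀ s t, Kp s → G.Adj s t → m t ≠ 0 → Kp t

lemma IsComp.cross {m : Fin n → ℕ} {Kp : Fin n → Prop} (hK : IsComp G m Kp)
    {A : Fin n → Fin n → ℕ} (hA : IsCfg G A) (hAd : ∀ x, dg A x = m x) :
    ∀ a b, Kp a → ¬ Kp b → A a b = 0 := by
  intro a b ha hb
  by_contra h
  apply hb
  apply hK.closed a b ha (hA.adj a b h)
  have h1 := le_dg A b a
  rw [hA.symm b a, hAd] at h1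
  omega

lemma IsComp.deg {m : Fin n → ℕ} {Kp : Fin n → Prop} (hK : IsComp G m Kp) (hm : IsDeg G m) :
    IsDeg G (off Kp m) ∧ IsDeg G (onn Kp m) := by
  obtain ⟨A, hA, hAd⟩ := hm
  have h := isDeg_off hA (hK.cross hA hAd)
  have h2 : dg A = m := funext hAd
  rwa [h2] at h

lemma IsComp.touch {m : Fin n → ℕ} {Kp : Fin n → Prop} (hK : IsComp G m Kp) (hm : IsDeg G m)
    {v : Fin n} (hv : Kp v) : Touch G Kp v := by
  obtain ⟨t, m', hvt, hm', hm's⟩ := isDeg_sub hm (hK.supp v hv)
  refine ⟨t, hK.closed v t hv hvt ?_, hvt⟩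
  have := hm's t
  rw [e1_self] at this
  omega

lemma cc_off {m : Fin n → ℕ} {Kp : Fin n → Prop} (hK : IsComp G m Kp) (hm : IsDeg G m) {u v : Fin n}
    (h : CC G m u v) (hv : ¬ Touch G Kp v) : CC G (off Kp m) u v := by
  classical
  have hvK : ¬ Kp v := fun h => hv (hK.touch hm h)
  obtain ⟨A, hA, hAd⟩ := hm
  obtain ⟨B, hB, hBd⟩ := h.out
  have hcr : ∀ a b, Kp a → ¬ Kp b → B a b ≠ 0 → b = u ∧ m u = 0 ∧ u ≠ v := by
    intro a b ha hb hab
    have hadj := hB.adj a b hab
    have h1 := le_dg B b a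
    rw [hB.symm b a, hBd] at h1
    have hmb : m b = 0 := by
      by_contra h2
      exact hb (hK.closed a b ha hadj h2)
    have hbv : b ≠ v := by
      rintro rfl
      exact hv ⟨a, ha, hadj.symm⟩
    have hbu : b = u := by
      by_contra hbu
      rw [e1_ne hbu, e1_ne hbv] at h1
      omega
    exact ⟨hbu, hbu ▸ hmb, hbu ▸ hbv⟩
  let S := Finset.univ.filter Kp
  have hmemS : ∀ a, a ∈ S ↔ Kp a := fun a => by simp [S]
  have e1' : Even (∑ a ∈ S, m a) := by
    have h1 : ∑ a ∈ S, m a = ∑ a ∈ S, ∑ b ∈ S, A a b := by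
      refine Finset.sum_congr rfl fun a ha => ?_
      rw [← hAd a]
      unfold dg
      symm
      apply Finset.sum_subset (Finset.subset_univ _)
      intro b _ hb
      exact hK.cross hA hAd a b ((hmemS a).mp ha) (fun h => hb ((hmemS b).mpr h))
    rw [h1]
    exact even_sum hA.symm (cfg_diag hA) S
  have e2' := even_sum hB.symm (cfg_diag hB) S
  have e3 : ∑ a ∈ S, dg B a = ∑ a ∈ S, ∑ b ∈ S, B a b + ∑ a ∈ S, ∑ b ∈ Sᶜ, B a b := by
    rw [← Finset.sum_add_distrib]
    refine Finset.sum_congr rfl fun a _ => ?_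
    unfold dg
    rw [Finset.sum_add_sum_compl]
  have e4 : ∑ a ∈ S, dg B a = ∑ a ∈ S, m a + (if Kp u then 1 else 0) := by
    have h1 : ∀ a ∈ S, dg B a = m a + e1 u a := by
      intro a ha
      rw [hBd, e1_ne (show a ≠ v by rintro rfl; exact hvK ((hmemS _).mp ha)), add_zero]
    rw [Finset.sum_congr rfl h1, Finset.sum_add_distrib]
    congr 1
    unfold e1
    rw [Finset.sum_ite_eq' S u]
    simp only [hmemS]
  have hE : ∑ a ∈ S, ∑ b ∈ Sᶜ, B a b = 0 := by
    by_contra hne
    obtain ⟨a, ha, hne2⟩ := Finset.exists_ne_zero_of_sum_ne_zero hne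
    obtain ⟨b, hb, hne3⟩ := Finset.exists_ne_zero_of_sum_ne_zero hne2
    have hbK : ¬ Kp b := fun h => (Finset.mem_compl.mp hb) ((hmemS b).mpr h)
    obtain ⟨rfl, hmu, huv⟩ := hcr a b ((hmemS a).mp ha) hbK hne3
    have h1 : ∑ a ∈ S, ∑ b' ∈ Sᶜ, B a b' = ∑ a ∈ S, B a b := by
      refine Finset.sum_congr rfl fun a ha => ?_
      apply Finset.sum_eq_single b
      · intro b' hb' hbb
        by_contra h
        exact hbb (hcr a b' ((hmemS a).mp ha) (fun h => (Finset.mem_compl.mp hb') ((hmemS b').mpr h)) h).1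
      · intro h; exact absurd hb h
    have h2 : ∑ a ∈ S, B a b ≤ dg B b := by
      unfold dg
      rw [Finset.sum_congr rfl (fun a _ => hB.symm a b)]
      exact Finset.sum_le_sum_of_subset (Finset.subset_univ _)
    rw [hBd] at h2
    rw [hmu, e1_self, e1_ne huv] at h2
    have h3 : ∑ a ∈ S, ∑ b ∈ Sᶜ, B a b = 1 := by omega
    rw [h3, e4, if_neg hbK] at e3
    rw [Nat.even_iff] at e1' e2'
    omega
  have huK : ¬ Kp u := by
    intro hu
    rw [hE, e4, if_pos hu] at e3
    rw [Nat.even_iff] at e1' e2'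
    omega
  have hcross : ∀ a b, Kp a → ¬ Kp b → B a b = 0 := by
    intro a b ha hb
    have h1 := Finset.sum_eq_zero_iff.mp hE a ((hmemS a).mpr ha)
    exact Finset.sum_eq_zero_iff.mp h1 b (Finset.mem_compl.mpr fun h => hb ((hmemS b).mp h))
  refine isDeg_congr (isDeg_off hB hcross).1 ?_
  intro x
  unfold off
  split_ifs with hx
  · rw [e1_ne (show x ≠ u by rintro rfl; exact huK hx), e1_ne (show x ≠ v by rintro rfl; exact hvK hx)]
  · rw [hBd]

lemma cc_comp {m : Fin n → ℕ} {s0 : Fin n} (h0 : m s0 ≠ 0) (hm : IsDeg G m) {u v : Fin n}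
    (hu : Irr G m u) :
    CC G m u v ↔ CC G (off (Comp G m s0) m) u v ∨ (Touch G (Comp G m s0) u ∧ Touch G (Comp G m s0) v) := by
  have hK : IsComp G m (Comp G m s0) := ⟨fun s hs => comp_supp h0 hs, fun s t hs hst ht => comp_closed hs hst ht⟩
  constructor
  · intro h
    by_cases hv : Touch G (Comp G m s0) v
    · by_cases hu' : Touch G (Comp G m s0) u
      · exact Or.inr ⟨hu', hv⟩
      · exact Or.inl (cc_off hK hm h.symm hu').symm
    · exact Or.inl (cc_off hK hm h hv)
  · rintro (h | ⟨⟨a, ha, hua⟩, ⟨b, hb, hvb⟩⟩)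
    · refine isDeg_congr (isDeg_sum h (hK.deg hm).2) fun x => ?_
      have := off_add_onn (Comp G m s0) m x
      omega
    · have h1 : DU G m u a := du_nbr hm hu (hK.supp a ha) hua
      have h2 : DU G m u b := du_comp hm hu h0 ha hb h1
      obtain ⟨d, hd, hd2⟩ := h2
      refine isDeg_congr (isDeg_add hd hvb) fun x => ?_
      have := hd2 x
      omega

lemma not_cc_off {m : Fin n → ℕ} {Kp : Fin n → Prop} (hK : IsComp G m Kp) (hm : IsDeg G m) {x w : Fin n}
    (hx : Kp x) (hw : ¬ Touch G Kp w) : ¬ CC G (off Kp m) x w := by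
  intro hcc
  obtain ⟨B, hB, hBd⟩ := hcc.out
  have hwK : ¬ Kp w := fun h => hw (hK.touch hm h)
  have h1 : dg B x ≠ 0 := by
    rw [hBd, e1_self]; omega
  unfold dg at h1
  obtain ⟨b, _, hb⟩ := Finset.exists_ne_zero_of_sum_ne_zero h1
  have hadj := hB.adj x b hb
  have h2 := le_dg B b x
  rw [hB.symm b x, hBd] at h2
  rw [e1_ne hadj.ne'] at h2
  have hbw : b ≠ w := by rintro rfl; exact hw ⟨x, hx, hadj.symm⟩
  rw [e1_ne hbw] at h2
  unfold off at h2
  split_ifs at h2 with h3
  · omega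
  · exact h3 (hK.closed x b hx hadj (by omega))

lemma cc_zero {u v : Fin n} : CC G (fun _ => 0) u v ↔ G.Adj u v := by
  constructor
  · intro hcc
    obtain ⟨B, hB, hBd⟩ := hcc.out
    have h1 : dg B u ≠ 0 := by
      rw [hBd, e1_self]; omega
    unfold dg at h1
    obtain ⟨b, _, hb⟩ := Finset.exists_ne_zero_of_sum_ne_zero h1
    have hadj := hB.adj u b hb
    have h2 := le_dg B b u
    rw [hB.symm b u, hBd] at h2
    rw [e1_ne hadj.ne'] at h2
    have hbv : b = v := by
      by_contra h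
      rw [e1_ne h] at h2
      omega
    rwa [hbv] at hadj
  · intro h
    exact CC.adj (isDeg_zero G) h

end Pool.Agent.H677R3.Ab
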