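import Mathlib
import Pool.Agent.H677R3.AbGeo

/-!
Main claim: vanishing of the homology of the complexes of the relations `C_m`.
-/

set_option linter.unusedSectionVars false

namespace Pool.Agent.H677R3.Ab

open Finset EdgeReg

variable {n : ℕ} {G : SimpleGraph (Fin n)} {ι : Type*} [Fintype ι] [LinearOrder ι]
  {k : Type*} [Field k]

/-- the relation on points -/
def HH (G : SimpleGraph (Fin n)) (lab : ι → Fin n) (m : Fin n → ℕ) (p p' : ι) : Prop :=
  CC G m (lab p) (lab p')

lemma Ind.congr {H H' : ι → ι → Prop} {U : Finset ι}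
    (h : ∀ p ∈ U, ∀ p' ∈ U, p ≠ p' → (H p p' ↔ H' p p')) (F : Finset ι) :
    Ind H U F ↔ Ind H' U F := by
  constructor
  · rintro ⟨h1, h2⟩
    exact ⟨h1, fun x hx y hy hxy h3 => h2 x hx y hy hxy ((h x (h1 hx) y (h1 hy) hxy).mpr h3)⟩
  · rintro ⟨h1, h2⟩
    exact ⟨h1, fun x hx y hy hxy h3 => h2 x hx y hy hxy ((h x (h1 hx) y (h1 hy) hxy).mp h3)⟩

/-- reducible step -/
lemma red_step {lab : ι → Fin n} {m m' : Fin n → ℕ} {x y : Fin n} (hxy : G.Adj x y) (hm' : IsDeg G m')
    (hm : ∀ z, m z = m' z + e1 x z + e1 y z) (U P Q R T : Finset ι)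
    (hP : ∀ p, p ∈ P ↔ p ∈ U ∧ ¬ CC G m' (lab p) x)
    (hQ : ∀ p, p ∈ Q ↔ p ∈ U ∧ ¬ CC G m' (lab p) y)
    (hR : ∀ p, p ∈ R ↔ p ∈ U ∧ ¬ CC G m' (lab p) x ∧ ¬ CC G m' (lab p) y)
    (hT : ∀ p, p ∈ T ↔ p ∈ U ∧ (CC G m' (lab p) x ↔ CC G m' (lab p) y)) {j : ℕ}
    (h1 : HV k (Ind (HH G lab m') P) (j + 1)) (h2 : HV k (Ind (HH G lab m') Q) (j + 1))
    (h3 : HV k (Ind (HH G lab m') R) j) (h4 : HV k (Ind (HH G lab m) T) (j + 1)) :
    HV k (Ind (HH G lab m) U) (j + 1) := by
  classical
  have hdown : Down (fun F => Ind (HH G lab m') P F ∨ Ind (HH G lab m') Q F) := by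
    rintro F v (h | h)
    · exact Or.inl (Ind.down _ _ F v h)
    · exact Or.inr (Ind.down _ _ F v h)
  have hPQ : HV k (fun F => Ind (HH G lab m') P F ∨ Ind (HH G lab m') Q F) (j + 1) := by
    apply HV.union (Ind.down _ _) (Ind.down _ _) h1 h2
    refine HV.congr ?_ h3
    intro F
    constructor
    · rintro ⟨h5, h6⟩
      exact ⟨⟨fun p hp => (hP p).mpr ⟨((hR p).mp (h5 hp)).1, ((hR p).mp (h5 hp)).2.1⟩, h6⟩,
        ⟨fun p hp => (hQ p).mpr ⟨((hR p).mp (h5 hp)).1, ((hR p).mp (h5 hp)).2.2⟩, h6⟩⟩
    · rintro ⟨⟨h5, h6⟩, h7, _⟩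
      exact ⟨fun p hp => (hR p).mpr ⟨((hP p).mp (h5 hp)).1, ((hP p).mp (h5 hp)).2,
        ((hQ p).mp (h7 hp)).2⟩, h6⟩
  -- from `m'` to `m` away from `x` or away from `y`
  have hup : ∀ F, Ind (HH G lab m') P F ∨ Ind (HH G lab m') Q F →
      ∀ p ∈ F, ∀ q ∈ F, p ≠ q → ¬ HH G lab m p q := by
    rintro F (⟨h5, h6⟩ | ⟨h5, h6⟩) p hp q hq hpq h7
    · rcases fact2 hm' hm h7 with h8 | ⟨h8, _⟩ | ⟨_, h8⟩
      · exact h6 p hp q hq hpq h8
      · exact ((hP p).mp (h5 hp)).2 h8
      · exact ((hP q).mp (h5 hq)).2 h8
    · rcases fact2 hm' hm h7 with h8 | ⟨_, h8⟩ | ⟨h8, _⟩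
      · exact h6 p hp q hq hpq h8
      · exact ((hQ q).mp (h5 hq)).2 h8
      · exact ((hQ p).mp (h5 hp)).2 h8
  have hint : HV k (fun F => (Ind (HH G lab m') P F ∨ Ind (HH G lab m') Q F) ∧ Ind (HH G lab m) T F) j := by
    refine HV.congr ?_ h3
    intro F
    constructor
    · rintro ⟨h5, h6⟩
      have hFP : Ind (HH G lab m') P F :=
        ⟨fun p hp => (hP p).mpr ⟨((hR p).mp (h5 hp)).1, ((hR p).mp (h5 hp)).2.1⟩, h6⟩
      refine ⟨Or.inl hFP, ⟨fun p hp => (hT p).mpr ⟨((hR p).mp (h5 hp)).1, ?_⟩, hup F (Or.inl hFP)⟩⟩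
      exact ⟨fun h => absurd h ((hR p).mp (h5 hp)).2.1, fun h => absurd h ((hR p).mp (h5 hp)).2.2⟩
    · rintro ⟨⟨h5, h6⟩ | ⟨h5, h6⟩, ⟨h7, _⟩⟩
      · refine ⟨fun p hp => (hR p).mpr ⟨((hP p).mp (h5 hp)).1, ((hP p).mp (h5 hp)).2, ?_⟩, h6⟩
        exact fun h => ((hP p).mp (h5 hp)).2 (((hT p).mp (h7 hp)).2.mpr h)
      · refine ⟨fun p hp => (hR p).mpr ⟨((hQ p).mp (h5 hp)).1, ?_, ((hQ p).mp (h5 hp)).2⟩, h6⟩
        exact fun h => ((hQ p).mp (h5 hp)).2 (((hT p).mp (h7 hp)).2.mp h)
  refine HV.congr ?_ (HV.union hdown (Ind.down _ _) hPQ h4 hint)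
  intro F
  constructor
  · rintro (h5 | ⟨h5, h6⟩)
    · refine ⟨?_, hup F h5⟩
      rcases h5 with ⟨h5, _⟩ | ⟨h5, _⟩
      · exact fun p hp => ((hP p).mp (h5 hp)).1
      · exact fun p hp => ((hQ p).mp (h5 hp)).1
    · exact ⟨fun p hp => ((hT p).mp (h5 hp)).1, h6⟩
  · rintro ⟨h5, h6⟩
    have h7 : ∀ p ∈ F, ∀ q ∈ F, p ≠ q → ¬ HH G lab m' p q :=
      fun p hp q hq hpq h => h6 p hp q hq hpq (fact1 hxy hm h)
    by_cases ha : ∃ a ∈ F, CC G m' (lab a) x ∧ ¬ CC G m' (lab a) y
    · obtain ⟨a, haF, ha1, ha2⟩ := ha
      left; right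
      refine ⟨fun p hp => (hQ p).mpr ⟨h5 hp, ?_⟩, h7⟩
      intro h8
      by_cases hpa : p = a
      · exact ha2 (hpa ▸ h8)
      · rcases fact3 hxy hm ha1 h8 with h9 | h9
        · exact h6 a haF p hp (Ne.symm hpa) h9
        · exact ha2 h9.1
    · by_cases hb : ∃ a ∈ F, CC G m' (lab a) y ∧ ¬ CC G m' (lab a) x
      · obtain ⟨a, haF, ha1, ha2⟩ := hb
        left; left
        refine ⟨fun p hp => (hP p).mpr ⟨h5 hp, ?_⟩, h7⟩
        intro h8
        by_cases hpa : p = a
        · exact ha2 (hpa ▸ h8)
        · rcases fact3 hxy.symm (show ∀ z, m z = m' z + e1 y z + e1 x z from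
            fun z => by rw [hm z]; ring) ha1 h8 with h9 | h9
          · exact h6 a haF p hp (Ne.symm hpa) h9
          · exact ha2 h9.1
      · right
        push Not at ha hb
        exact ⟨fun p hp => (hT p).mpr ⟨h5 hp, ha p hp, hb p hp⟩, h6⟩

lemma sum_split {m m' : Fin n → ℕ} {x y : Fin n} (hm : ∀ z, m z = m' z + e1 x z + e1 y z) :
    ∑ z, m z = ∑ z, m' z + 2 := by
  rw [Finset.sum_congr rfl (fun z _ => hm z), Finset.sum_add_distrib, Finset.sum_add_distrib,
    sum_e1, sum_e1]

theorem main_claim (lab : ι → Fin n) (K : ℕ)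
    (hfresh : ∀ (x : Fin n) (R : Finset ι), R.card < K → ∃ p, p ∉ R ∧ lab p = x) (j : ℕ)
    (hbase : ∀ U : Finset ι, (∀ p ∈ U, ∀ p' ∈ U, lab p = lab p' → p = p') →
      HV k (Ind (fun p p' => G.Adj (lab p) (lab p')) U) (j + 1)) :
    ∀ (N : ℕ) (m : Fin n → ℕ), IsDeg G m → ∑ x, m x ≤ N → ∀ (M : ℕ) (U : Finset ι), U.card ≤ M →
      U.card + ∑ x, m x ≤ K → HV k (Ind (HH G lab m) U) (j + 1) := by
  classical
  -- desuspension with fresh points
  have hdes : ∀ (m' : Fin n → ℕ) (x y : Fin n) (R : Finset ι), IsDeg G m' → G.Adj x y → R.card + 2 ≤ K →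
      (∀ w ∈ R, ¬ CC G m' (lab w) x) → (∀ w ∈ R, ¬ CC G m' (lab w) y) →
      (∀ R' : Finset ι, R'.card ≤ R.card + 2 → HV k (Ind (HH G lab m') R') (j + 1)) →
      HV k (Ind (HH G lab m') R) j := by
    intro m' x y R hm' hxy hRK hx hy hR'
    obtain ⟨px, hpx, hlx⟩ := hfresh x R (by omega)
    obtain ⟨py, hpy, hly⟩ := hfresh y R (by omega)
    have hne : px ≠ py := by
      rintro rfl
      rw [hlx] at hly
      exact hxy.ne hly
    apply HV.desusp (H := HH G lab m') hpx hpy hne
    · unfold HH; rw [hlx, hly]; exact CC.adj hm' hxy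
    · intro w hw
      unfold HH; rw [hlx]
      exact ⟨fun h => hx w hw h.symm, hx w hw⟩
    · intro w hw
      unfold HH; rw [hly]
      exact ⟨fun h => hy w hw h.symm, hy w hw⟩
    · apply hR'
      have h1 := Finset.card_insert_le px (insert py R)
      have h2 := Finset.card_insert_le py R
      omega
  intro N
  induction N using Nat.strong_induction_on with
  | _ N ihN =>
  intro m hm hmN M
  induction M with
  | zero =>
    intro U hU _
    have hU0 : U = ∅ := Finset.card_eq_zero.mp (by omega)
    subst hU0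
    intro a ha hc
    have h0 : ∀ F, a F = 0 := by
      intro F
      by_contra h
      obtain ⟨⟨h1, _⟩, h2⟩ := ha F h
      rw [Finset.subset_empty.mp h1] at h2
      simp at h2
    exact ⟨fun _ => 0, fun F h => absurd rfl h, fun F => by rw [bd_zero, h0]⟩
  | succ M ihM =>
    intro U hUM hUK
    by_cases hm0 : ∀ x, m x = 0
    · have hmz : m = fun _ => 0 := funext hm0
      subst hmz
      by_cases hinj : ∀ p ∈ U, ∀ p' ∈ U, lab p = lab p' → p = p'
      · refine HV.congr ?_ (hbase U hinj)
        apply Ind.congr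
        intro p _ p' _ _
        unfold HH
        rw [cc_zero]
      · push Not at hinj
        obtain ⟨p, hp, p', hp', hlab, hne⟩ := hinj
        apply HV.vertex (fun x y h => h.symm) hp
        · apply ihM
          · rw [Finset.card_erase_of_mem hp]; omega
          · rw [Finset.card_erase_of_mem hp]; omega
        · intro R hR
          apply HV.cone p'
          rintro F ⟨h1, h2⟩
          have hp'R : p' ∈ R := (hR p').mpr ⟨hp', Ne.symm hne, by
            unfold HH
            rw [cc_zero, hlab]
            exact G.loopless.irrefl _⟩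
          refine ⟨?_, ?_⟩
          · intro w hw
            rcases Finset.mem_insert.mp hw with rfl | hw
            · exact hp'R
            · exact h1 hw
          · have h3 : ∀ w ∈ F, ¬ HH G lab (fun _ => 0) p' w := by
              intro w hw h4
              apply ((hR w).mp (h1 hw)).2.2
              unfold HH at h4 ⊢
              rw [hlab]; exact h4
            intro a ha b hb hab
            rcases Finset.mem_insert.mp ha with ha' | ha'
            · rcases Finset.mem_insert.mp hb with hb' | hb'
              · exact absurd (ha'.trans hb'.symm) hab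
              · rw [ha']; exact h3 b hb'
            · rcases Finset.mem_insert.mp hb with hb' | hb'
              · rw [hb']; exact fun h => h3 a ha' h.symm
              · exact h2 a ha' b hb' hab
    · push Not at hm0
      obtain ⟨s0, hs0⟩ := hm0
      by_cases hirr : ∀ p ∈ U, Irr G m (lab p)
      · -- irreducible case
        set Kp := Comp G m s0 with hKp
        have hK : IsComp G m Kp :=
          ⟨fun s hs => comp_supp hs0 hs, fun s t hs hst ht => comp_closed hs hst ht⟩
        have hoff : IsDeg G (off Kp m) := (hK.deg hm).1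
        have hle : ∀ x, off Kp m x ≤ m x := fun x => by have := off_add_onn Kp m x; omega
        obtain ⟨t0, m1, hst, hm1, hm1s⟩ := isDeg_sub hm hs0
        have hKs0 : Kp s0 := Relation.ReflTransGen.refl
        have hmt0 : m t0 ≠ 0 := by
          have := hm1s t0
          rw [e1_self] at this
          omega
        have hKt0 : Kp t0 := hK.closed s0 t0 hKs0 hst hmt0
        have hoff0 : off Kp m s0 = 0 := by unfold off; rw [if_pos hKs0]
        have hofft : off Kp m t0 = 0 := by unfold off; rw [if_pos hKt0]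
        have hsum : ∑ x, off Kp m x + 2 ≤ ∑ x, m x := by
          have h1 : ∑ x, (off Kp m x + e1 s0 x + e1 t0 x) ≤ ∑ x, m x := by
            apply Finset.sum_le_sum
            intro x _
            have h2 := hle x
            have h3 := hm1s x
            by_cases hx : Kp x
            · have : off Kp m x = 0 := by unfold off; rw [if_pos hx]
              omega
            · rw [e1_ne (show x ≠ s0 by rintro rfl; exact hx hKs0),
                e1_ne (show x ≠ t0 by rintro rfl; exact hx hKt0)]
              omega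
          rw [Finset.sum_add_distrib, Finset.sum_add_distrib, sum_e1, sum_e1] at h1
          omega
        by_cases htouch : ∃ z ∈ U, Touch G Kp (lab z)
        · obtain ⟨z, hz, hzt⟩ := htouch
          apply HV.vertex (fun x y h => h.symm) hz
          · apply ihM
            · rw [Finset.card_erase_of_mem hz]; omega
            · rw [Finset.card_erase_of_mem hz]; omega
          · intro R hR
            have hRU : R ⊆ U := fun w hw => ((hR w).mp hw).1
            have hRcard : R.card ≤ U.card := Finset.card_le_card hRU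
            have hRt : ∀ w ∈ R, ¬ Touch G Kp (lab w) := by
              intro w hw hwt
              apply ((hR w).mp hw).2.2
              unfold HH
              exact (cc_comp hs0 hm (hirr z hz)).mpr (Or.inr ⟨hzt, hwt⟩)
            have h1 : HV k (Ind (HH G lab (off Kp m)) R) j := by
              apply hdes (off Kp m) s0 t0 R hoff hst (by omega)
              · intro w hw h
                exact not_cc_off hK hm hKs0 (hRt w hw) h.symm
              · intro w hw h
                exact not_cc_off hK hm hKt0 (hRt w hw) h.symm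
              · intro R' hR'
                exact ihN (∑ x, off Kp m x) (by omega) _ hoff le_rfl R'.card R' le_rfl (by omega)
            refine HV.congr ?_ h1
            apply Ind.congr
            intro p hp p' hp' _
            unfold HH
            rw [cc_comp hs0 hm (hirr p (hRU hp))]
            constructor
            · exact fun h => Or.inl h
            · rintro (h | h)
              · exact h
              · exact absurd h.1 (hRt p hp)
        · push Not at htouch
          have h1 : HV k (Ind (HH G lab (off Kp m)) U) (j + 1) :=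
            ihN (∑ x, off Kp m x) (by omega) _ hoff le_rfl U.card U le_rfl (by omega)
          refine HV.congr ?_ h1
          apply Ind.congr
          intro p hp p' hp' _
          unfold HH
          rw [cc_comp hs0 hm (hirr p hp)]
          constructor
          · exact fun h => Or.inl h
          · rintro (h | h)
            · exact h
            · exact absurd h.1 (htouch p hp)
      · -- reducible case
        push Not at hirr
        obtain ⟨p0, hp0, hnirr⟩ := hirr
        unfold Irr at hnirr
        push Not at hnirr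
        obtain ⟨x, y, m', hxy, hm', hmm, hne⟩ := hnirr
        have hs := sum_split hmm
        let P := U.filter (fun p => ¬ CC G m' (lab p) x)
        let Q := U.filter (fun p => ¬ CC G m' (lab p) y)
        let R := U.filter (fun p => ¬ CC G m' (lab p) x ∧ ¬ CC G m' (lab p) y)
        let T := U.filter (fun p => (CC G m' (lab p) x ↔ CC G m' (lab p) y))
        have hPU : P.card ≤ U.card := Finset.card_le_card (Finset.filter_subset _ _)
        have hQU : Q.card ≤ U.card := Finset.card_le_card (Finset.filter_subset _ _)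
        have hRU : R.card ≤ U.card := Finset.card_le_card (Finset.filter_subset _ _)
        have hTU : T.card < U.card := by
          apply Finset.card_lt_card
          refine ⟨Finset.filter_subset _ _, fun h => ?_⟩
          have := (Finset.mem_filter.mp (h hp0)).2
          tauto
        apply red_step hxy hm' hmm U P Q R T
        · intro p; simp only [P, Finset.mem_filter]
        · intro p; simp only [Q, Finset.mem_filter]
        · intro p; simp only [R, Finset.mem_filter]
        · intro p; simp only [T, Finset.mem_filter]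
        · exact ihN (∑ x, m' x) (by omega) _ hm' le_rfl P.card P le_rfl (by omega)
        · exact ihN (∑ x, m' x) (by omega) _ hm' le_rfl Q.card Q le_rfl (by omega)
        · apply hdes m' x y R hm' hxy (by omega)
          · intro w hw
            exact (Finset.mem_filter.mp hw).2.1
          · intro w hw
            exact (Finset.mem_filter.mp hw).2.2
          · intro R' hR'
            exact ihN (∑ x, m' x) (by omega) _ hm' le_rfl R'.card R' le_rfl (by omega)
        · apply ihM
          · omega
          · omega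

end Pool.Agent.H677R3.Ab
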