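import Mathlib
import Pool.Agent.H677R3.AbHom

/-!
Transport of homology along order embeddings, and duality between homology and the relative
Koszul complexes.
-/

set_option linter.unusedSectionVars false

namespace Pool.Agent.H677R3.Ab

open Finset

variable {α β : Type*} [Fintype α] [LinearOrder α] [Fintype β] [LinearOrder β] {k : Type*} [Field k]

/-- pullback -/
def pull (U : Finset α) (f : α → β) (b : Finset β → k) (F : Finset α) : k :=
  if F ⊆ U then b (F.image f) else 0

/-- pushforward -/
def push (U : Finset α) (f : α → β) (a : Finset α → k) (F : Finset β) : k :=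
  if F ⊆ U.image f then a (U.filter (fun u => f u ∈ F)) else 0

lemma filter_image {U : Finset α} {f : α → β} (hf : ∀ x ∈ U, ∀ y ∈ U, f x = f y → x = y) {F : Finset α}
    (hF : F ⊆ U) : U.filter (fun u => f u ∈ F.image f) = F := by
  ext u
  simp only [Finset.mem_filter, Finset.mem_image]
  constructor
  · rintro ⟨h1, v, h2, h3⟩
    rw [← hf v (hF h2) u h1 h3]; exact h2
  · intro h
    exact ⟨hF h, u, h, rfl⟩

lemma image_filter {U : Finset α} {f : α → β} {F : Finset β}
    (hF : F ⊆ U.image f) : (U.filter (fun u => f u ∈ F)).image f = F := by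
  ext u
  simp only [Finset.mem_filter, Finset.mem_image]
  constructor
  · rintro ⟨v, ⟨h1, h2⟩, rfl⟩
    exact h2
  · intro h
    obtain ⟨v, hv, rfl⟩ := Finset.mem_image.mp (hF h)
    exact ⟨v, ⟨hv, h⟩, rfl⟩

lemma card_im {U : Finset α} {f : α → β} (hf : ∀ x ∈ U, ∀ y ∈ U, f x = f y → x = y) {F : Finset α}
    (hF : F ⊆ U) : (F.image f).card = F.card :=
  Finset.card_image_of_injOn fun x hx y hy h => hf x (hF hx) y (hF hy) h

lemma bd_pull {U : Finset α} {f : α → β} (hf : ∀ x ∈ U, ∀ y ∈ U, (f x < f y ↔ x < y))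
    {b : Finset β → k} (hb : ∀ F, b F ≠ 0 → F ⊆ U.image f) (F : Finset α) :
    bd (pull U f b) F = pull U f (bd b) F := by
  have hinj : ∀ x ∈ U, ∀ y ∈ U, f x = f y → x = y := by
    intro x hx y hy hxy
    rcases lt_trichotomy x y with h | h | h
    · exact absurd hxy (ne_of_lt ((hf x hx y hy).mpr h))
    · exact h
    · exact absurd hxy.symm (ne_of_lt ((hf y hy x hx).mpr h))
  by_cases hF : F ⊆ U
  · have h1 : pull U f (bd b) F = bd b (F.image f) := by unfold pull; rw [if_pos hF]
    rw [h1]
    have h2 : bd (pull U f b) F = ∑ j ∈ U \ F, sg k (f j) (F.image f) * b (insert (f j) (F.image f)) := by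
      unfold bd
      rw [← Finset.sum_subset (s₁ := U \ F)]
      · refine Finset.sum_congr rfl fun j hj => ?_
        obtain ⟨hjU, hjF⟩ := Finset.mem_sdiff.mp hj
        have h3 : insert j F ⊆ U := Finset.insert_subset hjU hF
        unfold pull
        rw [if_pos h3, Finset.image_insert]
        congr 1
        unfold sg
        congr 1
        have h4 : (F.image f).filter (· < f j) = (F.filter (· < j)).image f := by
          ext w
          simp only [Finset.mem_filter, Finset.mem_image]
          constructor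
          · rintro ⟨⟨v, hv, rfl⟩, h5⟩
            exact ⟨v, ⟨hv, (hf v (hF hv) j hjU).mp h5⟩, rfl⟩
          · rintro ⟨v, ⟨hv, h5⟩, rfl⟩
            exact ⟨⟨v, hv, rfl⟩, (hf v (hF hv) j hjU).mpr h5⟩
        rw [h4, card_im hinj ((Finset.filter_subset _ _).trans hF)]
      · intro j hj
        simp only [Finset.mem_sdiff, Finset.mem_compl] at hj ⊢
        exact hj.2
      · intro j hj hj2
        have : ¬ insert j F ⊆ U := by
          intro h
          apply hj2
          exact Finset.mem_sdiff.mpr ⟨h (Finset.mem_insert_self _ _), Finset.mem_compl.mp hj⟩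
        unfold pull
        rw [if_neg this, mul_zero]
    rw [h2]
    unfold bd
    rw [← Finset.sum_subset (s₁ := (U \ F).image f)]
    · rw [Finset.sum_image]
      intro x hx y hy hxy
      exact hinj x (Finset.mem_sdiff.mp hx).1 y (Finset.mem_sdiff.mp hy).1 hxy
    · intro j hj
      obtain ⟨v, hv, rfl⟩ := Finset.mem_image.mp hj
      obtain ⟨hvU, hvF⟩ := Finset.mem_sdiff.mp hv
      rw [Finset.mem_compl]
      intro h
      obtain ⟨w, hw, hwv⟩ := Finset.mem_image.mp h
      exact hvF (hinj w (hF hw) v hvU hwv ▸ hw)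
    · intro j hj hj2
      have : b (insert j (F.image f)) = 0 := by
        by_contra h
        have h3 := hb _ h (Finset.mem_insert_self _ _)
        obtain ⟨v, hvU, rfl⟩ := Finset.mem_image.mp h3
        apply hj2
        apply Finset.mem_image_of_mem
        refine Finset.mem_sdiff.mpr ⟨hvU, fun h4 => ?_⟩
        exact (Finset.mem_compl.mp hj) (Finset.mem_image_of_mem f h4)
      rw [this, mul_zero]
  · have h1 : pull U f (bd b) F = 0 := by unfold pull; rw [if_neg hF]
    rw [h1]
    unfold bd
    refine Finset.sum_eq_zero fun j _ => ?_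
    have : ¬ insert j F ⊆ U := fun h => hF ((Finset.subset_insert _ _).trans h)
    unfold pull
    rw [if_neg this, mul_zero]

lemma pull_push {U : Finset α} {f : α → β} (hf : ∀ x ∈ U, ∀ y ∈ U, f x = f y → x = y)
    {a : Finset α → k} (ha : ∀ F, a F ≠ 0 → F ⊆ U) (F : Finset α) : pull U f (push U f a) F = a F := by
  unfold pull push
  by_cases hF : F ⊆ U
  · rw [if_pos hF, if_pos (Finset.image_subset_image hF), filter_image hf hF]
  · rw [if_neg hF]
    by_contra h
    exact hF (ha F (Ne.symm h))

lemma bd_push {U : Finset α} {f : α → β} (hf : ∀ x ∈ U, ∀ y ∈ U, (f x < f y ↔ x < y))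
    {a : Finset α → k} (ha : ∀ F, a F ≠ 0 → F ⊆ U) (F : Finset β) :
    bd (push U f a) F = push U f (bd a) F := by
  have hinj : ∀ x ∈ U, ∀ y ∈ U, f x = f y → x = y := by
    intro x hx y hy hxy
    rcases lt_trichotomy x y with h | h | h
    · exact absurd hxy (ne_of_lt ((hf x hx y hy).mpr h))
    · exact h
    · exact absurd hxy.symm (ne_of_lt ((hf y hy x hx).mpr h))
  have hsup : ∀ F, push U f a F ≠ 0 → F ⊆ U.image f := by
    intro F hF
    by_contra h
    apply hF
    unfold push
    rw [if_neg h]
  by_cases hF : F ⊆ U.image f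
  · have h1 : push U f (bd a) F = bd a (U.filter (fun u => f u ∈ F)) := by
      unfold push; rw [if_pos hF]
    have h2 := bd_pull hf hsup (U.filter (fun u => f u ∈ F))
    have h3 : pull U f (push U f a) = a := funext (pull_push hinj ha)
    rw [h3] at h2
    rw [h1, h2]
    unfold pull
    rw [if_pos (Finset.filter_subset _ _), image_filter hF]
  · have h1 : push U f (bd a) F = 0 := by unfold push; rw [if_neg hF]
    rw [h1]
    unfold bd
    refine Finset.sum_eq_zero fun j _ => ?_
    have : push U f a (insert j F) = 0 := by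
      by_contra h
      exact hF ((Finset.subset_insert _ _).trans (hsup _ h))
    rw [this, mul_zero]

lemma HV.push_fwd {U : Finset α} {f : α → β} (hf : ∀ x ∈ U, ∀ y ∈ U, (f x < f y ↔ x < y))
    {X : Finset α → Prop} {Y : Finset β → Prop} (hX : ∀ F, X F → F ⊆ U) (hY : ∀ F, Y F → F ⊆ U.image f)
    (hXY : ∀ F, F ⊆ U → (X F ↔ Y (F.image f))) {j : ℕ} (h : HV k X j) : HV k Y j := by
  have hinj : ∀ x ∈ U, ∀ y ∈ U, f x = f y → x = y := by
    intro x hx y hy hxy
    rcases lt_trichotomy x y with h | h | h
    · exact absurd hxy (ne_of_lt ((hf x hx y hy).mpr h))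
    · exact h
    · exact absurd hxy.symm (ne_of_lt ((hf y hy x hx).mpr h))
  intro b hb hcyc
  have hbU : ∀ F, b F ≠ 0 → F ⊆ U.image f := fun F hF => hY F (hb F hF).1
  obtain ⟨c, hc1, hc2⟩ := h (pull U f b) (by
      intro F hF
      unfold pull at hF
      split_ifs at hF with h1
      · exact ⟨(hXY F h1).mpr (hb _ hF).1, by rw [← card_im hinj h1]; exact (hb _ hF).2⟩
      · exact absurd rfl hF) (by
      intro F
      rw [bd_pull hf hbU]
      unfold pull
      split_ifs
      · exact hcyc _
      · rfl)
  have hcU : ∀ F, c F ≠ 0 → F ⊆ U := fun F hF => hX F (hc1 F hF).1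
  refine ⟨push U f c, ?_, ?_⟩
  · intro F hF
    unfold push at hF
    split_ifs at hF with h1
    · obtain ⟨h2, h3⟩ := hc1 _ hF
      refine ⟨?_, ?_⟩
      · have := (hXY _ (Finset.filter_subset _ _)).mp h2
        rwa [image_filter h1] at this
      · rw [← h3, ← card_im hinj (Finset.filter_subset _ _), image_filter h1]
    · exact absurd rfl hF
  · intro F
    rw [bd_push hf hcU]
    by_cases h1 : F ⊆ U.image f
    · unfold push
      rw [if_pos h1, hc2]
      unfold pull
      rw [if_pos (Finset.filter_subset _ _), image_filter h1]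
    · unfold push
      rw [if_neg h1]
      by_contra h2
      exact h1 (hbU F (Ne.symm h2))

lemma HV.pull_back {U : Finset α} {f : α → β} (hf : ∀ x ∈ U, ∀ y ∈ U, (f x < f y ↔ x < y))
    {X : Finset α → Prop} {Y : Finset β → Prop} (hX : ∀ F, X F → F ⊆ U) (hY : ∀ F, Y F → F ⊆ U.image f)
    (hXY : ∀ F, F ⊆ U → (X F ↔ Y (F.image f))) {j : ℕ} (h : HV k Y j) : HV k X j := by
  have hinj : ∀ x ∈ U, ∀ y ∈ U, f x = f y → x = y := by
    intro x hx y hy hxy
    rcases lt_trichotomy x y with h | h | h
    · exact absurd hxy (ne_of_lt ((hf x hx y hy).mpr h))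
    · exact h
    · exact absurd hxy.symm (ne_of_lt ((hf y hy x hx).mpr h))
  intro a ha hcyc
  have haU : ∀ F, a F ≠ 0 → F ⊆ U := fun F hF => hX F (ha F hF).1
  obtain ⟨c, hc1, hc2⟩ := h (push U f a) (by
      intro F hF
      unfold push at hF
      split_ifs at hF with h1
      · obtain ⟨h2, h3⟩ := ha _ hF
        refine ⟨?_, ?_⟩
        · have := (hXY _ (Finset.filter_subset _ _)).mp h2
          rwa [image_filter h1] at this
        · rw [← h3, ← card_im hinj (Finset.filter_subset _ _), image_filter h1]
      · exact absurd rfl hF) (by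
      intro F
      rw [bd_push hf haU]
      unfold push
      split_ifs
      · exact hcyc _
      · rfl)
  have hcU : ∀ F, c F ≠ 0 → F ⊆ U.image f := fun F hF => hY F (hc1 F hF).1
  refine ⟨pull U f c, ?_, ?_⟩
  · intro F hF
    unfold pull at hF
    split_ifs at hF with h1
    · exact ⟨(hXY F h1).mpr (hc1 _ hF).1, by rw [← card_im hinj h1]; exact (hc1 _ hF).2⟩
    · exact absurd rfl hF
  · intro F
    rw [bd_pull hf hcU]
    have h1 : bd c = push U f a := funext hc2
    rw [h1]
    exact pull_push hinj haU F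

end Pool.Agent.H677R3.Ab
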