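import Mathlib
import Pool.Agent.H677R3.RegDeg

/-!
Filtration of `S/I(G)^q` and acyclicity of the pieces.
-/

namespace Pool.Agent.H677R3.EdgeReg

open Finset

variable {n : ℕ} {k : Type*} [Field k]

/-- independent sets -/
def Indep (G : SimpleGraph (Fin n)) (A : Finset (Fin n)) : Prop :=
  ∀ x ∈ A, ∀ y ∈ A, ¬ G.Adj x y

/-- the set of cofactors of the piece of `m` -/
structure DD (G : SimpleGraph (Fin n)) (m s : Fin n → ℕ) : Prop where
  var : ∀ u, s u ≠ 0 → ∀ m2, IsDeg G m2 → ∑ x, m2 x = ∑ x, m x → (∀ x, m2 x ≤ m x + e1 u x) →
    toLex m2 ≤ toLex m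
  pair : ∀ u v, (∀ x, e1 u x + e1 v x ≤ s x) → ¬ IsDeg G (fun x => m x + e1 u x + e1 v x)

lemma DD.mono {G : SimpleGraph (Fin n)} {m s s' : Fin n → ℕ} (h : DD G m s)
    (hle : ∀ x, s' x ≤ s x) : DD G m s' :=
  ⟨fun u hu => h.var u (by have := hle u; omega),
   fun u v huv => h.pair u v (fun x => (huv x).trans (hle x))⟩

/-- piece of `m` in multidegree `b` -/
def Pc (G : SimpleGraph (Fin n)) (b : Fin n →₀ ℕ) (m : Fin n → ℕ) (T : Finset (Fin n)) : Prop :=
  (∀ x, m x + ind T x ≤ b x) ∧ DD G m (fun x => b x - ind T x - m x)

lemma up_zero (G : SimpleGraph (Fin n)) (c : Fin n → ℕ) : Up G 0 c :=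
  ⟨fun _ => 0, isDeg_zero G, by simp, fun x => Nat.zero_le _⟩

lemma up_succ {G : SimpleGraph (Fin n)} {q : ℕ} {c : Fin n → ℕ} (h : Up G (q + 1) c) : Up G q c := by
  obtain ⟨d, hd, hsum, hle⟩ := h
  obtain ⟨u, hu⟩ : ∃ u, d u ≠ 0 := by
    by_contra h
    push Not at h
    rw [Finset.sum_eq_zero (fun x _ => h x)] at hsum
    omega
  obtain ⟨v, d', hadj, hd', hd'2⟩ := isDeg_sub hd hu
  refine ⟨d', hd', ?_, fun x => by have := hd'2 x; have := hle x; omega⟩
  have : ∑ x, d x = ∑ x, (d' x + e1 u x + e1 v x) := Finset.sum_congr rfl fun x _ => (hd'2 x).symm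
  rw [this, Finset.sum_add_distrib, Finset.sum_add_distrib, sum_e1, sum_e1] at hsum
  omega

lemma up_le {G : SimpleGraph (Fin n)} {p q : ℕ} {c : Fin n → ℕ} (hpq : p ≤ q) (h : Up G q c) :
    Up G p c := by
  induction q with
  | zero => rwa [Nat.le_zero.mp hpq]
  | succ q ih =>
    rcases Nat.lt_or_ge q p with h1 | h1
    · have : p = q + 1 := by omega
      rwa [this]
    · exact ih h1 (up_succ h)

lemma up_mono {G : SimpleGraph (Fin n)} {q : ℕ} {c c' : Fin n → ℕ} (hcc : ∀ x, c x ≤ c' x)
    (h : Up G q c) : Up G q c' := by
  obtain ⟨d, hd, hsum, hle⟩ := h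
  exact ⟨d, hd, hsum, fun x => (hle x).trans (hcc x)⟩

open Classical in
/-- number of edges, truncated at `q` -/
noncomputable def mu (G : SimpleGraph (Fin n)) (q : ℕ) (c : Fin n → ℕ) : ℕ :=
  Nat.findGreatest (fun j => Up G j c) q

lemma mu_spec (G : SimpleGraph (Fin n)) (q : ℕ) (c : Fin n → ℕ) : Up G (mu G q c) c := by
  classical
  unfold mu
  exact Nat.findGreatest_spec (P := fun j => Up G j c) (Nat.zero_le q) (up_zero G c)

lemma mu_le (G : SimpleGraph (Fin n)) (q : ℕ) (c : Fin n → ℕ) : mu G q c ≤ q := by
  classical
  unfold mu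
  exact Nat.findGreatest_le q

lemma le_mu (G : SimpleGraph (Fin n)) (q : ℕ) (c : Fin n → ℕ) {j : ℕ} (hj : j ≤ q)
    (h : Up G j c) : j ≤ mu G q c := by
  classical
  unfold mu
  exact Nat.le_findGreatest hj h

/-- degree vectors below `c` with maximal number of edges -/
def DS (G : SimpleGraph (Fin n)) (q : ℕ) (c : Fin n → ℕ) : Set (Fin n → ℕ) :=
  {d | IsDeg G d ∧ ∑ x, d x = 2 * mu G q c ∧ ∀ x, d x ≤ c x}

lemma exists_canon (G : SimpleGraph (Fin n)) (q : ℕ) (c : Fin n → ℕ) :
    ∃ m ∈ DS G q c, ∀ d ∈ DS G q c, toLex d ≤ toLex m := by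
  have hfin : (DS G q c).Finite := (Set.finite_Iic c).subset (fun d hd => hd.2.2)
  have hne : (DS G q c).Nonempty := by
    obtain ⟨d, h1, h2, h3⟩ := mu_spec G q c
    exact ⟨d, h1, h2, h3⟩
  exact Set.exists_max_image (DS G q c) (fun d => toLex d) hfin hne

/-- canonical product of edges dividing a monomial -/
noncomputable def canon (G : SimpleGraph (Fin n)) (q : ℕ) (c : Fin n → ℕ) : Fin n → ℕ :=
  (exists_canon G q c).choose

lemma canon_mem (G : SimpleGraph (Fin n)) (q : ℕ) (c : Fin n → ℕ) : canon G q c ∈ DS G q c :=
  (exists_canon G q c).choose_spec.1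

lemma canon_max (G : SimpleGraph (Fin n)) (q : ℕ) (c : Fin n → ℕ) :
    ∀ d ∈ DS G q c, toLex d ≤ toLex (canon G q c) :=
  (exists_canon G q c).choose_spec.2

/-- the rank function of the filtration -/
noncomputable def kap (G : SimpleGraph (Fin n)) (q : ℕ) (b : Fin n →₀ ℕ) (T : Finset (Fin n)) :
    ℕ ×ₗ (Lex (Fin n → ℕ)) :=
  toLex (mu G q ⇑(b - ind T), toLex (canon G q ⇑(b - ind T)))

lemma kap_mono (G : SimpleGraph (Fin n)) (q : ℕ) (b : Fin n →₀ ℕ) (T T' : Finset (Fin n))
    (h : T ⊆ T') : kap G q b T' ≤ kap G q b T := by
  have hle : ∀ x, (b - ind T') x ≤ (b - ind T) x := by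
    intro x
    simp only [Finsupp.coe_tsub, Pi.sub_apply, ind_apply]
    have : (if x ∈ T then 1 else 0) ≤ (if x ∈ T' then 1 else 0) := by
      split_ifs with h1 h2
      · exact le_rfl
      · exact absurd (h h1) h2
      · exact Nat.zero_le _
      · exact le_rfl
    omega
  have h1 : mu G q ⇑(b - ind T') ≤ mu G q ⇑(b - ind T) :=
    le_mu G q _ (mu_le G q _) (up_mono hle (mu_spec G q _))
  unfold kap
  rw [Prod.Lex.toLex_le_toLex]
  rcases lt_or_eq_of_le h1 with h2 | h2
  · exact Or.inl h2
  · right
    refine ⟨h2, ?_⟩
    apply canon_max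
    obtain ⟨h3, h4, h5⟩ := canon_mem G q ⇑(b - ind T')
    exact ⟨h3, by rw [h4, h2], fun x => (h5 x).trans (hle x)⟩

/-- characterization of the pieces -/
lemma piece_iff (G : SimpleGraph (Fin n)) (q : ℕ) (b : Fin n →₀ ℕ) (p : ℕ) (m : Fin n → ℕ)
    (hm : IsDeg G m) (hsum : ∑ x, m x = 2 * p) (hp : p < q) (T : Finset (Fin n)) :
    ((ind T ≤ b ∧ ¬ Up G q ⇑(b - ind T)) ∧ kap G q b T = toLex (p, toLex m)) ↔ Pc G b m T := by
  constructor
  · rintro ⟨⟨hT, hup⟩, hk⟩
    have hk1 : mu G q ⇑(b - ind T) = p := by
      have := congrArg (fun z => (ofLex z).1) hk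
      simpa [kap] using this
    have hk2 : canon G q ⇑(b - ind T) = m := by
      have := congrArg (fun z => ofLex (ofLex z).2) hk
      simpa [kap] using this
    have hmem := canon_mem G q ⇑(b - ind T)
    have hmax := canon_max G q ⇑(b - ind T)
    rw [hk2] at hmem hmax
    have hle : ∀ x, m x + ind T x ≤ b x := by
      intro x
      have h1 := hmem.2.2 x
      have h2 := hT x
      simp only [Finsupp.coe_tsub, Pi.sub_apply] at h1
      omega
    refine ⟨hle, ?_, ?_⟩
    · intro u hu m2 hm2 hm2s hm2le
      apply hmax
      refine ⟨hm2, by rw [hm2s, hsum, hk1], ?_⟩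
      intro x
      have h1 := hm2le x
      have h2 := hle x
      simp only [Finsupp.coe_tsub, Pi.sub_apply]
      by_cases hxu : x = u
      · subst hxu
        rw [e1_self] at h1
        omega
      · rw [e1_ne hxu] at h1
        omega
    · intro u v huv hdeg
      have hup1 : Up G (p + 1) ⇑(b - ind T) := by
        refine ⟨_, hdeg, ?_, ?_⟩
        · rw [Finset.sum_add_distrib, Finset.sum_add_distrib, sum_e1, sum_e1, hsum]; ring
        · intro x
          have h1 := huv x
          have h2 := hle x
          simp only [Finsupp.coe_tsub, Pi.sub_apply]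
          omega
      have := le_mu G q _ (by omega : p + 1 ≤ q) hup1
      omega
  · rintro ⟨hle, hD⟩
    have hT : ind T ≤ b := fun x => by have := hle x; omega
    have hnup : ¬ Up G (p + 1) ⇑(b - ind T) := by
      rintro ⟨d, hd, hds, hdle⟩
      obtain ⟨u, v, huv, hdeg⟩ := F1 G m (fun x => b x - ind T x - m x) hm _ d hd (by omega)
        (fun x => by
          have h1 := hdle x
          have h2 := hle x
          simp only [Finsupp.coe_tsub, Pi.sub_apply] at h1
          omega) le_rfl
      exact hD.pair u v huv hdeg
    have hmu : mu G q ⇑(b - ind T) = p := by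
      apply le_antisymm
      · by_contra h
        push Not at h
        exact hnup (up_le h (mu_spec G q _))
      · apply le_mu G q _ hp.le
        refine ⟨m, hm, hsum, ?_⟩
        intro x
        have h2 := hle x
        simp only [Finsupp.coe_tsub, Pi.sub_apply]
        omega
    refine ⟨⟨hT, fun h => hnup (up_le hp h)⟩, ?_⟩
    have hcan : canon G q ⇑(b - ind T) = m := by
      have hmem := canon_mem G q ⇑(b - ind T)
      have hmax := canon_max G q ⇑(b - ind T)
      set c := canon G q ⇑(b - ind T) with hc
      have h1 : toLex m ≤ toLex c := by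
        apply hmax
        refine ⟨hm, by rw [hsum, hmu], ?_⟩
        intro x
        have h2 := hle x
        simp only [Finsupp.coe_tsub, Pi.sub_apply]
        omega
      have h2 : toLex c ≤ toLex m := by
        by_contra hcon
        push Not at hcon
        obtain ⟨u, hu1, hu2⟩ := hcon
        have hu1' : ∀ j, j < u → m j = c j := hu1
        have hu2' : m u < c u := hu2
        have hcle : ∀ x, c x ≤ m x + (b x - ind T x - m x) := by
          intro x
          have h1 := hmem.2.2 x
          have h2 := hle x
          simp only [Finsupp.coe_tsub, Pi.sub_apply] at h1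
          omega
        rcases F2 G m c (fun x => b x - ind T x - m x) hm hmem.1 hcle u hu2' hu1' with
          ⟨v, w, hvw, hdeg⟩ | ⟨m'', v, huv, hm'', hm''2⟩
        · exact hD.pair v w hvw hdeg
        · have hsu : (fun x => b x - ind T x - m x) u ≠ 0 := by
            have := hcle u
            simp only
            omega
          have hss : ∑ x, m'' x = ∑ x, m x := by
            have h3 : ∑ x, (m'' x + e1 v x) = ∑ x, (m x + e1 u x) :=
              Finset.sum_congr rfl fun x _ => hm''2 x
            rw [Finset.sum_add_distrib, Finset.sum_add_distrib, sum_e1, sum_e1] at h3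
            omega
          have h4 := hD.var u hsu m'' hm'' hss (fun x => by have := hm''2 x; omega)
          have h5 : toLex m < toLex m'' := by
            refine ⟨u, ?_, ?_⟩
            · intro j hj
              have h6 := hm''2 j
              rw [e1_ne (ne_of_lt (hj.trans huv)), e1_ne (ne_of_lt hj)] at h6
              show m j = m'' j
              omega
            · have h6 := hm''2 u
              rw [e1_ne (ne_of_lt huv), e1_self] at h6
              show m u < m'' u
              omega
          exact absurd h4 (not_le.mpr h5)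
      exact toLex.injective (le_antisymm h2 h1)
    unfold kap
    rw [hmu, hcan]

/-- acyclicity of the pieces -/
theorem piece_acyc (G : SimpleGraph (Fin n)) (d : ℕ)
    (hα : ∀ A, Indep G A → A.card ≤ d)
    (hridge : ∀ R, Indep G R → R.card + 1 = d → ∃ a a', ∀ j, j ∉ R → Indep G (insert j R) → j = a ∨ j = a')
    (b : Fin n →₀ ℕ) (m : Fin n → ℕ) (hm : IsDeg G m) (l : ℕ)
    (hl : ∑ x, m x + d + l ≤ ∑ x, b x)
    (htop : ∑ x, m x + d + l = ∑ x, b x → (∀ x, m x ≤ b x) → (∀ x, b x ≤ m x + 1) →
      RelAcyc k (Pc G b m) l) : RelAcyc k (Pc G b m) l := by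
  classical
  by_cases hA : ∃ v, m v + 2 ≤ b v ∧ ¬ IsDeg G (fun x => m x + e1 v x + e1 v x)
  · obtain ⟨v, hv, hnl⟩ := hA
    apply relAcyc_toggle _ _ v
    intro T hvT
    constructor
    · rintro ⟨h1, h2⟩
      refine ⟨?_, h2.mono ?_⟩
      · intro x
        have h3 := h1 x
        by_cases hxv : x = v
        · subst hxv
          simp only [ind_apply, Finset.mem_insert_self, if_true]
          omega
        · simp only [ind_apply, Finset.mem_insert, hxv, false_or] at h3 ⊢
          exact h3
      · intro x
        by_cases hxv : x = v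
        · subst hxv
          simp only [ind_apply, Finset.mem_insert_self, if_true, hvT, if_false]
          omega
        · simp only [ind_apply, Finset.mem_insert, hxv, false_or]
          exact le_rfl
    · rintro ⟨h1, h2⟩
      have hx : ∀ x, x ≠ v → ind (insert v T) x = ind T x := by
        intro x hx
        simp only [ind_apply, Finset.mem_insert, hx, false_or]
      have hvv : ind (insert v T) v = 1 := by simp
      have hvv' : ind T v = 0 := by simp [hvT]
      refine ⟨?_, ?_, ?_⟩
      · intro x
        have h3 := h1 x
        by_cases hxv : x = v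
        · subst hxv; omega
        · rw [hx x hxv] at h3; exact h3
      · intro u hu
        apply h2.var u
        by_cases huv : u = v
        · subst huv
          simp only [hvv]
          omega
        · simp only [hx u huv]
          exact hu
      · intro u w huw
        by_cases huv : u = v ∧ w = v
        · obtain ⟨rfl, rfl⟩ := huv
          exact hnl
        · apply h2.pair u w
          intro x
          by_cases hxv : x = v
          · subst hxv
            have : e1 u x + e1 w x ≤ 1 := by
              unfold e1
              split_ifs with h4 h5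
              · exact absurd ⟨h4.symm, h5.symm⟩ huv
              all_goals omega
            simp only [hvv]
            omega
          · simp only [hx x hxv]
            exact huw x
  push Not at hA
  -- structure of level `l` sets
  have hstr : ∀ T, Pc G b m T → T.card = l →
      (∀ x, b x - ind T x - m x ≤ 1) ∧
      Indep G (Finset.univ.filter (fun x => b x - ind T x - m x ≠ 0)) ∧
      ∑ x, m x + (Finset.univ.filter (fun x => b x - ind T x - m x ≠ 0)).card + l = ∑ x, b x := by
    rintro T ⟨h1, h2⟩ hcard
    have h3 : ∀ x, b x - ind T x - m x ≤ 1 := by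
      intro x
      by_contra hcon
      push Not at hcon
      apply h2.pair x x
      · intro y
        by_cases hyx : y = x
        · subst hyx; rw [e1_self]; omega
        · rw [e1_ne hyx]; omega
      · exact hA x (by omega)
    refine ⟨h3, ?_, ?_⟩
    · intro x hx y hy hadj
      simp only [Finset.mem_filter, Finset.mem_univ, true_and] at hx hy
      apply h2.pair x y
      · intro z
        by_cases hzx : z = x
        · subst hzx
          rw [e1_self, e1_ne hadj.ne]; omega
        · rw [e1_ne hzx]
          by_cases hzy : z = y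
          · subst hzy; rw [e1_self]; omega
          · rw [e1_ne hzy]; omega
      · exact isDeg_add hm hadj
    · have h4 : (Finset.univ.filter (fun x => b x - ind T x - m x ≠ 0)).card =
          ∑ x, (b x - ind T x - m x) := by
        rw [Finset.card_filter]
        refine Finset.sum_congr rfl fun x _ => ?_
        have := h3 x
        split_ifs with h5 <;> omega
      have h6 : ∑ x, b x = ∑ x, ((b x - ind T x - m x) + ind T x + m x) :=
        Finset.sum_congr rfl fun x _ => by have := h1 x; omega
      rw [h4, h6, Finset.sum_add_distrib, Finset.sum_add_distrib, sum_ind, hcard]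
      ring
  by_cases hB1 : ∃ v, m v + 2 ≤ b v
  · obtain ⟨v, hv⟩ := hB1
    apply relAcyc_of_empty
    rintro T hT hcard
    obtain ⟨h3, h4, h5⟩ := hstr T hT hcard
    set A := Finset.univ.filter (fun x => b x - ind T x - m x ≠ 0) with hAdef
    have hAd : A.card = d := by
      have := hα A h4
      omega
    have hvA : v ∈ A := by
      simp only [hAdef, Finset.mem_filter, Finset.mem_univ, true_and]
      have : ind T v ≤ 1 := by simp only [ind_apply]; split_ifs <;> omega
      omega
    have hRind : Indep G (A.erase v) := fun x hx y hy =>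
      h4 x (Finset.mem_of_mem_erase hx) y (Finset.mem_of_mem_erase hy)
    have hRcard : (A.erase v).card + 1 = d := by
      rw [Finset.card_erase_add_one hvA, hAd]
    obtain ⟨a, a', haa⟩ := hridge _ hRind hRcard
    have hva := haa v (Finset.notMem_erase _ _) (by rw [Finset.insert_erase hvA]; exact h4)
    -- ps
    let ps := if v = a then a' else a
    refine no_loop G m hm v ps (A.erase v) ?_ ?_ (hA v hv)
    · intro z hz
      apply hT.2.pair v z
      intro x
      have hzA := Finset.mem_of_mem_erase hz
      have hzv := Finset.ne_of_mem_erase hz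
      simp only [hAdef, Finset.mem_filter, Finset.mem_univ, true_and] at hzA hvA
      by_cases hxv : x = v
      · subst hxv
        rw [e1_self, e1_ne hzv.symm]; omega
      · rw [e1_ne hxv]
        by_cases hxz : x = z
        · subst hxz; rw [e1_self]; omega
        · rw [e1_ne hxz]; omega
    · intro p hpv hps hpR
      by_contra hcon
      push Not at hcon
      have hind : Indep G (insert p (A.erase v)) := by
        intro x hx y hy
        rw [Finset.mem_insert] at hx hy
        rcases hx with rfl | hx
        · rcases hy with rfl | hy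
          · exact G.loopless.irrefl _
          · exact hcon y hy
        · rcases hy with rfl | hy
          · exact fun h => hcon x hx h.symm
          · exact hRind x hx y hy
      have h6 := haa p hpR hind
      simp only [ps] at hps
      split_ifs at hps with h7
      · rcases h6 with h | h
        · exact hpv (h.trans h7.symm)
        · exact hps h
      · rcases hva with h | h
        · exact h7 h
        · rcases h6 with h' | h'
          · exact hps h'
          · exact hpv (h'.trans h.symm)
  · push Not at hB1
    by_cases hmb : ∀ x, m x ≤ b x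
    · by_cases heq : ∑ x, m x + d + l = ∑ x, b x
      · exact htop heq hmb (fun x => by have := hB1 x; omega)
      · apply relAcyc_of_empty
        intro T hT hcard
        obtain ⟨h3, h4, h5⟩ := hstr T hT hcard
        have := hα _ h4
        omega
    · apply relAcyc_of_empty
      intro T hT _
      apply hmb
      intro x
      have := hT.1 x
      omega

/-- upper bound for the regularity of `I(G)^q` -/
theorem upper_main (G : SimpleGraph (Fin n)) (d q : ℕ) (hq : 1 ≤ q)
    (hα : ∀ A, Indep G A → A.card ≤ d)
    (hridge : ∀ R, Indep G R → R.card + 1 = d → ∃ a a', ∀ j, j ∉ R → Indep G (insert j R) → j = a ∨ j = a')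
    (i e : ℕ) (he : 2 * q + d ≤ e + 1)
    (htop : 2 * q + d = e + 1 → ∀ (b : Fin n →₀ ℕ) (m : Fin n → ℕ) (l : ℕ), IsDeg G m →
      ∑ x, m x = 2 * (q - 1) → ∑ x, m x + d + l = ∑ x, b x → (∀ x, m x ≤ b x) →
      (∀ x, b x ≤ m x + 1) → RelAcyc k (Pc G b m) l) :
    ¬ TorNe ((edgeIdeal k G) ^ q) i e := by
  classical
  apply upper_transfer _ (Up G q) (mem_pow k G q)
  intro b hb a ha hc
  have hbne : b.support.Nonempty := by
    by_contra h
    rw [Finset.not_nonempty_iff_eq_empty] at h
    have h0 : ∀ x, b x = 0 := fun x => by
      by_contra h'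
      have : x ∈ b.support := Finsupp.mem_support_iff.mpr h'
      rw [h] at this
      simp at this
    rw [Finset.sum_eq_zero (fun x _ => h0 x)] at hb
    omega
  have hsub : ∀ T : Finset (Fin n), T ⊆ b.support ↔ ind T ≤ b := by
    intro T
    constructor
    · intro h x
      simp only [ind_apply]
      split_ifs with hx
      · have := Finsupp.mem_support_iff.mp (h hx)
        omega
      · exact Nat.zero_le _
    · intro h x hx
      have := h x
      rw [Finsupp.mem_support_iff]
      simp only [ind_apply, hx, if_true] at this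
      omega
  refine acyc_of_rel b.support hbne (KK (Up G q) b) (fun T hT => (hsub T).mpr hT.1) ?_ i ?_ a ha hc
  · rintro T j hj ⟨h1, h2⟩
    have h3 : ∀ x, ind T x ≤ ind (insert j T) x := by
      intro x
      simp only [ind_apply, Finset.mem_insert]
      split_ifs with h4 h5
      · exact le_rfl
      · exact absurd (Or.inr h4) h5
      · exact Nat.zero_le _
      · exact le_rfl
    refine ⟨fun x => (h3 x).trans (h1 x), up_mono ?_ h2⟩
    intro x
    have := h3 x
    simp only [Finsupp.coe_tsub, Pi.sub_apply]
    omega
  · have hQ : (fun T => T ⊆ b.support ∧ ¬ KK (Up G q) b T) =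
        fun T => ind T ≤ b ∧ ¬ Up G q ⇑(b - ind T) := by
      funext T
      apply propext
      rw [hsub T]
      unfold KK
      tauto
    rw [hQ]
    apply relAcyc_filtration _ _ (kap G q b)
    · rintro T j ⟨hT1, hT2⟩ hj i' hi ⟨h1, h2⟩
      have h3 : ∀ x, ind (insert j T) x ≤ ind (insert i' (insert j T)) x := by
        intro x
        simp only [ind_apply, Finset.mem_insert]
        split_ifs with h4 h5
        · exact le_rfl
        · exact absurd (Or.inr h4) h5
        · exact Nat.zero_le _
        · exact le_rfl
      have h4 : ∀ x, ind T x ≤ ind (insert j T) x := by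
        intro x
        simp only [ind_apply, Finset.mem_insert]
        split_ifs with h4 h5
        · exact le_rfl
        · exact absurd (Or.inr h4) h5
        · exact Nat.zero_le _
        · exact le_rfl
      refine ⟨fun x => (h3 x).trans (h1 x), fun h => hT2 (up_mono ?_ h)⟩
      intro x
      have := h4 x
      simp only [Finsupp.coe_tsub, Pi.sub_apply]
      omega
    · intro T j _ _ _
      exact kap_mono G q b _ _ (Finset.subset_insert _ _)
    · intro t
      by_cases hex : ∃ T, (ind T ≤ b ∧ ¬ Up G q ⇑(b - ind T)) ∧ kap G q b T = t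
      · obtain ⟨T0, ⟨hT0, hT0u⟩, hT0k⟩ := hex
        set p := mu G q ⇑(b - ind T0) with hp
        set m := canon G q ⇑(b - ind T0) with hm
        have hmem := canon_mem G q ⇑(b - ind T0)
        rw [← hm] at hmem
        have ht : t = toLex (p, toLex m) := by rw [← hT0k]; rfl
        have hpq : p < q := by
          rcases Nat.lt_or_ge p q with h | h
          · exact h
          · exfalso
            have h1 : p = q := le_antisymm (mu_le G q _) h
            apply hT0u
            have := mu_spec G q ⇑(b - ind T0)
            rw [← hp, h1] at this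
            exact this
        have hQ2 : (fun T => (ind T ≤ b ∧ ¬ Up G q ⇑(b - ind T)) ∧ kap G q b T = t) = Pc G b m := by
          funext T
          apply propext
          rw [ht]
          exact piece_iff G q b p m hmem.1 hmem.2.1 hpq T
        rw [hQ2]
        have hms : ∑ x, m x = 2 * p := hmem.2.1
        apply piece_acyc G d hα hridge b m hmem.1
        · rw [hms, hb]; omega
        · intro h1 h2 h3
          rw [hms, hb] at h1
          have hp1 : p = q - 1 := by omega
          apply htop (by omega) b m (i + 1) hmem.1 (by rw [hms, hp1]) (by rw [hms, hb]; omega) h2 h3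
      · apply relAcyc_of_empty
        intro T hT _
        exact hex ⟨T, hT⟩

end Pool.Agent.H677R3.EdgeReg
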