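import Mathlib
import Pool.Agent.H677R3.AbMain
import Pool.Agent.H677R3.AbTrans
import Pool.Agent.H677R3.AbDual
import Pool.Agent.H677R3.RegPiece

/-!
The upper bound for the regularity of powers.
-/

set_option linter.unusedSectionVars false

namespace Pool.Agent.H677R3.Ab

open Finset EdgeReg

variable {n : ℕ} {k : Type*} [Field k]

lemma up_one_iff' (G : SimpleGraph (Fin n)) (F : Finset (Fin n)) :
    Up G 1 ⇑(ind F) ↔ ¬ Indep G F := by
  constructor
  · rintro ⟨d, hd, hsum, hle⟩ hind
    obtain ⟨u, hu⟩ : ∃ u, d u ≠ 0 := by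
      by_contra h
      push Not at h
      rw [Finset.sum_eq_zero (fun x _ => h x)] at hsum
      omega
    obtain ⟨v, d', hadj, hd', hd'2⟩ := isDeg_sub hd hu
    have h1 : ∀ x, d x ≠ 0 → x ∈ F := by
      intro x hx
      have := hle x
      simp only [ind_apply] at this
      by_contra h
      rw [if_neg h] at this
      omega
    refine hind u (h1 u hu) v (h1 v ?_) hadj
    have := hd'2 v
    rw [e1_self] at this
    omega
  · intro h
    unfold Indep at h
    push Not at h
    obtain ⟨x, hx, y, hy, hadj⟩ := h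
    refine ⟨_, isDeg_add (isDeg_zero G) hadj, ?_, ?_⟩
    · simp [Finset.sum_add_distrib, sum_e1]
    · intro z
      simp only [ind_apply]
      by_cases hzx : z = x
      · subst hzx
        rw [e1_self, e1_ne hadj.ne, if_pos hx]
      · rw [e1_ne hzx]
        by_cases hzy : z = y
        · subst hzy
          rw [e1_self, if_pos hy]
        · rw [e1_ne hzy]
          simp

lemma ind_indep {G : SimpleGraph (Fin n)} {U F : Finset (Fin n)} :
    Ind G.Adj U F ↔ F ⊆ U ∧ Indep G F := by
  constructor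
  · rintro ⟨h1, h2⟩
    refine ⟨h1, fun x hx y hy hadj => h2 x hx y hy hadj.ne hadj⟩
  · rintro ⟨h1, h2⟩
    exact ⟨h1, fun x hx y hy _ => h2 x hx y hy⟩

/-- from the ideal to the quotient -/
lemma rel_of_acyc (U : Finset (Fin n)) (hU : U.Nonempty) (Kf : Finset (Fin n) → Prop)
    (hK : ∀ T, Kf T → T ⊆ U) (hdown : ∀ T j, j ∉ T → Kf (insert j T) → Kf T) (i : ℕ)
    (hac : ∀ a : Finset (Fin n) → k, (∀ T, a T ≠ 0 → Kf T ∧ T.card = i) → (∀ T, EdgeReg.cd a T = 0) →
      ∃ g : Finset (Fin n) → k, (∀ T, g T ≠ 0 → Kf T ∧ T.card = i + 1) ∧ ∀ T, EdgeReg.cd g T = a T) :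
    RelAcyc k (fun T => T ⊆ U ∧ ¬ Kf T) (i + 1) := by
  classical
  obtain ⟨v, hvU⟩ := hU
  intro a ha hc
  obtain ⟨g, hg1, hg2⟩ := hac (EdgeReg.cd a) (by
    intro T hT
    have hne := hT
    unfold EdgeReg.cd at hT
    obtain ⟨j, hj, hj2⟩ := Finset.exists_ne_zero_of_sum_ne_zero hT
    have h1 : a (insert j T) ≠ 0 := fun h => hj2 (by rw [h, mul_zero])
    obtain ⟨⟨h2, _⟩, h3⟩ := ha _ h1
    rw [Finset.card_insert_of_notMem (by simpa using hj)] at h3
    refine ⟨?_, by omega⟩
    by_contra h4
    exact hne (hc T ⟨(Finset.subset_insert _ _).trans h2, h4⟩)) (fun T => cd_cd a T)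
  let d : Finset (Fin n) → k := fun T => a T - g T
  have hd0 : ∀ T, EdgeReg.cd d T = 0 := by
    intro T
    have : EdgeReg.cd d T = EdgeReg.cd a T - EdgeReg.cd g T := cd_sub _ _ _
    rw [this, hg2, sub_self]
  have hd1 : ∀ T, d T ≠ 0 → T ⊆ U ∧ T.card = i + 1 := by
    intro T hT
    by_cases h1 : a T ≠ 0
    · exact ⟨(ha T h1).1.1, (ha T h1).2⟩
    · push Not at h1
      have h2 : g T ≠ 0 := fun h => hT (by simp only [d, h1, h, sub_zero])
      exact ⟨hK T (hg1 T h2).1, (hg1 T h2).2⟩
  let h := EdgeReg.hv v d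
  have hh1 : ∀ T, h T ≠ 0 → T ⊆ U ∧ T.card = i + 1 + 1 := by
    intro T hT
    simp only [h] at hT
    unfold EdgeReg.hv at hT
    split_ifs at hT with hvT
    · have h2 : d (T.erase v) ≠ 0 := fun h => hT (by rw [h, mul_zero])
      obtain ⟨h3, h4⟩ := hd1 _ h2
      refine ⟨?_, ?_⟩
      · intro x hx
        by_cases hxv : x = v
        · exact hxv ▸ hvU
        · exact h3 (Finset.mem_erase.mpr ⟨hxv, hx⟩)
      · rw [← h4, Finset.card_erase_of_mem hvT]
        have : 0 < T.card := Finset.card_pos.mpr ⟨v, hvT⟩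
        omega
    · exact absurd rfl hT
  have hh2 : ∀ T, EdgeReg.cd h T = d T := by
    intro T
    have h5 := EdgeReg.homotopy v d T
    have h6 : EdgeReg.hv v (EdgeReg.cd d) T = 0 := by
      unfold EdgeReg.hv
      split_ifs with hvT
      · rw [hd0, mul_zero]
      · rfl
    rw [h6, add_zero] at h5
    exact h5
  refine ⟨fun T => if Kf T then 0 else h T, ?_, ?_⟩
  · intro T hT
    beta_reduce at hT
    split_ifs at hT with h1
    · exact absurd rfl hT
    · exact ⟨⟨(hh1 T hT).1, h1⟩, (hh1 T hT).2⟩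
  · rintro T ⟨hTU, hKT⟩
    have h1 : EdgeReg.cd (fun T => if Kf T then 0 else h T) T = EdgeReg.cd h T := by
      unfold EdgeReg.cd
      refine Finset.sum_congr rfl fun j hj => ?_
      have : ¬ Kf (insert j T) := fun h2 => hKT (hdown T j (by simpa using hj) h2)
      beta_reduce
      rw [if_neg this]
    rw [h1, hh2]
    have h2 : g T = 0 := by
      by_contra h3
      exact hKT (hg1 T h3).1
    simp only [d, h2, sub_zero]

lemma ind_sub_ind {U T : Finset (Fin n)} (hT : T ⊆ U) : ind U - ind T = ind (U \ T) := by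
  refine Finsupp.ext fun x => ?_
  simp only [Finsupp.coe_tsub, Pi.sub_apply, ind_apply, Finset.mem_sdiff]
  by_cases h1 : x ∈ U
  · by_cases h2 : x ∈ T
    · simp [h1, h2]
    · simp [h1, h2]
  · have h2 : x ∉ T := fun h => h1 (hT h)
    simp [h1, h2]

/-- vanishing of homology of independence complexes from a regularity bound -/
theorem hv_core (G : SimpleGraph (Fin n)) (J : Ideal (MvPolynomial (Fin n) k)) (P : (Fin n → ℕ) → Prop)
    (hJ : ∀ p, p ∈ J ↔ ∀ c ∈ p.support, P ⇑c)
    (hPm : ∀ c c' : Fin n → ℕ, (∀ x, c x ≤ c' x) → P c → P c')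
    (U0 : Finset (Fin n)) (hP : ∀ F, F ⊆ U0 → (P ⇑(ind F) ↔ ¬ Indep G F)) (r : ℕ)
    (hr : ∀ i e, r < e → ¬ TorNe J i e) (j : ℕ) (hj : r ≤ j) (hj1 : 1 ≤ j) :
    HV k (Ind G.Adj U0) j := by
  classical
  rcases Nat.lt_or_ge j U0.card with hlt | hge
  · -- main case
    have hne : U0.Nonempty := Finset.card_pos.mp (by omega)
    obtain ⟨i, hi⟩ : ∃ i, U0.card = j + (i + 1) := ⟨U0.card - j - 1, by omega⟩
    have hsubT : ∀ T : Finset (Fin n), ind T ≤ ind U0 ↔ T ⊆ U0 := by
      intro T
      constructor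
      · intro h x hx
        have := h x
        simp only [ind_apply, hx, if_true] at this
        by_contra h2
        rw [if_neg h2] at this
        omega
      · intro h x
        simp only [ind_apply]
        split_ifs with h1 h2
        · exact le_rfl
        · exact absurd (h h1) h2
        · exact Nat.zero_le _
        · exact le_rfl
    have hKiff : ∀ T, T ⊆ U0 → (KK P (ind U0) T ↔ ¬ Indep G (U0 \ T)) := by
      intro T hT
      unfold KK
      rw [ind_sub_ind hT, hP _ Finset.sdiff_subset]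
      exact ⟨fun h => h.2, fun h => ⟨(hsubT T).mpr hT, h⟩⟩
    refine hv_of_rel U0 (Ind G.Adj U0) (fun T => T ⊆ U0 ∧ ¬ KK P (ind U0) T) (Ind.down _ _)
      (fun F hF => hF.1) ?_ (l := i + 1) hi.symm ?_
    · intro T
      constructor
      · rintro ⟨h1, h2⟩
        rw [hKiff T h1, not_not] at h2
        exact ⟨h1, ind_indep.mpr ⟨Finset.sdiff_subset, h2⟩⟩
      · rintro ⟨h1, h2⟩
        refine ⟨h1, ?_⟩
        rw [hKiff T h1, not_not]
        exact (ind_indep.mp h2).2
    · apply rel_of_acyc U0 hne (KK P (ind U0)) (fun T hT => (hsubT T).mp hT.1)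
      · rintro T v hv ⟨h1, h2⟩
        have h3 : ∀ x, ind T x ≤ ind (insert v T) x := by
          intro x
          simp only [ind_apply, Finset.mem_insert]
          split_ifs with h4 h5
          · exact le_rfl
          · exact absurd (Or.inr h4) h5
          · exact Nat.zero_le _
          · exact le_rfl
        refine ⟨fun x => (h3 x).trans (h1 x), hPm _ _ ?_ h2⟩
        intro x
        have := h3 x
        simp only [Finsupp.coe_tsub, Pi.sub_apply]
        omega
      · intro a ha hc
        by_contra hne2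
        refine hr i (j + 1) (by omega) (lower_transfer J P hJ i (j + 1) (ind U0) ?_ a ha hc hne2)
        rw [sum_ind]; omega
  · intro a ha hc
    have h0 : ∀ F, a F = 0 := by
      intro F
      by_contra hF
      obtain ⟨h1, h2⟩ := ha F hF
      have hFU : F = U0 := Finset.eq_of_subset_of_card_le h1.1 (by omega)
      obtain ⟨v, hv⟩ : F.Nonempty := Finset.card_pos.mp (by omega)
      have h3 := hc (F.erase v)
      unfold bd at h3
      rw [Finset.sum_eq_single v] at h3
      · rw [Finset.insert_erase hv] at h3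
        have h4 := congrArg (fun z => sg k v (F.erase v) * z) h3
        beta_reduce at h4
        rw [← mul_assoc, sg_mul_self, one_mul, mul_zero] at h4
        exact hF h4
      · intro u hu huv
        have h4 : a (insert u (F.erase v)) = 0 := by
          by_contra h5
          have h6 := (ha _ h5).1.1 (Finset.mem_insert_self _ _)
          rw [← hFU] at h6
          exact (Finset.mem_compl.mp hu) (Finset.mem_erase.mpr ⟨huv, h6⟩)
        rw [h4, mul_zero]
      · intro h
        exact absurd (Finset.mem_compl.mpr (Finset.notMem_erase v F)) h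
    exact ⟨fun _ => 0, fun F h => absurd rfl h, fun F => by rw [bd_zero, h0]⟩

/-- vanishing for the relations `C_m` -/
theorem hv_cc (G : SimpleGraph (Fin n)) (r : ℕ) (hr1 : 1 ≤ r)
    (hadj : ∀ (U0 : Finset (Fin n)) (j : ℕ), r ≤ j → HV k (Ind G.Adj U0) j)
    (m : Fin n → ℕ) (hm : IsDeg G m) (σ U2 : Finset (Fin n)) (hσ2 : ∀ v ∈ σ, CC G m v v)
    (hσσ : ∀ u ∈ σ, ∀ v ∈ σ, u ≠ v → ¬ CC G m u v) (hσU : ∀ u ∈ U2, ∀ v ∈ σ, ¬ CC G m u v)
    (hdisj : ∀ v ∈ σ, v ∉ U2) (j : ℕ) (hj : r ≤ j + σ.card) :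
    HV k (Ind (CC G m) U2) j := by
  classical
  obtain ⟨K, hK⟩ : ∃ K, K = 3 * n + ∑ x, m x + 2 := ⟨_, rfl⟩
  let lab : Fin n ×ₗ Fin K → Fin n := fun p => (ofLex p).1
  let c0 : Fin K := ⟨0, by omega⟩
  let c1 : Fin K := ⟨1, by omega⟩
  have hc01 : c0 ≠ c1 := by
    intro h
    have := congrArg Fin.val h
    simp [c0, c1] at this
  let pt : Fin K → Fin n → Fin n ×ₗ Fin K := fun i x => toLex (x, i)
  have hlab : ∀ i x, lab (pt i x) = x := fun i x => rfl
  have hptinj : ∀ i x i' x', pt i x = pt i' x' → i = i' ∧ x = x' := by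
    intro i x i' x' h
    have h1 := congrArg ofLex h
    simp only [pt, ofLex_toLex, Prod.mk.injEq] at h1
    exact ⟨h1.2, h1.1⟩
  have hltiff : ∀ p p' : Fin n ×ₗ Fin K, lab p ≠ lab p' → (lab p < lab p' ↔ p < p') := by
    intro p p' hne
    rw [Prod.Lex.lt_iff]
    constructor
    · intro h; exact Or.inl h
    · rintro (h | ⟨h, _⟩)
      · exact h
      · exact absurd h hne
  have hfresh : ∀ (x : Fin n) (R : Finset (Fin n ×ₗ Fin K)), R.card < K → ∃ p, p ∉ R ∧ lab p = x := by
    intro x R hR
    by_contra hcon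
    push Not at hcon
    have h1 : (Finset.univ : Finset (Fin K)).image (fun i => pt i x) ⊆ R := by
      intro p hp
      obtain ⟨i, _, rfl⟩ := Finset.mem_image.mp hp
      by_contra h
      exact hcon _ h (hlab i x)
    have h2 := Finset.card_le_card h1
    rw [Finset.card_image_of_injective _ (fun i i' h => (hptinj _ _ _ _ h).1), Finset.card_univ,
      Fintype.card_fin] at h2
    omega
  let R : Finset (Fin n) → Finset (Fin n ×ₗ Fin K) := fun S =>
    U2.image (pt c0) ∪ (S.image (pt c0) ∪ S.image (pt c1))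
  have hRmem : ∀ S p, p ∈ R S ↔ (∃ u ∈ U2, p = pt c0 u) ∨ (∃ u ∈ S, p = pt c0 u) ∨ (∃ u ∈ S, p = pt c1 u) := by
    intro S p
    simp only [R, Finset.mem_union, Finset.mem_image, eq_comm]
  -- the main claim for the whole set
  have htop : HV k (Ind (HH G lab m) (R σ)) (j + σ.card) := by
    obtain ⟨t, ht⟩ : ∃ t, j + σ.card = t + 1 := ⟨j + σ.card - 1, by omega⟩
    rw [ht]
    have hcard : (R σ).card ≤ 3 * n := by
      have h1 := Finset.card_union_le (U2.image (pt c0)) (σ.image (pt c0) ∪ σ.image (pt c1))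
      have h2 := Finset.card_union_le (σ.image (pt c0)) (σ.image (pt c1))
      have h3 := Finset.card_image_le (s := U2) (f := pt c0)
      have h4 := Finset.card_image_le (s := σ) (f := pt c0)
      have h5 := Finset.card_image_le (s := σ) (f := pt c1)
      have h6 : U2.card ≤ n := by simpa using Finset.card_le_univ U2
      have h7 : σ.card ≤ n := by simpa using Finset.card_le_univ σ
      show (U2.image (pt c0) ∪ (σ.image (pt c0) ∪ σ.image (pt c1))).card ≤ _
      omega
    refine main_claim lab K hfresh t ?_ (∑ x, m x) m hm le_rfl (R σ).card (R σ) le_rfl (by omega)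
    intro U hU
    refine HV.pull_back (U := U) (f := lab) ?_ (Y := Ind G.Adj (U.image lab)) (fun F hF => hF.1)
      (fun F hF => hF.1) ?_ (hadj _ _ (by omega))
    · intro x hx y hy
      by_cases hxy : lab x = lab y
      · have := hU x hx y hy hxy
        subst this
        simp
      · exact hltiff x y hxy
    · intro F hF
      constructor
      · rintro ⟨_, h2⟩
        refine ⟨Finset.image_subset_image hF, ?_⟩
        intro a ha b hb hab
        obtain ⟨p, hp, rfl⟩ := Finset.mem_image.mp ha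
        obtain ⟨p', hp', rfl⟩ := Finset.mem_image.mp hb
        exact h2 p hp p' hp' (fun h => hab (by rw [h]))
      · rintro ⟨_, h2⟩
        refine ⟨hF, ?_⟩
        intro p hp p' hp' hpp
        exact h2 _ (Finset.mem_image_of_mem _ hp) _ (Finset.mem_image_of_mem _ hp')
          (fun h => hpp (hU p (hF hp) p' (hF hp') h))
  -- removing the suspension points
  have hdes : ∀ d : ℕ, ∀ S, S ⊆ σ → S.card + d = σ.card → HV k (Ind (HH G lab m) (R S)) (j + S.card) := by
    intro d
    induction d with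
    | zero =>
      intro S hS hcard
      have : S = σ := Finset.eq_of_subset_of_card_le hS (by omega)
      rw [this]; exact htop
    | succ d ih =>
      intro S hS hcard
      obtain ⟨v, hv, hvS⟩ : ∃ v ∈ σ, v ∉ S := by
        by_contra h
        push Not at h
        have : S = σ := Finset.Subset.antisymm hS h
        rw [this] at hcard
        omega
      have hcard2 : (insert v S).card = S.card + 1 := Finset.card_insert_of_notMem hvS
      have h1 := ih (insert v S) (Finset.insert_subset hv hS) (by omega)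
      rw [hcard2, ← add_assoc] at h1
      have hR : R (insert v S) = insert (pt c0 v) (insert (pt c1 v) (R S)) := by
        ext p
        simp only [Finset.mem_insert, hRmem]
        constructor
        · rintro (h | ⟨u, rfl | hu, rfl⟩ | ⟨u, rfl | hu, rfl⟩)
          · exact Or.inr (Or.inr (Or.inl h))
          · exact Or.inl rfl
          · exact Or.inr (Or.inr (Or.inr (Or.inl ⟨u, hu, rfl⟩)))
          · exact Or.inr (Or.inl rfl)
          · exact Or.inr (Or.inr (Or.inr (Or.inr ⟨u, hu, rfl⟩)))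
        · rintro (rfl | rfl | h | ⟨u, hu, rfl⟩ | ⟨u, hu, rfl⟩)
          · exact Or.inr (Or.inl ⟨v, Or.inl rfl, rfl⟩)
          · exact Or.inr (Or.inr ⟨v, Or.inl rfl, rfl⟩)
          · exact Or.inl h
          · exact Or.inr (Or.inl ⟨u, Or.inr hu, rfl⟩)
          · exact Or.inr (Or.inr ⟨u, Or.inr hu, rfl⟩)
      rw [hR] at h1
      have hnot : ∀ i, pt i v ∉ R S := by
        intro i h
        rcases (hRmem _ _).mp h with ⟨u, hu, h2⟩ | ⟨u, hu, h2⟩ | ⟨u, hu, h2⟩
        · have := (hptinj _ _ _ _ h2).2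
          exact hdisj v hv (this ▸ hu)
        · have := (hptinj _ _ _ _ h2).2
          exact hvS (this ▸ hu)
        · have := (hptinj _ _ _ _ h2).2
          exact hvS (this ▸ hu)
      have hnadj : ∀ i, ∀ w ∈ R S, ¬ HH G lab m (pt i v) w ∧ ¬ HH G lab m w (pt i v) := by
        intro i w hw
        have h3 : ¬ CC G m (lab w) v := by
          rcases (hRmem _ _).mp hw with ⟨u, hu, rfl⟩ | ⟨u, hu, rfl⟩ | ⟨u, hu, rfl⟩
          · rw [hlab]; exact hσU u hu v hv
          · rw [hlab]; exact hσσ u (hS hu) v hv (fun h => hvS (h ▸ hu))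
          · rw [hlab]; exact hσσ u (hS hu) v hv (fun h => hvS (h ▸ hu))
        unfold HH
        rw [hlab]
        exact ⟨fun h => h3 h.symm, h3⟩
      refine HV.desusp (hnot c0) (hnot c1) (fun h => hc01 (hptinj _ _ _ _ h).1) ?_ (hnadj c0)
        (hnadj c1) h1
      unfold HH
      rw [hlab, hlab]
      exact hσ2 v hv
  have h0 := hdes σ.card ∅ (Finset.empty_subset _) (by simp)
  rw [Finset.card_empty, add_zero] at h0
  have hR0 : ∀ p, p ∈ R ∅ ↔ ∃ u ∈ U2, p = pt c0 u := by
    intro p
    rw [hRmem]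
    simp
  have hR0im : (R ∅).image lab = U2 := by
    ext u
    simp only [Finset.mem_image]
    constructor
    · rintro ⟨p, hp, rfl⟩
      obtain ⟨u, hu, rfl⟩ := (hR0 p).mp hp
      rw [hlab]; exact hu
    · intro hu
      exact ⟨pt c0 u, (hR0 _).mpr ⟨u, hu, rfl⟩, hlab _ _⟩
  have hinj0 : ∀ p ∈ R ∅, ∀ p' ∈ R ∅, lab p = lab p' → p = p' := by
    intro p hp p' hp' h
    obtain ⟨u, hu, rfl⟩ := (hR0 p).mp hp
    obtain ⟨u', hu', rfl⟩ := (hR0 p').mp hp'
    rw [hlab, hlab] at h
    rw [h]
  refine HV.push_fwd (U := R ∅) (f := lab) ?_ (X := Ind (HH G lab m) (R ∅)) (fun F hF => hF.1)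
    (fun F hF => by rw [hR0im]; exact hF.1) ?_ h0
  · intro x hx y hy
    by_cases hxy : lab x = lab y
    · have := hinj0 x hx y hy hxy
      subst this
      simp
    · exact hltiff x y hxy
  · intro F hF
    constructor
    · rintro ⟨_, h2⟩
      refine ⟨by rw [← hR0im]; exact Finset.image_subset_image hF, ?_⟩
      intro a ha b hb hab
      obtain ⟨p, hp, rfl⟩ := Finset.mem_image.mp ha
      obtain ⟨p', hp', rfl⟩ := Finset.mem_image.mp hb
      exact h2 p hp p' hp' (fun h => hab (by rw [h]))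
    · rintro ⟨_, h2⟩
      refine ⟨hF, ?_⟩
      intro p hp p' hp' hpp
      exact h2 _ (Finset.mem_image_of_mem _ hp) _ (Finset.mem_image_of_mem _ hp')
        (fun h => hpp (hinj0 p (hF hp) p' (hF hp') h))

end Pool.Agent.H677R3.Ab
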