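import Mathlib
import Pool.Agent.H677R3.AbPiece

/-!
The upper bound for the regularity of powers.
-/

set_option linter.unusedSectionVars false

namespace Pool.Agent.H677R3.Ab

open Finset EdgeReg

variable {n : ℕ} {k : Type*} [Field k]

/-- acyclicity of the pieces -/
theorem piece_gen (G : SimpleGraph (Fin n)) (r : ℕ) (hr1 : 1 ≤ r)
    (hadj : ∀ (U0 : Finset (Fin n)) (j : ℕ), r ≤ j → HV k (Ind G.Adj U0) j)
    (b : Fin n →₀ ℕ) (m : Fin n → ℕ) (hm : IsDeg G m) (l : ℕ)
    (hl : ∑ x, m x + r + l ≤ ∑ x, b x) : RelAcyc k (Pc G b m) l := by
  classical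
  by_cases hA : ∃ v, m v + 2 ≤ b v ∧ ¬ IsDeg G (fun x => m x + e1 v x + e1 v x)
  · obtain ⟨v, hv, hnl⟩ := hA
    apply relAcyc_toggle _ _ v
    intro T hvT
    constructor
    · rintro ⟨h1, h2⟩
      refine ⟨?_, h2.mono ?_⟩
      · intro x
        have h3 := h1 x
        by_cases hxv : x = v
        · subst hxv
          simp only [ind_apply, Finset.mem_insert_self, if_true]
          omega
        · simp only [ind_apply, Finset.mem_insert, hxv, false_or] at h3 ⊢
          exact h3
      · intro x
        by_cases hxv : x = v
        · subst hxv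
          simp only [ind_apply, Finset.mem_insert_self, if_true, hvT, if_false]
          omega
        · simp only [ind_apply, Finset.mem_insert, hxv, false_or]
          exact le_rfl
    · rintro ⟨h1, h2⟩
      have hx : ∀ x, x ≠ v → ind (insert v T) x = ind T x := by
        intro x hx
        simp only [ind_apply, Finset.mem_insert, hx, false_or]
      have hvv : ind (insert v T) v = 1 := by simp
      have hvv' : ind T v = 0 := by simp [hvT]
      refine ⟨?_, ?_, ?_⟩
      · intro x
        have h3 := h1 x
        by_cases hxv : x = v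
        · subst hxv; omega
        · rw [hx x hxv] at h3; exact h3
      · intro u hu
        apply h2.var u
        by_cases huv : u = v
        · subst huv
          simp only [hvv]
          omega
        · simp only [hx u huv]
          exact hu
      · intro u w huw
        by_cases huv : u = v ∧ w = v
        · obtain ⟨rfl, rfl⟩ := huv
          exact hnl
        · apply h2.pair u w
          intro x
          by_cases hxv : x = v
          · subst hxv
            have : e1 u x + e1 w x ≤ 1 := by
              unfold e1
              split_ifs with h4 h5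
              · exact absurd ⟨h4.symm, h5.symm⟩ huv
              all_goals omega
            simp only [hvv]
            omega
          · simp only [hx x hxv]
            exact huw x
  push Not at hA
  by_cases hmb : ∀ x, m x ≤ b x
  swap
  · apply relAcyc_of_empty
    intro T hT _
    apply hmb
    intro x
    have := hT.1 x
    omega
  have hind1 : ∀ (T : Finset (Fin n)) x, ind T x ≤ 1 := by
    intro T x
    simp only [ind_apply]
    split_ifs <;> omega
  -- the cofactor is squarefree
  have hsq : ∀ T, Pc G b m T → ∀ x, b x - ind T x - m x ≤ 1 := by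
    rintro T ⟨h1, h2⟩ x
    by_contra hcon
    push Not at hcon
    apply h2.pair x x
    · intro y
      by_cases hyx : y = x
      · subst hyx; rw [e1_self]; omega
      · rw [e1_ne hyx]; omega
    · exact hA x (by omega)
  by_cases hB : ∃ v, m v + 3 ≤ b v
  · obtain ⟨v, hv⟩ := hB
    apply relAcyc_of_empty
    intro T hT _
    have h1 := hsq T hT v
    have h2 := hind1 T v
    omega
  push Not at hB
  have hpair : ∀ T, Pc G b m T → ∀ u v, u ≠ v → b u - ind T u - m u ≠ 0 → b v - ind T v - m v ≠ 0 →
      ¬ CC G m u v := by
    rintro T hT u v huv hu hv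
    apply hT.2.pair u v
    intro x
    by_cases hxu : x = u
    · subst hxu
      rw [e1_self, e1_ne huv]; omega
    · rw [e1_ne hxu]
      by_cases hxv : x = v
      · subst hxv; rw [e1_self]; omega
      · rw [e1_ne hxv]; omega
  let VAR : Fin n → Prop := fun u => ∀ m2, IsDeg G m2 → ∑ x, m2 x = ∑ x, m x →
    (∀ x, m2 x ≤ m x + e1 u x) → toLex m2 ≤ toLex m
  let σ := Finset.univ.filter (fun x => b x = m x + 2)
  let Y1 := Finset.univ.filter (fun x => b x = m x + 1)
  have hσ : ∀ x, x ∈ σ ↔ b x = m x + 2 := fun x => by simp [σ]
  have hY1 : ∀ x, x ∈ Y1 ↔ b x = m x + 1 := fun x => by simp [Y1]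
  by_cases hC1 : ∃ u ∈ σ, ¬ VAR u
  · obtain ⟨u, hu, hvar⟩ := hC1
    apply relAcyc_of_empty
    intro T hT _
    apply hvar
    apply hT.2.var u
    have h1 := (hσ u).mp hu
    have h2 := hind1 T u
    beta_reduce
    omega
  push Not at hC1
  by_cases hC2 : ∃ u ∈ σ, ∃ v ∈ σ, u ≠ v ∧ CC G m u v
  · obtain ⟨u, hu, v, hv, huv, hcc⟩ := hC2
    apply relAcyc_of_empty
    intro T hT _
    refine hpair T hT u v huv ?_ ?_ hcc
    · have h1 := (hσ u).mp hu
      have h2 := hind1 T u
      omega
    · have h1 := (hσ v).mp hv
      have h2 := hind1 T v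
      omega
  push Not at hC2
  let U2 := Y1.filter (fun u => VAR u ∧ ∀ v ∈ σ, ¬ CC G m u v)
  have hU2 : ∀ u, u ∈ U2 ↔ u ∈ Y1 ∧ VAR u ∧ ∀ v ∈ σ, ¬ CC G m u v := fun u => by
    simp only [U2, Finset.mem_filter]
  have hdisj : Disjoint σ Y1 := by
    rw [Finset.disjoint_left]
    intro x hx hx2
    rw [hσ] at hx
    rw [hY1] at hx2
    omega
  have hcardW : (σ ∪ Y1).card = σ.card + Y1.card := Finset.card_union_of_disjoint hdisj
  have hsum : ∑ x, b x = ∑ x, m x + 2 * σ.card + Y1.card := by
    have h1 : ∀ x, b x = m x + 2 * (if b x = m x + 2 then 1 else 0) + (if b x = m x + 1 then 1 else 0) := by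
      intro x
      have h2 := hmb x
      have h3 := hB x
      split_ifs <;> omega
    rw [Finset.sum_congr rfl (fun x _ => h1 x), Finset.sum_add_distrib, Finset.sum_add_distrib,
      ← Finset.mul_sum, Finset.card_filter, Finset.card_filter]
  have hWiff : ∀ x, x ∈ σ ∪ Y1 ↔ m x + 1 ≤ b x := by
    intro x
    rw [Finset.mem_union, hσ, hY1]
    have := hB x
    omega
  by_cases hlW : l ≤ (σ ∪ Y1).card
  swap
  · apply relAcyc_of_empty
    intro T hT hcard
    apply hlW
    rw [← hcard]
    apply Finset.card_le_card
    intro x hx
    rw [hWiff]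
    have := hT.1 x
    simp only [ind_apply, hx, if_true] at this
    exact this
  obtain ⟨j, hj⟩ : ∃ j, j + l = (σ ∪ Y1).card := ⟨(σ ∪ Y1).card - l, by omega⟩
  refine rel_of_hv (σ ∪ Y1) U2 ?_ (Ind (CC G m) U2) (Pc G b m) (Ind.down _ _) (fun F hF => hF.1) ?_ hj
    (hv_cc G r hr1 hadj m hm σ U2 ?_ ?_ ?_ ?_ j (by omega))
  · exact (Finset.filter_subset _ _).trans Finset.subset_union_right
  · intro T
    constructor
    · intro hT
      have hsub : ∀ x ∈ (σ ∪ Y1) \ T, b x - ind T x - m x ≠ 0 := by
        intro x hx
        obtain ⟨h1, h2⟩ := Finset.mem_sdiff.mp hx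
        rw [hWiff] at h1
        have h3 : ind T x = 0 := by simp [h2]
        omega
      refine ⟨?_, ?_, ?_⟩
      · intro x hx
        rw [hWiff]
        have := hT.1 x
        simp only [ind_apply, hx, if_true] at this
        exact this
      · intro x hx
        obtain ⟨h1, h2⟩ := Finset.mem_sdiff.mp hx
        have h3 : ind T x = 0 := by simp [h2]
        have h4 := hsq T hT x
        have hxY : x ∈ Y1 := by
          rcases Finset.mem_union.mp h1 with h5 | h5
          · rw [hσ] at h5; omega
          · exact h5
        rw [hU2]
        refine ⟨hxY, hT.2.var x (hsub x hx), ?_⟩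
        intro v hv
        apply hpair T hT x v
        · rintro rfl
          exact (Finset.disjoint_left.mp hdisj hv) hxY
        · exact hsub x hx
        · have h5 := (hσ v).mp hv
          have h6 := hind1 T v
          omega
      · intro x hx y hy hxy
        exact hpair T hT x y hxy (hsub x hx) (hsub y hy)
    · rintro ⟨hTW, hsub, hprs⟩
      have hσT : ∀ x ∈ σ, x ∈ T := by
        intro x hx
        by_contra h
        have h1 := hsub (Finset.mem_sdiff.mpr ⟨Finset.mem_union_left _ hx, h⟩)
        exact (Finset.disjoint_left.mp hdisj hx) ((hU2 x).mp h1).1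
      have hle : ∀ x, m x + ind T x ≤ b x := by
        intro x
        by_cases hx : x ∈ T
        · have := (hWiff x).mp (hTW hx)
          simp only [ind_apply, hx, if_true]
          exact this
        · simp only [ind_apply, hx, if_false]
          exact hmb x
      have hs1 : ∀ x, b x - ind T x - m x ≤ 1 := by
        intro x
        by_cases hx : x ∈ σ
        · have h1 : ind T x = 1 := by simp [hσT x hx]
          have h2 := (hσ x).mp hx
          omega
        · have h1 := hB x
          have h2 : b x ≠ m x + 2 := fun h => hx ((hσ x).mpr h)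
          omega
      have hs2 : ∀ x, b x - ind T x - m x ≠ 0 → x ∈ σ ∨ (x ∈ (σ ∪ Y1) \ T) := by
        intro x hx
        by_cases hxs : x ∈ σ
        · exact Or.inl hxs
        · right
          have h1 := hB x
          have h2 : b x ≠ m x + 2 := fun h => hxs ((hσ x).mpr h)
          have h3 : b x = m x + 1 := by omega
          refine Finset.mem_sdiff.mpr ⟨Finset.mem_union_right _ ((hY1 x).mpr h3), fun h4 => ?_⟩
          have h5 : ind T x = 1 := by simp [h4]
          omega
      refine ⟨hle, ?_, ?_⟩
      · intro u hu
        rcases hs2 u hu with h1 | h1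
        · exact hC1 u h1
        · exact ((hU2 u).mp (hsub h1)).2.1
      · intro u v huv
        have hne : u ≠ v := by
          rintro rfl
          have h1 := huv u
          have h2 := hs1 u
          rw [e1_self] at h1

          omega
        have hu : b u - ind T u - m u ≠ 0 := by
          have h1 := huv u
          rw [e1_self] at h1

          omega
        have hv : b v - ind T v - m v ≠ 0 := by
          have h1 := huv v
          rw [e1_self] at h1

          omega
        rcases hs2 u hu with h1 | h1
        · rcases hs2 v hv with h2 | h2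
          · exact hC2 u h1 v h2 hne
          · intro h3
            exact ((hU2 v).mp (hsub h2)).2.2 u h1 (CC.symm h3)
        · rcases hs2 v hv with h2 | h2
          · exact ((hU2 u).mp (hsub h1)).2.2 v h2
          · exact hprs u h1 v h2 hne
  · intro v hv
    have := (hσ v).mp hv
    exact hA v (by omega)
  · intro u hu v hv huv
    exact hC2 u hu v hv huv
  · intro u hu v hv
    exact ((hU2 u).mp hu).2.2 v hv
  · intro v hv hv2
    exact (Finset.disjoint_left.mp hdisj hv) ((hU2 v).mp hv2).1

/-- upper bound for the regularity of `I(G)^q` -/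
theorem ab_upper (G : SimpleGraph (Fin n)) (r q : ℕ) (hr1 : 1 ≤ r) (hq : 1 ≤ q)
    (hadj : ∀ (U0 : Finset (Fin n)) (j : ℕ), r ≤ j → HV k (Ind G.Adj U0) j)
    (i e : ℕ) (he : 2 * q + r ≤ e + 1) :
    ¬ TorNe ((edgeIdeal k G) ^ q) i e := by
  classical
  apply upper_transfer _ (Up G q) (mem_pow k G q)
  intro b hb a ha hc
  have hbne : b.support.Nonempty := by
    by_contra h
    rw [Finset.not_nonempty_iff_eq_empty] at h
    have h0 : ∀ x, b x = 0 := fun x => by
      by_contra h'
      have : x ∈ b.support := Finsupp.mem_support_iff.mpr h'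
      rw [h] at this
      simp at this
    rw [Finset.sum_eq_zero (fun x _ => h0 x)] at hb
    omega
  have hsub : ∀ T : Finset (Fin n), T ⊆ b.support ↔ ind T ≤ b := by
    intro T
    constructor
    · intro h x
      simp only [ind_apply]
      split_ifs with hx
      · have := Finsupp.mem_support_iff.mp (h hx)
        omega
      · exact Nat.zero_le _
    · intro h x hx
      have := h x
      rw [Finsupp.mem_support_iff]
      simp only [ind_apply, hx, if_true] at this
      omega
  refine acyc_of_rel b.support hbne (KK (Up G q) b) (fun T hT => (hsub T).mpr hT.1) ?_ i ?_ a ha hc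
  · rintro T j hj ⟨h1, h2⟩
    have h3 : ∀ x, ind T x ≤ ind (insert j T) x := by
      intro x
      simp only [ind_apply, Finset.mem_insert]
      split_ifs with h4 h5
      · exact le_rfl
      · exact absurd (Or.inr h4) h5
      · exact Nat.zero_le _
      · exact le_rfl
    refine ⟨fun x => (h3 x).trans (h1 x), up_mono ?_ h2⟩
    intro x
    have := h3 x
    simp only [Finsupp.coe_tsub, Pi.sub_apply]
    omega
  · have hQ : (fun T => T ⊆ b.support ∧ ¬ KK (Up G q) b T) =
        fun T => ind T ≤ b ∧ ¬ Up G q ⇑(b - ind T) := by
      funext T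
      apply propext
      rw [hsub T]
      unfold KK
      tauto
    rw [hQ]
    apply relAcyc_filtration _ _ (kap G q b)
    · rintro T j ⟨hT1, hT2⟩ hj i' hi ⟨h1, h2⟩
      have h3 : ∀ x, ind (insert j T) x ≤ ind (insert i' (insert j T)) x := by
        intro x
        simp only [ind_apply, Finset.mem_insert]
        split_ifs with h4 h5
        · exact le_rfl
        · exact absurd (Or.inr h4) h5
        · exact Nat.zero_le _
        · exact le_rfl
      have h4 : ∀ x, ind T x ≤ ind (insert j T) x := by
        intro x
        simp only [ind_apply, Finset.mem_insert]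
        split_ifs with h4 h5
        · exact le_rfl
        · exact absurd (Or.inr h4) h5
        · exact Nat.zero_le _
        · exact le_rfl
      refine ⟨fun x => (h3 x).trans (h1 x), fun h => hT2 (up_mono ?_ h)⟩
      intro x
      have := h4 x
      simp only [Finsupp.coe_tsub, Pi.sub_apply]
      omega
    · intro T j _ _ _
      exact kap_mono G q b _ _ (Finset.subset_insert _ _)
    · intro t
      by_cases hex : ∃ T, (ind T ≤ b ∧ ¬ Up G q ⇑(b - ind T)) ∧ kap G q b T = t
      · obtain ⟨T0, ⟨hT0, hT0u⟩, hT0k⟩ := hex
        set p := mu G q ⇑(b - ind T0) with hp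
        set m := canon G q ⇑(b - ind T0) with hm
        have hmem := canon_mem G q ⇑(b - ind T0)
        rw [← hm] at hmem
        have ht : t = toLex (p, toLex m) := by rw [← hT0k]; rfl
        have hpq : p < q := by
          rcases Nat.lt_or_ge p q with h | h
          · exact h
          · exfalso
            have h1 : p = q := le_antisymm (mu_le G q _) h
            apply hT0u
            have := mu_spec G q ⇑(b - ind T0)
            rw [← hp, h1] at this
            exact this
        have hQ2 : (fun T => (ind T ≤ b ∧ ¬ Up G q ⇑(b - ind T)) ∧ kap G q b T = t) = Pc G b m := by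
          funext T
          apply propext
          rw [ht]
          exact piece_iff G q b p m hmem.1 hmem.2.1 hpq T
        rw [hQ2]
        have hms : ∑ x, m x = 2 * p := hmem.2.1
        apply piece_gen G r hr1 hadj b m hmem.1
        rw [hms, hb]; omega
      · apply relAcyc_of_empty
        intro T hT _
        exact hex ⟨T, hT⟩

end Pool.Agent.H677R3.Ab
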