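import Mathlib
import Pool.Agent.H677R3.AbUpper

/-!
Final statements on the regularity of powers of edge ideals.
-/

set_option linter.unusedSectionVars false

namespace Pool.Agent.H677R3.Ab

open Finset EdgeReg

variable {n : ℕ} {k : Type*} [Field k]

/-- minimal generators give nonzero `Tor_0` -/
lemma tor_zero (J : Ideal (MvPolynomial (Fin n) k)) (P : (Fin n → ℕ) → Prop)
    (hJ : ∀ p, p ∈ J ↔ ∀ c ∈ p.support, P ⇑c) (b : Fin n →₀ ℕ) (e : ℕ) (hb : ∑ v, b v = e)
    (hPb : P ⇑b) (hmin : ∀ c : Fin n → ℕ, P c → e ≤ ∑ v, c v) : TorNe J 0 e := by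
  classical
  have hind0 : ind (∅ : Finset (Fin n)) = 0 := by
    refine Finsupp.ext fun x => ?_
    simp
  refine lower_transfer J P hJ 0 e b (by rw [hb, add_zero]) (fun T => if T = ∅ then 1 else 0) ?_ ?_ ?_
  · intro T hT
    beta_reduce at hT
    split_ifs at hT with h1
    · subst h1
      refine ⟨⟨?_, ?_⟩, rfl⟩
      · rw [hind0]; exact fun _ => Nat.zero_le _
      · rw [hind0, tsub_zero]; exact hPb
    · exact absurd rfl hT
  · intro T
    unfold EdgeReg.cd
    refine Finset.sum_eq_zero fun j _ => ?_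
    beta_reduce
    rw [if_neg (Finset.insert_ne_empty _ _), mul_zero]
  · rintro ⟨g, hg1, hg2⟩
    have hg0 : ∀ T, g T = 0 := by
      intro T
      by_contra h
      obtain ⟨⟨h1, h2⟩, h3⟩ := hg1 T h
      have h4 := hmin _ h2
      have h5 : ∑ v, b v = ∑ v, (b - ind T) v + ∑ v, ind T v := by
        rw [← Finset.sum_add_distrib]
        refine Finset.sum_congr rfl fun v _ => ?_
        have := h1 v
        simp only [Finsupp.coe_tsub, Pi.sub_apply]
        omega
      rw [sum_ind, h3] at h5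
      omega
    have h1 := hg2 ∅
    unfold EdgeReg.cd at h1
    rw [Finset.sum_eq_zero (fun j _ => by rw [hg0, mul_zero]), if_pos rfl] at h1
    exact zero_ne_one h1

lemma isDeg_mul {G : SimpleGraph (Fin n)} {u v : Fin n} (h : G.Adj u v) (q : ℕ) :
    IsDeg G (fun x => q * (e1 u x + e1 v x)) := by
  induction q with
  | zero => exact isDeg_congr (isDeg_zero G) fun x => by ring
  | succ q ih => exact isDeg_congr (isDeg_add ih h) fun x => by ring

/-- `I(G)^q` has a minimal generator of degree `2q` -/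
lemma tor_gen (G : SimpleGraph (Fin n)) {u v : Fin n} (h : G.Adj u v) (q : ℕ) :
    TorNe ((edgeIdeal k G) ^ q) 0 (2 * q) := by
  refine tor_zero _ (Up G q) (mem_pow k G q)
    (Finsupp.equivFunOnFinite.symm (fun x => q * (e1 u x + e1 v x))) (2 * q) ?_ ?_ ?_
  · simp only [Finsupp.equivFunOnFinite_symm_apply_apply]
    rw [← Finset.mul_sum, Finset.sum_add_distrib, sum_e1, sum_e1]
    ring
  · refine ⟨_, isDeg_mul h q, ?_, fun x => le_rfl⟩
    rw [← Finset.mul_sum, Finset.sum_add_distrib, sum_e1, sum_e1]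
    ring
  · rintro c ⟨d, _, hd, hle⟩
    rw [← hd]
    exact Finset.sum_le_sum fun x _ => hle x

/-- existence of the regularity from a bound -/
lemma reg_exists (J : Ideal (MvPolynomial (Fin n) k)) (B : ℕ) (hB : ∀ i e, B < e → ¬ TorNe J i e)
    (h0 : ∃ i e, TorNe J i e) : ∃ s, IsReg J s ∧ s ≤ B := by
  obtain ⟨i0, e0, h0⟩ := h0
  have hne : {e : ℕ | ∃ i : ℕ, TorNe J i e}.Nonempty := ⟨e0, i0, h0⟩
  have hbd : BddAbove {e : ℕ | ∃ i : ℕ, TorNe J i e} := by
    refine ⟨B, ?_⟩
    rintro e ⟨i, he⟩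
    by_contra h
    push Not at h
    exact hB i e h he
  refine ⟨sSup {e : ℕ | ∃ i : ℕ, TorNe J i e}, ⟨Nat.sSup_mem hne hbd, fun e he => le_csSup hbd he⟩, ?_⟩
  obtain ⟨i, he⟩ := Nat.sSup_mem hne hbd
  by_contra h
  push Not at h
  exact hB i _ h he

/-- trivial bound on the regularity of `I(G)` -/
lemma triv_bound (G : SimpleGraph (Fin n)) (q : ℕ) (hq : 1 ≤ q) (i e : ℕ) (he : 2 * q + (n + 2) ≤ e) :
    ¬ TorNe ((edgeIdeal k G) ^ q) i e := by
  have hcard : ∀ A : Finset (Fin n), A.card ≤ n := fun A => by simpa using Finset.card_le_univ A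
  refine upper_main G (n + 2) q hq (fun A _ => (hcard A).trans (by omega)) ?_ i e (by omega) ?_
  · intro R _ hR
    have := hcard R
    omega
  · intro h
    omega

lemma hadj_of_reg (G : SimpleGraph (Fin n)) (r : ℕ) (hr1 : 1 ≤ r)
    (hr : ∀ i e, r < e → ¬ TorNe (edgeIdeal k G) i e) (U0 : Finset (Fin n)) (j : ℕ) (hj : r ≤ j) :
    HV k (Ind G.Adj U0) j := by
  refine hv_core G (edgeIdeal k G) (Up G 1) ?_ (fun c c' h => up_mono h) U0
    (fun F _ => up_one_iff' G F) r hr j hj (by omega)
  intro p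
  have := mem_pow k G 1 p
  rwa [pow_one] at this

/-- the conjecture of Alilooee, Banerjee, Beyarslan and Hà -/
theorem abbh (k : Type*) [Field k] (G : SimpleGraph (Fin n)) (hG : ∃ u v, G.Adj u v) (q : ℕ) (hq : 1 ≤ q) :
    ∃ r s, IsReg (edgeIdeal k G) r ∧ IsReg ((edgeIdeal k G) ^ q) s ∧ s + 2 ≤ 2 * q + r := by
  obtain ⟨u, v, huv⟩ := hG
  have hgen1 := tor_gen (k := k) G huv 1
  rw [pow_one] at hgen1
  obtain ⟨r, hr, _⟩ := reg_exists (edgeIdeal k G) (2 * 1 + (n + 2)) (by
    intro i e he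
    have := triv_bound (k := k) G 1 le_rfl i e (by omega)
    rwa [pow_one] at this) ⟨0, 2 * 1, hgen1⟩
  have hr2 : 2 ≤ r := hr.2 ⟨0, hgen1⟩
  have hbd : ∀ i e, r < e → ¬ TorNe (edgeIdeal k G) i e := by
    intro i e he h
    have := hr.2 ⟨i, h⟩
    omega
  obtain ⟨s, hs, hsB⟩ := reg_exists ((edgeIdeal k G) ^ q) (2 * q + r - 2) (by
    intro i e he
    exact ab_upper G r q (by omega) hq (hadj_of_reg G r (by omega) hbd) i e (by omega))
    ⟨0, 2 * q, tor_gen G huv q⟩
  exact ⟨r, s, hr, hs, by omega⟩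

/-- the colon ideal `I : x` -/
def colonX (I : Ideal (MvPolynomial (Fin n) k)) (x : Fin n) : Ideal (MvPolynomial (Fin n) k) where
  carrier := {f | MvPolynomial.X x * f ∈ I}
  add_mem' := by
    intro a b ha hb
    have ha' : MvPolynomial.X x * a ∈ I := ha
    have hb' : MvPolynomial.X x * b ∈ I := hb
    show MvPolynomial.X x * (a + b) ∈ I
    rw [mul_add]
    exact I.add_mem ha' hb'
  zero_mem' := by simp
  smul_mem' := by
    intro c a ha
    have ha' : MvPolynomial.X x * a ∈ I := ha
    show MvPolynomial.X x * (c * a) ∈ I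
    rw [mul_left_comm]
    exact I.mul_mem_left c ha'

lemma mem_colonX (G : SimpleGraph (Fin n)) (x : Fin n) (p : MvPolynomial (Fin n) k) :
    p ∈ colonX (edgeIdeal k G) x ↔ ∀ c ∈ p.support, Up G 1 (fun z => c z + e1 x z) := by
  have h1 : p ∈ colonX (edgeIdeal k G) x ↔ MvPolynomial.X x * p ∈ edgeIdeal k G := Iff.rfl
  have h2 := mem_pow k G 1 (MvPolynomial.X x * p)
  rw [pow_one] at h2
  rw [h1, h2, MvPolynomial.support_X_mul]
  have h3 : ∀ c : Fin n →₀ ℕ, ⇑(Finsupp.single x 1 + c : Fin n →₀ ℕ) = fun z => c z + e1 x z := by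
    intro c
    funext z
    rw [Finsupp.add_apply, single_eq_e1, add_comm]
  constructor
  · intro h c hc
    rw [← h3 c]
    apply h
    rw [Finset.mem_map]
    exact ⟨c, hc, rfl⟩
  · intro h c hc
    obtain ⟨c', hc', rfl⟩ := Finset.mem_map.mp hc
    have := h c' hc'
    rw [← h3 c'] at this
    exact this

theorem hadj_of_colon (G : SimpleGraph (Fin n)) (r : ℕ) (hr1 : 1 ≤ r)
    (hr : ∀ x i e, r < e → ¬ TorNe (colonX (edgeIdeal k G) x) i e) :
    ∀ (M : ℕ) (U0 : Finset (Fin n)), U0.card ≤ M → ∀ j, r ≤ j → HV k (Ind G.Adj U0) (j + 1) := by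
  intro M
  induction M with
  | zero =>
    intro U hU j _
    have hU0 : U = ∅ := Finset.card_eq_zero.mp (by omega)
    subst hU0
    intro a ha hc
    have h0 : ∀ F, a F = 0 := by
      intro F
      by_contra h
      obtain ⟨⟨h1, _⟩, h2⟩ := ha F h
      rw [Finset.subset_empty.mp h1] at h2
      simp at h2
    exact ⟨fun _ => 0, fun F h => absurd rfl h, fun F => by rw [bd_zero, h0]⟩
  | succ M ih =>
    intro U hU j hj
    rcases U.eq_empty_or_nonempty with rfl | ⟨z, hz⟩
    · exact ih ∅ (by simp) j hj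
    · apply HV.vertex (fun x y h => h.symm) hz
      · exact ih (U.erase z) (by rw [Finset.card_erase_of_mem hz]; omega) j hj
      · intro R hR
        refine hv_core G (colonX (edgeIdeal k G) z) (fun c => Up G 1 (fun x => c x + e1 z x))
          (mem_colonX G z) ?_ R ?_ r (hr z) j hj (by omega)
        · intro c c' h h1
          exact up_mono (fun x => by have := h x; omega) h1
        · intro F hF
          have hzF : z ∉ F := fun h => ((hR z).mp (hF h)).2.1 rfl
          have h1 : (fun x => (⇑(ind F)) x + e1 z x) = ⇑(ind (insert z F)) := by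
            funext x
            simp only [ind_apply, Finset.mem_insert]
            by_cases hx : x = z
            · subst hx
              rw [e1_self]
              simp [hzF]
            · rw [e1_ne hx]
              simp [hx]
          show Up G 1 (fun x => (⇑(ind F)) x + e1 z x) ↔ _
          rw [h1, up_one_iff', not_iff_not]
          constructor
          · intro h x hx y hy
            exact h x (Finset.mem_insert_of_mem hx) y (Finset.mem_insert_of_mem hy)
          · intro h x hx y hy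
            rcases Finset.mem_insert.mp hx with hx' | hx'
            · rcases Finset.mem_insert.mp hy with hy' | hy'
              · rw [hx', hy']; exact G.loopless.irrefl _
              · rw [hx']; exact ((hR y).mp (hF hy')).2.2
            · rcases Finset.mem_insert.mp hy with hy' | hy'
              · rw [hy']; exact fun hh => ((hR x).mp (hF hx')).2.2 hh.symm
              · exact h x hx' y hy'

/-- local colon bounds give the bound for all powers -/
theorem colon_bound (k : Type*) [Field k] (G : SimpleGraph (Fin n)) (hG : ∃ u v, G.Adj u v) (r : ℕ)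
    (hr : ∀ x, ∃ s, IsReg (colonX (edgeIdeal k G) x) s ∧ s ≤ r) (q : ℕ) (hq : 1 ≤ q) :
    ∃ s, IsReg ((edgeIdeal k G) ^ q) s ∧ s + 1 ≤ 2 * q + r := by
  obtain ⟨u, v, huv⟩ := hG
  have hbd : ∀ x i e, TorNe (colonX (edgeIdeal k G) x) i e → e ≤ r := by
    intro x i e h
    obtain ⟨s, hs, hsr⟩ := hr x
    exact (hs.2 ⟨i, h⟩).trans hsr
  have hr1 : 1 ≤ r := by
    apply hbd u 0 1
    refine tor_zero _ (fun c => Up G 1 (fun x => c x + e1 u x)) (mem_colonX G u) (ind {v}) 1
      (by rw [sum_ind]; simp) ?_ ?_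
    · refine ⟨_, isDeg_add (isDeg_zero G) huv, ?_, ?_⟩
      · simp [Finset.sum_add_distrib, sum_e1]
      · intro x
        simp only [ind_apply, Finset.mem_singleton]
        unfold e1
        split_ifs <;> omega
    · rintro c ⟨d, _, hd, hle⟩
      have h1 : ∑ x, d x ≤ ∑ x, (c x + e1 u x) := Finset.sum_le_sum fun x _ => hle x
      rw [Finset.sum_add_distrib, sum_e1, hd] at h1
      omega
  have h1 : ∀ (U0 : Finset (Fin n)) (j : ℕ), r + 1 ≤ j → HV k (Ind G.Adj U0) j := by
    intro U0 j hj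
    obtain ⟨j', rfl⟩ : ∃ j', j = j' + 1 := ⟨j - 1, by omega⟩
    exact hadj_of_colon G r hr1 (fun x i e he h => by have := hbd x i e h; omega) U0.card U0 le_rfl j'
      (by omega)
  obtain ⟨s, hs, hsB⟩ := reg_exists ((edgeIdeal k G) ^ q) (2 * q + r - 1) (by
    intro i e he
    exact ab_upper G (r + 1) q (by omega) hq h1 i e (by omega)) ⟨0, 2 * q, tor_gen G huv q⟩
  exact ⟨s, hs, by omega⟩

end Pool.Agent.H677R3.Ab
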