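import Mathlib
import Pool.Agent.H677R3.AbFinal

/-!
Lower bounds from an edge `xy` and the induced subgraph on the vertices away from `x` and `y`.
-/

set_option linter.unusedSectionVars false

namespace Pool.Agent.H677R3.Ab

open Finset EdgeReg

variable {n : ℕ} {k : Type*} [Field k]

/-- the graph obtained from `G` by removing all edges that meet the closed neighbourhoods of
`x` and `y` -/
def away (G : SimpleGraph (Fin n)) (x y : Fin n) : SimpleGraph (Fin n) where
  Adj u v := G.Adj u v ∧ (u ≠ x ∧ u ≠ y ∧ ¬ G.Adj x u ∧ ¬ G.Adj y u) ∧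
    (v ≠ x ∧ v ≠ y ∧ ¬ G.Adj x v ∧ ¬ G.Adj y v)
  symm := ⟨fun _ _ h => ⟨h.1.symm, h.2.2, h.2.1⟩⟩
  loopless := ⟨fun u h => G.loopless.irrefl u h.1⟩

/-- vanishing of homology from the vanishing of Koszul homology in one degree -/
theorem hv_core2 (G : SimpleGraph (Fin n)) (J : Ideal (MvPolynomial (Fin n) k)) (P : (Fin n → ℕ) → Prop)
    (hJ : ∀ p, p ∈ J ↔ ∀ c ∈ p.support, P ⇑c)
    (hPm : ∀ c c' : Fin n → ℕ, (∀ x, c x ≤ c' x) → P c → P c')
    (W : Finset (Fin n)) (b : Fin n →₀ ℕ) (hbW : ∀ x, x ∈ W ↔ b x ≠ 0)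
    (hP : ∀ F, F ⊆ W → (P ⇑(b - ind (W \ F)) ↔ ¬ Indep G F))
    (j : ℕ) (hj1 : 1 ≤ j) (e : ℕ) (he : e + W.card = ∑ x, b x + j + 1)
    (hr : ∀ i, ¬ TorNe J i e) : HV k (Ind G.Adj W) j := by
  classical
  rcases Nat.lt_or_ge j W.card with hlt | hge
  · have hne : W.Nonempty := Finset.card_pos.mp (by omega)
    obtain ⟨i, hi⟩ : ∃ i, W.card = j + (i + 1) := ⟨W.card - j - 1, by omega⟩
    have hsubT : ∀ T : Finset (Fin n), ind T ≤ b ↔ T ⊆ W := by
      intro T
      constructor
      · intro h x hx
        have := h x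
        simp only [ind_apply, hx, if_true] at this
        rw [hbW]
        omega
      · intro h x
        simp only [ind_apply]
        split_ifs with h1
        · have := (hbW x).mp (h h1)
          omega
        · exact Nat.zero_le _
    have hKiff : ∀ T, T ⊆ W → (KK P b T ↔ ¬ Indep G (W \ T)) := by
      intro T hT
      unfold KK
      have h1 := hP (W \ T) Finset.sdiff_subset
      rw [Finset.sdiff_sdiff_eq_self hT] at h1
      rw [h1]
      exact ⟨fun h => h.2, fun h => ⟨(hsubT T).mpr hT, h⟩⟩
    refine hv_of_rel W (Ind G.Adj W) (fun T => T ⊆ W ∧ ¬ KK P b T) (Ind.down _ _)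
      (fun F hF => hF.1) ?_ (l := i + 1) hi.symm ?_
    · intro T
      constructor
      · rintro ⟨h1, h2⟩
        rw [hKiff T h1, not_not] at h2
        exact ⟨h1, ind_indep.mpr ⟨Finset.sdiff_subset, h2⟩⟩
      · rintro ⟨h1, h2⟩
        refine ⟨h1, ?_⟩
        rw [hKiff T h1, not_not]
        exact (ind_indep.mp h2).2
    · apply rel_of_acyc W hne (KK P b) (fun T hT => (hsubT T).mp hT.1)
      · rintro T v hv ⟨h1, h2⟩
        have h3 : ∀ x, ind T x ≤ ind (insert v T) x := by
          intro x
          simp only [ind_apply, Finset.mem_insert]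
          split_ifs with h4 h5
          · exact le_rfl
          · exact absurd (Or.inr h4) h5
          · exact Nat.zero_le _
          · exact le_rfl
        refine ⟨fun x => (h3 x).trans (h1 x), hPm _ _ ?_ h2⟩
        intro x
        have := h3 x
        simp only [Finsupp.coe_tsub, Pi.sub_apply]
        omega
      · intro a ha hc
        by_contra hne2
        exact hr i (lower_transfer J P hJ i e b (by omega) a ha hc hne2)
  · intro a ha hc
    have h0 : ∀ F, a F = 0 := by
      intro F
      by_contra hF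
      obtain ⟨h1, h2⟩ := ha F hF
      have hFU : F = W := Finset.eq_of_subset_of_card_le h1.1 (by omega)
      obtain ⟨v, hv⟩ : F.Nonempty := Finset.card_pos.mp (by omega)
      have h3 := hc (F.erase v)
      unfold bd at h3
      rw [Finset.sum_eq_single v] at h3
      · rw [Finset.insert_erase hv] at h3
        have h4 := congrArg (fun z => sg k v (F.erase v) * z) h3
        beta_reduce at h4
        rw [← mul_assoc, sg_mul_self, one_mul, mul_zero] at h4
        exact hF h4
      · intro u hu huv
        have h4 : a (insert u (F.erase v)) = 0 := by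
          by_contra h5
          have h6 := (ha _ h5).1.1 (Finset.mem_insert_self _ _)
          rw [← hFU] at h6
          exact (Finset.mem_compl.mp hu) (Finset.mem_erase.mpr ⟨huv, h6⟩)
        rw [h4, mul_zero]
      · intro h
        exact absurd (Finset.mem_compl.mpr (Finset.notMem_erase v F)) h
    exact ⟨fun _ => 0, fun F h => absurd rfl h, fun F => by rw [bd_zero, h0]⟩

/-- suspended classes survive in all powers -/
theorem susp_lower (G : SimpleGraph (Fin n)) {x y : Fin n} (hxy : G.Adj x y) (R : Finset (Fin n))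
    (hR : ∀ w ∈ R, w ≠ x ∧ w ≠ y ∧ ¬ G.Adj x w ∧ ¬ G.Adj y w) (q : ℕ) (hq : 1 ≤ q) (j : ℕ)
    (h : ∀ i, ¬ TorNe ((edgeIdeal k G) ^ q) i (2 * q + j)) : HV k (Ind G.Adj R) j := by
  classical
  have hxR : x ∉ R := fun h => (hR x h).1 rfl
  have hyR : y ∉ R := fun h => (hR y h).2.1 rfl
  let W := insert x (insert y R)
  have hW : ∀ z, z ∈ W ↔ z = x ∨ z = y ∨ z ∈ R := fun z => by simp [W]
  let b : Fin n →₀ ℕ := Finsupp.equivFunOnFinite.symm
    (fun z => (if z ∈ W then 1 else 0) + (q - 1) * (e1 x z + e1 y z))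
  have hb : ∀ z, b z = (if z ∈ W then 1 else 0) + (q - 1) * (e1 x z + e1 y z) := fun z => rfl
  have hWcard : W.card = R.card + 2 := by
    simp only [W]
    rw [Finset.card_insert_of_notMem, Finset.card_insert_of_notMem hyR]
    simp only [Finset.mem_insert, not_or]
    exact ⟨hxy.ne, hxR⟩
  have hsumb : ∑ z, b z = W.card + 2 * (q - 1) := by
    rw [Finset.sum_congr rfl (fun z _ => hb z), Finset.sum_add_distrib, ← Finset.mul_sum,
      Finset.sum_add_distrib, sum_e1, sum_e1, Finset.sum_boole]
    simp
    ring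
  apply HV.desusp (H := G.Adj) (R := R) hxR hyR hxy.ne hxy
    (fun w hw => ⟨(hR w hw).2.2.1, fun h => (hR w hw).2.2.1 h.symm⟩)
    (fun w hw => ⟨(hR w hw).2.2.2, fun h => (hR w hw).2.2.2 h.symm⟩)
  show HV k (Ind G.Adj W) (j + 1)
  refine hv_core2 G ((edgeIdeal k G) ^ q) (Up G q) (mem_pow k G q) (fun c c' h => up_mono h) W b ?_ ?_
    (j + 1) (by omega) (2 * q + j) (by omega) h
  · intro z
    rw [hb]
    by_cases hz : z ∈ W
    · simp [hz]
    · have h1 : z ≠ x := fun h => hz ((hW z).mpr (Or.inl h))
      have h2 : z ≠ y := fun h => hz ((hW z).mpr (Or.inr (Or.inl h)))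
      simp [hz, e1_ne h1, e1_ne h2]
  · intro F hF
    have hval : ∀ z, (b - ind (W \ F)) z = (if z ∈ F then 1 else 0) + (q - 1) * (e1 x z + e1 y z) := by
      intro z
      simp only [Finsupp.coe_tsub, Pi.sub_apply, ind_apply, Finset.mem_sdiff, hb]
      by_cases h1 : z ∈ F
      · have h2 : z ∈ W := hF h1
        simp [h1, h2]
      · by_cases h2 : z ∈ W
        · simp [h1, h2]
        · simp [h1, h2]
    constructor
    · rintro ⟨d, ⟨B, hB, hBd⟩, hsum, hle⟩ hind
      have hle' : ∀ z, dg B z ≤ (if z ∈ F then 1 else 0) + (q - 1) * (e1 x z + e1 y z) := by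
        intro z
        have := hle z
        rw [hval] at this
        rw [hBd]; exact this
      have hsup : ∀ z, dg B z ≠ 0 → z = x ∨ z = y ∨ z ∈ F := by
        intro z hz
        by_contra hcon
        push Not at hcon
        have := hle' z
        rw [if_neg hcon.2.2, e1_ne hcon.1, e1_ne hcon.2.1] at this
        omega
      have hedge : ∀ u v, B u v ≠ 0 → (u = x ∧ v = y) ∨ (u = y ∧ v = x) := by
        intro u v huv
        have hadj := hB.adj u v huv
        have hu : dg B u ≠ 0 := by have := le_dg B u v; omega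
        have hv : dg B v ≠ 0 := by have := le_dg B v u; rw [hB.symm v u] at this; omega
        have hFW : ∀ z ∈ F, z = x ∨ z = y ∨ z ∈ R := fun z hz => (hW z).mp (hF hz)
        have key : ∀ z w, (z = x ∨ z = y) → w ∈ R → ¬ G.Adj z w := by
          rintro z w (rfl | rfl) hw
          · exact (hR w hw).2.2.1
          · exact (hR w hw).2.2.2
        rcases hsup u hu with rfl | rfl | huF
        · rcases hsup v hv with rfl | rfl | hvF
          · exact absurd rfl hadj.ne
          · exact Or.inl ⟨rfl, rfl⟩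
          · rcases hFW v hvF with rfl | rfl | hvR
            · exact absurd rfl hadj.ne
            · exact Or.inl ⟨rfl, rfl⟩
            · exact absurd hadj (key _ _ (Or.inl rfl) hvR)
        · rcases hsup v hv with rfl | rfl | hvF
          · exact Or.inr ⟨rfl, rfl⟩
          · exact absurd rfl hadj.ne
          · rcases hFW v hvF with rfl | rfl | hvR
            · exact Or.inr ⟨rfl, rfl⟩
            · exact absurd rfl hadj.ne
            · exact absurd hadj (key _ _ (Or.inr rfl) hvR)
        · rcases hFW u huF with rfl | rfl | huR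
          · rcases hsup v hv with rfl | rfl | hvF
            · exact absurd rfl hadj.ne
            · exact Or.inl ⟨rfl, rfl⟩
            · rcases hFW v hvF with rfl | rfl | hvR
              · exact absurd rfl hadj.ne
              · exact Or.inl ⟨rfl, rfl⟩
              · exact absurd hadj (key _ _ (Or.inl rfl) hvR)
          · rcases hsup v hv with rfl | rfl | hvF
            · exact Or.inr ⟨rfl, rfl⟩
            · exact absurd rfl hadj.ne
            · rcases hFW v hvF with rfl | rfl | hvR
              · exact Or.inr ⟨rfl, rfl⟩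
              · exact absurd rfl hadj.ne
              · exact absurd hadj (key _ _ (Or.inr rfl) hvR)
          · rcases hsup v hv with rfl | rfl | hvF
            · exact absurd hadj.symm (key _ _ (Or.inl rfl) huR)
            · exact absurd hadj.symm (key _ _ (Or.inr rfl) huR)
            · exact absurd hadj (hind u huF v hvF)
      have hdx : dg B x = B x y := by
        unfold dg
        rw [Finset.sum_eq_single y]
        · intro v _ hv
          by_contra h
          rcases hedge x v h with h1 | h1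
          · exact hv h1.2
          · exact hxy.ne h1.1
        · intro h; exact absurd (Finset.mem_univ _) h
      have hdy : dg B y = B x y := by
        rw [hB.symm x y]
        unfold dg
        rw [Finset.sum_eq_single x]
        · intro v _ hv
          by_contra h
          rcases hedge y v h with h1 | h1
          · exact hxy.ne h1.1.symm
          · exact hv h1.2
        · intro h; exact absurd (Finset.mem_univ _) h
      have hd0 : ∀ z, z ≠ x → z ≠ y → dg B z = 0 := by
        intro z hzx hzy
        unfold dg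
        refine Finset.sum_eq_zero fun v _ => ?_
        by_contra h
        rcases hedge z v h with h1 | h1
        · exact hzx h1.1
        · exact hzy h1.1
      have hsum2 : ∑ z, d z = ∑ z, B x y * (e1 x z + e1 y z) := by
        refine Finset.sum_congr rfl fun z _ => ?_
        rw [← hBd z]
        by_cases hzx : z = x
        · subst hzx
          rw [hdx, e1_self, e1_ne hxy.ne]; ring
        · by_cases hzy : z = y
          · subst hzy
            rw [hdy, e1_self, e1_ne hxy.ne']; ring
          · rw [hd0 z hzx hzy, e1_ne hzx, e1_ne hzy]; ring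
      rw [← Finset.mul_sum, Finset.sum_add_distrib, sum_e1, sum_e1] at hsum2
      have hBq : B x y = q := by omega
      have h1 := hle' x
      have h2 := hle' y
      rw [hdx, hBq, e1_self, e1_ne hxy.ne] at h1
      rw [hdy, hBq, e1_self, e1_ne hxy.ne'] at h2
      have hxF : x ∈ F := by
        by_contra h3
        rw [if_neg h3] at h1
        omega
      have hyF : y ∈ F := by
        by_contra h3
        rw [if_neg h3] at h2
        omega
      exact hind x hxF y hyF hxy
    · intro hind
      unfold Indep at hind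
      push Not at hind
      obtain ⟨u, hu, v, hv, huv⟩ := hind
      refine ⟨_, isDeg_sum (isDeg_mul hxy (q - 1)) (isDeg_add (isDeg_zero G) huv), ?_, ?_⟩
      · rw [Finset.sum_add_distrib, ← Finset.mul_sum, Finset.sum_add_distrib, Finset.sum_add_distrib,
          Finset.sum_add_distrib, sum_e1, sum_e1, sum_e1, sum_e1]
        simp
        omega
      · intro z
        rw [hval]
        have h3 : e1 u z + e1 v z ≤ (if z ∈ F then 1 else 0) := by
          by_cases hzu : z = u
          · subst hzu
            rw [e1_self, e1_ne huv.ne, if_pos hu]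
          · rw [e1_ne hzu]
            by_cases hzv : z = v
            · subst hzv
              rw [e1_self, if_pos hv]
            · rw [e1_ne hzv]; omega
        omega

/-- `reg I(G)^q ≥ 2q - 1 + reg I(G_xy)` -/
theorem susp_low (k : Type*) [Field k] (G : SimpleGraph (Fin n)) {x y : Fin n} (hxy : G.Adj x y) (r : ℕ)
    (h1 : IsReg (edgeIdeal k (away G x y)) r) (q : ℕ) (hq : 1 ≤ q) :
    2 ≤ r ∧ ∃ j i, r - 1 ≤ j ∧ TorNe ((edgeIdeal k G) ^ q) i (2 * q + j) := by
  classical
  -- `away G x y` has an edge, so `2 ≤ r`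
  have hE : ∃ u v, (away G x y).Adj u v := by
    by_contra hcon
    push Not at hcon
    obtain ⟨i, f, hf1, _, _, _, hf5⟩ := h1.1
    have hI : edgeIdeal k (away G x y) = ⊥ := by
      unfold edgeIdeal
      rw [Ideal.span_eq_bot]
      rintro f ⟨u, v, huv, _⟩
      exact absurd huv (hcon u v)
    apply hf5
    refine ⟨fun _ => 0, fun T => Ideal.zero_mem _, fun T _ => rfl, fun T => ?_⟩
    have h0 : f T = 0 := by
      have := hf1 T
      rw [hI] at this
      exact this
    rw [h0]
    unfold koszulD
    simp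
  obtain ⟨u0, v0, huv0⟩ := hE
  have hr2 : 2 ≤ r := by
    have h3 := tor_gen (k := k) (away G x y) huv0 1
    rw [pow_one] at h3
    exact h1.2 ⟨0, h3⟩
  refine ⟨hr2, ?_⟩
  -- nonvanishing homology away from the edge
  obtain ⟨U0, j, hj, hU0⟩ : ∃ (U0 : Finset (Fin n)) (j : ℕ), r - 1 ≤ j ∧
      ¬ HV k (Ind (away G x y).Adj U0) j := by
    by_contra hcon
    push Not at hcon
    obtain ⟨i, hi⟩ := h1.1
    have h3 := ab_upper (away G x y) (r - 1) 1 (by omega) le_rfl (fun U0 j hj => hcon U0 j hj) i r (by omega)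
    rw [pow_one] at h3
    exact h3 hi
  have hU0R : ∀ w ∈ U0, w ≠ x ∧ w ≠ y ∧ ¬ G.Adj x w ∧ ¬ G.Adj y w := by
    intro w hw
    by_contra hcon
    apply hU0
    apply HV.cone w
    rintro F ⟨h3, h4⟩
    refine ⟨Finset.insert_subset hw h3, ?_⟩
    intro a ha b hb hab hadj
    have haw : a ≠ w := by
      rintro rfl
      exact hcon hadj.2.1
    have hbw : b ≠ w := by
      rintro rfl
      exact hcon hadj.2.2
    exact h4 a ((Finset.mem_insert.mp ha).resolve_left haw) b ((Finset.mem_insert.mp hb).resolve_left hbw)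
      hab hadj
  have hU0G : ¬ HV k (Ind G.Adj U0) j := by
    intro h3
    apply hU0
    refine HV.congr ?_ h3
    intro F
    constructor
    · rintro ⟨h4, h5⟩
      exact ⟨h4, fun a ha b hb hab hadj => h5 a ha b hb hab hadj.1⟩
    · rintro ⟨h4, h5⟩
      exact ⟨h4, fun a ha b hb hab hadj => h5 a ha b hb hab ⟨hadj, hU0R a (h4 ha), hU0R b (h4 hb)⟩⟩
  obtain ⟨i, hi⟩ : ∃ i, TorNe ((edgeIdeal k G) ^ q) i (2 * q + j) := by
    by_contra hcon
    push Not at hcon
    exact hU0G (susp_lower G hxy U0 hU0R q hq j hcon)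
  exact ⟨j, i, hj, hi⟩

/-- the upper bound in terms of `IsReg` -/
theorem up_bound (k : Type*) [Field k] (G : SimpleGraph (Fin n)) (r : ℕ) (hr : 1 ≤ r)
    (h2 : IsReg (edgeIdeal k G) r) (q : ℕ) (hq : 1 ≤ q) :
    ∀ i e, 2 * q + r < e + 2 → ¬ TorNe ((edgeIdeal k G) ^ q) i e := by
  have hbd : ∀ i e, r < e → ¬ TorNe (edgeIdeal k G) i e := by
    intro i e he h
    have := h2.2 ⟨i, h⟩
    omega
  intro i e he
  exact ab_upper G r q hr hq (hadj_of_reg G r hr hbd) i e (by omega)

/-- if `reg I(G) = reg I(G_xy) + 1` for an edge `xy` then `reg I(G)^q = 2q + reg I(G) - 2` -/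
theorem susp_reg (k : Type*) [Field k] (G : SimpleGraph (Fin n)) {x y : Fin n} (hxy : G.Adj x y) (r : ℕ)
    (h1 : IsReg (edgeIdeal k (away G x y)) r) (h2 : IsReg (edgeIdeal k G) (r + 1)) (q : ℕ) (hq : 1 ≤ q) :
    IsReg ((edgeIdeal k G) ^ q) (2 * q + r - 1) := by
  obtain ⟨hr2, j, i, hj, hi⟩ := susp_low k G hxy r h1 q hq
  have hup := up_bound k G (r + 1) (by omega) h2 q hq
  have hjr : 2 * q + j = 2 * q + r - 1 := by
    have : 2 * q + j ≤ 2 * q + r - 1 := by
      by_contra h3
      push Not at h3
      exact hup i _ (by omega) hi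
    omega
  refine ⟨⟨i, by rw [← hjr]; exact hi⟩, ?_⟩
  rintro e ⟨i', he⟩
  by_contra h3
  push Not at h3
  exact hup i' e (by omega) he

/-- monotonicity when some edge `xy` has `reg I(G) ≤ reg I(G_xy) + 3`, or when `reg I(G) ≤ 4` -/
theorem susp_mono (k : Type*) [Field k] (G : SimpleGraph (Fin n)) (r : ℕ)
    (h2 : IsReg (edgeIdeal k G) r) (hG : ∃ u v, G.Adj u v)
    (h : r ≤ 4 ∨ ∃ x y s, G.Adj x y ∧ IsReg (edgeIdeal k (away G x y)) s ∧ r ≤ s + 3)
    (q : ℕ) (hq : 1 ≤ q) : ∃ t t', IsReg ((edgeIdeal k G) ^ q) t ∧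
      IsReg ((edgeIdeal k G) ^ (q + 1)) t' ∧ t ≤ t' := by
  obtain ⟨u, v, huv⟩ := hG
  have hr2 : 2 ≤ r := by
    have h3 := tor_gen (k := k) G huv 1
    rw [pow_one] at h3
    exact h2.2 ⟨0, h3⟩
  obtain ⟨t, ht, _⟩ := reg_exists (k := k) ((edgeIdeal k G) ^ q) (2 * q + (n + 2))
    (fun i e he => triv_bound G q hq i e (by omega)) ⟨0, 2 * q, tor_gen G huv q⟩
  obtain ⟨t', ht', _⟩ := reg_exists (k := k) ((edgeIdeal k G) ^ (q + 1)) (2 * (q + 1) + (n + 2))
    (fun i e he => triv_bound G (q + 1) (by omega) i e (by omega))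
    ⟨0, 2 * (q + 1), tor_gen G huv (q + 1)⟩
  refine ⟨t, t', ht, ht', ?_⟩
  have h4 : t + 2 ≤ 2 * q + r := by
    obtain ⟨i, hi⟩ := ht.1
    by_contra h5
    exact up_bound k G r (by omega) h2 q hq i t (by omega) hi
  rcases h with h | ⟨x, y, s, hxy, hs, hrs⟩
  · have h5 := ht'.2 ⟨0, tor_gen G huv (q + 1)⟩
    omega
  · obtain ⟨hs2, j, i, hj, hi⟩ := susp_low k G hxy s hs (q + 1) (by omega)
    have h5 := ht'.2 ⟨i, hi⟩
    omega

end Pool.Agent.H677R3.Ab
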