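import Mathlib
import Pool.Agent.H677R3.AbSusp

/-!
The relations `C_m` on vertices away from an edge.
-/

set_option linter.unusedSectionVars false

namespace Pool.Agent.H677R3.Ab

open Finset EdgeReg

variable {n : ℕ} {k : Type*} [Field k]

/-- the vertices away from `s` and `z` -/
def Aw (G : SimpleGraph (Fin n)) (s z w : Fin n) : Prop :=
  w ≠ s ∧ w ≠ z ∧ ¬ G.Adj s w ∧ ¬ G.Adj z w

lemma aw_of_cc {G : SimpleGraph (Fin n)} {s z : Fin n} (hsz : G.Adj s z) {m : Fin n → ℕ} (hm : IsDeg G m)
    {w : Fin n} (h1 : ¬ CC G m w s) (h2 : ¬ CC G m w z) : Aw G s z w := by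
  refine ⟨?_, ?_, ?_, ?_⟩
  · rintro rfl; exact h2 (CC.adj hm hsz)
  · rintro rfl; exact h1 (CC.adj hm hsz.symm)
  · intro h; exact h1 (CC.adj hm h.symm)
  · intro h; exact h2 (CC.adj hm h.symm)

lemma bad_edge {G : SimpleGraph (Fin n)} {s z : Fin n} {m : Fin n → ℕ}
    {B : Fin n → Fin n → ℕ} (hB : IsCfg G B) {a w p : Fin n}
    (hBd : ∀ x, dg B x = m x + e1 a x + e1 w x) (hwp : B w p ≠ 0) (hw : Aw G s z w) (hp : ¬ Aw G s z p) :
    CC G m a s ∨ CC G m a z := by
  have hadj := hB.adj w p hwp
  have hps : p ≠ s := by rintro rfl; exact hw.2.2.1 hadj.symm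
  have hpz : p ≠ z := by rintro rfl; exact hw.2.2.2 hadj.symm
  obtain ⟨B', hB', _, hB'd⟩ := cfg_sub hB hwp
  have h1 : G.Adj s p ∨ G.Adj z p := by
    by_contra h
    push Not at h
    exact hp ⟨hps, hpz, h.1, h.2⟩
  rcases h1 with h | h
  · left
    obtain ⟨h2, h3⟩ := cfg_add hB' h.symm
    refine ⟨_, h2, fun x => ?_⟩
    have h4 := hB'd x
    have h5 := h3 x
    rw [hBd] at h4
    beta_reduce at *
    omega
  · right
    obtain ⟨h2, h3⟩ := cfg_add hB' h.symm
    refine ⟨_, h2, fun x => ?_⟩
    have h4 := hB'd x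
    have h5 := h3 x
    rw [hBd] at h4
    beta_reduce at *
    omega

open Classical in
/-- the part of a configuration away from `s` and `z` -/
noncomputable def rsa (G : SimpleGraph (Fin n)) (s z : Fin n) (B : Fin n → Fin n → ℕ) (a b : Fin n) : ℕ :=
  if Aw G s z a ∧ Aw G s z b then B a b else 0

open Classical in
/-- the other part -/
noncomputable def rst (G : SimpleGraph (Fin n)) (s z : Fin n) (B : Fin n → Fin n → ℕ) (a b : Fin n) : ℕ :=
  if Aw G s z a ∧ Aw G s z b then 0 else B a b

lemma rsa_cfg {G : SimpleGraph (Fin n)} {s z : Fin n} {B : Fin n → Fin n → ℕ} (hB : IsCfg G B) :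
    IsCfg (away G s z) (rsa G s z B) := by
  constructor
  · intro a b
    unfold rsa
    rw [hB.symm a b]
    by_cases h : Aw G s z a ∧ Aw G s z b
    · rw [if_pos h, if_pos h.symm]
    · rw [if_neg h, if_neg (fun h' => h h'.symm)]
  · intro a b h
    unfold rsa at h
    split_ifs at h with h1
    · exact ⟨hB.adj a b h, h1.1, h1.2⟩
    · exact absurd rfl h

lemma rst_cfg {G : SimpleGraph (Fin n)} {s z : Fin n} {B : Fin n → Fin n → ℕ} (hB : IsCfg G B) :
    IsCfg G (rst G s z B) := by
  constructor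
  · intro a b
    unfold rst
    rw [hB.symm a b]
    by_cases h : Aw G s z a ∧ Aw G s z b
    · rw [if_pos h, if_pos h.symm]
    · rw [if_neg h, if_neg (fun h' => h h'.symm)]
  · intro a b h
    unfold rst at h
    split_ifs at h with h1
    · exact absurd rfl h
    · exact hB.adj a b h

lemma dg_res_rst (G : SimpleGraph (Fin n)) (s z : Fin n) (B : Fin n → Fin n → ℕ) (x : Fin n) :
    dg B x = dg (rsa G s z B) x + dg (rst G s z B) x := by
  unfold dg
  rw [← Finset.sum_add_distrib]
  refine Finset.sum_congr rfl fun y _ => ?_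
  unfold rsa rst
  split_ifs <;> omega

lemma cfg_up {G : SimpleGraph (Fin n)} {s z : Fin n} {B : Fin n → Fin n → ℕ}
    (hB : IsCfg (away G s z) B) : IsCfg G B :=
  ⟨hB.symm, fun u v h => (hB.adj u v h).1⟩

lemma cfg_plus {G : SimpleGraph (Fin n)} {A B : Fin n → Fin n → ℕ}
    (hA : IsCfg G A) (hB : IsCfg G B) : IsCfg G (fun a b => A a b + B a b) ∧
      ∀ x, dg (fun a b => A a b + B a b) x = dg A x + dg B x := by
  refine ⟨⟨fun a b => by rw [hA.symm, hB.symm], ?_⟩, ?_⟩
  · intro a b hab
    by_cases h1 : A a b = 0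
    · exact hB.adj a b (by intro h2; apply hab; beta_reduce; rw [h1, h2])
    · exact hA.adj a b h1
  · intro x
    unfold dg
    rw [Finset.sum_add_distrib]

lemma exists_of_dg {B : Fin n → Fin n → ℕ} {w : Fin n} (h : 0 < dg B w) : ∃ p, B w p ≠ 0 := by
  by_contra hcon
  push Not at hcon
  unfold dg at h
  rw [Finset.sum_eq_zero (fun p _ => hcon p)] at h
  omega

/-- the relations `C_m` of `G` on the vertices away from `s` and `z` are relations of `G_sz` -/
theorem cc_away (G : SimpleGraph (Fin n)) {s z : Fin n} (hsz : G.Adj s z) (m : Fin n → ℕ)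
    (hm : IsDeg G m) : ∃ m2, IsDeg (away G s z) m2 ∧ ∀ u v, ¬ CC G m u s → ¬ CC G m u z →
      ¬ CC G m v s → ¬ CC G m v z → (CC G m u v ↔ CC (away G s z) m2 u v) := by
  obtain ⟨A, hA, hAd⟩ := hm
  refine ⟨dg (rsa G s z A), ⟨_, rsa_cfg hA, fun _ => rfl⟩, ?_⟩
  intro u v hus huz hvs hvz
  have hm : IsDeg G m := ⟨A, hA, hAd⟩
  have huK := aw_of_cc hsz hm hus huz
  have hvK := aw_of_cc hsz hm hvs hvz
  constructor
  · rintro ⟨B, hB, hBd⟩
    beta_reduce at hBd
    have hrA := dg_res_rst G s z A
    have hrB := dg_res_rst G s z B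
    have hlt : dg (rsa G s z A) u < dg (rsa G s z B) u := by
      by_contra hcon
      push Not at hcon
      have h1 := hrA u
      have h2 := hrB u
      have h3 := hBd u
      rw [e1_self] at h3
      have h4 := hAd u
      obtain ⟨p, hp⟩ := exists_of_dg (B := rst G s z B) (w := u) (by omega)
      unfold rst at hp
      split_ifs at hp with h5
      · exact absurd rfl hp
      · have hpK : ¬ Aw G s z p := fun h => h5 ⟨huK, h⟩
        rcases bad_edge (m := m) (a := v) hB (fun x => by rw [hBd]; ring) hp huK hpK with h6 | h6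
        · exact hvs h6
        · exact hvz h6
    rcases exch (away G s z) _ (rsa G s z A) (rsa G s z B) u (rsa_cfg hA) (rsa_cfg hB) le_rfl hlt with
      ⟨w, A', B', hA', hB', hA'd, hB'd, hw⟩ | ⟨w, A', B', hwu, hA', hB', hA'd, hB'd, hw⟩
    · by_cases hwv : w = v
      · subst hwv
        exact ⟨A', hA', fun x => by rw [hA'd]⟩
      · exfalso
        have hwK : Aw G s z w := by
          obtain ⟨p, hp⟩ := exists_of_dg (B := rsa G s z B) (w := w) (by omega)
          unfold rsa at hp
          split_ifs at hp with h5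
          · exact h5.1
          · exact absurd rfl hp
        have h1 := hrA w
        have h2 := hrB w
        have h3 := hBd w
        rw [e1_ne hwv] at h3
        have h4 := hAd w
        obtain ⟨p, hp⟩ := exists_of_dg (B := rst G s z A) (w := w) (by omega)
        have hpK : ¬ Aw G s z p := by
          intro h
          apply hp
          unfold rst
          rw [if_pos ⟨hwK, h⟩]
        obtain ⟨h5, h6⟩ := cfg_plus (cfg_up hA') (rst_cfg (s := s) (z := z) hA)
        rcases bad_edge (m := m) (a := u) (w := w) (p := p) h5 (fun x => by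
          rw [h6, hA'd, ← hAd x, hrA x]; ring) (by beta_reduce; omega) hwK hpK with h7 | h7
        · exact hus h7
        · exact huz h7
    · exfalso
      have hwK : Aw G s z w := by
        obtain ⟨p, hp⟩ := exists_of_dg (B := rsa G s z A) (w := w) (by omega)
        unfold rsa at hp
        split_ifs at hp with h5
        · exact h5.1
        · exact absurd rfl hp
      have h1 := hrA w
      have h2 := hrB w
      have h3 := hBd w
      have h4 := hAd w
      obtain ⟨p, hp⟩ := exists_of_dg (B := rst G s z B) (w := w) (by omega)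
      have hpK : ¬ Aw G s z p := by
        intro h
        apply hp
        unfold rst
        rw [if_pos ⟨hwK, h⟩]
      obtain ⟨h5, h6⟩ := cfg_plus (cfg_up hB') (rst_cfg (s := s) (z := z) hB)
      rcases bad_edge (m := m) (a := v) (w := w) (p := p) h5 (fun x => by
        have h7 := hB'd x
        have h8 := hrB x
        have h9 := hBd x
        rw [h6]; omega) (by beta_reduce; omega) hwK hpK with h7 | h7
      · exact hvs h7
      · exact hvz h7
  · rintro ⟨B, hB, hBd⟩
    obtain ⟨h5, h6⟩ := cfg_plus (cfg_up hB) (rst_cfg (s := s) (z := z) hA)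
    refine ⟨_, h5, fun x => ?_⟩
    have h7 := hBd x
    have h8 := dg_res_rst G s z A x
    have h9 := hAd x
    rw [h6]
    beta_reduce at h7 ⊢
    omega

/-- vanishing on sets away from an edge of `m` -/
theorem hv_away (G : SimpleGraph (Fin n)) {s z : Fin n} (hsz : G.Adj s z) (sig : ℕ) (hsig : 1 ≤ sig)
    (hadj : ∀ (U0 : Finset (Fin n)) (j : ℕ), sig ≤ j → HV k (Ind (away G s z).Adj U0) j)
    (m' m : Fin n → ℕ) (hm' : IsDeg G m') (hm : ∀ x, m x = m' x + e1 s x + e1 z x)
    (U : Finset (Fin n)) (hs : ∀ w ∈ U, ¬ CC G m' w s) (hz : ∀ w ∈ U, ¬ CC G m' w z) (j : ℕ)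
    (hj : sig ≤ j) : HV k (Ind (CC G m) U) j := by
  obtain ⟨m2, hm2, hcc⟩ := cc_away G hsz m' hm'
  have h1 : HV k (Ind (CC (away G s z) m2) U) j := by
    refine hv_cc (away G s z) sig hsig hadj m2 hm2 ∅ U ?_ ?_ ?_ ?_ j (by simpa using hj)
    · simp
    · simp
    · simp
    · simp
  refine HV.congr ?_ h1
  apply Ind.congr
  intro p hp p' hp' _
  rw [← hcc p p' (hs p hp) (hz p hp) (hs p' hp') (hz p' hp')]
  constructor
  · exact fun h => fact1 hsz hm h
  · intro h
    rcases fact2 hm' hm h with h2 | ⟨h2, _⟩ | ⟨h2, _⟩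
    · exact h2
    · exact absurd h2 (hs p hp)
    · exact absurd h2 (hz p hp)

end Pool.Agent.H677R3.Ab
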