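import Mathlib
import Pool.Agent.H677R3.AbFinal

/-!
Dirac's theorem (chordal graphs have simplicial vertices) and the co-chordal cover bound.
-/

set_option linter.unusedSectionVars false

namespace Pool.Agent.H677R3.Ab

open Finset EdgeReg

/-- chordal: no induced cycle of length at least four -/
def Chordal {V : Type*} (C : SimpleGraph V) : Prop :=
  ∀ m : ℕ, 4 ≤ m → IsEmpty (SimpleGraph.cycleGraph m ↪g C)

lemma path_of_rtg {V : Type*} {r : V → V → Prop} {a b : V} (h : Relation.ReflTransGen r a b) :
    ∃ (L : ℕ) (p : ℕ → V), p 0 = a ∧ p L = b ∧ ∀ i < L, r (p i) (p (i + 1)) := by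
  induction h with
  | refl => exact ⟨0, fun _ => a, rfl, rfl, fun i hi => absurd hi (Nat.not_lt_zero _)⟩
  | @tail b c _ h2 ih =>
    obtain ⟨L, p, h0, hL, hr⟩ := ih
    refine ⟨L + 1, fun i => if i ≤ L then p i else c, ?_, ?_, ?_⟩
    · simp [h0]
    · simp
    · intro i hi
      by_cases hiL : i < L
      · have h3 : i ≤ L := hiL.le
        have h4 : i + 1 ≤ L := hiL
        simp only [h3, h4, if_true]
        exact hr i hiL
      · have h3 : i = L := by omega
        subst h3
        simp only [le_refl, if_true, show ¬ (i + 1 ≤ i) by omega, if_false]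
        rw [hL]; exact h2

lemma cyc_val {L : ℕ} (u v : Fin (L + 2)) :
    (u - v).val = 1 ↔ (u.val = v.val + 1 ∨ (u.val = 0 ∧ v.val = L + 1)) := by
  have hu := u.isLt
  have hv := v.isLt
  rcases le_or_gt v u with h | h
  · have h1 := Fin.coe_sub_iff_le.mpr h
    rw [h1]
    have : v.val ≤ u.val := h
    omega
  · have h1 := Fin.coe_sub_iff_lt.mpr h
    rw [h1]
    have : u.val < v.val := h
    omega

lemma cyc_adj {L : ℕ} (u v : Fin (L + 2)) :
    (SimpleGraph.cycleGraph (L + 2)).Adj u v ↔
      ((u.val = v.val + 1 ∨ (u.val = 0 ∧ v.val = L + 1)) ∨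
       (v.val = u.val + 1 ∨ (v.val = 0 ∧ u.val = L + 1))) := by
  rw [SimpleGraph.cycleGraph_adj', cyc_val, cyc_val]

lemma no_long {V : Type*} {C : SimpleGraph V} (hC : Chordal C) (x s s' : V) (B : V → Prop)
    (hxs : C.Adj x s) (hxs' : C.Adj x s') (hss : s ≠ s') (hn : ¬ C.Adj s s')
    (hB : ∀ b, B b → ¬ C.Adj x b ∧ b ≠ x)
    (hpath : ∃ (L : ℕ) (p : ℕ → V), p 0 = s ∧ p L = s' ∧ (∀ i < L, C.Adj (p i) (p (i + 1))) ∧
      ∀ i, 0 < i → i < L → B (p i)) : False := by
  classical
  let Q : ℕ → Prop := fun L => ∃ (p : ℕ → V), p 0 = s ∧ p L = s' ∧ (∀ i < L, C.Adj (p i) (p (i + 1))) ∧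
      ∀ i, 0 < i → i < L → B (p i)
  have hQ : ∃ L, Q L := by
    obtain ⟨L, p, h⟩ := hpath
    exact ⟨L, p, h⟩
  obtain ⟨L, hL, hmin⟩ : ∃ L, Q L ∧ ∀ L' < L, ¬ Q L' :=
    ⟨Nat.find hQ, Nat.find_spec hQ, fun L' h => Nat.find_min hQ h⟩
  obtain ⟨p, h0, hpL, hadj, hpB⟩ := hL
  have hL2 : 2 ≤ L := by
    by_contra h
    have : L = 0 ∨ L = 1 := by omega
    rcases this with rfl | rfl
    · exact hss (h0.symm.trans hpL)
    · have := hadj 0 (by omega)
      rw [h0, zero_add, hpL] at this
      exact hn this
  -- shortcuts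
  have hshort : ∀ i j d : ℕ, i + 1 + d = j → j ≤ L → 0 < d → C.Adj (p i) (p j) → False := by
    intro i j d hij hjL hd hij2
    apply hmin (L - d) (by omega)
    refine ⟨fun k => if k ≤ i then p k else p (k + d), ?_, ?_, ?_, ?_⟩
    · simp [h0]
    · have : ¬ (L - d ≤ i) := by omega
      simp only [this, if_false]
      rw [show L - d + d = L by omega]
      exact hpL
    · intro k hk
      by_cases h1 : k < i
      · simp only [show k ≤ i by omega, show k + 1 ≤ i by omega, if_true]
        exact hadj k (by omega)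
      · by_cases h2 : k = i
        · subst h2
          simp only [le_refl, if_true, show ¬ (k + 1 ≤ k) by omega, if_false]
          rw [hij]; exact hij2
        · simp only [show ¬ (k ≤ i) by omega, show ¬ (k + 1 ≤ i) by omega, if_false]
          rw [show k + 1 + d = k + d + 1 by omega]
          exact hadj (k + d) (by omega)
    · intro k hk0 hk
      by_cases h1 : k ≤ i
      · simp only [h1, if_true]
        exact hpB k hk0 (by omega)
      · simp only [h1, if_false]
        exact hpB (k + d) (by omega) (by omega)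
  have hinj : ∀ i j : ℕ, i < j → j ≤ L → p i ≠ p j := by
    intro i j hij hjL heq
    apply hmin (L - (j - i)) (by omega)
    refine ⟨fun k => if k ≤ i then p k else p (k + (j - i)), ?_, ?_, ?_, ?_⟩
    · simp [h0]
    · by_cases h1 : L - (j - i) ≤ i
      · have h2 : j = L := by omega
        have h3 : L - (j - i) = i := by omega
        simp only [h3, le_refl, if_true]
        rw [heq, h2]; exact hpL
      · simp only [h1, if_false]
        rw [show L - (j - i) + (j - i) = L by omega]
        exact hpL
    · intro k hk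
      by_cases h1 : k < i
      · simp only [show k ≤ i by omega, show k + 1 ≤ i by omega, if_true]
        exact hadj k (by omega)
      · by_cases h2 : k = i
        · subst h2
          simp only [le_refl, if_true, show ¬ (k + 1 ≤ k) by omega, if_false]
          rw [show k + 1 + (j - k) = j + 1 by omega, heq]
          exact hadj j (by omega)
        · simp only [show ¬ (k ≤ i) by omega, show ¬ (k + 1 ≤ i) by omega, if_false]
          rw [show k + 1 + (j - i) = k + (j - i) + 1 by omega]
          exact hadj (k + (j - i)) (by omega)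
    · intro k hk0 hk
      by_cases h1 : k ≤ i
      · simp only [h1, if_true]
        exact hpB k hk0 (by omega)
      · simp only [h1, if_false]
        exact hpB (k + (j - i)) (by omega) (by omega)
  have hpx : ∀ i ≤ L, p i ≠ x := by
    intro i hi h
    by_cases h1 : i = 0
    · rw [h1, h0] at h; exact hxs.ne h.symm
    · by_cases h2 : i = L
      · rw [h2, hpL] at h; exact hxs'.ne h.symm
      · exact (hB _ (hpB i (by omega) (by omega))).2 h
  have hxadj : ∀ i ≤ L, (C.Adj x (p i) ↔ i = 0 ∨ i = L) := by
    intro i hi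
    constructor
    · intro h
      by_contra hcon
      push Not at hcon
      exact (hB _ (hpB i (by omega) (by omega))).1 h
    · rintro (rfl | rfl)
      · rw [h0]; exact hxs
      · rw [hpL]; exact hxs'
  have hpadj : ∀ i j, i ≤ L → j ≤ L → (C.Adj (p i) (p j) ↔ i = j + 1 ∨ j = i + 1) := by
    intro i j hi hj
    constructor
    · intro h
      by_contra hcon
      push Not at hcon
      rcases lt_trichotomy i j with h1 | h1 | h1
      · exact hshort i j (j - i - 1) (by omega) hj (by omega) h
      · rw [h1] at h; exact h.ne rfl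
      · exact hshort j i (i - j - 1) (by omega) hi (by omega) h.symm
    · rintro (h1 | h1)
      · subst h1; exact (hadj j (by omega)).symm
      · subst h1; exact hadj i (by omega)
  let f : Fin (L + 2) → V := fun i => if i.val ≤ L then p i.val else x
  refine (hC (L + 2) (by omega)).false ⟨⟨f, ?_⟩, ?_⟩
  · intro i j hij
    simp only [f] at hij
    have hi := i.isLt
    have hj := j.isLt
    by_cases h1 : i.val ≤ L
    · by_cases h2 : j.val ≤ L
      · rw [if_pos h1, if_pos h2] at hij
        apply Fin.ext
        rcases lt_trichotomy i.val j.val with h3 | h3 | h3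
        · exact absurd hij (hinj _ _ h3 h2)
        · exact h3
        · exact absurd hij.symm (hinj _ _ h3 h1)
      · rw [if_pos h1, if_neg h2] at hij
        exact absurd hij (hpx _ h1)
    · by_cases h2 : j.val ≤ L
      · rw [if_neg h1, if_pos h2] at hij
        exact absurd hij.symm (hpx _ h2)
      · apply Fin.ext; omega
  · intro i j
    show C.Adj (f i) (f j) ↔ _
    rw [cyc_adj]
    simp only [f]
    have hi := i.isLt
    have hj := j.isLt
    by_cases h1 : i.val ≤ L
    · by_cases h2 : j.val ≤ L
      · rw [if_pos h1, if_pos h2, hpadj _ _ h1 h2]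
        omega
      · rw [if_pos h1, if_neg h2, SimpleGraph.adj_comm, hxadj _ h1]
        omega
    · by_cases h2 : j.val ≤ L
      · rw [if_neg h1, if_pos h2, hxadj _ h2]
        omega
      · rw [if_neg h1, if_neg h2]
        constructor
        · intro h; exact absurd rfl h.ne
        · intro h; omega

variable {n : ℕ}

/-- simplicial vertex of the subgraph induced on `U` -/
def Simp (C : SimpleGraph (Fin n)) (z : Fin n) (U : Finset (Fin n)) : Prop :=
  ∀ a ∈ U, ∀ b ∈ U, C.Adj z a → C.Adj z b → a ≠ b → C.Adj a b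

theorem dirac (C : SimpleGraph (Fin n)) (hC : Chordal C) : ∀ (M : ℕ) (U : Finset (Fin n)), U.card ≤ M →
    (U.Nonempty → ∃ z ∈ U, Simp C z U) ∧
    (∀ x ∈ U, (∃ w ∈ U, w ≠ x ∧ ¬ C.Adj x w) → ∃ z ∈ U, z ≠ x ∧ ¬ C.Adj x z ∧ Simp C z U) := by
  classical
  intro M
  induction M with
  | zero =>
    intro U hU
    have hU0 : U = ∅ := Finset.card_eq_zero.mp (by omega)
    subst hU0
    exact ⟨fun h => absurd h (by simp), fun x hx => absurd hx (by simp)⟩
  | succ M ih =>
    intro U hU
    have h2 : ∀ x ∈ U, (∃ w ∈ U, w ≠ x ∧ ¬ C.Adj x w) → ∃ z ∈ U, z ≠ x ∧ ¬ C.Adj x z ∧ Simp C z U := by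
      rintro x hx ⟨w, hwU, hwx, hxw⟩
      let W := U.filter (fun y => y ≠ x ∧ ¬ C.Adj x y)
      have hW : ∀ y, y ∈ W ↔ y ∈ U ∧ y ≠ x ∧ ¬ C.Adj x y := fun y => by simp only [W, Finset.mem_filter]
      let r : Fin n → Fin n → Prop := fun a b => C.Adj a b ∧ b ∈ W
      let B := W.filter (fun y => Relation.ReflTransGen r w y)
      have hBm : ∀ y, y ∈ B ↔ y ∈ W ∧ Relation.ReflTransGen r w y := fun y => by
        simp only [B, Finset.mem_filter]
      have hwW : w ∈ W := (hW w).mpr ⟨hwU, hwx, hxw⟩
      have hwB : w ∈ B := (hBm w).mpr ⟨hwW, Relation.ReflTransGen.refl⟩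
      have hBnb : ∀ b ∈ B, ∀ y ∈ W, C.Adj b y → y ∈ B := by
        intro b hb y hy hby
        exact (hBm y).mpr ⟨hy, Relation.ReflTransGen.tail ((hBm b).mp hb).2 ⟨hby, hy⟩⟩
      let S := U.filter (fun s => C.Adj x s ∧ ∃ b ∈ B, C.Adj s b)
      have hS : ∀ s, s ∈ S ↔ s ∈ U ∧ C.Adj x s ∧ ∃ b ∈ B, C.Adj s b := fun s => by
        simp only [S, Finset.mem_filter]
      -- connectivity of B
      let r' : Fin n → Fin n → Prop := fun a b => C.Adj a b ∧ a ∈ B ∧ b ∈ B
      have hconn : ∀ y ∈ B, Relation.ReflTransGen r' w y := by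
        intro y hy
        have h1 := ((hBm y).mp hy).2
        induction h1 with
        | refl => exact Relation.ReflTransGen.refl
        | @tail a b h2 h3 ih2 =>
          have haB : a ∈ B := by
            rcases Relation.ReflTransGen.cases_tail h2 with h4 | ⟨c, h4, h5⟩
            · rw [h4]; exact hwB
            · exact (hBm a).mpr ⟨h5.2, h2⟩
          exact Relation.ReflTransGen.tail (ih2 haB) ⟨h3.1, haB, hy⟩
      have hsymm : ∀ a b, r' a b → r' b a := fun a b h => ⟨h.1.symm, h.2.2, h.2.1⟩
      have hrev : ∀ a b, Relation.ReflTransGen r' a b → Relation.ReflTransGen r' b a := by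
        intro a b h
        induction h with
        | refl => exact Relation.ReflTransGen.refl
        | tail _ h3 ih2 => exact Relation.ReflTransGen.head (hsymm _ _ h3) ih2
      have hSclique : ∀ s ∈ S, ∀ s' ∈ S, s ≠ s' → C.Adj s s' := by
        intro s hs s' hs' hss
        by_contra hn
        obtain ⟨_, hxs, b, hb, hsb⟩ := (hS s).mp hs
        obtain ⟨_, hxs', b', hb', hsb'⟩ := (hS s').mp hs'
        obtain ⟨L, p, hp0, hpL, hpr⟩ := path_of_rtg ((hrev _ _ (hconn b hb)).trans (hconn b' hb'))
        have hpB : ∀ i ≤ L, p i ∈ B := by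
          intro i hi
          by_cases h1 : i < L
          · exact (hpr i h1).2.1
          · have : i = L := by omega
            rw [this, hpL]; exact hb'
        refine no_long hC x s s' (fun y => y ∈ B) hxs hxs' hss hn ?_ ⟨L + 2,
          fun k => if k = 0 then s else if k ≤ L + 1 then p (k - 1) else s', ?_, ?_, ?_, ?_⟩
        · intro y hy
          have := (hW y).mp ((hBm y).mp hy).1
          exact ⟨this.2.2, this.2.1⟩
        · simp
        · simp
        · intro i hi
          by_cases h1 : i = 0
          · subst h1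
            simp only [if_true, show ¬ (0 + 1 = 0) by omega, if_false, show 0 + 1 ≤ L + 1 by omega]
            rw [show 0 + 1 - 1 = 0 by omega, hp0]
            exact hsb
          · by_cases h2 : i = L + 1
            · subst h2
              simp only [show ¬ (L + 1 = 0) by omega, if_false, le_refl, if_true,
                show ¬ (L + 1 + 1 = 0) by omega, show ¬ (L + 1 + 1 ≤ L + 1) by omega]
              rw [show L + 1 - 1 = L by omega, hpL]
              exact hsb'.symm
            · simp only [h1, if_false, show i ≤ L + 1 by omega, if_true,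
                show ¬ (i + 1 = 0) by omega, show i + 1 ≤ L + 1 by omega]
              have h3 := (hpr (i - 1) (by omega)).1
              rw [show i - 1 + 1 = i by omega] at h3
              rw [show i + 1 - 1 = i by omega]
              exact h3
        · intro i hi0 hi
          simp only [show ¬ (i = 0) by omega, if_false, show i ≤ L + 1 by omega, if_true]
          exact hpB _ (by omega)
      let U' := B ∪ S
      have hBU : ∀ b ∈ B, b ∈ U ∧ b ≠ x ∧ ¬ C.Adj x b := fun b hb => (hW b).mp ((hBm b).mp hb).1
      have hxU' : x ∉ U' := by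
        intro h
        rcases Finset.mem_union.mp h with h | h
        · exact (hBU x h).2.1 rfl
        · exact ((hS x).mp h).2.1.ne rfl
      have hU'U : U' ⊆ U := by
        intro y hy
        rcases Finset.mem_union.mp hy with h | h
        · exact (hBU y h).1
        · exact ((hS y).mp h).1
      have hcard : U'.card ≤ M := by
        have : U'.card < U.card := Finset.card_lt_card ⟨hU'U, fun h => hxU' (h hx)⟩
        omega
      have hcardB : B.card ≤ M := (Finset.card_le_card Finset.subset_union_left).trans hcard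
      have hlift : ∀ z ∈ B, Simp C z U' → Simp C z U := by
        intro z hz hsz
        have hnb : ∀ a ∈ U, C.Adj z a → a ∈ U' := by
          intro a ha hza
          by_cases h1 : C.Adj x a
          · exact Finset.mem_union_right _ ((hS a).mpr ⟨ha, h1, z, hz, hza.symm⟩)
          · apply Finset.mem_union_left
            apply hBnb z hz a _ hza
            refine (hW a).mpr ⟨ha, ?_, h1⟩
            rintro rfl
            exact (hBU z hz).2.2 hza.symm
        intro a ha b hb hza hzb hab
        exact hsz a (hnb a ha hza) b (hnb b hb hzb) hza hzb hab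
      by_cases hcase : ∃ s ∈ S, ∃ b ∈ B, ¬ C.Adj s b
      · obtain ⟨s, hs, b, hb, hsb⟩ := hcase
        have hbs : b ≠ s := by
          rintro rfl
          exact (hBU b hb).2.2 ((hS b).mp hs).2.1
        obtain ⟨z, hzU', hzs, hsz, hsimp⟩ := (ih U' hcard).2 s (Finset.mem_union_right _ hs)
          ⟨b, Finset.mem_union_left _ hb, hbs, hsb⟩
        have hzB : z ∈ B := by
          rcases Finset.mem_union.mp hzU' with h | h
          · exact h
          · exact absurd (hSclique s hs z h (Ne.symm hzs)) hsz
        exact ⟨z, (hBU z hzB).1, (hBU z hzB).2.1, (hBU z hzB).2.2, hlift z hzB hsimp⟩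
      · push Not at hcase
        obtain ⟨z, hzB, hsimp⟩ := (ih B hcardB).1 ⟨w, hwB⟩
        refine ⟨z, (hBU z hzB).1, (hBU z hzB).2.1, (hBU z hzB).2.2, hlift z hzB ?_⟩
        intro a ha b hb hza hzb hab
        rcases Finset.mem_union.mp ha with ha' | ha'
        · rcases Finset.mem_union.mp hb with hb' | hb'
          · exact hsimp a ha' b hb' hza hzb hab
          · exact (hcase b hb' a ha').symm
        · rcases Finset.mem_union.mp hb with hb' | hb'
          · exact hcase a ha' b hb'
          · exact hSclique a ha' b hb' hab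
    refine ⟨?_, h2⟩
    rintro ⟨x0, hx0⟩
    by_cases hcl : ∃ x ∈ U, ∃ w ∈ U, w ≠ x ∧ ¬ C.Adj x w
    · obtain ⟨x, hx, hw⟩ := hcl
      obtain ⟨z, hz, _, _, hs⟩ := h2 x hx hw
      exact ⟨z, hz, hs⟩
    · push Not at hcl
      exact ⟨x0, hx0, fun a ha b hb _ _ hab => hcl a ha b hb (Ne.symm hab)⟩

variable {k : Type*} [Field k]

/-- homology of independence complexes of graphs with a co-chordal cover -/
theorem hadj_of_cover (G : SimpleGraph (Fin n)) (H : ℕ → SimpleGraph (Fin n))
    (hH : ∀ i, Chordal (H i)ᶜ) (hHG : ∀ i u v, (H i).Adj u v → G.Adj u v) :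
    ∀ (t : ℕ) (M : ℕ) (U : Finset (Fin n)), U.card ≤ M →
      (∀ u ∈ U, ∀ v ∈ U, G.Adj u v → ∃ i < t, (H i).Adj u v) → ∀ j, t + 1 ≤ j →
      HV k (Ind G.Adj U) j := by
  have hempty : ∀ j, 1 ≤ j → HV k (Ind G.Adj ∅) j := by
    intro j hj a ha hc
    have h0 : ∀ F, a F = 0 := by
      intro F
      by_contra h
      obtain ⟨⟨h1, _⟩, h2⟩ := ha F h
      rw [Finset.subset_empty.mp h1] at h2
      simp at h2
      omega
    exact ⟨fun _ => 0, fun F h => absurd rfl h, fun F => by rw [bd_zero, h0]⟩
  intro t
  induction t with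
  | zero =>
    intro M U _ hcov j hj
    rcases U.eq_empty_or_nonempty with rfl | ⟨z, hz⟩
    · exact hempty j (by omega)
    · apply HV.cone z
      rintro F ⟨h1, _⟩
      refine ⟨Finset.insert_subset hz h1, ?_⟩
      intro x hx y hy _ hadj
      obtain ⟨i, hi, _⟩ := hcov x (Finset.insert_subset hz h1 hx) y (Finset.insert_subset hz h1 hy) hadj
      omega
  | succ t iht =>
    intro M
    induction M with
    | zero =>
      intro U hU _ j hj
      have hU0 : U = ∅ := Finset.card_eq_zero.mp (by omega)
      subst hU0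
      exact hempty j (by omega)
    | succ M ihM =>
      intro U hU hcov j hj
      rcases U.eq_empty_or_nonempty with rfl | hne
      · exact hempty j (by omega)
      · obtain ⟨z, hz, hsimp⟩ := (dirac (H t)ᶜ (hH t) U.card U le_rfl).1 hne
        obtain ⟨j', rfl⟩ : ∃ j', j = j' + 1 := ⟨j - 1, by omega⟩
        apply HV.vertex (fun x y h => h.symm) hz
        · refine ihM (U.erase z) (by rw [Finset.card_erase_of_mem hz]; omega) ?_ (j' + 1) hj
          intro u hu v hv
          exact hcov u (Finset.mem_of_mem_erase hu) v (Finset.mem_of_mem_erase hv)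
        · intro R hR
          refine iht R.card R le_rfl ?_ j' (by omega)
          intro u hu v hv huv
          obtain ⟨huU, huz, hzu⟩ := (hR u).mp hu
          obtain ⟨hvU, hvz, hzv⟩ := (hR v).mp hv
          obtain ⟨i, hi, hiH⟩ := hcov u huU v hvU huv
          refine ⟨i, ?_, hiH⟩
          by_contra hit
          have hit' : i = t := by omega
          subst hit'
          have h1 : (H i)ᶜ.Adj z u := by
            rw [SimpleGraph.compl_adj]
            exact ⟨Ne.symm huz, fun h => hzu (hHG i _ _ h)⟩
          have h2 : (H i)ᶜ.Adj z v := by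
            rw [SimpleGraph.compl_adj]
            exact ⟨Ne.symm hvz, fun h => hzv (hHG i _ _ h)⟩
          have h3 := hsimp u huU v hvU h1 h2 huv.ne
          rw [SimpleGraph.compl_adj] at h3
          exact h3.2 hiH

/-- extending a subgraph by isolated vertices keeps the complement chordal -/
lemma chordal_spanning (G : SimpleGraph (Fin n)) (H : G.Subgraph) (hH : Chordal (H.coe)ᶜ) :
    Chordal (H.spanningCoe)ᶜ := by
  intro m hm
  constructor
  intro f
  -- every vertex of the cycle lies in `H.verts`
  have hverts : ∀ i, f i ∈ H.verts := by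
    intro i
    by_contra hi
    obtain ⟨L, rfl⟩ : ∃ L, m = L + 2 := ⟨m - 2, by omega⟩
    obtain ⟨j, hj1, hj2⟩ : ∃ j : Fin (L + 2), j ≠ i ∧ ¬ (SimpleGraph.cycleGraph (L + 2)).Adj i j := by
      by_contra hcon
      push Not at hcon
      have hi' := i.isLt
      -- choose a vertex two steps away
      by_cases h1 : i.val ≤ 1
      · have h2 := hcon ⟨i.val + 2, by omega⟩ (by intro h; have := congrArg Fin.val h; simp at this)
        rw [cyc_adj] at h2
        simp only at h2
        omega
      · have h2 := hcon ⟨i.val - 2, by omega⟩ (by intro h; have := congrArg Fin.val h; simp at this; omega)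
        rw [cyc_adj] at h2
        simp only at h2
        omega
    apply hj2
    rw [← f.map_adj_iff, SimpleGraph.compl_adj]
    refine ⟨fun h => hj1 (f.injective h).symm, ?_⟩
    rw [SimpleGraph.Subgraph.spanningCoe_adj]
    intro h
    exact hi (H.edge_vert h)
  refine (hH m hm).false ⟨⟨fun i => ⟨f i, hverts i⟩, ?_⟩, ?_⟩
  · intro i j hij
    exact f.injective (congrArg Subtype.val hij)
  · intro i j
    show (H.coe)ᶜ.Adj ⟨f i, hverts i⟩ ⟨f j, hverts j⟩ ↔ _
    rw [← f.map_adj_iff, SimpleGraph.compl_adj, SimpleGraph.compl_adj]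
    simp

/-- co-chordal cover bound for all powers -/
theorem cochord_bound (k : Type*) [Field k] (G : SimpleGraph (Fin n)) (hG : ∃ u v, G.Adj u v) (t : ℕ)
    (H : Fin t → G.Subgraph) (hH : ∀ i, Chordal ((H i).coe)ᶜ)
    (hcov : ∀ u v, G.Adj u v → ∃ i, (H i).Adj u v) (q : ℕ) (hq : 1 ≤ q) :
    ∃ s, IsReg ((edgeIdeal k G) ^ q) s ∧ s + 1 ≤ 2 * q + t := by
  classical
  obtain ⟨u, v, huv⟩ := hG
  obtain ⟨i0, _⟩ := hcov u v huv
  have ht : 0 < t := i0.pos
  let H' : ℕ → SimpleGraph (Fin n) := fun i => if h : i < t then (H ⟨i, h⟩).spanningCoe else (H i0).spanningCoe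
  have hadj : ∀ (U0 : Finset (Fin n)) (j : ℕ), t + 1 ≤ j → HV k (Ind G.Adj U0) j := by
    intro U0 j hj
    refine hadj_of_cover G H' ?_ ?_ t U0.card U0 le_rfl ?_ j hj
    · intro i
      simp only [H']
      split_ifs with h
      · exact chordal_spanning G _ (hH _)
      · exact chordal_spanning G _ (hH _)
    · intro i a b hab
      simp only [H'] at hab
      split_ifs at hab with h
      · exact SimpleGraph.Subgraph.adj_sub _ hab
      · exact SimpleGraph.Subgraph.adj_sub _ hab
    · intro a _ b _ hab
      obtain ⟨i, hi⟩ := hcov a b hab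
      refine ⟨i.val, i.isLt, ?_⟩
      simp only [H', i.isLt, dif_pos]
      exact hi
  obtain ⟨s, hs, hsB⟩ := reg_exists ((edgeIdeal k G) ^ q) (2 * q + t - 1) (by
    intro i e he
    exact ab_upper G (t + 1) q (by omega) hq hadj i e (by omega)) ⟨0, 2 * q, tor_gen G huv q⟩
  exact ⟨s, hs, by omega⟩

end Pool.Agent.H677R3.Ab
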