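import Mathlib
import Pool.Agent.H677R3.AbAway

/-!
Vanishing on sets with loops and on sets ordered after the support.
-/

set_option linter.unusedSectionVars false

namespace Pool.Agent.H677R3.Ab

open Finset EdgeReg

variable {n : ℕ} {k : Type*} [Field k]

/-- vanishing next to a set of loop vertices -/
theorem fx_loop (G : SimpleGraph (Fin n)) (sig : ℕ) (hsig : 1 ≤ sig)
    (hadj : ∀ x y, G.Adj x y → ∀ (U0 : Finset (Fin n)) (j : ℕ), sig ≤ j →
      HV k (Ind (away G x y).Adj U0) j)
    (m : Fin n → ℕ) (hm : IsDeg G m) (L U : Finset (Fin n)) (hne : L.Nonempty)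
    (hL : ∀ v ∈ L, CC G m v v) (hLL : ∀ v ∈ L, ∀ w ∈ L, v ≠ w → ¬ CC G m v w)
    (hUL : ∀ u ∈ U, ∀ v ∈ L, ¬ CC G m u v) (j : ℕ) (hj : sig + 1 ≤ j + L.card) :
    HV k (Ind (CC G m) U) j := by
  classical
  obtain ⟨v, hvL⟩ := hne
  obtain ⟨B, hB, hBd⟩ := (hL v hvL).out
  obtain ⟨w, hw⟩ := exists_of_dg (B := B) (w := v) (by rw [hBd, e1_self]; omega)
  have hvw : G.Adj v w := hB.adj v w hw
  obtain ⟨B', hB', _, hB'd⟩ := cfg_sub hB hw
  -- `mh = m + 2 e_v`, `mh' = mh - e_v - e_w`
  set mh : Fin n → ℕ := fun x => m x + e1 v x + e1 v x with hmh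
  set mh' : Fin n → ℕ := dg B' with hmh'
  have hmh'deg : IsDeg G mh' := ⟨B', hB', fun _ => rfl⟩
  have hmhdeg : IsDeg G mh := hL v hvL
  have hrel : ∀ x, mh x = mh' x + e1 v x + e1 w x := by
    intro x
    have := hB'd x
    rw [hBd] at this
    show m x + e1 v x + e1 v x = mh' x + e1 v x + e1 w x
    omega
  -- the vertices without relation to `v`
  have hpw : ∀ p, ¬ CC G m p v → p ≠ w := by
    rintro p hp rfl
    exact hp (CC.adj hm hvw.symm)
  have h1 : ∀ p, ¬ CC G m p v → ¬ CC G mh' p w := by
    intro p hp h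
    apply hp
    refine isDeg_congr h fun x => ?_
    have := hrel x
    simp only [hmh] at this
    omega
  have h2 : ∀ p, ¬ CC G m p v → ¬ CC G mh' p v := by
    intro p hp h
    have hpw' := hpw p hp
    obtain ⟨A, hA, hAd⟩ := hm
    obtain ⟨D, hD, hDd⟩ := h.out
    have hpv : p ≠ v := by
      rintro rfl
      exact hp (hL p hvL)
    have hDd' : ∀ x, dg D x + e1 w x = m x + e1 v x + e1 v x + e1 p x := by
      intro x
      have h3 := hrel x
      simp only [hmh] at h3
      rw [hDd]
      omega
    have hlt : dg A p < dg D p := by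
      have h3 := hDd' p
      rw [e1_self, e1_ne hpw'] at h3
      rw [hAd]
      omega
    rcases exch G _ A D p hA hD le_rfl hlt with
      ⟨w', A', D', hA', hD', hA'd, hD'd, hw'⟩ | ⟨w', A', D', hwu, hA', hD', hA'd, hD'd, hw'⟩
    · have h3 := hDd' w'
      rw [hAd] at hw'
      by_cases hwv : w' = v
      · subst hwv
        exact hp ⟨A', hA', fun x => by rw [hA'd, hAd]⟩
      · rw [e1_ne hwv] at h3
        omega
    · have h3 := hDd' w'
      rw [hAd] at hw'
      by_cases hww : w' = w
      · subst hww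
        obtain ⟨h4, h5⟩ := cfg_add hA' hvw
        refine hp ⟨_, h4, fun x => ?_⟩
        have h6 := h5 x
        have h7 := hA'd x
        rw [hAd] at h7
        beta_reduce at h6 ⊢
        omega
      · rw [e1_ne hww] at h3
        omega
  have h3 : ∀ p p', ¬ CC G m p v → ¬ CC G m p' v → (CC G m p p' ↔ CC G mh p p') := by
    intro p p' hp hp'
    constructor
    · intro h
      obtain ⟨X, hX, hXd⟩ := h.out
      by_contra hcon
      have hpv : p ≠ v := by rintro rfl; exact hp (hL p hvL)
      have hpv' : p' ≠ v := by rintro rfl; exact hp' (hL p' hvL)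
      have hlt : dg X v < dg B v := by
        rw [hXd, hBd, e1_self, e1_ne (Ne.symm hpv), e1_ne (Ne.symm hpv')]; omega
      rcases exch G _ X B v hX hB le_rfl hlt with
        ⟨w', X', D', hX', hD', hX'd, hD'd, hw'⟩ | ⟨w', X', D', hwu, hX', hD', hX'd, hD'd, hw'⟩
      · rw [hXd, hBd] at hw'
        by_cases hwv : w' = v
        · subst hwv
          apply hcon
          refine ⟨X', hX', fun x => ?_⟩
          rw [hX'd, hXd]
          simp only [hmh]
          ring
        · rw [e1_ne hwv] at hw'
          omega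
      · rw [hXd, hBd] at hw'
        rw [e1_ne hwu] at hw'
        by_cases hwp : w' = p
        · subst hwp
          apply hp'
          refine ⟨X', hX', fun x => ?_⟩
          have h4 := hX'd x
          rw [hXd] at h4
          beta_reduce
          omega
        · rw [e1_ne hwp] at hw'
          by_cases hwp' : w' = p'
          · subst hwp'
            apply hp
            refine ⟨X', hX', fun x => ?_⟩
            have h4 := hX'd x
            rw [hXd] at h4
            beta_reduce
            omega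
          · rw [e1_ne hwp'] at hw'
            omega
    · intro h
      obtain ⟨A, hA, hAd⟩ := hm
      obtain ⟨D, hD, hDd⟩ := h.out
      have hDd' : ∀ x, dg D x = m x + e1 v x + e1 v x + e1 p x + e1 p' x := fun x => by
        rw [hDd]
      rcases exch G _ A D p hA hD le_rfl (by rw [hAd, hDd', e1_self]; omega) with
        ⟨w', A', D', hA', hD', hA'd, hD'd, hw'⟩ | ⟨w', A', D', hwu, hA', hD', hA'd, hD'd, hw'⟩
      · rw [hAd, hDd'] at hw'
        by_cases hwv : w' = v
        · subst hwv
          exact absurd ⟨A', hA', fun x => by rw [hA'd, hAd]⟩ hp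
        · rw [e1_ne hwv] at hw'
          by_cases hwp : w' = p'
          · subst hwp
            exact ⟨A', hA', fun x => by rw [hA'd, hAd]⟩
          · rw [e1_ne hwp] at hw'
            omega
      · rw [hAd, hDd'] at hw'
        omega
  obtain ⟨m2, hm2, hcc⟩ := cc_away G hvw mh' hmh'deg
  have h4 : ∀ p p', ¬ CC G m p v → ¬ CC G m p' v →
      (CC G m p p' ↔ CC (away G v w) m2 p p') := by
    intro p p' hp hp'
    rw [h3 p p' hp hp', ← hcc p p' (h2 p hp) (h1 p hp) (h2 p' hp') (h1 p' hp')]
    constructor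
    · intro h
      rcases fact2 hmh'deg hrel h with h5 | ⟨h5, _⟩ | ⟨h5, _⟩
      · exact h5
      · exact absurd h5 (h2 p hp)
      · exact absurd h5 (h1 p hp)
    · exact fun h => fact1 hvw hrel h
  have hLv : ∀ x ∈ L.erase v, ¬ CC G m x v := by
    intro x hx
    obtain ⟨hx1, hx2⟩ := Finset.mem_erase.mp hx
    exact hLL x hx2 v hvL hx1
  have hUv : ∀ x ∈ U, ¬ CC G m x v := fun x hx => hUL x hx v hvL
  have hcard : (L.erase v).card = L.card - 1 := Finset.card_erase_of_mem hvL
  have hLpos : 0 < L.card := Finset.card_pos.mpr ⟨v, hvL⟩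
  have h5 : HV k (Ind (CC (away G v w) m2) U) j := by
    refine hv_cc (away G v w) sig hsig (hadj v w hvw) m2 hm2 (L.erase v) U ?_ ?_ ?_ ?_ j (by omega)
    · intro x hx
      rw [← h4 x x (hLv x hx) (hLv x hx)]
      exact hL x (Finset.mem_of_mem_erase hx)
    · intro x hx y hy hxy
      rw [← h4 x y (hLv x hx) (hLv y hy)]
      exact hLL x (Finset.mem_of_mem_erase hx) y (Finset.mem_of_mem_erase hy) hxy
    · intro x hx y hy
      rw [← h4 x y (hUv x hx) (hLv y hy)]
      exact hUL x hx y (Finset.mem_of_mem_erase hy)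
    · intro x hx hxU
      exact hUL x hxU x (Finset.mem_of_mem_erase hx) (hL x (Finset.mem_of_mem_erase hx))
  refine HV.congr ?_ h5
  apply Ind.congr
  intro p hp p' hp' _
  exact (h4 p p' (hUv p hp) (hUv p' hp')).symm

/-- vanishing when the last vertices contain an edge of `m` -/
theorem fx_order (G : SimpleGraph (Fin n)) (sig : ℕ) (hsig : 1 ≤ sig)
    (hadj : ∀ x y, G.Adj x y → ∀ (U0 : Finset (Fin n)) (j : ℕ), sig ≤ j →
      HV k (Ind (away G x y).Adj U0) j)
    (m : Fin n → ℕ) (hm : IsDeg G m) (rho : Fin n → ℕ) (hrho : Function.Injective rho)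
    (S : Finset (Fin n)) (hS : ∀ x ∈ S, ∀ y, y ∉ S → rho y < rho x)
    (hmS : ∀ x ∈ S, m x ≠ 0) {x y : Fin n} (hx : x ∈ S) (hy : y ∈ S) (hxy : G.Adj x y)
    (m' : Fin n → ℕ) (hm' : IsDeg G m') (hmm : ∀ z, m z = m' z + e1 x z + e1 y z) :
    ∀ (N : ℕ) (U : Finset (Fin n)), U.card ≤ N → (∀ p ∈ U, ∀ v, rho p < rho v → ¬ DU G m p v) → ∀ j,
      sig + 1 ≤ j → HV k (Ind (CC G m) U) j := by
  classical
  intro N
  induction N with
  | zero =>
    intro U hU _ j hj
    have hU0 : U = ∅ := Finset.card_eq_zero.mp (by omega)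
    subst hU0
    intro a ha hc
    have h0 : ∀ F, a F = 0 := by
      intro F
      by_contra h
      obtain ⟨⟨h1, _⟩, h2⟩ := ha F h
      rw [Finset.subset_empty.mp h1] at h2
      simp at h2
      omega
    exact ⟨fun _ => 0, fun F h => absurd rfl h, fun F => by rw [bd_zero, h0]⟩
  | succ N ih =>
    intro U hUN hU j hj
    by_cases hne : (U ∩ S).Nonempty
    · -- remove the largest vertex of `U ∩ S`
      obtain ⟨s, hs, hmax⟩ := (U ∩ S).exists_max_image rho hne
      obtain ⟨hsU, hsS⟩ := Finset.mem_inter.mp hs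
      obtain ⟨t, m1, hst, hm1, hm1s⟩ := isDeg_sub hm (hmS s hsS)
      have hlt : ∀ w ∈ U, w ≠ s → rho w < rho s := by
        intro w hw hws
        by_cases hwS : w ∈ S
        · exact lt_of_le_of_ne (hmax w (Finset.mem_inter.mpr ⟨hw, hwS⟩)) (fun h => hws (hrho h))
        · exact hS s hsS w hwS
      obtain ⟨j0, rfl⟩ : ∃ j0, j = j0 + 1 := ⟨j - 1, by omega⟩
      have hm1' : ∀ z, m z = m1 z + e1 s z + e1 t z := fun z => by have := hm1s z; omega
      apply HV.vertex (fun a b h => h.symm) hsU
      · apply ih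
        · rw [Finset.card_erase_of_mem hsU]; omega
        · intro p hp v hv
          exact hU p (Finset.mem_of_mem_erase hp) v hv
        · exact hj
      · intro R hR
        refine hv_away G hst sig hsig (hadj s t hst) m1 m hm1 hm1' R ?_ ?_ j0 (by omega)
        · intro w hw h
          exact ((hR w).mp hw).2.2 (fact1 hst hm1' h).symm
        · intro w hw h
          obtain ⟨hwU, hws, _⟩ := (hR w).mp hw
          refine hU w hwU s (hlt w hwU hws) ⟨_, h, fun z => ?_⟩
          have := hm1' z
          beta_reduce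
          omega
    · -- no vertex of `S`
      have hlt : ∀ w ∈ U, ∀ s ∈ S, rho w < rho s := by
        intro w hw s hs
        apply hS s hs
        intro hwS
        exact hne ⟨w, Finset.mem_inter.mpr ⟨hw, hwS⟩⟩
      refine hv_away G hxy sig hsig (hadj x y hxy) m' m hm' hmm U ?_ ?_ j (by omega)
      · intro w hw h
        refine hU w hw y (hlt w hw y hy) ⟨_, h, fun z => ?_⟩
        have := hmm z
        beta_reduce
        omega
      · intro w hw h
        refine hU w hw x (hlt w hw x hx) ⟨_, h, fun z => ?_⟩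
        have := hmm z
        beta_reduce
        omega

end Pool.Agent.H677R3.Ab
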