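import Pool.Agent.H677R3.PairMod

/-!
The nonsingular case: if the matrix is invertible modulo the ideal of all `r k`, the pair module
is isomorphic to the product of the `R / (r k : k ≠ j)`.
-/

open CategoryTheory Abelian RingTheory.Sequence Finsupp

universe u v

namespace H677R3

variable {R : Type u} [CommRing R] {n : ℕ}

/-- the map to the product -/
noncomputable def phi (r : Fin n → R) (A : Fin n → Fin n → R) :
    ((Fin n ⊕ Fin n) →₀ R) →ₗ[R] (∀ j : Fin n, R ⧸ Ine r j) :=
  Finsupp.linearCombination R (fun a : Fin n ⊕ Fin n => match a with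
    | Sum.inl i => fun j => Ideal.Quotient.mk (Ine r j) (A j i)
    | Sum.inr j => Pi.single j (Ideal.Quotient.mk (Ine r j) (r j)))

lemma phi_inl (r : Fin n → R) (A : Fin n → Fin n → R) (i : Fin n) (a : R) (j : Fin n) :
    phi r A (single (Sum.inl i) a) j = Ideal.Quotient.mk (Ine r j) (A j i * a) := by
  simp only [phi, Finsupp.linearCombination_single, Pi.smul_apply]
  rw [mul_comm, ← smul_eq_mul (a := a)]
  rfl

lemma phi_inr (r : Fin n → R) (A : Fin n → Fin n → R) (k : Fin n) (a : R) (j : Fin n) :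
    phi r A (single (Sum.inr k) a) j =
      if j = k then Ideal.Quotient.mk (Ine r j) (r j * a) else 0 := by
  simp only [phi, Finsupp.linearCombination_single, Pi.smul_apply]
  by_cases h : j = k
  · subst h
    rw [Pi.single_eq_same, if_pos rfl, mul_comm, ← smul_eq_mul (a := a)]
    rfl
  · rw [Pi.single_eq_of_ne h, if_neg h, smul_zero]

lemma rel_le_ker (r : Fin n → R) (A : Fin n → Fin n → R) :
    Rel r A ≤ LinearMap.ker (phi r A) := by
  rw [Rel, Submodule.span_le]
  rintro w (⟨k, j, hkj, rfl⟩ | ⟨j, i, rfl⟩)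
  · change phi r A _ = 0
    funext l
    rw [phi_inr]
    by_cases h : l = j
    · subst h
      rw [if_pos rfl, Pi.zero_apply, Ideal.Quotient.eq_zero_iff_mem]
      exact Ideal.mul_mem_left _ _ (mem_Ine r l k hkj)
    · rw [if_neg h]; rfl
  · change phi r A _ = 0
    funext l
    rw [map_sub, Pi.sub_apply, phi_inl, phi_inr, Pi.zero_apply]
    by_cases h : l = j
    · subst h
      rw [if_pos rfl, mul_comm, sub_self]
    · rw [if_neg h, sub_zero, Ideal.Quotient.eq_zero_iff_mem]
      exact Ideal.mul_mem_left _ _ (mem_Ine r l j (Ne.symm h))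

lemma phi_apply (r : Fin n → R) (A : Fin n → Fin n → R) (v : (Fin n ⊕ Fin n) →₀ R) (j : Fin n) :
    phi r A v j = Ideal.Quotient.mk (Ine r j)
      ((∑ i, A j i * v (Sum.inl i)) + r j * v (Sum.inr j)) := by
  have hv : v = (∑ i, single (Sum.inl i) (v (Sum.inl i))) +
      ∑ k, single (Sum.inr k) (v (Sum.inr k)) := by
    conv_lhs => rw [← Finsupp.univ_sum_single v]
    rw [Fintype.sum_sum_type]
  conv_lhs => rw [hv]
  rw [map_add, map_sum, map_sum, Pi.add_apply, Finset.sum_apply, Finset.sum_apply, map_add, map_sum]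
  congr 1
  · exact Finset.sum_congr rfl (fun i _ => phi_inl r A i _ j)
  · rw [Finset.sum_eq_single j]
    · rw [phi_inr, if_pos rfl]
    · intro k _ hk
      rw [phi_inr, if_neg (Ne.symm hk)]
    · simp

lemma inl_mem_sup (r : Fin n → R) (A : Fin n → Fin n → R) (i : Fin n) (a : R)
    (ha : a ∈ Iall r) : (single (Sum.inl i) a : (Fin n ⊕ Fin n) →₀ R) ∈
      Rel r A ⊔ LinearMap.range (Finsupp.lmapDomain R R (Sum.inr : Fin n → Fin n ⊕ Fin n)) := by
  have : Iall r ≤ Submodule.comap (Finsupp.lsingle (Sum.inl i) :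
      R →ₗ[R] ((Fin n ⊕ Fin n) →₀ R)) (Rel r A ⊔ LinearMap.range
        (Finsupp.lmapDomain R R (Sum.inr : Fin n → Fin n ⊕ Fin n))) := by
    rw [Iall, Ideal.span, Submodule.span_le]
    rintro _ ⟨j, rfl⟩
    have h1 := rel2_mem r A j i 1
    change (single (Sum.inl i) (r j) : (Fin n ⊕ Fin n) →₀ R) ∈ Rel r A ⊔ LinearMap.range
        (Finsupp.lmapDomain R R (Sum.inr : Fin n → Fin n ⊕ Fin n))
    have h2 : (single (Sum.inl i) (r j) : (Fin n ⊕ Fin n) →₀ R) =
        (single (Sum.inl i) (1 * r j) - single (Sum.inr j) (1 * A j i)) +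
          single (Sum.inr j) (A j i) := by simp
    rw [h2]
    refine Submodule.add_mem _ (Submodule.mem_sup_left h1) (Submodule.mem_sup_right ?_)
    exact ⟨single j (A j i), by simp⟩
  exact this ha

lemma ker_le_rel (r : Fin n → R) (A B : Fin n → Fin n → R)
    (hBA : ∀ i k, (∑ j, B i j * A j k) - (if i = k then 1 else 0) ∈ Iall r)
    (hr : ∀ j g, r j * g ∈ Ine r j → g ∈ Ine r j) :
    LinearMap.ker (phi r A) ≤ Rel r A := by
  intro v hv
  have hv1 : ∀ j, (∑ i, A j i * v (Sum.inl i)) + r j * v (Sum.inr j) ∈ Ine r j := by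
    intro j
    have := congrFun (LinearMap.mem_ker.mp hv) j
    rwa [phi_apply, Pi.zero_apply, Ideal.Quotient.eq_zero_iff_mem] at this
  have hv2 : ∀ j, (∑ i, A j i * v (Sum.inl i)) ∈ Iall r := by
    intro j
    have h1 := Ine_le r j (hv1 j)
    have h2 : r j * v (Sum.inr j) ∈ Iall r := Ideal.mul_mem_right _ _ (mem_Iall r j)
    simpa using Ideal.sub_mem _ h1 h2
  have hv3 : ∀ i, v (Sum.inl i) ∈ Iall r := by
    intro i
    have h1 : (∑ j, B i j * ∑ k, A j k * v (Sum.inl k)) ∈ Iall r :=
      Ideal.sum_mem _ (fun j _ => Ideal.mul_mem_left _ _ (hv2 j))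
    have h2 : (∑ k, ((∑ j, B i j * A j k) - (if i = k then 1 else 0)) * v (Sum.inl k)) ∈ Iall r :=
      Ideal.sum_mem _ (fun k _ => Ideal.mul_mem_right _ _ (hBA i k))
    have h3 : (∑ j, B i j * ∑ k, A j k * v (Sum.inl k)) -
        (∑ k, ((∑ j, B i j * A j k) - (if i = k then 1 else 0)) * v (Sum.inl k)) =
        v (Sum.inl i) := by
      simp only [sub_mul, Finset.sum_sub_distrib, Finset.mul_sum, Finset.sum_mul, ite_mul, one_mul,
        zero_mul, Finset.sum_ite_eq, Finset.mem_univ, if_true]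
      rw [Finset.sum_comm]
      simp only [mul_assoc]
      abel
    rw [← h3]
    exact Ideal.sub_mem _ h1 h2
  have hv4 : v ∈ Rel r A ⊔
      LinearMap.range (Finsupp.lmapDomain R R (Sum.inr : Fin n → Fin n ⊕ Fin n)) := by
    have e : v = (∑ i, single (Sum.inl i) (v (Sum.inl i))) +
        ∑ k, single (Sum.inr k) (v (Sum.inr k)) := by
      conv_lhs => rw [← Finsupp.univ_sum_single v]
      rw [Fintype.sum_sum_type]
    rw [e]
    refine Submodule.add_mem _ (Submodule.sum_mem _ fun i _ => inl_mem_sup r A i _ (hv3 i))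
      (Submodule.sum_mem _ fun k _ => Submodule.mem_sup_right ⟨single k (v (Sum.inr k)), by simp⟩)
  obtain ⟨w, hw, x, ⟨y, rfl⟩, hwx⟩ := Submodule.mem_sup.mp hv4
  have hx : phi r A (Finsupp.lmapDomain R R Sum.inr y) = 0 := by
    have h1 : phi r A v = 0 := hv
    have h2 : phi r A w = 0 := rel_le_ker r A hw
    rw [← hwx, map_add, h2, zero_add] at h1
    exact h1
  have hy : ∀ j, y j ∈ Ine r j := by
    intro j
    have h1 := congrFun hx j
    rw [phi_apply, Pi.zero_apply, Ideal.Quotient.eq_zero_iff_mem] at h1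
    have h2 : ∀ i, (Finsupp.lmapDomain R R (Sum.inr : Fin n → Fin n ⊕ Fin n) y) (Sum.inl i) = 0 := by
      intro i
      rw [Finsupp.lmapDomain_apply]
      exact Finsupp.mapDomain_notin_range _ _ (by simp)
    have h3 : (Finsupp.lmapDomain R R (Sum.inr : Fin n → Fin n ⊕ Fin n) y) (Sum.inr j) = y j := by
      rw [Finsupp.lmapDomain_apply]
      exact Finsupp.mapDomain_apply Sum.inr_injective _ _
    rw [h3] at h1
    simp only [h2, mul_zero, Finset.sum_const_zero, zero_add] at h1
    exact hr j _ h1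
  rw [← hwx]
  refine Submodule.add_mem _ hw ?_
  have e : Finsupp.lmapDomain R R (Sum.inr : Fin n → Fin n ⊕ Fin n) y =
      ∑ j, single (Sum.inr j) (y j) := by
    conv_lhs => rw [← Finsupp.univ_sum_single y]
    rw [map_sum]
    exact Finset.sum_congr rfl (fun j _ => by simp)
  rw [e]
  exact Submodule.sum_mem _ (fun j _ => single_inr_mem r A j _ (hy j))

lemma phi_surjective (r : Fin n → R) (A B : Fin n → Fin n → R)
    (hAB : ∀ i k, (∑ j, A i j * B j k) - (if i = k then 1 else 0) ∈ Iall r) :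
    Function.Surjective (phi r A) := by
  classical
  rw [← LinearMap.range_eq_top, eq_top_iff]
  have h1 : ∀ (k : Fin n) (c : R), c ∈ Iall r →
      (Pi.single k (Ideal.Quotient.mk (Ine r k) c) : ∀ j : Fin n, R ⧸ Ine r j) ∈
        LinearMap.range (phi r A) := by
    intro k c hc
    obtain ⟨g, hg⟩ := Iall_decomp r k c hc
    refine ⟨single (Sum.inr k) g, ?_⟩
    funext j
    rw [phi_inr]
    by_cases h : j = k
    · subst h
      rw [if_pos rfl, Pi.single_eq_same, Ideal.Quotient.eq, mul_comm]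
      rw [← neg_sub]
      exact neg_mem hg
    · rw [if_neg h, Pi.single_eq_of_ne h]
  have h2 : ∀ k : Fin n, (Pi.single k (Ideal.Quotient.mk (Ine r k) 1) :
      ∀ j : Fin n, R ⧸ Ine r j) ∈ LinearMap.range (phi r A) := by
    intro k
    have e : (Pi.single k (Ideal.Quotient.mk (Ine r k) 1) : ∀ j : Fin n, R ⧸ Ine r j) =
        phi r A (∑ i, single (Sum.inl i) (B i k)) -
        ∑ l, Pi.single l (Ideal.Quotient.mk (Ine r l)
          ((∑ j, A l j * B j k) - (if l = k then 1 else 0))) := by
      funext j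
      have e5 : (∑ l, Pi.single l (Ideal.Quotient.mk (Ine r l)
          ((∑ j, A l j * B j k) - (if l = k then 1 else 0))) : ∀ j : Fin n, R ⧸ Ine r j) j =
          Ideal.Quotient.mk (Ine r j) ((∑ i, A j i * B i k) - (if j = k then 1 else 0)) := by
        rw [Finset.sum_apply, Finset.sum_eq_single j
          (by intro l _ hl; rw [Pi.single_eq_of_ne (Ne.symm hl)]) (by simp)]
        rw [Pi.single_eq_same]
      rw [Pi.sub_apply, e5, map_sum, Finset.sum_apply]
      simp only [phi_inl]
      rw [← map_sum, ← map_sub]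
      by_cases h : j = k
      · subst h
        rw [Pi.single_eq_same]
        congr 1
        simp
      · rw [Pi.single_eq_of_ne h, if_neg h]
        simp
    rw [e]
    refine Submodule.sub_mem _ ⟨_, rfl⟩ (Submodule.sum_mem _ (fun l _ => h1 l _ (hAB l k)))
  intro x _
  have : x = ∑ j, Pi.single j (x j) := (Finset.univ_sum_single x).symm
  rw [this]
  refine Submodule.sum_mem _ (fun j _ => ?_)
  obtain ⟨a, ha⟩ := Ideal.Quotient.mk_surjective (x j)
  have : (Pi.single j (x j) : ∀ j : Fin n, R ⧸ Ine r j) =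
      a • Pi.single j (Ideal.Quotient.mk (Ine r j) 1) := by
    rw [← Pi.single_smul, ← ha]
    congr 1
    rw [map_one]
    change _ = a • (1 : R ⧸ Ine r j)
    rw [Algebra.smul_def, mul_one]
    rfl
  rw [this]
  exact Submodule.smul_mem _ _ (h2 j)

/-- The upper bound (nonsingular case). -/
theorem pair_pdLT (r : Fin n → R) (A B : Fin n → Fin n → R)
    (hreg : ∀ j, IsWeaklyRegular R (((List.finRange n).filter (· ≠ j)).map r))
    (hr : ∀ j g, r j * g ∈ Ine r j → g ∈ Ine r j)
    (hAB : ∀ i k, (∑ j, A i j * B j k) - (if i = k then 1 else 0) ∈ Iall r)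
    (hBA : ∀ i k, (∑ j, B i j * A j k) - (if i = k then 1 else 0) ∈ Iall r) :
    HasProjectiveDimensionLT (ModuleCat.of R (((Fin n ⊕ Fin n) →₀ R) ⧸ Rel r A)) n := by
  have hker : LinearMap.ker (phi r A) = Rel r A :=
    le_antisymm (ker_le_rel r A B hBA hr) (rel_le_ker r A)
  have e : (((Fin n ⊕ Fin n) →₀ R) ⧸ Rel r A) ≃ₗ[R] (∀ j : Fin n, R ⧸ Ine r j) :=
    (Submodule.quotEquivOfEq _ _ hker.symm).trans
      ((phi r A).quotKerEquivOfSurjective (phi_surjective r A B hAB))
  refine pdLT_of_iso' (M := ModuleCat.of R (∀ j : Fin n, R ⧸ Ine r j))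
    (N := ModuleCat.of R _) e.symm n ?_
  apply pdLT_pi
  intro j
  have h1 := pdLT_quot_list _ (ModuleCat.of R R) 1 (hreg j) inferInstance
  have hlen : 1 + (((List.finRange n).filter (· ≠ j)).map r).length = n := by
    rw [List.length_map]
    have h2 : ((List.finRange n).filter (· ≠ j)).length = (Finset.univ.erase j).card := by
      rw [← List.toFinset_card_of_nodup ((List.nodup_finRange n).filter _)]
      congr 1
      ext x
      simp
    rw [h2, Finset.card_erase_of_mem (Finset.mem_univ j), Finset.card_univ, Fintype.card_fin]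
    have := j.pos
    omega
  rw [hlen] at h1
  refine pdLT_of_iso' (M := ModuleCat.of R _) (N := ModuleCat.of R _) ?_ n h1
  apply Submodule.quotEquivOfEq
  rw [smul_eq_mul, Ideal.mul_top, Ideal.ofList, Ine]
  congr 1
  ext x
  simp

end H677R3
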