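import Mathlib

/-!
Regular sequences `f(X_j)` in multivariate polynomial rings, `f` monic.
-/

open MvPolynomial RingTheory.Sequence

namespace H677R3

variable {σ : Type*} {K : Type*} [CommRing K]

/-- the polynomial `f` evaluated at the variable `X j` -/
noncomputable def rr (f : Polynomial K) (j : σ) : MvPolynomial σ K := Polynomial.aeval (X j) f

/-- splitting off one variable -/
noncomputable def splitEquiv [DecidableEq σ] (j : σ) :
    MvPolynomial σ K ≃ₐ[K] Polynomial (MvPolynomial {k // k ≠ j} K) :=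
  (renameEquiv K (Equiv.optionSubtypeNe j).symm).trans (optionEquivLeft K {k // k ≠ j})

lemma splitEquiv_X_self [DecidableEq σ] (j : σ) :
    splitEquiv (K := K) j (X j) = Polynomial.X := by
  simp [splitEquiv, optionEquivLeft_apply]

lemma splitEquiv_X_ne [DecidableEq σ] (j k : σ) (h : k ≠ j) :
    splitEquiv (K := K) j (X k) = Polynomial.C (X ⟨k, h⟩) := by
  have : (Equiv.optionSubtypeNe j).symm k = some ⟨k, h⟩ := by
    rw [Equiv.symm_apply_eq]; simp
  simp [splitEquiv, optionEquivLeft_apply, this]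

lemma splitEquiv_rr_self [DecidableEq σ] (f : Polynomial K) (j : σ) :
    splitEquiv j (rr f j) = f.map (algebraMap K (MvPolynomial {k // k ≠ j} K)) := by
  rw [rr, ← Polynomial.aeval_algHom_apply, splitEquiv_X_self]
  rw [Polynomial.aeval_def, Polynomial.eval₂_eq_eval_map]
  conv_rhs => rw [← Polynomial.eval₂_C_X (p := f.map (algebraMap K _))]
  rw [Polynomial.eval₂_map, Polynomial.eval₂_eq_eval_map]
  rfl

lemma splitEquiv_rr_ne [DecidableEq σ] (f : Polynomial K) (j k : σ) (h : k ≠ j) :
    splitEquiv j (rr f k) = Polynomial.C (rr f ⟨k, h⟩) := by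
  rw [rr, ← Polynomial.aeval_algHom_apply, splitEquiv_X_ne j k h, rr]
  have := Polynomial.aeval_algHom_apply
    (Polynomial.CAlgHom (R := K) (A := MvPolynomial {k // k ≠ j} K)) (X ⟨k, h⟩) f
  exact this

lemma mem_of_rr_mul_mem (f : Polynomial K) (hf : f.Monic) (T : Set σ) (j : σ) (hj : j ∉ T)
    (g : MvPolynomial σ K) (h : rr f j * g ∈ Ideal.span (rr f '' T)) :
    g ∈ Ideal.span (rr f '' T) := by
  classical
  let e := splitEquiv (K := K) j
  let J : Ideal (MvPolynomial {k // k ≠ j} K) := Ideal.span (rr f '' {k | (k : σ) ∈ T})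
  have hI : Ideal.map (e : MvPolynomial σ K →+* _) (Ideal.span (rr f '' T)) =
      Ideal.map Polynomial.C J := by
    rw [Ideal.map_span, Ideal.map_span]
    congr 1
    ext p
    constructor
    · rintro ⟨_, ⟨k, hk, rfl⟩, rfl⟩
      have hkj : k ≠ j := fun hh => hj (hh ▸ hk)
      refine ⟨rr f ⟨k, hkj⟩, ⟨⟨k, hkj⟩, hk, rfl⟩, ?_⟩
      exact (splitEquiv_rr_ne f j k hkj).symm
    · rintro ⟨_, ⟨k, hk, rfl⟩, rfl⟩
      refine ⟨rr f k.1, ⟨k.1, hk, rfl⟩, ?_⟩
      exact splitEquiv_rr_ne f j k.1 k.2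
  have h1 : e (rr f j) * e g ∈ Ideal.map Polynomial.C J := by
    rw [← map_mul, ← hI]
    exact Ideal.mem_map_of_mem _ h
  have hmem : ∀ p : Polynomial (MvPolynomial {k // k ≠ j} K),
      p ∈ Ideal.map Polynomial.C J ↔ p.map (Ideal.Quotient.mk J) = 0 := by
    intro p
    rw [Ideal.mem_map_C_iff, Polynomial.ext_iff]
    simp [Ideal.Quotient.eq_zero_iff_mem]
  rw [hmem, Polynomial.map_mul] at h1
  have hm : ((e (rr f j)).map (Ideal.Quotient.mk J)).Monic := by
    have : e (rr f j) = f.map (algebraMap K _) := splitEquiv_rr_self f j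
    rw [this]
    exact (hf.map _).map _
  have h2 : (e g).map (Ideal.Quotient.mk J) = 0 := (hm.mul_right_eq_zero_iff).mp h1
  rw [← hmem, ← hI] at h2
  obtain ⟨g', hg', hgg⟩ := (Ideal.mem_map_iff_of_surjective _ e.surjective).mp h2
  have : g' = g := e.injective hgg
  rwa [this] at hg'

lemma ofList_map_rr (f : Polynomial K) (L : List σ) :
    Ideal.ofList (L.map (rr f)) = Ideal.span (rr f '' {k | k ∈ L}) := by
  rw [Ideal.ofList]
  congr 1
  ext p
  simp

lemma isWeaklyRegular_rr (f : Polynomial K) (hf : f.Monic) (L : List σ) (hL : L.Nodup) :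
    IsWeaklyRegular (MvPolynomial σ K) (L.map (rr f)) := by
  induction L using List.reverseRecOn with
  | nil => simp
  | append_singleton L j ih =>
    rw [List.map_append, isWeaklyRegular_append_iff]
    rw [List.nodup_append] at hL
    refine ⟨ih hL.1, ?_⟩
    rw [List.map_singleton, isWeaklyRegular_singleton_iff]
    have hj : j ∉ L := fun hh => hL.2.2 j hh j (by simp) rfl
    rw [ofList_map_rr, smul_eq_mul, Ideal.mul_top]
    rw [isSMulRegular_iff_right_eq_zero_of_smul]
    intro x hx
    obtain ⟨g, rfl⟩ := Submodule.Quotient.mk_surjective _ x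
    rw [← Submodule.Quotient.mk_smul, Submodule.Quotient.mk_eq_zero] at hx
    rw [Submodule.Quotient.mk_eq_zero]
    exact mem_of_rr_mul_mem f hf _ j hj g hx

end H677R3
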