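import Pool.Agent.H677R3.FIDefs
import Pool.Agent.H677R3.PairMod2
import Pool.Agent.H677R3.RegSeq

/-!
The FI-module with generators `nu_i`, `e_j` and relations
`f(x_k) e_j = 0` (`k ≠ j`), `f(x_j) nu_i = (δ_{ij} + w(x_i)) e_j`,
where `x_j = x_{i0,j}`.
-/

open CategoryTheory MvPolynomial Finsupp

universe u

namespace H677R3

variable {K : Type u} [Field K] {c : ℕ}

section push

variable {m n : ℕ}

/-- the pushforward on free modules -/
noncomputable def push (ε : Fin m → Fin n) :
    ((Fin m ⊕ Fin m) →₀ PolyAlg K c m) →ₛₗ[(PolyAlg.map K c ε).toRingHom]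
      ((Fin n ⊕ Fin n) →₀ PolyAlg K c n) where
  toFun v := Finsupp.mapDomain (Sum.map ε ε)
    (Finsupp.mapRange (PolyAlg.map K c ε) (map_zero _) v)
  map_add' x y := by
    rw [Finsupp.mapRange_add (fun a b => map_add (PolyAlg.map K c ε) a b), Finsupp.mapDomain_add]
  map_smul' p x := by
    have : Finsupp.mapRange (PolyAlg.map K c ε) (map_zero _) (p • x) =
        (PolyAlg.map K c ε p) • Finsupp.mapRange (PolyAlg.map K c ε) (map_zero _) x := by
      ext1 a
      simp
    rw [this, Finsupp.mapDomain_smul]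
    rfl

lemma push_single (ε : Fin m → Fin n) (a : Fin m ⊕ Fin m) (p : PolyAlg K c m) :
    push ε (single a p) = single (Sum.map ε ε a) (PolyAlg.map K c ε p) := by
  change Finsupp.mapDomain (Sum.map ε ε)
    (Finsupp.mapRange (PolyAlg.map K c ε) (map_zero _) (single a p)) = _
  rw [Finsupp.mapRange_single, Finsupp.mapDomain_single]

lemma polyMap_rr (ε : Fin m → Fin n) (f : Polynomial K) (i0 : Fin c) (j : Fin m) :
    PolyAlg.map K c ε (rr f (i0, j)) = rr f (i0, ε j) := by
  rw [rr, rr, ← Polynomial.aeval_algHom_apply, PolyAlg.map, rename_X]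
  rfl

end push

/-- the sequence `f(x_{i0,j})` -/
noncomputable def rvec (f : Polynomial K) (i0 : Fin c) (n : ℕ) (j : Fin n) : PolyAlg K c n :=
  rr f (i0, j)

/-- the matrix `δ_{ji} + w(x_{i0,i})` -/
noncomputable def Amat (w : Polynomial K) (i0 : Fin c) (n : ℕ) (j i : Fin n) : PolyAlg K c n :=
  (if j = i then 1 else 0) + rr w (i0, i)

lemma push_rel {m n : ℕ} (f w : Polynomial K) (i0 : Fin c) (ε : Fin m → Fin n)
    (hε : Function.Injective ε) :
    Rel (rvec f i0 m) (Amat w i0 m) ≤
      Submodule.comap (push ε) (Rel (rvec f i0 n) (Amat w i0 n)) := by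
  rw [Rel, Submodule.span_le]
  rintro v (⟨k, j, hkj, rfl⟩ | ⟨j, i, rfl⟩)
  · change push ε (single (Sum.inr j) (rvec f i0 m k)) ∈ Rel (rvec f i0 n) (Amat w i0 n)
    rw [push_single, rvec, polyMap_rr]
    have := rel1_mem (rvec f i0 n) (Amat w i0 n) (ε k) (ε j) (hε.ne hkj) 1
    rw [one_mul] at this
    exact this
  · change push ε (single (Sum.inl i) (rvec f i0 m j) - single (Sum.inr j) (Amat w i0 m j i)) ∈
      Rel (rvec f i0 n) (Amat w i0 n)
    rw [map_sub, push_single, push_single, rvec, polyMap_rr, Amat, map_add, polyMap_rr]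
    have h1 : PolyAlg.map K c ε (if j = i then 1 else 0) = if ε j = ε i then 1 else 0 := by
      by_cases h : j = i
      · subst h; simp
      · rw [if_neg h, if_neg (hε.ne h), map_zero]
    rw [h1]
    have := rel2_mem (rvec f i0 n) (Amat w i0 n) (ε j) (ε i) 1
    rw [one_mul, one_mul] at this
    exact this

/-- the structure maps -/
noncomputable def exMap (f w : Polynomial K) (i0 : Fin c) {m n : ℕ} (ε : Fin m ↪ Fin n) :
    (((Fin m ⊕ Fin m) →₀ PolyAlg K c m) ⧸ Rel (rvec f i0 m) (Amat w i0 m))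
      →ₛₗ[(PolyAlg.map K c (⇑ε)).toRingHom]
    (((Fin n ⊕ Fin n) →₀ PolyAlg K c n) ⧸ Rel (rvec f i0 n) (Amat w i0 n)) :=
  Submodule.mapQ _ _ (push ε) (push_rel f w i0 ε ε.injective)

lemma exMap_mk (f w : Polynomial K) (i0 : Fin c) {m n : ℕ} (ε : Fin m ↪ Fin n)
    (v : (Fin m ⊕ Fin m) →₀ PolyAlg K c m) :
    exMap f w i0 ε (Submodule.Quotient.mk v) = Submodule.Quotient.mk (push ε v) := rfl

lemma push_refl {n : ℕ} (v : (Fin n ⊕ Fin n) →₀ PolyAlg K c n) :
    push (⇑(Function.Embedding.refl (Fin n))) v = v := by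
  induction v using Finsupp.induction_linear with
  | zero => simp only [map_zero]
  | add x y hx hy => rw [map_add, hx, hy]
  | single a p =>
    rw [push_single]
    have h1 : (Sum.map (⇑(Function.Embedding.refl (Fin n))) (⇑(Function.Embedding.refl (Fin n))) a)
        = a := by
      rcases a with a | a <;> rfl
    have h2 : PolyAlg.map K c (⇑(Function.Embedding.refl (Fin n))) p = p := by
      have : (Prod.map id (⇑(Function.Embedding.refl (Fin n))) : Fin c × Fin n → Fin c × Fin n)
          = id := by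
        funext x; rfl
      rw [PolyAlg.map, this, rename_id_apply]
    rw [h1, h2]

lemma push_trans {l m n : ℕ} (ε : Fin l ↪ Fin m) (δ : Fin m ↪ Fin n)
    (v : (Fin l ⊕ Fin l) →₀ PolyAlg K c l) :
    push (⇑(ε.trans δ)) v = push (⇑δ) (push (⇑ε) v) := by
  induction v using Finsupp.induction_linear with
  | zero => simp only [map_zero]
  | add x y hx hy => rw [map_add, map_add, map_add, hx, hy]
  | single a p =>
    rw [push_single, push_single, push_single]
    have h1 : (Sum.map (⇑(ε.trans δ)) (⇑(ε.trans δ)) a) =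
        Sum.map (⇑δ) (⇑δ) (Sum.map (⇑ε) (⇑ε) a) := by
      rcases a with a | a <;> rfl
    have h2 : PolyAlg.map K c (⇑(ε.trans δ)) p = PolyAlg.map K c (⇑δ) (PolyAlg.map K c (⇑ε) p) := by
      rw [PolyAlg.map, PolyAlg.map, PolyAlg.map, rename_rename]
      rfl
    rw [h1, h2]

/-- the FI-module -/
noncomputable def exMod (f w : Polynomial K) (i0 : Fin c) : FIModule K c where
  obj n := ((Fin n ⊕ Fin n) →₀ PolyAlg K c n) ⧸ Rel (rvec f i0 n) (Amat w i0 n)
  map {m n} ε := (exMap f w i0 ε).toAddMonoidHom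
  map_id n u := by
    obtain ⟨v, rfl⟩ := Submodule.Quotient.mk_surjective _ u
    change exMap f w i0 _ (Submodule.Quotient.mk v) = _
    rw [exMap_mk, push_refl]
  map_comp {l m n} ε δ u := by
    obtain ⟨v, rfl⟩ := Submodule.Quotient.mk_surjective _ u
    change exMap f w i0 _ (Submodule.Quotient.mk v) =
      exMap f w i0 _ (exMap f w i0 _ (Submodule.Quotient.mk v))
    rw [exMap_mk, exMap_mk, exMap_mk, push_trans]
  map_smul {m n} ε p u := by
    change exMap f w i0 ε (p • u) = _ • exMap f w i0 ε u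
    rw [LinearMap.map_smulₛₗ]
    rfl

lemma exMod_map_mk (f w : Polynomial K) (i0 : Fin c) {m n : ℕ} (ε : Fin m ↪ Fin n)
    (v : (Fin m ⊕ Fin m) →₀ PolyAlg K c m) :
    (exMod f w i0).map ε (Submodule.Quotient.mk v) = Submodule.Quotient.mk (push ε v) := rfl

/-- the generating set -/
noncomputable def genSet (f w : Polynomial K) (i0 : Fin c) : Set (Σ n, (exMod f w i0).obj n) :=
  {⟨1, Submodule.Quotient.mk (single (Sum.inl 0) 1)⟩,
    ⟨1, Submodule.Quotient.mk (single (Sum.inr 0) 1)⟩}

lemma gen_aux (f w : Polynomial K) (i0 : Fin c) (n : ℕ)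
    (N : Submodule (PolyAlg K c n) ((exMod f w i0).obj n))
    (h : ∀ a : Fin n ⊕ Fin n, (Submodule.Quotient.mk (single a 1) :
      ((Fin n ⊕ Fin n) →₀ PolyAlg K c n) ⧸ Rel (rvec f i0 n) (Amat w i0 n)) ∈ N) : N = ⊤ := by
  rw [eq_top_iff]
  intro u _
  obtain ⟨v, rfl⟩ := Submodule.Quotient.mk_surjective _ u
  induction v using Finsupp.induction_linear with
  | zero => exact N.zero_mem
  | add x y hx hy => exact N.add_mem (hx trivial) (hy trivial)
  | single a p =>
    have : (single a p : (Fin n ⊕ Fin n) →₀ PolyAlg K c n) = p • single a 1 := by simp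
    rw [this]
    exact N.smul_mem p (h a)

/-- the map `[1] → [n]` with value `i` -/
def pt {n : ℕ} (i : Fin n) : Fin 1 ↪o Fin n where
  toFun _ := i
  inj' a b _ := Subsingleton.elim a b
  map_rel_iff' {a b} := by
    have : a = b := Subsingleton.elim a b
    subst this; simp

theorem exMod_toOI_finGen (f w : Polynomial K) (i0 : Fin c) : (exMod f w i0).toOI.FinGen := by
  refine ⟨genSet f w i0, (Set.finite_singleton _).insert _, ?_⟩
  intro N hN hS n
  apply gen_aux f w i0 n (N n)
  rintro (i | i)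
  · have h1 := hS ⟨1, Submodule.Quotient.mk (single (Sum.inl 0) 1)⟩ (Or.inl rfl)
    have h2 := hN (pt i) _ h1
    have h3 : (exMod f w i0).map (pt i).toEmbedding
        (Submodule.Quotient.mk (single (Sum.inl 0) 1)) =
        Submodule.Quotient.mk (single (Sum.inl i) 1) := by
      rw [exMod_map_mk, push_single, map_one]
      rfl
    exact h3 ▸ h2
  · have h1 := hS ⟨1, Submodule.Quotient.mk (single (Sum.inr 0) 1)⟩ (Or.inr rfl)
    have h2 := hN (pt i) _ h1
    have h3 : (exMod f w i0).map (pt i).toEmbedding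
        (Submodule.Quotient.mk (single (Sum.inr 0) 1)) =
        Submodule.Quotient.mk (single (Sum.inr i) 1) := by
      rw [exMod_map_mk, push_single, map_one]
      rfl
    exact h3 ▸ h2

theorem exMod_finGen (f w : Polynomial K) (i0 : Fin c) : (exMod f w i0).FinGen := by
  obtain ⟨S, hS, h⟩ := exMod_toOI_finGen f w i0
  exact ⟨S, hS, fun N hN hSN n => h N (fun ε u hu => hN ε.toEmbedding u hu) hSN n⟩

end H677R3
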