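import Mathlib

/-!
FI-modules and OI-modules over the polynomial FI-algebra (OI-algebra)
`P = (X^1)^{⊗ c}`, `P_n = K[x_{i,j} : i ∈ [c], j ∈ [n]]`, following the conventions of the
problem.  Objects of FI and OI are the sets `[n]`, modelled by `Fin n`; morphisms of FI are all
injections `Fin m ↪ Fin n`, morphisms of OI are the strictly increasing maps `Fin m ↪o Fin n`.
-/

open CategoryTheory MvPolynomial

universe u

namespace H677R3

/-- `P_n = K[x_{i,j} : i ∈ [c], j ∈ [n]]`. -/
abbrev PolyAlg (K : Type u) [Field K] (c n : ℕ) : Type u := MvPolynomial (Fin c × Fin n) K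

/-- The `K`-algebra map `P(ε) : P_m → P_n`, `x_{i,j} ↦ x_{i,ε(j)}`. -/
noncomputable def PolyAlg.map (K : Type u) [Field K] (c : ℕ) {m n : ℕ} (ε : Fin m → Fin n) :
    PolyAlg K c m →ₐ[K] PolyAlg K c n :=
  rename (Prod.map id ε)

/-- An FI-module over `P`: a functor from FI to abelian groups, each value `obj n` being a
`P_n`-module (hence a `K`-vector space), with `map ε (p • u) = P(ε)(p) • map ε u` (so every
`map ε` is `K`-linear). -/
structure FIModule (K : Type u) [Field K] (c : ℕ) where
  /-- the value at `[n]` -/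
  obj : ℕ → Type u
  [addCommGroup : ∀ n, AddCommGroup (obj n)]
  [module : ∀ n, Module (PolyAlg K c n) (obj n)]
  /-- the structure map of an injection -/
  map : ∀ {m n : ℕ}, (Fin m ↪ Fin n) → obj m →+ obj n
  map_id : ∀ (n : ℕ) (u : obj n), map (Function.Embedding.refl (Fin n)) u = u
  map_comp : ∀ {l m n : ℕ} (ε : Fin l ↪ Fin m) (δ : Fin m ↪ Fin n) (u : obj l),
    map (ε.trans δ) u = map δ (map ε u)
  map_smul : ∀ {m n : ℕ} (ε : Fin m ↪ Fin n) (p : PolyAlg K c m) (u : obj m),
    map ε (p • u) = PolyAlg.map K c ε p • map ε u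

/-- An OI-module over `P`: the same with strictly increasing maps. -/
structure OIModule (K : Type u) [Field K] (c : ℕ) where
  /-- the value at `[n]` -/
  obj : ℕ → Type u
  [addCommGroup : ∀ n, AddCommGroup (obj n)]
  [module : ∀ n, Module (PolyAlg K c n) (obj n)]
  /-- the structure map of a strictly increasing map -/
  map : ∀ {m n : ℕ}, (Fin m ↪o Fin n) → obj m →+ obj n
  map_id : ∀ (n : ℕ) (u : obj n), map (RelEmbedding.refl (fun x1 x2 : Fin n => x1 ≤ x2)) u = u
  map_comp : ∀ {l m n : ℕ} (ε : Fin l ↪o Fin m) (δ : Fin m ↪o Fin n) (u : obj l),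
    map (ε.trans δ) u = map δ (map ε u)
  map_smul : ∀ {m n : ℕ} (ε : Fin m ↪o Fin n) (p : PolyAlg K c m) (u : obj m),
    map ε (p • u) = PolyAlg.map K c ε p • map ε u

attribute [instance] FIModule.addCommGroup FIModule.module OIModule.addCommGroup OIModule.module

variable {K : Type u} [Field K] {c : ℕ}

/-- A family of `P_n`-submodules closed under the structure maps. -/
def FIModule.IsSubmodule (M : FIModule K c) (N : ∀ n, Submodule (PolyAlg K c n) (M.obj n)) :
    Prop :=
  ∀ {m n : ℕ} (ε : Fin m ↪ Fin n) (u : M.obj m), u ∈ N m → M.map ε u ∈ N n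

/-- Finite generation: some finite set of elements lies in no proper submodule. -/
def FIModule.FinGen (M : FIModule K c) : Prop :=
  ∃ S : Set (Σ n, M.obj n), S.Finite ∧
    ∀ N : ∀ n, Submodule (PolyAlg K c n) (M.obj n), M.IsSubmodule N →
      (∀ s ∈ S, s.2 ∈ N s.1) → ∀ n, N n = ⊤

/-- A family of `P_n`-submodules closed under the structure maps. -/
def OIModule.IsSubmodule (M : OIModule K c) (N : ∀ n, Submodule (PolyAlg K c n) (M.obj n)) :
    Prop :=
  ∀ {m n : ℕ} (ε : Fin m ↪o Fin n) (u : M.obj m), u ∈ N m → M.map ε u ∈ N n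

/-- Finite generation: some finite set of elements lies in no proper submodule. -/
def OIModule.FinGen (M : OIModule K c) : Prop :=
  ∃ S : Set (Σ n, M.obj n), S.Finite ∧
    ∀ N : ∀ n, Submodule (PolyAlg K c n) (M.obj n), M.IsSubmodule N →
      (∀ s ∈ S, s.2 ∈ N s.1) → ∀ n, N n = ⊤

/-- The projective dimension of the `P_n`-module `M_n` (Mathlib's `projectiveDimension`;
values in `ℕ ∪ {±∞}`, with `-∞` for the zero module). -/
noncomputable def FIModule.pd (M : FIModule K c) (n : ℕ) : WithBot ℕ∞ :=
  projectiveDimension (ModuleCat.of (PolyAlg K c n) (M.obj n))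

/-- The projective dimension of the `P_n`-module `M_n`. -/
noncomputable def OIModule.pd (M : OIModule K c) (n : ℕ) : WithBot ℕ∞ :=
  projectiveDimension (ModuleCat.of (PolyAlg K c n) (M.obj n))

/-- `d n = A n + B` for all large `n`, for some integers `A`, `B`. -/
def EventuallyLinear (d : ℕ → WithBot ℕ∞) : Prop :=
  ∃ A B : ℤ, ∃ N : ℕ, ∀ n : ℕ, N ≤ n →
    ∃ k : ℕ, d n = ((k : ℕ∞) : WithBot ℕ∞) ∧ (k : ℤ) = A * (n : ℤ) + B

/-- The OI-module underlying an FI-module (restriction along the inclusion of OI in FI). -/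
def FIModule.toOI (M : FIModule K c) : OIModule K c where
  obj := M.obj
  map ε := M.map ε.toEmbedding
  map_id n u := M.map_id n u
  map_comp ε δ u := M.map_comp ε.toEmbedding δ.toEmbedding u
  map_smul ε p u := M.map_smul ε.toEmbedding p u

end H677R3
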