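import Pool.Agent.H677R3.FICons

/-!
The projective dimension of the modules `exMod f w i0` in the two cases used:
characteristic `p` (`f = X`, `w = 1`) and characteristic zero (`f = X^2 - 1`, `w = X`).
-/

open CategoryTheory MvPolynomial Finsupp RingTheory.Sequence

universe u

namespace H677R3

variable {K : Type u} [Field K] {c : ℕ}

lemma reg_list (f : Polynomial K) (hf : f.Monic) (i0 : Fin c) (n : ℕ) (L : List (Fin n))
    (hL : L.Nodup) : IsWeaklyRegular (PolyAlg K c n) (L.map (rvec f i0 n)) := by
  have h1 : L.map (rvec f i0 n) = (L.map (fun j => ((i0, j) : Fin c × Fin n))).map (rr f) := by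
    rw [List.map_map]; rfl
  rw [h1]
  apply isWeaklyRegular_rr f hf
  exact hL.map (fun a b h => (Prod.mk.inj h).2)

lemma reg_ofFn (f : Polynomial K) (hf : f.Monic) (i0 : Fin c) (n : ℕ) :
    IsWeaklyRegular (PolyAlg K c n) (List.ofFn (rvec f i0 n)) := by
  rw [List.ofFn_eq_map]
  exact reg_list f hf i0 n _ (List.nodup_finRange n)

lemma Ine_rvec (f : Polynomial K) (i0 : Fin c) (n : ℕ) (j : Fin n) :
    Ine (rvec f i0 n) j =
      Ideal.span (rr f '' ((fun k => ((i0, k) : Fin c × Fin n)) '' {k | k ≠ j})) := by
  rw [Ine, Set.image_image]; rfl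

lemma nzd (f : Polynomial K) (hf : f.Monic) (i0 : Fin c) (n : ℕ) (j : Fin n)
    (g : PolyAlg K c n) (h : rvec f i0 n j * g ∈ Ine (rvec f i0 n) j) :
    g ∈ Ine (rvec f i0 n) j := by
  rw [Ine_rvec] at h ⊢
  refine mem_of_rr_mul_mem f hf _ (i0, j) ?_ g h
  rintro ⟨k, hk, hkj⟩
  exact hk (Prod.mk.inj hkj).2

theorem exMod_pdLT (f w : Polynomial K) (hf : f.Monic) (i0 : Fin c) (n : ℕ) (t : PolyAlg K c n)
    (ht : 1 - t * (1 + ∑ i : Fin n, rr w (i0, i)) ∈ Iall (rvec f i0 n)) :
    HasProjectiveDimensionLT (ModuleCat.of (PolyAlg K c n) ((exMod f w i0).obj n)) n := by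
  let B : Fin n → Fin n → PolyAlg K c n :=
    fun i j => (if i = j then 1 else 0) - t * rr w (i0, j)
  have key : ∀ k : Fin n, rr w (i0, k) * (1 - t * (1 + ∑ i : Fin n, rr w (i0, i))) ∈
      Iall (rvec f i0 n) := fun k => Ideal.mul_mem_left _ _ ht
  apply pair_pdLT (rvec f i0 n) (Amat w i0 n) B
  · intro j
    exact reg_list f hf i0 n _ ((List.nodup_finRange n).filter _)
  · intro j g hg
    exact nzd f hf i0 n j g hg
  · intro i k
    have e : (∑ j, Amat w i0 n i j * B j k) - (if i = k then 1 else 0) =
        rr w (i0, k) * (1 - t * (1 + ∑ i : Fin n, rr w (i0, i))) := by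
      have e1 : ∀ j, Amat w i0 n i j * B j k =
          (if i = j then (if j = k then (1 : PolyAlg K c n) else 0) else 0)
          - (if i = j then t * rr w (i0, k) else 0)
          + (if j = k then rr w (i0, j) else 0) - rr w (i0, j) * (t * rr w (i0, k)) := by
        intro j
        simp only [Amat, B]
        by_cases h1 : i = j
        · subst h1
          by_cases h2 : i = k
          · subst h2; simp only [if_true]; ring
          · simp only [if_true, if_neg h2]; ring
        · by_cases h2 : j = k
          · subst h2; simp only [if_true, if_neg h1]; ring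
          · simp only [if_neg h1, if_neg h2]; ring
      rw [Finset.sum_congr rfl (fun j _ => e1 j)]
      simp only [Finset.sum_sub_distrib, Finset.sum_add_distrib, Finset.sum_ite_eq,
        Finset.sum_ite_eq', Finset.mem_univ, if_true, ← Finset.sum_mul]
      ring
    rw [e]; exact key k
  · intro i k
    have e : (∑ j, B i j * Amat w i0 n j k) - (if i = k then 1 else 0) =
        rr w (i0, k) * (1 - t * (1 + ∑ i : Fin n, rr w (i0, i))) := by
      have e1 : ∀ j, B i j * Amat w i0 n j k =
          (if i = j then (if j = k then (1 : PolyAlg K c n) else 0) else 0)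
          + (if i = j then rr w (i0, k) else 0)
          - (if j = k then t * rr w (i0, j) else 0) - rr w (i0, j) * (t * rr w (i0, k)) := by
        intro j
        simp only [Amat, B]
        by_cases h1 : i = j
        · subst h1
          by_cases h2 : i = k
          · subst h2; simp only [if_true]; ring
          · simp only [if_true, if_neg h2]; ring
        · by_cases h2 : j = k
          · subst h2; simp only [if_true, if_neg h1]; ring
          · simp only [if_neg h1, if_neg h2]; ring
      rw [Finset.sum_congr rfl (fun j _ => e1 j)]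
      simp only [Finset.sum_sub_distrib, Finset.sum_add_distrib, Finset.sum_ite_eq,
        Finset.sum_ite_eq', Finset.mem_univ, if_true, ← Finset.sum_mul]
      ring
    rw [e]; exact key k

lemma not_mem_Iall {n : ℕ} (f : Polynomial K) (i0 : Fin c) (a : Fin c × Fin n → K)
    (ha : ∀ k, Polynomial.eval (a (i0, k)) f = 0) (g : PolyAlg K c n)
    (hg : MvPolynomial.eval a g ≠ 0) : g ∉ Iall (rvec f i0 n) := by
  intro h
  have h1 : Iall (rvec f i0 n) ≤ RingHom.ker (MvPolynomial.eval a) := by
    rw [Iall, Ideal.span_le]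
    rintro _ ⟨k, rfl⟩
    change MvPolynomial.eval a (rvec f i0 n k) = 0
    rw [rvec, rr]
    have : (MvPolynomial.aeval a) (Polynomial.aeval (X (i0, k)) f) =
        Polynomial.aeval (MvPolynomial.aeval a (X (i0, k) : PolyAlg K c n)) f :=
      (Polynomial.aeval_algHom_apply (MvPolynomial.aeval a) _ f).symm
    rw [MvPolynomial.aeval_X, Polynomial.coe_aeval_eq_eval, ha k] at this
    exact this
  exact hg (h1 h)

/-- char p, singular case -/
theorem exMod_low_p (i0 : Fin c) (n : ℕ) (hn : (n : K) + 1 = 0) (hn0 : 0 < n) :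
    ¬ HasProjectiveDimensionLT
      (ModuleCat.of (PolyAlg K c n) ((exMod (Polynomial.X : Polynomial K) 1 i0).obj n)) n := by
  apply pair_not_pdLT (rvec Polynomial.X i0 n) (Amat 1 i0 n)
    (reg_ofFn _ Polynomial.monic_X i0 n) (fun _ => 1) (fun _ => 0) ⟨0, hn0⟩
  · exact not_mem_Iall _ i0 (fun _ => 0) (by simp) 1 (by simp)
  · intro j
    have e : (∑ i, Amat (1 : Polynomial K) i0 n j i * 1) - rvec Polynomial.X i0 n j * 0 = 0 := by
      simp only [Amat, rr, map_one, mul_one, mul_zero, sub_zero, Finset.sum_add_distrib,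
        Finset.sum_ite_eq, Finset.mem_univ, if_true, Finset.sum_const, Finset.card_univ,
        Fintype.card_fin, nsmul_eq_mul]
      have := congrArg (C : K → PolyAlg K c n) hn
      rw [map_add, map_natCast, map_one, map_zero] at this
      rw [add_comm]; exact this
    rw [e]
    exact Ideal.zero_mem _

theorem exMod_up_p (i0 : Fin c) (n : ℕ) (hn : (n : K) + 1 ≠ 0) :
    HasProjectiveDimensionLT
      (ModuleCat.of (PolyAlg K c n) ((exMod (Polynomial.X : Polynomial K) 1 i0).obj n)) n := by
  apply exMod_pdLT _ _ Polynomial.monic_X i0 n (C ((n : K) + 1)⁻¹)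
  have e : (1 : PolyAlg K c n) - C ((n : K) + 1)⁻¹ *
      (1 + ∑ i : Fin n, rr (1 : Polynomial K) (i0, i)) = 0 := by
    simp only [rr, map_one, Finset.sum_const, Finset.card_univ, Fintype.card_fin, nsmul_eq_mul,
      mul_one]
    have h1 : (1 : PolyAlg K c n) + (n : PolyAlg K c n) = C ((n : K) + 1) := by
      rw [map_add, map_natCast, map_one, add_comm]
    rw [h1, ← map_mul, inv_mul_cancel₀ hn, map_one, sub_self]
  rw [e]; exact Ideal.zero_mem _

end H677R3
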