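import Pool.Agent.H677R3.FIFinal

/-!
Characteristic zero: `f = X^2 - 1`, `w = X`.
-/

open CategoryTheory MvPolynomial Finsupp RingTheory.Sequence

universe u

namespace H677R3

variable {K : Type u} [Field K] {c : ℕ}

/-- the polynomial `X^2 - 1` -/
noncomputable def sq1 (K : Type u) [Field K] : Polynomial K := Polynomial.X ^ 2 - 1

lemma sq1_monic : (sq1 K).Monic := by
  have : sq1 K = Polynomial.X ^ 2 - Polynomial.C 1 := by simp [sq1]
  rw [this]
  exact Polynomial.monic_X_pow_sub_C 1 (by norm_num)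

lemma rr_sq1 {σ : Type*} (j : σ) : rr (sq1 K) j = (X j : MvPolynomial σ K) ^ 2 - 1 := by
  simp [rr, sq1]

lemma rr_X {σ : Type*} (j : σ) : rr (Polynomial.X : Polynomial K) j = (X j : MvPolynomial σ K) := by
  simp [rr]

/-- alternating signs with sum -1 in odd length -/
def sgn (i : ℕ) : ℤ := if Even i then -1 else 1

lemma sgn_sq (i : ℕ) : sgn i * sgn i = 1 := by
  unfold sgn; split_ifs <;> norm_num

lemma sum_sgn (k : ℕ) : ∑ i ∈ Finset.range (2 * k + 1), sgn i = -1 := by
  induction k with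
  | zero => simp [sgn]
  | succ k ih =>
    have : 2 * (k + 1) + 1 = 2 * k + 1 + 1 + 1 := by ring
    rw [this, Finset.sum_range_succ, Finset.sum_range_succ, ih]
    have h1 : sgn (2 * k + 1) = 1 := by
      unfold sgn; rw [if_neg]; simp [parity_simps]
    have h2 : sgn (2 * k + 1 + 1) = -1 := by
      unfold sgn; rw [if_pos]; simp [parity_simps]
    rw [h1, h2]; norm_num

/-- char 0, singular case: n odd -/
theorem exMod_low_zero [CharZero K] (i0 : Fin c) (k : ℕ) :
    ¬ HasProjectiveDimensionLT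
      (ModuleCat.of (PolyAlg K c (2 * k + 1)) ((exMod (sq1 K) Polynomial.X i0).obj (2 * k + 1)))
      (2 * k + 1) := by
  set n := 2 * k + 1 with hn
  let s : Fin n → PolyAlg K c n := fun i => C ((sgn i.1 : ℤ) : K)
  let x : Fin n → PolyAlg K c n := fun i => X (i0, i)
  let δ : PolyAlg K c n := ∏ i, (x i + s i)
  let mu : Fin n → PolyAlg K c n := fun j => ∏ i ∈ Finset.univ.erase j, (x i + s i)
  have hs2 : ∀ i, s i * s i = 1 := by
    intro i
    simp only [s]
    rw [← map_mul, ← Int.cast_mul, sgn_sq, Int.cast_one, map_one]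
  have hr : ∀ i, (x i - s i) * (x i + s i) = rvec (sq1 K) i0 n i := by
    intro i
    rw [rvec, rr_sq1]
    have : (x i - s i) * (x i + s i) = x i ^ 2 - s i * s i := by ring
    rw [this, hs2]
  have hδ : ∀ j, δ = (x j + s j) * mu j := by
    intro j
    exact (Finset.mul_prod_erase _ _ (Finset.mem_univ j)).symm
  have hsum : (1 : PolyAlg K c n) + ∑ i, s i = 0 := by
    simp only [s]
    rw [← map_sum, ← map_one C, ← map_add]
    have h1 : ∑ i : Fin n, sgn i.1 = -1 := by
      rw [Fin.sum_univ_eq_sum_range (fun i => sgn i)]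
      exact sum_sgn k
    have h2 : (1 : K) + ∑ i : Fin n, ((sgn i.1 : ℤ) : K) = 0 := by
      rw [← Int.cast_sum, h1]; norm_num
    rw [h2, map_zero]
  apply pair_not_pdLT (rvec (sq1 K) i0 n) (Amat Polynomial.X i0 n)
    (reg_ofFn _ sq1_monic i0 n) (fun _ => δ) mu ⟨0, by omega⟩
  · apply not_mem_Iall _ i0 (fun a => ((sgn a.2.1 : ℤ) : K))
    · intro j
      simp only [sq1, Polynomial.eval_sub, Polynomial.eval_pow, Polynomial.eval_X,
        Polynomial.eval_one]
      rw [pow_two, ← Int.cast_mul, sgn_sq]; norm_num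
    · simp only [δ, x, s, map_prod, map_add, MvPolynomial.eval_X, MvPolynomial.eval_C]
      rw [Finset.prod_ne_zero_iff]
      intro i _
      have h1 : sgn i.1 + sgn i.1 ≠ 0 := by
        unfold sgn; split_ifs <;> norm_num
      rw [← Int.cast_add]
      exact Int.cast_ne_zero.mpr h1
  · intro j
    have e : (∑ i, Amat (Polynomial.X : Polynomial K) i0 n j i * δ) - rvec (sq1 K) i0 n j * mu j =
        ∑ i ∈ Finset.univ.erase j, mu i * rvec (sq1 K) i0 n i := by
      have e1 : (∑ i, Amat (Polynomial.X : Polynomial K) i0 n j i * δ) =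
          (1 + ∑ i, x i) * δ := by
        rw [← Finset.sum_mul]
        congr 1
        simp only [Amat, rr_X, Finset.sum_add_distrib, Finset.sum_ite_eq, Finset.mem_univ, if_true]
        rfl
      have e2 : (1 + ∑ i, x i) * δ = ∑ i, mu i * rvec (sq1 K) i0 n i := by
        have e3 : (1 + ∑ i, x i) * δ = (1 + ∑ i, s i) * δ + ∑ i, (x i - s i) * δ := by
          rw [← Finset.sum_mul, Finset.sum_sub_distrib]; ring
        rw [e3, hsum, zero_mul, zero_add]
        refine Finset.sum_congr rfl (fun i _ => ?_)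
        rw [hδ i, ← mul_assoc, hr i, mul_comm]
      rw [e1, e2, ← Finset.sum_erase_add _ _ (Finset.mem_univ j)]
      ring
    rw [e]
    refine Ideal.sum_mem _ (fun i hi => Ideal.mul_mem_left _ _ ?_)
    exact mem_Ine _ _ _ (Finset.ne_of_mem_erase hi)

lemma sum_pm {L : Type*} [Field L] {ι : Type*} (S : Finset ι) (y : ι → L)
    (hy : ∀ i, y i = 1 ∨ y i = -1) :
    ∃ m : ℤ, ∑ i ∈ S, y i = (m : L) ∧ Even (m - (S.card : ℤ)) := by
  classical
  induction S using Finset.induction_on with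
  | empty => exact ⟨0, by simp, by simp⟩
  | insert a S ha ih =>
    obtain ⟨m, hm, he⟩ := ih
    rw [Finset.sum_insert ha, Finset.card_insert_of_notMem ha]
    rcases hy a with h | h
    · refine ⟨m + 1, by rw [hm, h]; push_cast; ring, ?_⟩
      have : m + 1 - ((S.card + 1 : ℕ) : ℤ) = m - S.card := by push_cast; ring
      rwa [this]
    · refine ⟨m - 1, by rw [hm, h]; push_cast; ring, ?_⟩
      have : m - 1 - ((S.card + 1 : ℕ) : ℤ) = (m - S.card) - 2 := by push_cast; ring
      rw [this]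
      exact he.sub (by decide)

lemma exists_t [CharZero K] (i0 : Fin c) (n : ℕ) (hn : Even n) :
    ∃ t : PolyAlg K c n, 1 - t * (1 + ∑ i : Fin n, rr (Polynomial.X : Polynomial K) (i0, i)) ∈
      Iall (rvec (sq1 K) i0 n) := by
  set s : PolyAlg K c n := 1 + ∑ i : Fin n, rr (Polynomial.X : Polynomial K) (i0, i) with hs
  have htop : Iall (rvec (sq1 K) i0 n) ⊔ Ideal.span {s} = ⊤ := by
    by_contra hne
    obtain ⟨M, hM, hle⟩ := Ideal.exists_le_maximal _ hne
    letI : Field (PolyAlg K c n ⧸ M) := Ideal.Quotient.field M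
    let q := Ideal.Quotient.mk M
    have hchar : CharZero (PolyAlg K c n ⧸ M) :=
      charZero_of_injective_algebraMap (R := K) (A := PolyAlg K c n ⧸ M)
        (RingHom.injective _)
    have hy : ∀ i : Fin n, q (X (i0, i)) = 1 ∨ q (X (i0, i)) = -1 := by
      intro i
      have h1 : rvec (sq1 K) i0 n i ∈ M := hle (Ideal.mem_sup_left (mem_Iall _ i))
      rw [rvec, rr_sq1] at h1
      have h2 : q ((X (i0, i)) ^ 2 - 1) = 0 := Ideal.Quotient.eq_zero_iff_mem.mpr h1
      rw [map_sub, map_pow, map_one, sub_eq_zero, pow_two] at h2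
      exact mul_self_eq_one_iff.mp h2
    have hs0 : q s = 0 := Ideal.Quotient.eq_zero_iff_mem.mpr
      (hle (Ideal.mem_sup_right (Ideal.mem_span_singleton_self s)))
    obtain ⟨m, hm, he⟩ := sum_pm (Finset.univ : Finset (Fin n))
      (fun i => q (X (i0, i))) hy
    have h3 : q s = ((1 + m : ℤ) : PolyAlg K c n ⧸ M) := by
      rw [hs, map_add, map_one, map_sum]
      simp only [rr_X]
      rw [hm]; push_cast; rfl
    rw [hs0] at h3
    have h4 : (1 + m : ℤ) = 0 := by
      exact_mod_cast h3.symm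
    rw [Finset.card_univ, Fintype.card_fin] at he
    have h5 : m = -1 := by omega
    rw [h5] at he
    obtain ⟨a, ha⟩ := hn
    obtain ⟨b, hb⟩ := he
    omega
  have h1 : (1 : PolyAlg K c n) ∈ Iall (rvec (sq1 K) i0 n) ⊔ Ideal.span {s} := by
    rw [htop]; trivial
  obtain ⟨a, ha, b, hb, hab⟩ := Submodule.mem_sup.mp h1
  obtain ⟨t, rfl⟩ := Ideal.mem_span_singleton'.mp hb
  refine ⟨t, ?_⟩
  rw [← hab]
  simpa using ha

theorem exMod_up_zero [CharZero K] (i0 : Fin c) (n : ℕ) (hn : Even n) :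
    HasProjectiveDimensionLT
      (ModuleCat.of (PolyAlg K c n) ((exMod (sq1 K) Polynomial.X i0).obj n)) n := by
  obtain ⟨t, ht⟩ := exists_t (K := K) i0 n hn
  exact exMod_pdLT _ _ sq1_monic i0 n t ht

/-- An eventually linear function cannot be `≥ n` infinitely often and `< n` infinitely often. -/
lemma not_eventuallyLinear (M : FIModule K c)
    (h1 : ∀ N : ℕ, ∃ n, N ≤ n ∧
      ¬ HasProjectiveDimensionLT (ModuleCat.of (PolyAlg K c n) (M.obj n)) n)
    (h2 : ∀ N : ℕ, ∃ n, N ≤ n ∧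
      HasProjectiveDimensionLT (ModuleCat.of (PolyAlg K c n) (M.obj n)) n) :
    ¬ EventuallyLinear M.pd := by
  rintro ⟨A, B, N, h⟩
  have hge : ∀ n, N ≤ n → ¬ HasProjectiveDimensionLT (ModuleCat.of (PolyAlg K c n) (M.obj n)) n →
      (n : ℤ) ≤ A * n + B := by
    intro n hn hp
    obtain ⟨k, hk, hkA⟩ := h n hn
    rw [← hkA]
    have h3 := (projectiveDimension_ge_iff
      (ModuleCat.of (PolyAlg K c n) (M.obj n)) n).mpr hp
    have h4 : M.pd n = projectiveDimension (ModuleCat.of (PolyAlg K c n) (M.obj n)) := rfl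
    rw [← h4, hk] at h3
    exact_mod_cast h3
  have hlt : ∀ n, N ≤ n → HasProjectiveDimensionLT (ModuleCat.of (PolyAlg K c n) (M.obj n)) n →
      A * n + B < (n : ℤ) := by
    intro n hn hp
    obtain ⟨k, hk, hkA⟩ := h n hn
    rw [← hkA]
    have h3 := (projectiveDimension_lt_iff
      (X := ModuleCat.of (PolyAlg K c n) (M.obj n)) (n := n)).mpr hp
    have h4 : M.pd n = projectiveDimension (ModuleCat.of (PolyAlg K c n) (M.obj n)) := rfl
    rw [← h4, hk] at h3
    exact_mod_cast h3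
  obtain ⟨n1, hn1, hp1⟩ := h1 N
  obtain ⟨n2, hn2, hp2⟩ := h2 (n1 + 1)
  obtain ⟨n3, hn3, hp3⟩ := h1 (n2 + 1)
  have a1 := hge n1 hn1 hp1
  have a2 := hlt n2 (by omega) hp2
  have a3 := hge n3 (by omega) hp3
  have b1 : (n1 : ℤ) < n2 := by exact_mod_cast hn2
  have b2 : (n2 : ℤ) < n3 := by exact_mod_cast hn3
  have c1 : (A - 1) * ((n2 : ℤ) - n1) < 0 := by linarith
  have c2 : A - 1 < 0 := by
    by_contra hc
    push Not at hc
    have : 0 ≤ (A - 1) * ((n2 : ℤ) - n1) := mul_nonneg hc (by linarith)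
    linarith
  have c3 : 0 < (A - 1) * ((n3 : ℤ) - n2) := by linarith
  have c4 : (A - 1) * ((n3 : ℤ) - n2) < 0 := mul_neg_of_neg_of_pos c2 (by linarith)
  linarith

end H677R3
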