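import Pool.Agent.H677R3.PdBasics

/-!
The two-generator-family module over a commutative ring `R` attached to a sequence
`r : Fin n → R` and a matrix `A`:
generators `nu_i`, `e_j`, relations `r_k e_j = 0` for `k ≠ j`, `r_j nu_i = A j i e_j`.
-/

open CategoryTheory Abelian RingTheory.Sequence Finsupp

universe u v

namespace H677R3

section Prod

variable {R : Type u} [CommRing R]

lemma pdLT_prod (A B : Type u) [AddCommGroup A] [Module R A] [AddCommGroup B] [Module R B] (d : ℕ)
    (hA : HasProjectiveDimensionLT (ModuleCat.of R A) d)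
    (hB : HasProjectiveDimensionLT (ModuleCat.of R B) d) :
    HasProjectiveDimensionLT (ModuleCat.of R (A × B)) d :=
  hasProjectiveDimensionLT_of_iso
    (ModuleCat.biprodIsoProd (ModuleCat.of R A) (ModuleCat.of R B)) d

lemma pdLT_pi (d : ℕ) : ∀ (n : ℕ) (Q : Fin n → Type u) [∀ i, AddCommGroup (Q i)]
    [∀ i, Module R (Q i)],
    (∀ i, HasProjectiveDimensionLT (ModuleCat.of R (Q i)) d) →
    HasProjectiveDimensionLT (ModuleCat.of R (∀ i, Q i)) d := by
  intro n
  induction n with
  | zero =>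
    intro Q _ _ _
    have : Subsingleton (∀ i, Q i) := inferInstance
    have hz : Limits.IsZero (ModuleCat.of R (∀ i, Q i)) :=
      ModuleCat.isZero_of_subsingleton _
    have := hz.hasProjectiveDimensionLT_zero
    exact hasProjectiveDimensionLT_of_ge _ 0 d (Nat.zero_le _)
  | succ n ih =>
    intro Q _ _ h
    have h1 := ih (fun i => Q i.succ) (fun i => h i.succ)
    have h2 := pdLT_prod (R := R) (Q 0) (∀ i : Fin n, Q i.succ) d (h 0) h1
    exact pdLT_of_iso' (M := ModuleCat.of R _) (N := ModuleCat.of R _)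
      (Fin.consLinearEquiv R Q) d h2

end Prod

variable {R : Type u} [CommRing R] {n : ℕ}

/-- The relations. -/
noncomputable def Rel (r : Fin n → R) (A : Fin n → Fin n → R) : Submodule R ((Fin n ⊕ Fin n) →₀ R) :=
  Submodule.span R
    ({v | ∃ k j, k ≠ j ∧ v = single (Sum.inr j) (r k)} ∪
      {v | ∃ j i, v = single (Sum.inl i) (r j) - single (Sum.inr j) (A j i)})

lemma rel1_mem (r : Fin n → R) (A : Fin n → Fin n → R) (k j : Fin n) (h : k ≠ j) (a : R) :
    single (Sum.inr j) (a * r k) ∈ Rel r A := by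
  have : single (Sum.inr j) (a * r k) = a • (single (Sum.inr j) (r k) : (Fin n ⊕ Fin n) →₀ R) := by
    simp
  rw [this]
  exact Submodule.smul_mem _ _ (Submodule.subset_span (Or.inl ⟨k, j, h, rfl⟩))

lemma rel2_mem (r : Fin n → R) (A : Fin n → Fin n → R) (j i : Fin n) (a : R) :
    (single (Sum.inl i) (a * r j) - single (Sum.inr j) (a * A j i) : (Fin n ⊕ Fin n) →₀ R)
      ∈ Rel r A := by
  have : (single (Sum.inl i) (a * r j) - single (Sum.inr j) (a * A j i) : (Fin n ⊕ Fin n) →₀ R)
      = a • (single (Sum.inl i) (r j) - single (Sum.inr j) (A j i)) := by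
    simp [smul_sub]
  rw [this]
  exact Submodule.smul_mem _ _ (Submodule.subset_span (Or.inr ⟨j, i, rfl⟩))

/-- the ideal of all `r k` with `k ≠ j` -/
def Ine (r : Fin n → R) (j : Fin n) : Ideal R := Ideal.span (r '' {k | k ≠ j})

/-- the ideal of all `r k` -/
def Iall (r : Fin n → R) : Ideal R := Ideal.span (Set.range r)

lemma Ine_le (r : Fin n → R) (j : Fin n) : Ine r j ≤ Iall r :=
  Ideal.span_mono (Set.image_subset_range _ _)

lemma mem_Ine (r : Fin n → R) (j k : Fin n) (h : k ≠ j) : r k ∈ Ine r j :=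
  Ideal.subset_span ⟨k, h, rfl⟩

lemma mem_Iall (r : Fin n → R) (k : Fin n) : r k ∈ Iall r :=
  Ideal.subset_span ⟨k, rfl⟩

lemma Iall_decomp (r : Fin n → R) (j : Fin n) (c : R) (hc : c ∈ Iall r) :
    ∃ g, c - g * r j ∈ Ine r j := by
  have : Iall r ≤ Ine r j ⊔ Ideal.span {r j} := by
    rw [Iall, Ideal.span_le]
    rintro _ ⟨k, rfl⟩
    by_cases h : k = j
    · subst h
      exact Ideal.mem_sup_right (Ideal.mem_span_singleton_self _)
    · exact Ideal.mem_sup_left (mem_Ine r j k h)
  obtain ⟨x, hx, y, hy, hxy⟩ := Submodule.mem_sup.mp (this hc)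
  obtain ⟨g, rfl⟩ := Ideal.mem_span_singleton'.mp hy
  refine ⟨g, ?_⟩
  rw [← hxy]
  simpa using hx

lemma single_inr_mem (r : Fin n → R) (A : Fin n → Fin n → R) (j : Fin n) (a : R)
    (ha : a ∈ Ine r j) : (single (Sum.inr j) a : (Fin n ⊕ Fin n) →₀ R) ∈ Rel r A := by
  have : Ine r j ≤ Submodule.comap (Finsupp.lsingle (Sum.inr j) :
      R →ₗ[R] ((Fin n ⊕ Fin n) →₀ R)) (Rel r A) := by
    rw [Ine, Ideal.span, Submodule.span_le]
    rintro _ ⟨k, hk, rfl⟩
    have := rel1_mem r A k j hk 1
    simpa using this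
  exact this ha

/-- The lower bound (singular case). -/
theorem pair_not_pdLT (r : Fin n → R) (A : Fin n → Fin n → R)
    (hreg : IsWeaklyRegular R (List.ofFn r)) (lam mu : Fin n → R)
    (i₀ : Fin n) (hlam : lam i₀ ∉ Iall r)
    (h : ∀ j, (∑ i, A j i * lam i) - r j * mu j ∈ Ine r j) :
    ¬ HasProjectiveDimensionLT (ModuleCat.of R (((Fin n ⊕ Fin n) →₀ R) ⧸ Rel r A)) n := by
  have hlen : (List.ofFn r).length = n := by simp
  let v : (Fin n ⊕ Fin n) →₀ R :=
    (∑ i, single (Sum.inl i) (lam i)) - ∑ j, single (Sum.inr j) (mu j)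
  suffices key : ¬ HasProjectiveDimensionLT
      (ModuleCat.of R (((Fin n ⊕ Fin n) →₀ R) ⧸ Rel r A)) (List.ofFn r).length by
    rwa [hlen] at key
  apply not_pdLT_of_killed _ _ hreg ((Rel r A).mkQ v)
  · -- nonzero
    intro h0
    have hv : v ∈ Rel r A := by
      rwa [Submodule.mkQ_apply, Submodule.Quotient.mk_eq_zero] at h0
    let φ : ((Fin n ⊕ Fin n) →₀ R) →ₗ[R] (R ⧸ Iall r) :=
      (Iall r).mkQ.comp (Finsupp.lapply (Sum.inl i₀))
    have hk : Rel r A ≤ LinearMap.ker φ := by
      rw [Rel, Submodule.span_le]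
      rintro w (⟨k, j, _, rfl⟩ | ⟨j, i, rfl⟩)
      · simp [φ]
      · by_cases hi : i = i₀
        · subst hi
          simp [φ, Ideal.Quotient.eq_zero_iff_mem, mem_Iall]
        · have : (single (Sum.inl i) (r j) : (Fin n ⊕ Fin n) →₀ R) (Sum.inl i₀) = 0 := by
            rw [Finsupp.single_apply, if_neg]
            simpa using hi
          simp [φ, this]
    have hv2 := hk hv
    have hval : v (Sum.inl i₀) = lam i₀ := by
      simp [v, Finsupp.finset_sum_apply, Finsupp.single_apply]
    rw [LinearMap.mem_ker] at hv2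
    have hv3 : (Iall r).mkQ (v (Sum.inl i₀)) = 0 := hv2
    rw [hval, Submodule.mkQ_apply, Submodule.Quotient.mk_eq_zero] at hv3
    exact hlam hv3
  · intro x hx
    rw [List.mem_ofFn] at hx
    obtain ⟨j, rfl⟩ := hx
    rw [← map_smul, Submodule.mkQ_apply, Submodule.Quotient.mk_eq_zero]
    have e1 : r j • v = (∑ i, (single (Sum.inl i) (lam i * r j) -
        single (Sum.inr j) (lam i * A j i))) +
        single (Sum.inr j) ((∑ i, A j i * lam i) - r j * mu j)
        - ∑ k ∈ Finset.univ.erase j, single (Sum.inr k) (mu k * r j) := by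
      have e2 : ∑ k, single (Sum.inr k : Fin n ⊕ Fin n) (mu k * r j) =
          (∑ k ∈ Finset.univ.erase j, single (Sum.inr k) (mu k * r j)) +
            single (Sum.inr j) (mu j * r j) := by
        rw [Finset.sum_erase_add _ _ (Finset.mem_univ j)]
      have e3 : r j • v = (∑ i, single (Sum.inl i) (lam i * r j)) -
          ∑ k, single (Sum.inr k) (mu k * r j) := by
        simp [v, smul_sub, Finset.smul_sum, mul_comm]
      rw [e3, e2, Finset.sum_sub_distrib, Finsupp.single_sub, ← Finsupp.single_finset_sum]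
      have e4 : ∑ i, lam i * A j i = ∑ i, A j i * lam i :=
        Finset.sum_congr rfl (fun i _ => mul_comm _ _)
      rw [e4, mul_comm (mu j) (r j)]
      abel
    rw [e1]
    refine Submodule.sub_mem _ (Submodule.add_mem _ ?_ ?_) ?_
    · exact Submodule.sum_mem _ (fun i _ => rel2_mem r A j i (lam i))
    · exact single_inr_mem r A j _ (h j)
    · refine Submodule.sum_mem _ (fun k hk => ?_)
      exact rel1_mem r A j k (Finset.ne_of_mem_erase hk).symm (mu k)

end H677R3
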