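import Mathlib

/-!
Projective dimension basics: upper bound for quotients by regular sequences, and
the lower bound: a module with an element killed by a regular sequence of length
n has projective dimension at least n.
-/

open CategoryTheory Abelian RingTheory.Sequence

universe u v

namespace H677R3

variable {R : Type u} [CommRing R]

lemma pdLT_quotSMulTop (N : ModuleCat.{u} R) (x : R) (reg : IsSMulRegular N x) (d : ℕ)
    (h : HasProjectiveDimensionLT N d) :
    HasProjectiveDimensionLT (ModuleCat.of R (QuotSMulTop x N)) (d + 1) := by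
  have hS := reg.smulShortComplex_shortExact
  exact hS.hasProjectiveDimensionLT_X₃ d h (hasProjectiveDimensionLT_of_ge N d (d + 1) (by omega))

lemma pdLT_of_iso' {M N : ModuleCat.{u} R} (e : M ≃ₗ[R] N) (d : ℕ)
    (h : HasProjectiveDimensionLT M d) : HasProjectiveDimensionLT N d :=
  hasProjectiveDimensionLT_of_iso e.toModuleIso d

/-- upper bound for the quotient by a weakly regular sequence -/
lemma pdLT_quot_list (rs : List R) : ∀ (N : ModuleCat.{u} R) (d : ℕ),
    IsWeaklyRegular N rs → HasProjectiveDimensionLT N d →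
    HasProjectiveDimensionLT
      (ModuleCat.of R (N ⧸ (Ideal.ofList rs • (⊤ : Submodule R N)))) (d + rs.length) := by
  induction rs with
  | nil =>
    intro N d _ h
    have e : N ≃ₗ[R] (N ⧸ (Ideal.ofList ([] : List R) • (⊤ : Submodule R N))) :=
      (Submodule.quotEquivOfEqBot _ (by simp)).symm
    exact pdLT_of_iso' (M := N) (N := ModuleCat.of R _) e d h
  | cons x rs ih =>
    intro N d hreg h
    rw [isWeaklyRegular_cons_iff] at hreg
    have h1 := pdLT_quotSMulTop N x hreg.1 d h
    have h2 := ih (ModuleCat.of R (QuotSMulTop x N)) (d + 1) hreg.2 h1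
    have e := (Submodule.quotOfListConsSMulTopEquivQuotSMulTopInner N x rs).symm
    have h3 := pdLT_of_iso' (M := ModuleCat.of R _) (N := ModuleCat.of R _) e _ h2
    have : d + (x :: rs).length = d + 1 + rs.length := by simp; omega
    rw [this]
    exact h3

lemma ext_smul_eq_zero (C N : ModuleCat.{u} R) (x : R) (hC : ∀ c : C, x • c = 0) (i : ℕ)
    (e : Ext C N i) : e.comp (Ext.mk₀ (x • 𝟙 N)) (add_zero i) = 0 := by
  have h1 : e.comp (Ext.mk₀ (x • 𝟙 N)) (add_zero i) = x • e := by
    rw [Ext.mk₀_smul, Ext.comp_smul, Ext.comp_mk₀_id]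
  have h2 : x • e = (Ext.mk₀ (x • 𝟙 C)).comp e (zero_add i) := by
    rw [Ext.mk₀_smul, Ext.smul_comp, Ext.mk₀_id_comp]
  have h3 : x • 𝟙 C = 0 := by
    ext c
    show x • c = 0
    exact hC c
  rw [h1, h2, h3]
  simp

/-- Rees: Ext vanishing below the length of a regular sequence annihilating `C`. -/
lemma ext_vanish (C : ModuleCat.{u} R) (rs : List R) : ∀ (N : ModuleCat.{u} R),
    IsWeaklyRegular N rs → (∀ r ∈ rs, ∀ c : C, r • c = 0) →
    ∀ i, i < rs.length → Subsingleton (Ext C N i) := by
  induction rs with
  | nil => intro N _ _ i hi; simp at hi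
  | cons x rs ih =>
    intro N hreg hC i hi
    rw [isWeaklyRegular_cons_iff] at hreg
    have hx : ∀ c : C, x • c = 0 := hC x (by simp)
    have hS := hreg.1.smulShortComplex_shortExact
    rcases i with _ | j
    · refine ⟨fun a b => ?_⟩
      suffices h : ∀ a : Ext C N 0, a = 0 by rw [h a, h b]
      intro a
      obtain ⟨f, rfl⟩ := (Ext.mk₀_bijective C N).2 a
      have : f = 0 := by
        ext c
        apply hreg.1
        have h1 : f.hom (x • c) = 0 := by rw [hx c, map_zero]
        rw [map_smul] at h1
        show x • f.hom c = x • (0 : N)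
        rw [h1, smul_zero]
      rw [this]; simp
    · have hq := ih (ModuleCat.of R (QuotSMulTop x N)) hreg.2
        (fun r hr => hC r (List.mem_cons_of_mem _ hr)) j (by simpa using hi)
      refine ⟨fun a b => ?_⟩
      suffices h : ∀ a : Ext C N (j + 1), a = 0 by rw [h a, h b]
      intro a
      obtain ⟨y, hy⟩ := Ext.covariant_sequence_exact₁ C hS a
        (by exact ext_smul_eq_zero C N x hx (j + 1) a) rfl
      have hy0 : y = 0 := hq.elim _ _
      rw [← hy, hy0]
      exact Ext.zero_comp C j hS.extClass (j + 1) rfl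

lemma isWeaklyRegular_of_projective (P : ModuleCat.{u} R) [Module.Flat R P] (rs : List R)
    (h : IsWeaklyRegular R rs) : IsWeaklyRegular P rs := by
  have h1 : IsWeaklyRegular (TensorProduct R P R) rs := IsWeaklyRegular.isWeaklyRegular_lTensor h
  exact ((TensorProduct.rid R P).isWeaklyRegular_congr rs).mp h1

/-- If pd M < d then Ext^i(C, M) = 0 for i + d ≤ n, where n is the length of a regular sequence
on R killing C. -/
lemma ext_vanish_of_pd (C : ModuleCat.{u} R) (rs : List R) (hR : IsWeaklyRegular R rs)
    (hC : ∀ r ∈ rs, ∀ c : C, r • c = 0) : ∀ (d : ℕ) (M : ModuleCat.{u} R),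
    HasProjectiveDimensionLT M d → ∀ i, i + d ≤ rs.length → Subsingleton (Ext C M i) := by
  intro d
  induction d with
  | zero =>
    intro M hM i _
    have hz : Limits.IsZero M := isZero_of_hasProjectiveDimensionLT_zero M
    refine ⟨fun a b => ?_⟩
    suffices h : ∀ a : Ext C M i, a = 0 by rw [h a, h b]
    intro a
    have h1 : a.comp (Ext.mk₀ (𝟙 M)) (add_zero i) = a := Ext.comp_mk₀_id a
    rw [← h1, hz.eq_zero_of_src (𝟙 M)]
    simp
  | succ d ih =>
    intro M hM i hi
    rcases d with _ | d
    · have hp : Projective M := by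
        rw [projective_iff_hasProjectiveDimensionLT_one]; exact hM
      have hp' : Module.Projective R M := by
        rw [IsProjective.iff_projective]; exact hp
      exact ext_vanish C rs M (isWeaklyRegular_of_projective M rs hR) hC i (by omega)
    · have hS := M.shortExact_projectiveShortComplex
      have hproj : Projective M.projectiveShortComplex.X₂ := inferInstance
      have hZ : HasProjectiveDimensionLT M.projectiveShortComplex.X₁ (d + 1) := by
        rw [← hS.hasProjectiveDimensionLT_X₃_iff d inferInstance]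
        exact hM
      have h1 := ih _ hZ (i + 1) (by omega)
      have h2 : Subsingleton (Ext C M.projectiveShortComplex.X₂ i) :=
        ext_vanish C rs _ (isWeaklyRegular_of_projective _ rs hR) hC i (by omega)
      refine ⟨fun a b => ?_⟩
      suffices h : ∀ a : Ext C M i, a = 0 by rw [h a, h b]
      intro a
      obtain ⟨y, hy⟩ := Ext.covariant_sequence_exact₃ C hS a rfl (h1.elim _ _)
      rw [← hy, h2.elim y 0]; simp

/-- lower bound -/
theorem not_pdLT_of_killed (M : ModuleCat.{u} R) (rs : List R) (hR : IsWeaklyRegular R rs)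
    (m : M) (hm : m ≠ 0) (hk : ∀ r ∈ rs, r • m = 0) :
    ¬ HasProjectiveDimensionLT M rs.length := by
  intro h
  let C : ModuleCat.{u} R := ModuleCat.of R (Submodule.span R {m})
  have hC : ∀ r ∈ rs, ∀ c : C, r • c = 0 := by
    intro r hr c
    obtain ⟨c, hc⟩ := c
    obtain ⟨a, rfl⟩ := Submodule.mem_span_singleton.mp hc
    apply Subtype.ext
    change r • a • m = 0
    rw [smul_comm, hk r hr, smul_zero]
  have h0 := ext_vanish_of_pd C rs hR hC rs.length M h 0 (by omega)
  have h1 : (Ext.mk₀ (ModuleCat.ofHom (Submodule.span R {m}).subtype) : Ext C M 0) = 0 :=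
    h0.elim _ _
  have h2 : (ModuleCat.ofHom (Submodule.span R {m}).subtype : C ⟶ M) = 0 := by
    apply (Ext.mk₀_bijective C M).1
    rw [h1]; simp
  have h3 := congrArg (fun f : C ⟶ M => f.hom ⟨m, Submodule.mem_span_singleton_self m⟩) h2
  simp at h3
  exact hm h3

end H677R3
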