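import Mathlib
import Pool.Agent.H677R3.RegPiece

/-!
The top cohomology of the pieces: relations between facets.
-/

namespace Pool.Agent.H677R3.EdgeReg

open Finset

variable {n : ℕ} {k : Type*} [Field k]

/-- relative boundaries -/
def Wsub (k : Type*) [Field k] (Q : Finset (Fin n) → Prop) (l : ℕ) :
    Submodule k (Finset (Fin n) → k) where
  carrier := {z | ∃ c : Finset (Fin n) → k, (∀ T, c T ≠ 0 → Q T ∧ T.card = l + 1) ∧
    ∀ T, Q T → cd c T = z T}
  add_mem' := by
    rintro z z' ⟨c, h1, h2⟩ ⟨c', h1', h2'⟩
    refine ⟨fun T => c T + c' T, ?_, ?_⟩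
    · intro T hT
      by_cases h : c T ≠ 0
      · exact h1 T h
      · push Not at h
        exact h1' T (fun h' => hT (by beta_reduce; rw [h, h', add_zero]))
    · intro T hT
      rw [cd_add, h2 T hT, h2' T hT]; rfl
  zero_mem' := ⟨fun _ => 0, fun T h => absurd rfl h, fun T _ => by rw [cd_zero]; rfl⟩
  smul_mem' := by
    rintro r z ⟨c, h1, h2⟩
    refine ⟨fun T => r * c T, ?_, ?_⟩
    · intro T hT
      exact h1 T (fun h => hT (by beta_reduce; rw [h, mul_zero]))
    · intro T hT
      rw [cd_smul, h2 T hT]; rfl

lemma mem_Wsub_of_vanish (Q : Finset (Fin n) → Prop) (l : ℕ) (z : Finset (Fin n) → k)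
    (hz : ∀ T, Q T → z T = 0) : z ∈ Wsub k Q l :=
  ⟨fun _ => 0, fun T h => absurd rfl h, fun T hT => by rw [cd_zero, hz T hT]⟩

lemma relAcyc_of_mem (Q : Finset (Fin n) → Prop) (l : ℕ)
    (h : ∀ T, Q T → T.card = l → (Pi.single T 1 : Finset (Fin n) → k) ∈ Wsub k Q l) :
    RelAcyc k Q l := by
  classical
  intro a ha hc
  have hmem : a ∈ Wsub k Q l := by
    have : a = ∑ T, a T • (Pi.single T 1 : Finset (Fin n) → k) := by
      funext S
      rw [Finset.sum_apply, Finset.sum_eq_single S]
      · simp
      · intro T _ hT
        simp [Pi.single_apply, hT.symm]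
      · intro h; exact absurd (Finset.mem_univ _) h
    rw [this]
    refine Submodule.sum_mem _ fun T _ => ?_
    by_cases h0 : a T = 0
    · rw [h0, zero_smul]; exact Submodule.zero_mem _
    · exact Submodule.smul_mem _ _ (h T (ha T h0).1 (ha T h0).2)
  exact hmem

theorem rel_top (G : SimpleGraph (Fin n)) (d : ℕ) (b : Fin n →₀ ℕ) (m : Fin n → ℕ) (l : ℕ)
    (hm : IsDeg G m)
    (h1 : ∀ x, m x ≤ b x) (h2 : ∀ x, b x ≤ m x + 1) (hsum : ∑ x, m x + d + l = ∑ x, b x)
    (U : Finset (Fin n)) (hU : U = Finset.univ.filter (fun x => b x = m x + 1)) :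
    ∃ φ : Finset (Fin n) → (Finset (Fin n) → k) ⧸ Wsub k (Pc G b m) l,
      (∀ A, ¬ (A ⊆ U ∧ DD G m ⇑(ind A)) → φ A = 0) ∧
      (∀ R a a', R.card + 1 = d → a ∉ R → a' ∉ R → a ≠ a' →
        (∀ j, j ∉ R → Indep G (insert j R) → j = a ∨ j = a') →
        sg k a (U \ insert a R) • φ (insert a R) + sg k a' (U \ insert a' R) • φ (insert a' R) = 0) ∧
      ((∀ A, A.card = d → Indep G A → φ A = 0) → RelAcyc k (Pc G b m) l) := by
  classical
  have hbU : ∀ x, b x = m x + (if x ∈ U then 1 else 0) := by
    intro x
    have := h1 x
    have := h2 x
    split_ifs with h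
    · rw [hU] at h
      simpa using h
    · rw [hU] at h
      simp only [Finset.mem_filter, Finset.mem_univ, true_and] at h
      omega
  have hUcard : U.card = d + l := by
    have : ∑ x, b x = ∑ x, m x + U.card := by
      rw [Finset.sum_congr rfl (fun x _ => hbU x), Finset.sum_add_distrib]
      simp
    omega
  have hPc : ∀ T, T ⊆ U → (Pc G b m T ↔ DD G m ⇑(ind (U \ T))) := by
    intro T hT
    have hfun : (fun x => b x - ind T x - m x) = ⇑(ind (U \ T)) := by
      funext x
      simp only [ind_apply, Finset.mem_sdiff, hbU x]
      by_cases hxU : x ∈ U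
      · by_cases hxT : x ∈ T
        · simp [hxU, hxT]
        · simp [hxU, hxT]
      · have hxT : x ∉ T := fun h => hxU (hT h)
        simp [hxU, hxT]
    unfold Pc
    rw [hfun]
    constructor
    · exact fun h => h.2
    · intro h
      refine ⟨?_, h⟩
      intro x
      rw [hbU x]
      simp only [ind_apply]
      by_cases hxT : x ∈ T
      · simp [hxT, hT hxT]
      · simp [hxT]
  have hPcU : ∀ T, Pc G b m T → T ⊆ U := by
    intro T hT x hx
    have := hT.1 x
    rw [hbU x] at this
    simp only [ind_apply, hx, if_true] at this
    by_contra h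
    simp [h] at this
  have hindep : ∀ A, DD G m ⇑(ind A) → Indep G A := by
    intro A hA x hx y hy hadj
    apply hA.pair x y
    · intro z
      simp only [ind_apply]
      by_cases hzx : z = x
      · subst hzx
        rw [e1_self, e1_ne hadj.ne, if_pos hx]
      · rw [e1_ne hzx]
        by_cases hzy : z = y
        · subst hzy; rw [e1_self, if_pos hy]
        · rw [e1_ne hzy]; omega
    · exact isDeg_add hm hadj
  let W := Wsub k (Pc G b m) l
  let φ : Finset (Fin n) → (Finset (Fin n) → k) ⧸ W := fun A =>
    if A ⊆ U then Submodule.Quotient.mk (Pi.single (U \ A) 1) else 0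
  have hφ0 : ∀ A, ¬ (A ⊆ U ∧ DD G m ⇑(ind A)) → φ A = 0 := by
    intro A hA
    simp only [φ]
    split_ifs with hAU
    · rw [Submodule.Quotient.mk_eq_zero]
      apply mem_Wsub_of_vanish
      intro T hT
      rw [Pi.single_apply, if_neg]
      rintro rfl
      apply hA
      refine ⟨hAU, ?_⟩
      have := (hPc _ Finset.sdiff_subset).mp hT
      rwa [Finset.sdiff_sdiff_eq_self hAU] at this
    · rfl
  refine ⟨φ, hφ0, ?_, ?_⟩
  · intro R a a' hR ha ha' haa hext
    by_cases hRU : R ⊆ U ∧ DD G m ⇑(ind R)
    · obtain ⟨hRU, hRD⟩ := hRU
      let c : Finset (Fin n) → k := Pi.single (U \ R) 1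
      have hcmem : cd c ∈ W := by
        refine ⟨c, ?_, fun T _ => rfl⟩
        intro T hT
        have : T = U \ R := by
          by_contra h
          apply hT
          simp [c, Pi.single_apply, h]
        subst this
        refine ⟨?_, ?_⟩
        · rw [hPc _ Finset.sdiff_subset, Finset.sdiff_sdiff_eq_self hRU]
          exact hRD
        · rw [Finset.card_sdiff_of_subset hRU]
          omega
      have hcd : cd c = ∑ j ∈ U \ R, sg k j ((U \ R).erase j) •
          (Pi.single ((U \ R).erase j) 1 : Finset (Fin n) → k) := by
        funext T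
        rw [Finset.sum_apply]
        unfold cd
        by_cases hT : ∃ j0, j0 ∉ T ∧ insert j0 T = U \ R
        · obtain ⟨j0, hj0, hj0T⟩ := hT
          have hj0U : j0 ∈ U \ R := by rw [← hj0T]; exact Finset.mem_insert_self _ _
          have hTe : T = (U \ R).erase j0 := by rw [← hj0T, Finset.erase_insert hj0]
          rw [Finset.sum_eq_single j0, Finset.sum_eq_single j0]
          · rw [Pi.smul_apply, ← hTe, Pi.single_eq_same, hj0T]
            simp only [c, Pi.single_eq_same, smul_eq_mul]
          · intro j hj hjj
            rw [Pi.smul_apply, Pi.single_apply, if_neg, smul_zero]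
            intro h
            rw [hTe] at h
            have h3 : j ∈ (U \ R).erase j0 := Finset.mem_erase.mpr ⟨hjj, hj⟩
            rw [h] at h3
            exact absurd h3 (Finset.notMem_erase _ _)
          · intro h; exact absurd hj0U h
          · intro j hj hjj
            have : insert j T ≠ U \ R := by
              intro h
              rw [← hj0T] at h
              have h3 : j ∈ insert j0 T := by rw [← h]; exact Finset.mem_insert_self _ _
              rw [Finset.mem_insert] at h3
              rcases h3 with h3 | h3
              · exact hjj h3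
              · exact (by simpa using hj : j ∉ T) h3
            simp only [c, Pi.single_apply, if_neg this, mul_zero]
          · intro h; exact absurd (by simpa using hj0) h
        · push Not at hT
          rw [Finset.sum_eq_zero, Finset.sum_eq_zero]
          · intro j hj
            rw [Pi.smul_apply, Pi.single_apply, if_neg, smul_zero]
            intro h
            apply hT j
            · rw [h]; exact Finset.notMem_erase _ _
            · rw [h, Finset.insert_erase hj]
          · intro j hj
            have := hT j (by simpa using hj)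
            simp only [c, Pi.single_apply, if_neg this, mul_zero]
      have hz : (Submodule.Quotient.mk (cd c) : (Finset (Fin n) → k) ⧸ W) = 0 :=
        (Submodule.Quotient.mk_eq_zero W).mpr hcmem
      rw [hcd] at hz
      have hz2 : ∑ j ∈ U \ R, sg k j ((U \ R).erase j) • φ (insert j R) = 0 := by
        rw [← hz]
        change _ = Submodule.mkQ W _
        rw [map_sum]
        refine Finset.sum_congr rfl fun j hj => ?_
        rw [map_smul]
        congr 1
        simp only [φ]
        have hjU : insert j R ⊆ U := by
          intro x hx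
          rcases Finset.mem_insert.mp hx with rfl | hx
          · exact (Finset.mem_sdiff.mp hj).1
          · exact hRU hx
        rw [if_pos hjU]
        congr 2
        rw [Finset.sdiff_insert]
      -- now only a, a' contribute
      have hother : ∀ j ∈ U \ R, j ≠ a → j ≠ a' → φ (insert j R) = 0 := by
        intro j hj hja hja'
        apply hφ0
        rintro ⟨_, hD⟩
        rcases hext j (Finset.mem_sdiff.mp hj).2 (hindep _ hD) with h | h
        · exact hja h
        · exact hja' h
      have hnotU : ∀ j, j ∉ U → φ (insert j R) = 0 := by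
        intro j hj
        apply hφ0
        rintro ⟨h, _⟩
        exact hj (h (Finset.mem_insert_self _ _))
      have hsd : ∀ j, U \ insert j R = (U \ R).erase j := fun j => Finset.sdiff_insert _ _ _
      rw [hsd, hsd]
      by_cases haU : a ∈ U
      · by_cases ha'U : a' ∈ U
        · rw [← Finset.sum_subset (s₁ := {a, a'})] at hz2
          · rw [Finset.sum_pair haa] at hz2
            exact hz2
          · intro x hx
            rw [Finset.mem_insert, Finset.mem_singleton] at hx
            rcases hx with rfl | rfl
            · exact Finset.mem_sdiff.mpr ⟨haU, ha⟩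
            · exact Finset.mem_sdiff.mpr ⟨ha'U, ha'⟩
          · intro x hx hx2
            rw [Finset.mem_insert, Finset.mem_singleton, not_or] at hx2
            rw [hother x hx hx2.1 hx2.2, smul_zero]
        · rw [hnotU a' ha'U, smul_zero, add_zero]
          rw [Finset.sum_eq_single a] at hz2
          · exact hz2
          · intro j hj hja
            rw [hother j hj hja, smul_zero]
            rintro rfl
            exact ha'U (Finset.mem_sdiff.mp hj).1
          · intro h; exact absurd (Finset.mem_sdiff.mpr ⟨haU, ha⟩) h
      · by_cases ha'U : a' ∈ U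
        · rw [hnotU a haU, smul_zero, zero_add]
          rw [Finset.sum_eq_single a'] at hz2
          · exact hz2
          · intro j hj hja
            rw [hother j hj _ hja, smul_zero]
            rintro rfl
            exact haU (Finset.mem_sdiff.mp hj).1
          · intro h; exact absurd (Finset.mem_sdiff.mpr ⟨ha'U, ha'⟩) h
        · rw [hnotU a haU, hnotU a' ha'U, smul_zero, smul_zero, add_zero]
    · have key : ∀ j, φ (insert j R) = 0 := by
        intro j
        apply hφ0
        rintro ⟨h3, h4⟩
        apply hRU
        refine ⟨(Finset.subset_insert _ _).trans h3, h4.mono ?_⟩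
        intro x
        simp only [ind_apply, Finset.mem_insert]
        split_ifs with h5 h6
        · exact le_rfl
        · exact absurd (Or.inr h5) h6
        · exact Nat.zero_le _
        · exact le_rfl
      rw [key, key, smul_zero, smul_zero, add_zero]
  · intro hall
    apply relAcyc_of_mem
    intro T hT hcard
    have hTU := hPcU T hT
    have hD := (hPc T hTU).mp hT
    have h3 : φ (U \ T) = 0 := by
      apply hall
      · rw [Finset.card_sdiff_of_subset hTU]; omega
      · exact hindep _ hD
    simp only [φ, if_pos Finset.sdiff_subset, Finset.sdiff_sdiff_eq_self hTU] at h3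
    exact (Submodule.Quotient.mk_eq_zero W).mp h3

end Pool.Agent.H677R3.EdgeReg
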