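import Mathlib
import Pool.Agent.H677R3.RegTop

/-!
The graph on 23 vertices: complement of an 11-vertex flag triangulation of the projective plane on
`0..10`, an edge `11-12`, two 5-cycles `13..17`, `18..22`, and all edges between `0..12` and `13..22`.
-/

namespace Pool.Agent.H677R3.EdgeReg

open Finset

/-- adjacency matrix of the complement graph (row `i`, column `j` is bit `23 i + j`) -/
def BIG : ℕ := 382712495534833465268005912106513841188728863839359376492189781200493485237723498264328816847609412208277637243767282803507970465888416068978971595743749479028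

/-- distinct and non-adjacent -/
def nb (i j : ℕ) : Bool := Nat.testBit BIG (23 * i + j)

lemma nb_symm : ∀ i j : Fin 23, nb i j = nb j i := by decide +kernel
lemma nb_irrefl : ∀ i : Fin 23, nb i i = false := by decide +kernel

/-- the graph -/
def G23 : SimpleGraph (Fin 23) where
  Adj i j := i ≠ j ∧ nb i j = false
  symm := ⟨fun i j h => ⟨h.1.symm, by rw [nb_symm]; exact h.2⟩⟩
  loopless := ⟨fun i h => h.1 rfl⟩

instance : DecidableRel G23.Adj := fun i j => inferInstanceAs (Decidable (i ≠ j ∧ nb i j = false))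

/-- facets of the independence complex -/
def facT : List (Fin 23 × Fin 23 × Fin 23 × Fin 23) :=
  [(13,15,18,20), (15,17,18,20), (13,16,18,20), (13,15,20,22), (13,15,18,21), (14,17,18,20), (15,17,20,22), (15,17,18,21), (14,16,18,20), (13,16,20,22), (13,16,18,21), (13,15,19,22), (13,15,19,21), (14,17,20,22), (14,17,18,21), (15,17,19,22), (15,17,19,21), (14,16,20,22), (14,16,18,21), (13,16,19,22), (13,16,19,21), (14,17,19,22), (14,17,19,21), (14,16,19,22), (14,16,19,21), (0,2,5,11), (2,5,7,11), (0,5,9,11), (0,2,6,11), (0,2,5,12), (3,5,7,11), (2,7,8,11), (2,5,7,12), (5,9,10,11), (0,4,9,11), (0,5,9,12), (1,2,6,11), (0,4,6,11), (0,2,6,12), (3,7,8,11), (3,5,10,11), (3,5,7,12), (1,2,8,11), (2,7,8,12), (1,9,10,11), (5,9,10,12), (4,8,9,11), (0,4,9,12), (1,6,10,11), (1,2,6,12), (3,4,6,11), (0,4,6,12), (3,4,8,11), (3,7,8,12), (3,6,10,11), (3,5,10,12), (1,8,9,11), (1,2,8,12), (1,9,10,12), (4,8,9,12), (1,6,10,12),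 (3,4,6,12), (3,4,8,12), (3,6,10,12), (1,8,9,12)]

/-- the facets as finite sets -/
def fac (i : ℕ) : Finset (Fin 23) :=
  let t := facT.getD i (0,0,0,0)
  {t.1, t.2.1, t.2.2.1, t.2.2.2}

/-- signs -/
def epT : List ℤ := [1, 1, 1, 1, 1, 1, 1, 1, 1, 1, 1, 1, 1, 1, 1, 1, 1, 1, 1, 1, 1, 1, 1, 1, 1, 1, 1, -1, 1, 1, 1, -1, 1, 1, -1, -1, 1, -1, 1, -1, 1, 1, -1, -1, -1, 1, -1, -1, 1, 1, -1, -1, -1, -1, 1, 1, 1, -1, -1, -1, 1, -1, -1, 1, 1]
def ep (i : ℕ) : ℤ := epT.getD i 0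

/-- tree edges of the dual graph: ridge, vertex of the parent, vertex of the child, parent -/
def trT : List (Fin 23 × Fin 23 × Fin 23 × Fin 23 × Fin 23 × ℕ) :=
  [(0,0,0,0,0,0), (15,18,20,13,17,0), (13,18,20,15,16,0), (13,15,20,18,22,0), (13,15,18,20,21,0), (17,18,20,15,14,1), (15,17,20,18,22,1), (15,17,18,20,21,1), (16,18,20,13,14,2), (13,16,20,18,22,2), (13,16,18,20,21,2), (13,15,22,20,19,3), (13,15,21,18,19,4), (14,17,20,18,22,5), (14,17,18,20,21,5), (15,17,22,20,19,6), (15,17,21,18,19,7), (14,16,20,18,22,8), (14,16,18,20,21,8), (13,16,22,20,19,9), (13,16,21,18,19,10), (14,17,22,20,19,13), (14,17,21,18,19,14), (14,16,22,20,19,17), (14,16,21,18,19,18), (0,0,0,0,0,0), (2,5,11,0,7,25), (0,5,11,2,9,25), (0,2,11,5,6,25), (0,2,5,11,12,25), (5,7,11,2,3,26), (2,7,11,5,8,26), (2,5,7,11,12,26), (5,9,11,0,10,27), (0,9,11,5,4,27), (0,5,9,11,12,27), (2,6,11,0,1,28), (0,6,11,2,4,28), (0,2,6,11,12,28), (3,7,11,5,8,30),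 (3,5,11,7,10,30), (3,5,7,11,12,30), (2,8,11,7,1,31), (2,7,8,11,12,31), (9,10,11,5,1,33), (5,9,10,11,12,33), (4,9,11,0,8,34), (0,4,9,11,12,34), (1,6,11,2,10,36), (1,2,6,11,12,36), (4,6,11,0,3,37), (0,4,6,11,12,37), (3,8,11,7,4,39), (3,7,8,11,12,39), (3,10,11,5,6,40), (3,5,10,11,12,40), (1,8,11,2,9,42), (1,2,8,11,12,42), (1,9,10,11,12,44), (4,8,9,11,12,46), (1,6,10,11,12,48), (3,4,6,11,12,50), (3,4,8,11,12,52), (3,6,10,11,12,54), (1,8,9,11,12,56)]

def trG (i : ℕ) : Fin 23 × Fin 23 × Fin 23 × Fin 23 × Fin 23 × ℕ := trT.getD i (0,0,0,0,0,0)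
def tR (i : ℕ) : Finset (Fin 23) := {(trG i).1, (trG i).2.1, (trG i).2.2.1}
def tA (i : ℕ) : Fin 23 := (trG i).2.2.2.1
def tB (i : ℕ) : Fin 23 := (trG i).2.2.2.2.1
def tP (i : ℕ) : ℕ := (trG i).2.2.2.2.2

/-- all ridges, with the two opposite vertices and the two facets -/
def rtT : List (Fin 23 × Fin 23 × Fin 23 × Fin 23 × Fin 23 × ℕ × ℕ) :=
  [(0,2,5,11,12,25,29), (0,2,6,11,12,28,38), (0,2,11,5,6,25,28), (0,2,12,5,6,29,38), (0,4,6,11,12,37,51), (0,4,9,11,12,34,47), (0,4,11,6,9,37,34), (0,4,12,6,9,51,47), (0,5,9,11,12,27,35), (0,5,11,2,9,25,27), (0,5,12,2,9,29,35), (0,6,11,2,4,28,37), (0,6,12,2,4,38,51), (0,9,11,4,5,34,27), (0,9,12,4,5,47,35), (1,2,6,11,12,36,49), (1,2,8,11,12,42,57), (1,2,11,6,8,36,42), (1,2,12,6,8,49,57), (1,6,10,11,12,48,60), (1,6,11,2,10,36,48), (1,6,12,2,10,49,60), (1,8,9,11,12,56,64), (1,8,11,2,9,42,56), (1,8,12,2,9,57,64), (1,9,10,11,12,44,58), (1,9,11,8,10,56,44), (1,9,12,8,10,64,58),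 (1,10,11,6,9,48,44), (1,10,12,6,9,60,58), (2,5,7,11,12,26,32), (2,5,11,0,7,25,26), (2,5,12,0,7,29,32), (2,6,11,0,1,28,36), (2,6,12,0,1,38,49), (2,7,8,11,12,31,43), (2,7,11,5,8,26,31), (2,7,12,5,8,32,43), (2,8,11,1,7,42,31), (2,8,12,1,7,57,43), (3,4,6,11,12,50,61), (3,4,8,11,12,52,62), (3,4,11,6,8,50,52), (3,4,12,6,8,61,62), (3,5,7,11,12,30,41), (3,5,10,11,12,40,55), (3,5,11,7,10,30,40), (3,5,12,7,10,41,55), (3,6,10,11,12,54,63), (3,6,11,4,10,50,54), (3,6,12,4,10,61,63), (3,7,8,11,12,39,53), (3,7,11,5,8,30,39), (3,7,12,5,8,41,53), (3,8,11,4,7,52,39), (3,8,12,4,7,62,53), (3,10,11,5,6,40,54), (3,10,12,5,6,55,63), (4,6,11,0,3,37,50), (4,6,12,0,3,51,61), (4,8,9,11,12,46,59), (4,8,11,3,9,52,46), (4,8,12,3,9,62,59), (4,9,11,0,8,34,46), (4,9,12,0,8,47,59), (5,7,11,2,3,26,30), (5,7,12,2,3,32,41), (5,9,10,11,12,33,45), (5,9,11,0,10,27,33), (5,9,12,0,10,35,45), (5,10,11,3,9,40,33), (5,10,12,3,9,55,45), (6,10,11,1,3,48,54),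 (6,10,12,1,3,60,63), (7,8,11,2,3,31,39), (7,8,12,2,3,43,53), (8,9,11,1,4,56,46), (8,9,12,1,4,64,59), (9,10,11,1,5,44,33), (9,10,12,1,5,58,45), (13,15,18,20,21,0,4), (13,15,19,21,22,12,11), (13,15,20,18,22,0,3), (13,15,21,18,19,4,12), (13,15,22,19,20,11,3), (13,16,18,20,21,2,10), (13,16,19,21,22,20,19), (13,16,20,18,22,2,9), (13,16,21,18,19,10,20), (13,16,22,19,20,19,9), (13,18,20,15,16,0,2), (13,18,21,15,16,4,10), (13,19,21,15,16,12,20), (13,19,22,15,16,11,19), (13,20,22,15,16,3,9), (14,16,18,20,21,8,18), (14,16,19,21,22,24,23), (14,16,20,18,22,8,17), (14,16,21,18,19,18,24), (14,16,22,19,20,23,17), (14,17,18,20,21,5,14), (14,17,19,21,22,22,21), (14,17,20,18,22,5,13), (14,17,21,18,19,14,22), (14,17,22,19,20,21,13), (14,18,20,16,17,8,5), (14,18,21,16,17,18,14), (14,19,21,16,17,24,22), (14,19,22,16,17,23,21), (14,20,22,16,17,17,13), (15,17,18,20,21,1,7), (15,17,19,21,22,16,15), (15,17,20,18,22,1,6), (15,17,21,18,19,7,16),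 (15,17,22,19,20,15,6), (15,18,20,13,17,0,1), (15,18,21,13,17,4,7), (15,19,21,13,17,12,16), (15,19,22,13,17,11,15), (15,20,22,13,17,3,6), (16,18,20,13,14,2,8), (16,18,21,13,14,10,18), (16,19,21,13,14,20,24), (16,19,22,13,14,19,23), (16,20,22,13,14,9,17), (17,18,20,14,15,5,1), (17,18,21,14,15,14,7), (17,19,21,14,15,22,16), (17,19,22,14,15,21,15), (17,20,22,14,15,13,6)]

/-- sign used for the vertices of a set `U` -/
def sgU (U A : Finset (Fin 23)) (a : Fin 23) : ℤ := (-1) ^ ((U \ A).filter (· < a)).card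

/-- the vertices of the two parts -/
def UJ : Finset (Fin 23) := Finset.univ.filter (fun x => x.val < 13)
def UM : Finset (Fin 23) := Finset.univ.filter (fun x => 13 ≤ x.val)

set_option maxRecDepth 100000

lemma no5 : ∀ a b : Fin 23, a < b → nb a b = true → ∀ c, b < c → nb a c = true → nb b c = true →
    ∀ d, c < d → nb a d = true → nb b d = true → nb c d = true →
    ∀ e, d < e → nb a e = true → nb b e = true → nb c e = true → nb d e = true → False := by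
  decide +kernel

lemma all4 : ∀ a b : Fin 23, a < b → nb a b = true → ∀ c, b < c → nb a c = true → nb b c = true →
    ∀ d, c < d → nb a d = true → nb b d = true → nb c d = true →
    ∃ i : Fin 65, facT.getD i (0,0,0,0) = (a,b,c,d) := by
  decide +kernel

lemma all3 : ∀ a b : Fin 23, a < b → nb a b = true → ∀ c, b < c → nb a c = true → nb b c = true →
    ∃ i : Fin 130, ((rtT.getD i (0,0,0,0,0,0,0)).1, (rtT.getD i (0,0,0,0,0,0,0)).2.1,
      (rtT.getD i (0,0,0,0,0,0,0)).2.2.1) = (a,b,c) := by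
  decide +kernel

lemma tree_ok : ∀ i : Fin 65, i.val ≠ 0 → i.val ≠ 25 →
    tP i < i ∧ tA i ∉ tR i ∧ tB i ∉ tR i ∧ tA i ≠ tB i ∧ (tR i).card + 1 = 4 ∧
    insert (tA i) (tR i) = fac (tP i) ∧ insert (tB i) (tR i) = fac i ∧
    (∀ j, j ∉ tR i → (∀ r ∈ tR i, nb j r = true) → j = tA i ∨ j = tB i) := by
  decide +kernel

lemma tree_ok2 : ∀ i : Fin 65, 25 < i.val → 25 ≤ tP i ∧
    sgU UJ (fac (tP i)) (tA i) * ep (tP i) + sgU UJ (fac i) (tB i) * ep i = 0 ∧ (ep i = 1 ∨ ep i = -1) := by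
  decide +kernel

end Pool.Agent.H677R3.EdgeReg
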