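import Mathlib
import Pool.Agent.H677R3.RegGraph

namespace Pool.Agent.H677R3.EdgeReg

open Finset

set_option maxRecDepth 100000

/-- integral sign -/
def sgZ {n : ℕ} (j : Fin n) (T : Finset (Fin n)) : ℤ := (-1) ^ (T.filter (· < j)).card

lemma sg_eq {n : ℕ} (k : Type*) [Field k] (j : Fin n) (T : Finset (Fin n)) :
    sg k j T = ((sgZ j T : ℤ) : k) := by
  unfold sg sgZ
  push_cast
  rfl

/-- every pair of adjacent vertices has non-adjacent neighbours in the first part -/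
lemma C3a : ∀ x y : Fin 23, nb x y = false → ∃ a : Fin 23, 13 ≤ a.val ∧ nb x a = false ∧ x ≠ a ∧
    ∃ b : Fin 23, 13 ≤ b.val ∧ nb a b = true ∧ nb y b = false ∧ y ≠ b := by
  decide +kernel

lemma C3b : ∀ a b : Fin 23, 13 ≤ a.val → 13 ≤ b.val → nb a b = true →
    ∃ i : Fin 25, a ∈ fac i ∧ b ∈ fac i := by
  decide +kernel

/-- entries of the ridge table -/
def rG (i : ℕ) : Fin 23 × Fin 23 × Fin 23 × Fin 23 × Fin 23 × ℕ × ℕ := rtT.getD i (0,0,0,0,0,0,0)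
def rR (i : ℕ) : Finset (Fin 23) := {(rG i).1, (rG i).2.1, (rG i).2.2.1}
def rA (i : ℕ) : Fin 23 := (rG i).2.2.2.1
def rB (i : ℕ) : Fin 23 := (rG i).2.2.2.2.1
def rI (i : ℕ) : ℕ := (rG i).2.2.2.2.2.1
def rJ (i : ℕ) : ℕ := (rG i).2.2.2.2.2.2

lemma rt_ok : ∀ i : Fin 130, ∀ j : Fin 23,
    nb j (rG i).1 = true → nb j (rG i).2.1 = true → nb j (rG i).2.2.1 = true →
    j = rA i ∨ j = rB i := by
  decide +kernel

lemma rt_ok2 : ∀ i : Fin 130, rA i ∉ rR i ∧ rB i ∉ rR i ∧ rA i ≠ rB i ∧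
    insert (rA i) (rR i) = fac (rI i) ∧ insert (rB i) (rR i) = fac (rJ i) ∧
    rI i < 65 ∧ rJ i < 65 := by
  decide +kernel

lemma rt_ok3 : ∀ i : Fin 130, (rG i).1.val < 13 → 25 ≤ rI i ∧ 25 ≤ rJ i ∧ rA i ∈ UJ ∧ rB i ∈ UJ := by
  decide +kernel

lemma rt_ok4 : ∀ i : Fin 130, 13 ≤ (rG i).1.val → rI i < 25 ∧ rJ i < 25 ∧ rA i ∈ UM ∧ rB i ∈ UM ∧
    sgU UM (fac (rI i)) (rA i) * ep (rI i) + sgU UM (fac (rJ i)) (rB i) * ep (rJ i) = 0 := by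
  decide +kernel

lemma bad_ok : (sgU UJ (fac 56) 8 * ep 56 + sgU UJ (fac 44) 10 * ep 44 = 2 ∨
     sgU UJ (fac 56) 8 * ep 56 + sgU UJ (fac 44) 10 * ep 44 = -2) ∧
    insert 8 ({1, 9, 11} : Finset (Fin 23)) = fac 56 ∧ insert 10 ({1, 9, 11} : Finset (Fin 23)) = fac 44 ∧
    (∀ j : Fin 23, j ∉ ({1, 9, 11} : Finset (Fin 23)) → (∀ r ∈ ({1, 9, 11} : Finset (Fin 23)), nb j r = true) →
      j = 8 ∨ j = 10) := by
  decide +kernel

lemma fac_nb : ∀ i : Fin 65, (∀ x ∈ fac i, ∀ y ∈ fac i, x = y ∨ nb x y = true) := by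
  decide +kernel

lemma fac_card : ∀ i : Fin 65, (fac i).card = 4 := by
  decide +kernel

lemma fac_sub : ∀ i : Fin 65, (25 ≤ i.val → fac i ⊆ UJ) ∧ (i.val < 25 → fac i ⊆ UM) := by
  decide +kernel

lemma UJ_cover : ∀ x : Fin 23, x ∈ UJ → ∃ i : Fin 65, 25 ≤ i.val ∧ x ∈ fac i := by
  decide +kernel

lemma ep25 : ep 25 = 1 := by decide +kernel

lemma ep0 : ep 0 = 1 := by decide +kernel

lemma tree_ok3 : ∀ i : Fin 65, 25 < i.val → tA i ∈ UJ ∧ tB i ∈ UJ := by decide +kernel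

/-- octahedron -/
def UO : Finset (Fin 23) := {2, 3, 5, 8, 11, 12}

def otT : List (Fin 23 × Fin 23 × Fin 23 × Fin 23) := [(2,5,11,12), (2,8,11,12), (2,11,5,8), (2,12,5,8), (3,5,11,12), (3,8,11,12), (3,11,5,8), (3,12,5,8), (5,11,2,3), (5,12,2,3), (8,11,2,3), (8,12,2,3)]
def oG (i : ℕ) : Fin 23 × Fin 23 × Fin 23 × Fin 23 := otT.getD i (0,0,0,0)

lemma otAll : ∀ a b : Fin 23, a < b → nb a b = true → a ∈ UO → b ∈ UO →
    ∃ i : Fin 12, ((oG i).1, (oG i).2.1) = (a, b) := by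
  decide +kernel

lemma ot_ok : ∀ i : Fin 12, ∀ j : Fin 23, j ∈ UO →
    nb j (oG i).1 = true → nb j (oG i).2.1 = true → j = (oG i).2.2.1 ∨ j = (oG i).2.2.2 := by
  decide +kernel

lemma ot_ok2 : ∀ i : Fin 12, (oG i).2.2.1 ≠ (oG i).2.2.2 ∧ (oG i).2.2.1 ∈ UO ∧ (oG i).2.2.2 ∈ UO ∧
    (oG i).2.2.1 ∉ ({(oG i).1, (oG i).2.1} : Finset (Fin 23)) ∧
    (oG i).2.2.2 ∉ ({(oG i).1, (oG i).2.1} : Finset (Fin 23)) ∧
    nb (oG i).2.2.1 (oG i).1 = true ∧ nb (oG i).2.2.1 (oG i).2.1 = true ∧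
    nb (oG i).2.2.2 (oG i).1 = true ∧ nb (oG i).2.2.2 (oG i).2.1 = true ∧
    sgZ (oG i).2.2.1 ((UO \ {(oG i).1, (oG i).2.1}).erase (oG i).2.2.1) +
      sgZ (oG i).2.2.2 ((UO \ {(oG i).1, (oG i).2.1}).erase (oG i).2.2.2) = 0 := by
  decide +kernel

lemma no4O : ∀ a b : Fin 23, a ∈ UO → b ∈ UO → a < b → nb a b = true → ∀ c, b < c → c ∈ UO →
    nb a c = true → nb b c = true → ∀ d, c < d → d ∈ UO → nb a d = true → nb b d = true →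
    nb c d = true → False := by
  decide +kernel

lemma fac_inj : ∀ i j : Fin 25, fac i = fac j → i = j := by
  decide +kernel

lemma O_max : ∀ j : Fin 23, j ∈ UO → j ∉ ({2, 5, 11} : Finset (Fin 23)) →
    nb j 2 = false ∨ nb j 5 = false ∨ nb j 11 = false := by
  decide +kernel

lemma O_sub : ({2, 5, 11} : Finset (Fin 23)) ⊆ UO ∧ ({2, 5, 11} : Finset (Fin 23)).card = 3 ∧
    (∀ x ∈ ({2, 5, 11} : Finset (Fin 23)), ∀ y ∈ ({2, 5, 11} : Finset (Fin 23)), x = y ∨ nb x y = true) := by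
  decide +kernel

lemma nbO : nb 2 5 = true ∧ nb 2 11 = true ∧ nb 5 11 = true := by decide +kernel

lemma UO_sub : UO ⊆ UJ ∧ (11 : Fin 23) ∈ UO ∧ (12 : Fin 23) ∈ UO ∧ UO.card = 6 ∧ UJ.card = 13 ∧
    UM.card = 10 ∧ (11 : Fin 23) ∈ UJ ∧ (12 : Fin 23) ∈ UJ := by decide +kernel

lemma cov11 : ∀ y : Fin 23, y ∈ UJ → (nb 11 y = false → y = 11 ∨ y = 12) ∧
    (nb 12 y = false → y = 11 ∨ y = 12) := by
  decide +kernel

lemma adj1112 : nb 11 12 = false := by decide +kernel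

end Pool.Agent.H677R3.EdgeReg
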