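import Mathlib

namespace Pool.Agent.H677R3.EdgeReg

open Finset

lemma sorted3 {n : ℕ} (A : Finset (Fin n)) (h : A.card = 3) :
    ∃ a b c, a < b ∧ b < c ∧ A = {a, b, c} := by
  let f := A.orderEmbOfFin h
  refine ⟨f 0, f 1, f 2, f.strictMono (by decide), f.strictMono (by decide), ?_⟩
  ext x
  constructor
  · intro hx
    have : x ∈ Set.range f := by
      have h1 := Finset.range_orderEmbOfFin A h
      rw [h1]; exact hx
    obtain ⟨i, rfl⟩ := this
    fin_cases i <;> simp
  · intro hx
    simp only [Finset.mem_insert, Finset.mem_singleton] at hx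
    rcases hx with rfl | rfl | rfl <;> exact Finset.orderEmbOfFin_mem A h _

lemma sorted4 {n : ℕ} (A : Finset (Fin n)) (h : A.card = 4) :
    ∃ a b c d, a < b ∧ b < c ∧ c < d ∧ A = {a, b, c, d} := by
  let f := A.orderEmbOfFin h
  refine ⟨f 0, f 1, f 2, f 3, f.strictMono (by decide), f.strictMono (by decide),
    f.strictMono (by decide), ?_⟩
  ext x
  constructor
  · intro hx
    have : x ∈ Set.range f := by
      have h1 := Finset.range_orderEmbOfFin A h
      rw [h1]; exact hx
    obtain ⟨i, rfl⟩ := this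
    fin_cases i <;> simp
  · intro hx
    simp only [Finset.mem_insert, Finset.mem_singleton] at hx
    rcases hx with rfl | rfl | rfl | rfl <;> exact Finset.orderEmbOfFin_mem A h _

lemma sorted5 {n : ℕ} (A : Finset (Fin n)) (h : A.card = 5) :
    ∃ a b c d e, a < b ∧ b < c ∧ c < d ∧ d < e ∧ a ∈ A ∧ b ∈ A ∧ c ∈ A ∧ d ∈ A ∧ e ∈ A := by
  let f := A.orderEmbOfFin h
  exact ⟨f 0, f 1, f 2, f 3, f 4, f.strictMono (by decide), f.strictMono (by decide),
    f.strictMono (by decide), f.strictMono (by decide), Finset.orderEmbOfFin_mem A h _,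
    Finset.orderEmbOfFin_mem A h _, Finset.orderEmbOfFin_mem A h _, Finset.orderEmbOfFin_mem A h _,
    Finset.orderEmbOfFin_mem A h _⟩

end Pool.Agent.H677R3.EdgeReg
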