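import Mathlib
import Pool.Agent.H677R3.RegGraph2
import Pool.Agent.H677R3.RegSort

namespace Pool.Agent.H677R3.EdgeReg

open Finset

variable {k : Type*} [Field k]

lemma indep_iff (A : Finset (Fin 23)) :
    Indep G23 A ↔ ∀ x ∈ A, ∀ y ∈ A, x ≠ y → nb x y = true := by
  constructor
  · intro h x hx y hy hxy
    by_contra hn
    exact h x hx y hy ⟨hxy, by simpa using hn⟩
  · rintro h x hx y hy ⟨h1, h2⟩
    rw [h x hx y hy h1] at h2
    exact absurd h2 (by simp)

lemma alpha23 (A : Finset (Fin 23)) (h : Indep G23 A) : A.card ≤ 4 := by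
  by_contra hc
  push Not at hc
  obtain ⟨B, hB, hBc⟩ := Finset.exists_subset_card_eq (by omega : 5 ≤ A.card)
  obtain ⟨a, b, c, d, e, hab, hbc, hcd, hde, ha, hb, hc', hd, he⟩ := sorted5 B hBc
  have key := (indep_iff A).mp h
  have hac := hab.trans hbc
  have had := hac.trans hcd
  have hae := had.trans hde
  have hbd := hbc.trans hcd
  have hbe := hbd.trans hde
  have hce := hcd.trans hde
  exact no5 a b hab (key a (hB ha) b (hB hb) hab.ne) c hbc (key a (hB ha) c (hB hc') hac.ne)
    (key b (hB hb) c (hB hc') hbc.ne) d hcd (key a (hB ha) d (hB hd) had.ne)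
    (key b (hB hb) d (hB hd) hbd.ne) (key c (hB hc') d (hB hd) hcd.ne) e hde
    (key a (hB ha) e (hB he) hae.ne) (key b (hB hb) e (hB he) hbe.ne)
    (key c (hB hc') e (hB he) hce.ne) (key d (hB hd) e (hB he) hde.ne)

lemma facets23 (A : Finset (Fin 23)) (h : Indep G23 A) (hc : A.card = 4) :
    ∃ i : Fin 65, A = fac i := by
  obtain ⟨a, b, c, d, hab, hbc, hcd, rfl⟩ := sorted4 A hc
  have key := (indep_iff _).mp h
  have hac := hab.trans hbc
  have had := hac.trans hcd
  have hbd := hbc.trans hcd
  obtain ⟨i, hi⟩ := all4 a b hab (key a (by simp) b (by simp) hab.ne) c hbc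
    (key a (by simp) c (by simp) hac.ne) (key b (by simp) c (by simp) hbc.ne) d hcd
    (key a (by simp) d (by simp) had.ne) (key b (by simp) d (by simp) hbd.ne)
    (key c (by simp) d (by simp) hcd.ne)
  refine ⟨i, ?_⟩
  unfold fac
  rw [hi]

lemma ridges23 (A : Finset (Fin 23)) (h : Indep G23 A) (hc : A.card = 3) :
    ∃ i : Fin 130, A = rR i ∧ (rG i).1 ∈ A ∧ (rG i).2.1 ∈ A ∧ (rG i).2.2.1 ∈ A := by
  obtain ⟨a, b, c, hab, hbc, rfl⟩ := sorted3 A hc
  have key := (indep_iff _).mp h
  have hac := hab.trans hbc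
  obtain ⟨i, hi⟩ := all3 a b hab (key a (by simp) b (by simp) hab.ne) c hbc
    (key a (by simp) c (by simp) hac.ne) (key b (by simp) c (by simp) hbc.ne)
  have h1 : (rG i).1 = a := congrArg Prod.fst hi
  have h2 : (rG i).2.1 = b := congrArg (fun z => z.2.1) hi
  have h3 : (rG i).2.2.1 = c := congrArg (fun z => z.2.2) hi
  refine ⟨i, ?_, by rw [h1]; simp, by rw [h2]; simp, by rw [h3]; simp⟩
  unfold rR
  rw [h1, h2, h3]

lemma ext23 (i : Fin 130) (j : Fin 23) (hj : j ∉ rR i) (h : Indep G23 (insert j (rR i))) :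
    j = rA i ∨ j = rB i := by
  have key := (indep_iff _).mp h
  have h1 : (rG i).1 ∈ rR i := by unfold rR; simp
  have h2 : (rG i).2.1 ∈ rR i := by unfold rR; simp
  have h3 : (rG i).2.2.1 ∈ rR i := by unfold rR; simp
  apply rt_ok i j
  · exact key _ (Finset.mem_insert_self _ _) _ (Finset.mem_insert_of_mem h1) (fun h => hj (h ▸ h1))
  · exact key _ (Finset.mem_insert_self _ _) _ (Finset.mem_insert_of_mem h2) (fun h => hj (h ▸ h2))
  · exact key _ (Finset.mem_insert_self _ _) _ (Finset.mem_insert_of_mem h3) (fun h => hj (h ▸ h3))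

lemma ridge23 (R : Finset (Fin 23)) (h : Indep G23 R) (hc : R.card + 1 = 4) :
    ∃ a a', ∀ j, j ∉ R → Indep G23 (insert j R) → j = a ∨ j = a' := by
  obtain ⟨i, rfl, _⟩ := ridges23 R h (by omega)
  exact ⟨rA i, rB i, fun j hj hind => ext23 i j hj hind⟩

lemma smul_rel {n : ℕ} {M : Type*} [AddCommGroup M] [Module k M] {j j' : Fin n}
    {T T' : Finset (Fin n)} {x y : M} (h : sg k j T • x + sg k j' T' • y = 0) : x = 0 ↔ y = 0 := by
  constructor
  · rintro rfl
    rw [smul_zero, zero_add] at h
    have := congrArg (fun z => sg k j' T' • z) h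
    simpa [smul_smul, sg_mul_self] using this
  · rintro rfl
    rw [smul_zero, add_zero] at h
    have := congrArg (fun z => sg k j T • z) h
    simpa [smul_smul, sg_mul_self] using this

theorem top23 (h2 : (2 : k) ≠ 0) (b : Fin 23 →₀ ℕ) (m : Fin 23 → ℕ) (l : ℕ) (hm : IsDeg G23 m)
    (hms : 2 ≤ ∑ x, m x) (hsum : ∑ x, m x + 4 + l = ∑ x, b x) (h1 : ∀ x, m x ≤ b x)
    (h1' : ∀ x, b x ≤ m x + 1) : RelAcyc k (Pc G23 b m) l := by
  classical
  obtain ⟨φ, hφ0, hrel, hfin⟩ := rel_top (k := k) G23 4 b m l hm h1 h1' hsum _ rfl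
  set U := Finset.univ.filter (fun x => b x = m x + 1) with hU
  have htree : ∀ i : Fin 65, i.val ≠ 0 → i.val ≠ 25 →
      sg k (tA i) (U \ fac (tP i)) • φ (fac (tP i)) + sg k (tB i) (U \ fac i) • φ (fac i) = 0 := by
    intro i h0 h25
    obtain ⟨t1, t2, t3, t4, t5, t6, t7, t8⟩ := tree_ok i h0 h25
    have := hrel (tR i) (tA i) (tB i) t5 t2 t3 t4 (fun j hj hind => t8 j hj (fun r hr =>
      (indep_iff _).mp hind j (Finset.mem_insert_self _ _) r (Finset.mem_insert_of_mem hr)
        (fun h => hj (h ▸ hr))))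
    rw [t6, t7] at this
    exact this
  have comp1 : ∀ i : ℕ, i < 25 → (φ (fac i) = 0 ↔ φ (fac 0) = 0) := by
    intro i
    induction i using Nat.strong_induction_on with
    | _ i ih =>
      intro hi
      by_cases h0 : i = 0
      · rw [h0]
      · have ht := htree ⟨i, by omega⟩ h0 (by simp only; omega)
        have t1 := (tree_ok ⟨i, by omega⟩ h0 (by simp only; omega)).1
        simp only at ht t1
        rw [← smul_rel ht]
        exact ih _ t1 (by omega)
  have comp2 : ∀ i : ℕ, 25 ≤ i → i < 65 → (φ (fac i) = 0 ↔ φ (fac 25) = 0) := by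
    intro i
    induction i using Nat.strong_induction_on with
    | _ i ih =>
      intro hi25 hi
      by_cases h0 : i = 25
      · rw [h0]
      · have ht := htree ⟨i, by omega⟩ (by simp only; omega) h0
        have t1 := (tree_ok ⟨i, by omega⟩ (by simp only; omega) h0).1
        have t2 := (tree_ok2 ⟨i, by omega⟩ (by simp only; omega)).1
        simp only at ht t1 t2
        rw [← smul_rel ht]
        exact ih _ t1 t2 (by omega)
  -- first part
  have part1 : φ (fac 0) = 0 := by
    obtain ⟨u, hu⟩ : ∃ u, m u ≠ 0 := by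
      by_contra h
      push Not at h
      rw [Finset.sum_eq_zero (fun x _ => h x)] at hms
      omega
    obtain ⟨v, d', hadj, hd', hd'2⟩ := isDeg_sub hm hu
    obtain ⟨a, ha13, hua, hua', c, hc13, hac, hvc, hvc'⟩ := C3a u v hadj.2
    have hac' : a ≠ c := by
      rintro rfl
      rw [nb_irrefl] at hac
      exact absurd hac (by simp)
    have hdeg : IsDeg G23 (fun x => m x + e1 a x + e1 c x) := by
      have := isDeg_add (isDeg_add hd' (⟨hua', hua⟩ : G23.Adj u a)) (⟨hvc', hvc⟩ : G23.Adj v c)
      have heq : (fun x => m x + e1 a x + e1 c x) =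
          fun x => (fun x => d' x + e1 u x + e1 a x) x + e1 v x + e1 c x := by
        funext x
        have := hd'2 x
        simp only
        omega
      rw [heq]; exact this
    obtain ⟨i, hai, hci⟩ := C3b a c ha13 hc13 hac
    rw [← comp1 i i.isLt]
    apply hφ0
    rintro ⟨_, hD⟩
    apply hD.pair a c _ hdeg
    intro x
    simp only [ind_apply]
    by_cases hxa : x = a
    · subst hxa
      rw [e1_self, e1_ne hac', if_pos hai]
    · rw [e1_ne hxa]
      by_cases hxc : x = c
      · subst hxc; rw [e1_self, if_pos hci]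
      · rw [e1_ne hxc]; omega
  -- second part
  have part2 : φ (fac 25) = 0 := by
    by_cases hall : ∀ i : Fin 65, 25 ≤ i.val → fac i ⊆ U
    · have hUJ : UJ ⊆ U := by
        intro x hx
        obtain ⟨i, hi, hxi⟩ := UJ_cover x hx
        exact hall i hi hxi
      have hsg : ∀ (A : Finset (Fin 23)) (a : Fin 23), a ∈ UJ →
          sg k a (U \ A) = ((sgU UJ A a : ℤ) : k) := by
        intro A a ha
        unfold sg sgU
        push_cast
        congr 2
        ext x
        simp only [Finset.mem_filter, Finset.mem_sdiff]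
        constructor
        · rintro ⟨⟨hx1, hx2⟩, hx3⟩
          refine ⟨⟨?_, hx2⟩, hx3⟩
          simp only [UJ, Finset.mem_filter, Finset.mem_univ, true_and] at ha ⊢
          exact lt_trans hx3 ha
        · rintro ⟨⟨hx1, hx2⟩, hx3⟩
          exact ⟨⟨hUJ hx1, hx2⟩, hx3⟩
      have hsigns : ∀ i : ℕ, 25 ≤ i → i < 65 → φ (fac i) = ((ep i : ℤ) : k) • φ (fac 25) := by
        intro i
        induction i using Nat.strong_induction_on with
        | _ i ih =>
          intro hi25 hi
          by_cases h0 : i = 25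
          · rw [h0, ep25]; simp
          · have ht := htree ⟨i, by omega⟩ (by simp only; omega) h0
            have t1 := (tree_ok ⟨i, by omega⟩ (by simp only; omega) h0).1
            obtain ⟨t2, t3, _⟩ := tree_ok2 ⟨i, by omega⟩ (by simp only; omega)
            obtain ⟨t4, t5⟩ := tree_ok3 ⟨i, by omega⟩ (by simp only; omega)
            simp only at ht t1 t2 t3 t4 t5
            rw [ih _ t1 t2 (by omega), smul_smul, hsg _ _ t4] at ht
            have h3 : ((sgU UJ (fac (tP i)) (tA i) : ℤ) : k) * ((ep (tP i) : ℤ) : k) =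
                - (((sgU UJ (fac i) (tB i) : ℤ) : k) * ((ep i : ℤ) : k)) := by
              have := congrArg (fun z : ℤ => (z : k)) t3
              push_cast at this
              exact eq_neg_of_add_eq_zero_left this
            rw [h3, neg_smul, ← hsg _ _ t5] at ht
            have h4 : sg k (tB i) (U \ fac i) • φ (fac i) =
                (sg k (tB i) (U \ fac i) * ((ep i : ℤ) : k)) • φ (fac 25) := by
              rw [← sub_eq_zero, sub_eq_neg_add]
              exact ht
            have h5 := congrArg (fun z => sg k (tB i) (U \ fac i) • z) h4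
            simp only [smul_smul] at h5
            rw [← mul_assoc, sg_mul_self, one_mul, one_smul] at h5
            exact h5
      obtain ⟨b1, b2, b3, b4⟩ := bad_ok
      have hb := hrel {1, 9, 11} 8 10 (by decide) (by decide) (by decide) (by decide)
        (fun j hj hind => b4 j hj (fun r hr =>
          (indep_iff _).mp hind j (Finset.mem_insert_self _ _) r (Finset.mem_insert_of_mem hr)
            (fun h => hj (h ▸ hr))))
      rw [b2, b3, hsigns 56 (by norm_num) (by norm_num), hsigns 44 (by norm_num) (by norm_num),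
        smul_smul, smul_smul, ← add_smul, hsg _ _ (by decide), hsg _ _ (by decide)] at hb
      have h5 : ((sgU UJ (fac 56) 8 : ℤ) : k) * ((ep 56 : ℤ) : k) +
          ((sgU UJ (fac 44) 10 : ℤ) : k) * ((ep 44 : ℤ) : k) =
          ((sgU UJ (fac 56) 8 * ep 56 + sgU UJ (fac 44) 10 * ep 44 : ℤ) : k) := by push_cast; ring
      rw [h5] at hb
      rcases b1 with b1 | b1
      · rw [b1] at hb
        push_cast at hb
        exact (smul_eq_zero.mp hb).resolve_left h2
      · rw [b1] at hb
        push_cast at hb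
        exact (smul_eq_zero.mp hb).resolve_left (neg_ne_zero.mpr h2)
    · push Not at hall
      obtain ⟨i, hi, hiU⟩ := hall
      rw [← comp2 i hi i.isLt]
      apply hφ0
      rintro ⟨h, _⟩
      exact hiU h
  apply hfin
  intro A hA hind
  obtain ⟨i, rfl⟩ := facets23 A hind hA
  by_cases hi : i.val < 25
  · rw [comp1 i hi]; exact part1
  · rw [comp2 i (by omega) i.isLt]; exact part2

theorem upper_odd (h2 : (2 : k) ≠ 0) (q : ℕ) (hq : 2 ≤ q) (i e : ℕ) (he : 2 * q + 3 ≤ e) :
    ¬ TorNe ((edgeIdeal k G23) ^ q) i e := by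
  apply upper_main G23 4 q (by omega) alpha23 ridge23 i e (by omega)
  intro _ b m l hm hms hsum h1 h1'
  exact top23 h2 b m l hm (by omega) hsum h1 h1'

theorem upper_all (q : ℕ) (hq : 1 ≤ q) (i e : ℕ) (he : 2 * q + 4 ≤ e) :
    ¬ TorNe ((edgeIdeal k G23) ^ q) i e := by
  apply upper_main G23 4 q (by omega) alpha23 ridge23 i e (by omega)
  intro h
  omega

end Pool.Agent.H677R3.EdgeReg
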