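import Mathlib
import Pool.Agent.H677R3.RegUpper

namespace Pool.Agent.H677R3.EdgeReg

open Finset

variable {k : Type*} [Field k]

/-- nonvanishing of Koszul homology of `I(G)^q` from a functional -/
theorem lower_gen {n : ℕ} (G : SimpleGraph (Fin n)) (q : ℕ) (b : Fin n →₀ ℕ) (U : Finset (Fin n))
    (hUb : ∀ x, b x ≠ 0 ↔ x ∈ U)
    (hind : ∀ F, F ⊆ U → (Up G q ⇑(b - ind (U \ F)) ↔ ¬ Indep G F)) (d : ℕ)
    (F0 : Finset (Fin n)) (hF0U : F0 ⊆ U) (hF0c : F0.card = d) (hF0 : Indep G F0)
    (hmax : ∀ j ∈ U \ F0, ¬ Indep G (insert j F0))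
    (ψ : Finset (Fin n) → k) (hψ0 : ψ F0 ≠ 0) (hψ : ∀ F, F ⊆ U → ¬ Indep G F → ψ F = 0)
    (hcyc : ∀ R, R ⊆ U → R.card + 1 = d →
      ∑ j ∈ U \ R, sg k j ((U \ R).erase j) * ψ (insert j R) = 0)
    (i e : ℕ) (hi : U.card = i + 1 + d) (he : ∑ x, b x = e + i) :
    TorNe ((edgeIdeal k G) ^ q) i e := by
  classical
  have hsub : ∀ T : Finset (Fin n), T ⊆ U ↔ ind T ≤ b := by
    intro T
    constructor
    · intro h x
      simp only [ind_apply]
      split_ifs with hx
      · have := (hUb x).mpr (h hx)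
        omega
      · exact Nat.zero_le _
    · intro h x hx
      have := h x
      rw [← hUb]
      simp only [ind_apply, hx, if_true] at this
      omega
  have hKK : ∀ T, T ⊆ U → (KK (Up G q) b T ↔ ¬ Indep G (U \ T)) := by
    intro T hT
    unfold KK
    rw [← hind (U \ T) Finset.sdiff_subset, Finset.sdiff_sdiff_eq_self hT]
    exact ⟨fun h => h.2, fun h => ⟨(hsub T).mp hT, h⟩⟩
  obtain ⟨a, ha1, ha2, ha3⟩ := lower_comb (k := k) U (KK (Up G q) b) (fun T hT => (hsub T).mpr hT.1) i
    (U \ F0) Finset.sdiff_subset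
    (by rw [hKK _ Finset.sdiff_subset, Finset.sdiff_sdiff_eq_self hF0U]; exact fun h => h hF0)
    (by rw [Finset.card_sdiff_of_subset hF0U]; omega)
    (by
      intro j hj
      have h1 : (U \ F0).erase j = U \ insert j F0 := (Finset.sdiff_insert _ _ _).symm
      rw [h1, hKK _ Finset.sdiff_subset, Finset.sdiff_sdiff_eq_self]
      · exact hmax j hj
      · exact Finset.insert_subset (Finset.mem_sdiff.mp hj).1 hF0U)
    (fun T => if T ⊆ U then ψ (U \ T) else 0)
    (by beta_reduce; rw [if_pos Finset.sdiff_subset, Finset.sdiff_sdiff_eq_self hF0U]; exact hψ0)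
    (by
      intro T hT
      have hTU : T ⊆ U := (hsub T).mpr hT.1
      beta_reduce
      rw [if_pos hTU]
      exact hψ _ Finset.sdiff_subset ((hKK T hTU).mp hT))
    (by
      intro T hTU hTc
      have hTle := Finset.card_le_card hTU
      have h1 := hcyc (U \ T) Finset.sdiff_subset (by rw [Finset.card_sdiff_of_subset hTU]; omega)
      rw [Finset.sdiff_sdiff_eq_self hTU] at h1
      rw [← h1]
      refine Finset.sum_congr rfl fun j hj => ?_
      beta_reduce
      rw [if_pos ((Finset.erase_subset _ _).trans hTU)]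
      congr 2
      ext x
      simp only [Finset.mem_sdiff, Finset.mem_erase, Finset.mem_insert]
      constructor
      · rintro ⟨h2, h3⟩
        by_cases hxj : x = j
        · exact Or.inl hxj
        · exact Or.inr ⟨h2, fun h => h3 ⟨hxj, h⟩⟩
      · rintro (rfl | ⟨h2, h3⟩)
        · exact ⟨hTU hj, fun h => h.1 rfl⟩
        · exact ⟨h2, fun h => h3 h.2⟩)
  exact lower_transfer _ (Up G q) (mem_pow k G q) i e b he a ha1 ha2 ha3

lemma up_one_iff {n : ℕ} (G : SimpleGraph (Fin n)) (F : Finset (Fin n)) :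
    Up G 1 ⇑(ind F) ↔ ¬ Indep G F := by
  constructor
  · rintro ⟨d, hd, hsum, hle⟩ hind
    obtain ⟨u, hu⟩ : ∃ u, d u ≠ 0 := by
      by_contra h
      push Not at h
      rw [Finset.sum_eq_zero (fun x _ => h x)] at hsum
      omega
    obtain ⟨v, d', hadj, hd', hd'2⟩ := isDeg_sub hd hu
    have h1 : ∀ x, d x ≠ 0 → x ∈ F := by
      intro x hx
      have := hle x
      simp only [ind_apply] at this
      by_contra h
      rw [if_neg h] at this
      omega
    refine hind u (h1 u hu) v (h1 v ?_) hadj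
    have := hd'2 v
    rw [e1_self] at this
    omega
  · intro h
    unfold Indep at h
    push Not at h
    obtain ⟨x, hx, y, hy, hadj⟩ := h
    refine ⟨_, isDeg_add (isDeg_zero G) hadj, ?_, ?_⟩
    · rw [Finset.sum_add_distrib, Finset.sum_add_distrib, sum_e1, sum_e1]; simp
    · intro z
      simp only [ind_apply]
      by_cases hzx : z = x
      · subst hzx
        rw [e1_self, e1_ne hadj.ne, if_pos hx]
      · rw [e1_ne hzx]
        by_cases hzy : z = y
        · subst hzy; rw [e1_self, if_pos hy]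
        · rw [e1_ne hzy]; omega

/-- the base multidegree `(q-1)(e_11+e_12)` -/
noncomputable def base (q : ℕ) : Fin 23 →₀ ℕ :=
  Finsupp.equivFunOnFinite.symm (fun x => (q - 1) * (e1 11 x + e1 12 x))

lemma base_apply (q : ℕ) (x : Fin 23) : base q x = (q - 1) * (e1 11 x + e1 12 x) := rfl

lemma isDeg_base (p : ℕ) : IsDeg G23 (fun x => p * (e1 11 x + e1 12 x)) := by
  induction p with
  | zero => simpa using isDeg_zero G23
  | succ p ih =>
    have := isDeg_add ih (⟨by decide, adj1112⟩ : G23.Adj 11 12)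
    have heq : (fun x : Fin 23 => (p + 1) * (e1 11 x + e1 12 x)) =
        fun x => p * (e1 11 x + e1 12 x) + e1 11 x + e1 12 x := by
      funext x; ring
    rw [heq]; exact this

lemma cover_bound (F : Finset (Fin 23)) (hF : F ⊆ UJ) (hind : Indep G23 F) (c c' : Fin 23)
    (_hc : c ∉ F) (hcc : ∀ y ∈ UJ, (G23.Adj c' y → y = c)) (hc'U : c' ∈ UJ)
    (d : Fin 23 → ℕ) (hd : IsDeg G23 d) (hsupp : ∀ x, d x ≠ 0 → x ∈ F ∨ x = c ∨ x = c') :
    ∑ x, d x ≤ 2 * d c := by
  obtain ⟨A, hA, hAd⟩ := hd
  have hne : ∀ x y, A x y ≠ 0 → d x ≠ 0 := by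
    intro x y h h0
    have h1 : A x y ≤ dg A x :=
      Finset.single_le_sum (f := fun y => A x y) (fun _ _ => Nat.zero_le _) (Finset.mem_univ y)
    rw [hAd, h0] at h1
    omega
  have hcov : ∀ x y, A x y ≠ 0 → x ≠ c → y = c := by
    intro x y h hxc
    have hadj := hA.adj _ _ h
    have hx := hsupp x (hne x y h)
    have hy := hsupp y (hne y x (by rw [hA.symm]; exact h))
    rcases hx with hx | hx | hx
    · rcases hy with hy | hy | hy
      · exact absurd hadj (hind x hx y hy)
      · exact hy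
      · subst hy
        exact absurd (hcc x (hF hx) hadj.symm) hxc
    · exact absurd hx hxc
    · subst hx
      rcases hy with hy | hy | hy
      · exact hcc y (hF hy) hadj
      · exact hy
      · subst hy; exact absurd rfl hadj.ne
  have h1 : ∀ x, x ≠ c → d x = A x c := by
    intro x hx
    rw [← hAd]
    unfold dg
    rw [Finset.sum_eq_single c]
    · intro y _ hy
      by_contra h
      exact hy (hcov x y h hx)
    · intro h; exact absurd (Finset.mem_univ _) h
  have h2 : ∑ x, d x = d c + ∑ x ∈ Finset.univ.erase c, d x := by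
    rw [Finset.add_sum_erase _ _ (Finset.mem_univ c)]
  have h3 : ∑ x ∈ Finset.univ.erase c, d x = ∑ x ∈ Finset.univ.erase c, A c x := by
    refine Finset.sum_congr rfl fun x hx => ?_
    rw [h1 x (Finset.ne_of_mem_erase hx), hA.symm]
  have h4 : ∑ x ∈ Finset.univ.erase c, A c x ≤ ∑ x, A c x :=
    Finset.sum_le_sum_of_subset (Finset.erase_subset _ _)
  have h5 : ∑ x, A c x = d c := hAd c
  omega

lemma up_base_iff (q : ℕ) (hq : 1 ≤ q) (F : Finset (Fin 23)) (hF : F ⊆ UJ) :
    Up G23 q (fun x => base q x + ind F x) ↔ ¬ Indep G23 F := by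
  constructor
  · rintro ⟨d, hd, hsum, hle⟩ hind
    have hle' : ∀ x, d x ≤ (q - 1) * (e1 11 x + e1 12 x) + ind F x := hle
    have hsupp : ∀ x, d x ≠ 0 → x ∈ F ∨ x = 11 ∨ x = 12 := by
      intro x hx
      by_contra h
      push Not at h
      have := hle' x
      rw [e1_ne h.2.1, e1_ne h.2.2] at this
      simp only [ind_apply, if_neg h.1] at this
      omega
    obtain ⟨_, _, _, _, _, _, h11, h12⟩ := UO_sub
    have hne : ¬ (11 ∈ F ∧ 12 ∈ F) := by
      rintro ⟨ha, hb⟩
      exact hind 11 ha 12 hb ⟨by decide, adj1112⟩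
    by_cases ha : (11 : Fin 23) ∈ F
    · have hb : (12 : Fin 23) ∉ F := fun h => hne ⟨ha, h⟩
      have h1 := cover_bound F hF hind 12 11 hb
        (fun y hy hadj => by
          rcases (cov11 y hy).1 hadj.2 with h | h
          · exact absurd h.symm hadj.1
          · exact h) h11 d hd
        (fun x hx => (hsupp x hx).imp id Or.symm)
      have h2 := hle' 12
      rw [e1_self, e1_ne (by decide)] at h2
      simp only [ind_apply, if_neg hb] at h2
      omega
    · have h1 := cover_bound F hF hind 11 12 ha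
        (fun y hy hadj => by
          rcases (cov11 y hy).2 hadj.2 with h | h
          · exact h
          · exact absurd h.symm hadj.1) h12 d hd hsupp
      have h2 := hle' 11
      rw [e1_self, e1_ne (by decide)] at h2
      simp only [ind_apply, if_neg ha] at h2
      omega
  · intro h
    unfold Indep at h
    push Not at h
    obtain ⟨x, hx, y, hy, hadj⟩ := h
    refine ⟨_, isDeg_add (isDeg_base (q - 1)) hadj, ?_, ?_⟩
    · rw [Finset.sum_add_distrib, Finset.sum_add_distrib, sum_e1, sum_e1, ← Finset.mul_sum,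
        Finset.sum_add_distrib, sum_e1, sum_e1]
      omega
    · intro z
      change (q - 1) * (e1 11 z + e1 12 z) + e1 x z + e1 y z ≤ base q z + ind F z
      rw [base_apply, add_assoc]
      have : e1 x z + e1 y z ≤ ind F z := by
        simp only [ind_apply]
        by_cases hzx : z = x
        · subst hzx
          rw [e1_self, e1_ne hadj.ne, if_pos hx]
        · rw [e1_ne hzx]
          by_cases hzy : z = y
          · subst hzy; rw [e1_self, if_pos hy]
          · rw [e1_ne hzy]; omega
      omega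

lemma sum_base (q : ℕ) : ∑ x, base q x = 2 * (q - 1) := by
  have : ∀ x, base q x = (q - 1) * (e1 11 x + e1 12 x) := fun x => rfl
  rw [Finset.sum_congr rfl (fun x _ => this x), ← Finset.mul_sum, Finset.sum_add_distrib, sum_e1, sum_e1]
  ring

lemma base_ind_sub (q : ℕ) (U F : Finset (Fin 23)) (hF : F ⊆ U) :
    ⇑(base q + ind U - ind (U \ F)) = fun x => base q x + ind F x := by
  funext x
  simp only [Finsupp.coe_tsub, Finsupp.coe_add, Pi.sub_apply, Pi.add_apply, ind_apply,
    Finset.mem_sdiff]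
  by_cases hxU : x ∈ U
  · by_cases hxF : x ∈ F
    · simp [hxU, hxF]
    · simp [hxU, hxF]
  · have hxF : x ∉ F := fun h => hxU (hF h)
    simp [hxU, hxF]

/-- lower bound through the second part -/
theorem lower_J (q : ℕ) (hq : 1 ≤ q) (U : Finset (Fin 23)) (hU : U ⊆ UJ) (h11 : (11 : Fin 23) ∈ U)
    (h12 : (12 : Fin 23) ∈ U) (d : ℕ)
    (F0 : Finset (Fin 23)) (hF0U : F0 ⊆ U) (hF0c : F0.card = d) (hF0 : Indep G23 F0)
    (hmax : ∀ j ∈ U \ F0, ¬ Indep G23 (insert j F0))
    (hcyc : ∀ R, R ⊆ U → R.card + 1 = d →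
      ∑ j ∈ U \ R, sg k j ((U \ R).erase j) * (open Classical in if Indep G23 (insert j R) then (1:k) else 0) = 0)
    (i e : ℕ) (hi : U.card = i + 1 + d) (he : 2 * (q - 1) + U.card = e + i) :
    TorNe ((edgeIdeal k G23) ^ q) i e := by
  classical
  refine lower_gen G23 q (base q + ind U) U ?_ ?_ d F0 hF0U hF0c hF0 hmax
    (fun F => open Classical in if Indep G23 F then (1:k) else 0) ?_ ?_ hcyc i e hi ?_
  · intro x
    simp only [Finsupp.coe_add, Pi.add_apply, base_apply, ind_apply]
    by_cases hxU : x ∈ U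
    · simp [hxU]
    · have h1 : x ≠ 11 := fun h => hxU (h ▸ h11)
      have h2 : x ≠ 12 := fun h => hxU (h ▸ h12)
      simp [hxU, e1_ne h1, e1_ne h2]
  · intro F hF
    rw [base_ind_sub q U F hF]
    exact up_base_iff q hq F (hF.trans hU)
  · beta_reduce
    rw [if_pos hF0]; exact one_ne_zero
  · intro F _ hF
    beta_reduce
    rw [if_neg hF]
  · simp only [Finsupp.coe_add, Pi.add_apply, Finset.sum_add_distrib]
    rw [sum_base, sum_ind]
    exact he

end Pool.Agent.H677R3.EdgeReg
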