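import Mathlib
import Pool.Agent.H677R3.RegLower

namespace Pool.Agent.H677R3.EdgeReg

open Finset

variable {k : Type*} [Field k]

lemma fac_indep (i : Fin 65) : Indep G23 (fac i) := by
  rw [indep_iff]
  intro x hx y hy hxy
  rcases fac_nb i x hx y hy with h | h
  · exact absurd h hxy
  · exact h

lemma indep_mono {A B : Finset (Fin 23)} (hAB : A ⊆ B) (h : Indep G23 B) : Indep G23 A :=
  fun x hx y hy => h x (hAB hx) y (hAB hy)

lemma sum_two {M : Type*} [AddCommMonoid M] (S : Finset (Fin 23)) (f : Fin 23 → M) (a b : Fin 23)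
    (ha : a ∈ S) (hb : b ∈ S) (hab : a ≠ b) (h : ∀ j ∈ S, j ≠ a → j ≠ b → f j = 0) :
    ∑ j ∈ S, f j = f a + f b := by
  rw [← Finset.sum_pair hab]
  symm
  apply Finset.sum_subset
  · intro x hx
    rw [Finset.mem_insert, Finset.mem_singleton] at hx
    rcases hx with rfl | rfl
    · exact ha
    · exact hb
  · intro x hx hx2
    rw [Finset.mem_insert, Finset.mem_singleton, not_or] at hx2
    exact h x hx hx2.1 hx2.2

open Classical in
/-- orientation of the first part -/
noncomputable def psi (k : Type*) [Field k] (F : Finset (Fin 23)) : k :=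
  ∑ i : Fin 25, if F = fac i then ((ep i : ℤ) : k) else 0

lemma psi_fac (i : Fin 25) : psi k (fac i) = ((ep i : ℤ) : k) := by
  classical
  unfold psi
  rw [Finset.sum_eq_single i]
  · rw [if_pos rfl]
  · intro j _ hj
    rw [if_neg]
    intro h
    exact hj (fac_inj _ _ h).symm
  · intro h; exact absurd (Finset.mem_univ _) h

lemma psi_zero (F : Finset (Fin 23)) (h : ¬ Indep G23 F) : psi k F = 0 := by
  classical
  unfold psi
  refine Finset.sum_eq_zero fun i _ => ?_
  rw [if_neg]
  rintro rfl
  exact h (fac_indep ⟨i, by omega⟩)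

theorem lower_M (k : Type*) [Field k] : TorNe ((edgeIdeal k G23) ^ 1) 5 5 := by
  classical
  have hcard := UO_sub.2.2.2.2.2.1
  refine lower_gen G23 1 (ind UM) UM ?_ ?_ 4 (fac 0) ?_ (fac_card 0) (fac_indep 0) ?_ (psi k) ?_
    (fun F _ hF => psi_zero F hF) ?_ 5 5 (by rw [hcard]) (by rw [sum_ind, hcard])
  · intro x
    simp only [ind_apply]
    by_cases h : x ∈ UM <;> simp [h]
  · intro F hF
    have : ⇑(ind UM - ind (UM \ F)) = ⇑(ind F) := by
      funext x
      simp only [Finsupp.coe_tsub, Pi.sub_apply, ind_apply, Finset.mem_sdiff]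
      by_cases hxU : x ∈ UM
      · by_cases hxF : x ∈ F
        · simp [hxU, hxF]
        · simp [hxU, hxF]
      · have hxF : x ∉ F := fun h => hxU (hF h)
        simp [hxU, hxF]
    rw [this]
    exact up_one_iff G23 F
  · exact (fac_sub 0).2 (by decide)
  · intro j hj hind
    have h1 := alpha23 _ hind
    have h2 : (insert j (fac 0)).card = 5 := by
      rw [Finset.card_insert_of_notMem (Finset.mem_sdiff.mp hj).2]
      have := fac_card 0
      have h3 : (fac 0).card = 4 := this
      omega
    omega
  · have h1 := psi_fac (k := k) 0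
    have h2 : psi k (fac 0) = ((ep 0 : ℤ) : k) := h1
    rw [h2, ep0]
    simp
  · intro R hR hRc
    by_cases hind : Indep G23 R
    · obtain ⟨i, hRi, hr1, _⟩ := ridges23 R hind (by omega)
      have h13 : 13 ≤ (rG i).1.val := by
        have := hR hr1
        simpa [UM] using this
      obtain ⟨q1, q2, q3, q4, q5⟩ := rt_ok4 i h13
      obtain ⟨s1, s2, s3, s4, s5, s6, s7⟩ := rt_ok2 i
      rw [← hRi] at s1 s2 s4 s5
      rw [sum_two _ _ (rA i) (rB i) (Finset.mem_sdiff.mpr ⟨q3, s1⟩) (Finset.mem_sdiff.mpr ⟨q4, s2⟩) s3]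
      · rw [← Finset.sdiff_insert, ← Finset.sdiff_insert, s4, s5]
        have h1 := psi_fac (k := k) ⟨rI i, q1⟩
        have h2 := psi_fac (k := k) ⟨rJ i, q2⟩
        simp only at h1 h2
        rw [h1, h2]
        have h3 : sg k (rA i) (UM \ fac (rI i)) = ((sgU UM (fac (rI i)) (rA i) : ℤ) : k) := by
          unfold sg sgU; push_cast; rfl
        have h4 : sg k (rB i) (UM \ fac (rJ i)) = ((sgU UM (fac (rJ i)) (rB i) : ℤ) : k) := by
          unfold sg sgU; push_cast; rfl
        rw [h3, h4]
        have := congrArg (fun z : ℤ => (z : k)) q5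
        push_cast at this
        exact this
      · intro j hj hja hjb
        rw [psi_zero, mul_zero]
        intro h
        have hjR : j ∉ rR i := by rw [← hRi]; exact (Finset.mem_sdiff.mp hj).2
        rw [hRi] at h
        rcases ext23 i j hjR h with h | h
        · exact hja h
        · exact hjb h
    · refine Finset.sum_eq_zero fun j _ => ?_
      rw [psi_zero, mul_zero]
      exact fun h => hind (indep_mono (Finset.subset_insert _ _) h)

theorem lower_two (k : Type*) [Field k] (h2 : (2 : k) = 0) (q : ℕ) (hq : 1 ≤ q) :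
    TorNe ((edgeIdeal k G23) ^ q) 8 (2 * q + 3) := by
  classical
  obtain ⟨_, _, _, _, hcard, _, h11, h12⟩ := UO_sub
  have hneg : (-1 : k) = 1 := by
    have : (1 : k) + 1 = 0 := by rw [one_add_one_eq_two]; exact h2
    exact neg_eq_of_add_eq_zero_left this
  have hsg : ∀ (j : Fin 23) (T : Finset (Fin 23)), sg k j T = 1 := by
    intro j T; unfold sg; rw [hneg, one_pow]
  refine lower_J q hq UJ (Finset.Subset.refl _) h11 h12 4 (fac 25) ((fac_sub 25).1 (by decide))
    (fac_card 25) (fac_indep 25) ?_ ?_ 8 (2 * q + 3) (by rw [hcard]) (by rw [hcard]; omega)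
  · intro j hj hind
    have h1 := alpha23 _ hind
    have h2 : (insert j (fac 25)).card = 5 := by
      rw [Finset.card_insert_of_notMem (Finset.mem_sdiff.mp hj).2]
      have := fac_card 25
      have h3 : (fac 25).card = 4 := this
      omega
    omega
  · intro R hR hRc
    by_cases hind : Indep G23 R
    · obtain ⟨i, hRi, hr1, _⟩ := ridges23 R hind (by omega)
      have h13 : (rG i).1.val < 13 := by
        have := hR hr1
        simpa [UJ] using this
      obtain ⟨q1, q2, q3, q4⟩ := rt_ok3 i h13
      obtain ⟨s1, s2, s3, s4, s5, s6, s7⟩ := rt_ok2 i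
      rw [← hRi] at s1 s2 s4 s5
      rw [sum_two _ _ (rA i) (rB i) (Finset.mem_sdiff.mpr ⟨q3, s1⟩) (Finset.mem_sdiff.mpr ⟨q4, s2⟩) s3]
      · have h1 := fac_indep ⟨rI i, s6⟩
        have h2' := fac_indep ⟨rJ i, s7⟩
        simp only at h1 h2'
        rw [s4, s5, if_pos h1, if_pos h2', hsg, hsg, mul_one, one_add_one_eq_two]
        exact h2
      · intro j hj hja hjb
        rw [if_neg, mul_zero]
        intro h
        have hjR : j ∉ rR i := by rw [← hRi]; exact (Finset.mem_sdiff.mp hj).2
        rw [hRi] at h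
        rcases ext23 i j hjR h with h | h
        · exact hja h
        · exact hjb h
    · refine Finset.sum_eq_zero fun j _ => ?_
      rw [if_neg, mul_zero]
      exact fun h => hind (indep_mono (Finset.subset_insert _ _) h)

theorem lower_oct (k : Type*) [Field k] (q : ℕ) (hq : 1 ≤ q) :
    TorNe ((edgeIdeal k G23) ^ q) 2 (2 * q + 2) := by
  classical
  obtain ⟨hUO, h11, h12, hcard, _, _, _, _⟩ := UO_sub
  obtain ⟨o1, o2, o3⟩ := O_sub
  refine lower_J q hq UO hUO h11 h12 3 {2, 5, 11} o1 o2 ?_ ?_ ?_ 2 (2 * q + 2) (by rw [hcard])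
    (by rw [hcard]; omega)
  · rw [indep_iff]
    intro x hx y hy hxy
    exact (o3 x hx y hy).resolve_left hxy
  · intro j hj hind
    obtain ⟨hj1, hj2⟩ := Finset.mem_sdiff.mp hj
    have key := (indep_iff _).mp hind
    have hm : ∀ r, r ∈ ({2, 5, 11} : Finset (Fin 23)) → nb j r = true := fun r hr =>
      key j (Finset.mem_insert_self _ _) r (Finset.mem_insert_of_mem hr) (fun h => hj2 (h ▸ hr))
    rcases O_max j hj1 hj2 with h | h | h
    · have h' := hm 2 (by simp)
      have h'' : nb j 2 = true := h'
      rw [h''] at h; exact absurd h (by simp)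
    · have h' := hm 5 (by simp)
      have h'' : nb j 5 = true := h'
      rw [h''] at h; exact absurd h (by simp)
    · have h' := hm 11 (by simp)
      have h'' : nb j 11 = true := h'
      rw [h''] at h; exact absurd h (by simp)
  · intro R hR hRc
    by_cases hind : Indep G23 R
    · obtain ⟨x, y, hxy, hRxy⟩ : ∃ x y, x < y ∧ R = {x, y} := by
        obtain ⟨x, y, hne, h⟩ := Finset.card_eq_two.mp (by omega : R.card = 2)
        rcases lt_or_gt_of_ne hne with h1 | h1
        · exact ⟨x, y, h1, h⟩
        · exact ⟨y, x, h1, by rw [h, Finset.pair_comm]⟩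
      have hx : x ∈ R := by rw [hRxy]; simp
      have hy : y ∈ R := by rw [hRxy]; simp
      have hnb := (indep_iff _).mp hind x hx y hy hxy.ne
      obtain ⟨i, hi⟩ := otAll x y hxy hnb (hR hx) (hR hy)
      have hi1 : (oG i).1 = x := congrArg Prod.fst hi
      have hi2 : (oG i).2.1 = y := congrArg Prod.snd hi
      obtain ⟨t1, t2, t3, t4, t5, t6, t7, t8, t9, t10⟩ := ot_ok2 i
      have hRi : ({(oG i).1, (oG i).2.1} : Finset (Fin 23)) = R := by rw [hi1, hi2, hRxy]
      rw [hRi] at t4 t5 t10
      have hext : ∀ j, j ∈ UO → j ∉ R → Indep G23 (insert j R) → j = (oG i).2.2.1 ∨ j = (oG i).2.2.2 := by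
        intro j hj hjR h
        have key := (indep_iff _).mp h
        apply ot_ok i j hj
        · rw [hi1]
          exact key j (Finset.mem_insert_self _ _) x (Finset.mem_insert_of_mem hx) (fun h => hjR (h ▸ hx))
        · rw [hi2]
          exact key j (Finset.mem_insert_self _ _) y (Finset.mem_insert_of_mem hy) (fun h => hjR (h ▸ hy))
      have hins : ∀ a : Fin 23, nb a (oG i).1 = true → nb a (oG i).2.1 = true → Indep G23 (insert a R) := by
        intro a ha hb
        rw [indep_iff]
        intro u hu v hv huv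
        rw [Finset.mem_insert] at hu hv
        have hnb' : ∀ r ∈ R, nb a r = true := by
          intro r hr
          rw [hRxy, Finset.mem_insert, Finset.mem_singleton] at hr
          rcases hr with rfl | rfl
          · rw [← hi1]; exact ha
          · rw [← hi2]; exact hb
        rcases hu with rfl | hu
        · rcases hv with rfl | hv
          · exact absurd rfl huv
          · exact hnb' v hv
        · rcases hv with rfl | hv
          · rw [nb_symm]; exact hnb' u hu
          · exact (indep_iff _).mp hind u hu v hv huv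
      rw [sum_two _ _ (oG i).2.2.1 (oG i).2.2.2 (Finset.mem_sdiff.mpr ⟨t2, t4⟩)
        (Finset.mem_sdiff.mpr ⟨t3, t5⟩) t1]
      · rw [if_pos (hins _ t6 t7), if_pos (hins _ t8 t9), mul_one, mul_one, sg_eq, sg_eq]
        have := congrArg (fun z : ℤ => (z : k)) t10
        push_cast at this
        exact this
      · intro j hj hja hjb
        obtain ⟨hj1, hj2⟩ := Finset.mem_sdiff.mp hj
        rw [if_neg, mul_zero]
        intro h
        rcases hext j hj1 hj2 h with h | h
        · exact hja h
        · exact hjb h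
    · refine Finset.sum_eq_zero fun j _ => ?_
      rw [if_neg, mul_zero]
      exact fun h => hind (indep_mono (Finset.subset_insert _ _) h)

theorem isReg_one (k : Type*) [Field k] : IsReg (edgeIdeal k G23) 5 := by
  have h := lower_M k
  rw [pow_one] at h
  refine ⟨⟨5, h⟩, ?_⟩
  rintro e ⟨i, he⟩
  by_contra hc
  push Not at hc
  have := upper_all (k := k) 1 le_rfl i e (by omega)
  rw [pow_one] at this
  exact this he

theorem isReg_two (k : Type*) [Field k] (h2 : (2 : k) = 0) (q : ℕ) (hq : 1 ≤ q) :
    IsReg ((edgeIdeal k G23) ^ q) (2 * q + 3) := by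
  refine ⟨⟨8, lower_two k h2 q hq⟩, ?_⟩
  rintro e ⟨i, he⟩
  by_contra hc
  push Not at hc
  exact upper_all (k := k) q hq i e (by omega) he

theorem isReg_odd (k : Type*) [Field k] (h2 : (2 : k) ≠ 0) (q : ℕ) (hq : 2 ≤ q) :
    IsReg ((edgeIdeal k G23) ^ q) (2 * q + 2) := by
  refine ⟨⟨2, lower_oct k q (by omega)⟩, ?_⟩
  rintro e ⟨i, he⟩
  by_contra hc
  push Not at hc
  exact upper_odd (k := k) h2 q hq i e (by omega) he

end Pool.Agent.H677R3.EdgeReg
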